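import Pool.Agent.Lib.MP_d6ddbd_nt.GA.Stmt
import Pool.Agent.Lib.MP_d6ddbd_nt.KI.Bas

/-!
Normalised cocycles.
-/

set_option autoImplicit false
set_option maxSynthPendingDepth 3

open Pool.Agent.Lib.MP_d6ddbd_nt.K11 Pool.Agent.Lib.MP_d6ddbd_nt.KI

namespace Pool.Agent.Lib.MP_d6ddbd_nt.GA

namespace Nrm

theorem cy : Cy3 w3 := by
  refine Classical.epsilon_spec (p := Cy3) ?_
  obtain ⟨O, hO⟩ := ex_ov Nat.prime_three
  obtain ⟨φ, hφ⟩ := ex_frob Nat.prime_three hO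
  refine ⟨φ, ((rA.2 3 O Nat.prime_three (by decide) (by decide) hO).2.2.2.2.2.2.2 φ hφ).2.2.1 ?_⟩
  have : IsEmpty {x : ZMod 3 // fc x = 0} := ⟨fun x => absurd x.2 (by
    generalize x.1 = y
    revert y
    unfold fc
    decide)⟩
  exact Nat.card_of_isEmpty

theorem inj {φ : G} {η : ℤ} (h : Cy3 φ) (hη : η = 1 ∨ η = -1) (k : ℕ) (T : Pt) (hT : 2 ^ k • T = 0)
    (e : η • φ • T = T) : T = 0 := by
  induction k generalizing T with
  | zero => simpa using hT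
  | succ k ih =>
    have h2 : 2 • T = 0 := ih _ (by rwa [pow_succ, mul_smul] at hT)
      (by rw [Fin.sm_n, smul_comm, e])
    rw [Fin.sgn_two (sm_tor φ h2) hη] at e
    have := h T h2
    rwa [e, e, ← two_smul ℕ T, h2, zero_add] at this

theorem sur {φ : G} {η : ℤ} (h : Cy3 φ) (hη : η = 1 ∨ η = -1) (k : ℕ) (T : Pt)
    (hT : 2 ^ k • T = 0) : ∃ S : Pt, 2 ^ k • S = 0 ∧ η • φ • S - S = T := by
  have : Finite {T : Pt // 2 ^ k • T = 0} := (Cheb.tors r1_thm k).1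
  let F : {T : Pt // 2 ^ k • T = 0} → {T : Pt // 2 ^ k • T = 0} := fun S =>
    ⟨η • φ • S.1 - S.1, by rw [smul_sub, smul_comm, sm_tor φ S.2, S.2, smul_zero, sub_zero]⟩
  have hF : Function.Injective F := fun S S' e => Subtype.ext (sub_eq_zero.1 (inj h hη k _
    (by rw [smul_sub, S.2, S'.2, sub_zero]) (by
      rw [smul_sub, smul_sub, sub_eq_sub_iff_sub_eq_sub]
      exact sub_eq_sub_iff_sub_eq_sub.1 (sub_eq_sub_iff_sub_eq_sub.1 (congrArg Subtype.val e)))))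
  obtain ⟨S, e⟩ := Finite.injective_iff_surjective.1 hF ⟨T, hT⟩
  exact ⟨S.1, S.2, congrArg Subtype.val e⟩

end Nrm

theorem norm_thm' : NormStmt := by
  refine ⟨Nrm.cy, fun φ η k T h hη hT => ⟨Nrm.inj h hη k T hT, Nrm.sur h hη k T hT⟩,
    fun c k x hx hb h0 => ?_, fun c k n x hx => ?_⟩
  · obtain ⟨T, a, b⟩ := hb.level hx.tor
    have : T = 0 := Nrm.inj Nrm.cy (cq_or c w3) k T a (sub_eq_zero.1 ((b w3).symm.trans h0))
    funext σ
    rw [b, this, tw_zero, sub_zero, Pi.zero_apply]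
  · obtain ⟨S, a, b⟩ := Nrm.sur Nrm.cy (cq_or c w3) k _ (hx.cy.tor w3)
    exact ⟨S, a, ⟨hx.cy.sub (cy_cob a), fun v O hv hn hO =>
      (hx.kl v O hv hn hO).sub (kl_pt (alg_tor a))⟩, sub_eq_zero.2 b.symm⟩

end Pool.Agent.Lib.MP_d6ddbd_nt.GA
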