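import Pool.Agent.Lib.MP_d6ddbd_nt.GA.Stmt
import Pool.Agent.Lib.MP_d6ddbd_nt.KI.Ep

/-!
The action on vectors of points of order two attached to a cube, and inversion on a cube.
-/

set_option autoImplicit false
set_option maxSynthPendingDepth 3

open Pool.Agent.Lib.MP_d6ddbd_nt.K11 Pool.Agent.Lib.MP_d6ddbd_nt.KI
open Finset

noncomputable section

namespace Pool.Agent.Lib.MP_d6ddbd_nt.GA

namespace Act

section Gen

variable {M : Type} [AddCommGroup M]

lemma zo (a : ZMod 2) : a = 0 ∨ a = 1 := by revert a; decide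

lemma val_add {T : M} (hT : 2 • T = 0) (a b : ZMod 2) :
    (a + b).val • T = a.val • T + b.val • T := by
  have h2 : (1 + 1 : ZMod 2) = 0 := by decide
  have h1 : (1 : ZMod 2).val = 1 := rfl
  rcases zo a with rfl | rfl <;> rcases zo b with rfl | rfl <;>
    simp [h2, h1, ← two_nsmul, hT]

lemma val_mul (T : M) (a b : ZMod 2) : (a * b).val • T = a.val • b.val • T := by
  have h1 : (1 : ZMod 2).val = 1 := rfl
  rcases zo a with rfl | rfl <;> simp [h1]

lemma val_sum {κ : Type} {T : M} (hT : 2 • T = 0) (s : Finset κ) (c : κ → ZMod 2) :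
    (∑ i ∈ s, c i).val • T = ∑ i ∈ s, (c i).val • T := by
  classical
  induction s using Finset.induction with
  | empty => simp
  | insert j s hj ih => rw [sum_insert hj, sum_insert hj, val_add hT, ih]

variable {ι : Type} [Fintype ι] [DecidableEq ι]

/-- The kernel of the action. -/
def kk (a : ι → ZMod 2) (S R : Finset ι) : ZMod 2 :=
  ∏ i, if i ∈ R then (if i ∈ S then 1 else 0) else (if i ∈ S then a i else 1)

lemma kk_eq (a : ι → ZMod 2) (S R : Finset ι) :
    kk a S R = if R ⊆ S then ∏ i ∈ S \ R, a i else 0 := by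
  unfold kk
  split_ifs with h
  · rw [← prod_subset (subset_univ (S \ R))]
    · refine prod_congr rfl fun i hi => ?_
      rw [mem_sdiff] at hi
      rw [if_neg hi.2, if_pos hi.1]
    · intro i _ hi
      rw [mem_sdiff] at hi
      by_cases h1 : i ∈ R
      · rw [if_pos h1, if_pos (h h1)]
      · rw [if_neg h1, if_neg fun h2 => hi ⟨h2, h1⟩]
  · obtain ⟨i, h1, h2⟩ := not_subset.1 h
    exact prod_eq_zero (mem_univ i) (by rw [if_pos h1, if_neg h2])

lemma sum_prod (f g : ι → ZMod 2) :
    ∑ T : Finset ι, ∏ i, (if i ∈ T then f i else g i) = ∏ i, (f i + g i) := by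
  rw [Fintype.prod_add]
  refine sum_congr rfl fun T _ => ?_
  rw [← prod_mul_prod_compl T]
  congr 1
  · exact prod_congr rfl fun i hi => if_pos hi
  · exact prod_congr rfl fun i hi => if_neg (mem_compl.1 hi)

lemma kk_conv (a b : ι → ZMod 2) (S R : Finset ι) :
    ∑ T, kk a S T * kk b T R = kk (a + b) S R := by
  have h : ∀ T : Finset ι, kk a S T * kk b T R = ∏ i, (if i ∈ T then
      (if i ∈ S then 1 else 0) * (if i ∈ R then 1 else b i)
      else (if i ∈ S then a i else 1) * (if i ∈ R then 0 else 1)) := fun T => by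
    unfold kk
    rw [← prod_mul_distrib]
    refine prod_congr rfl fun i _ => ?_
    by_cases h1 : i ∈ T <;> by_cases h2 : i ∈ R <;> simp [h1, h2]
  simp only [h]
  rw [sum_prod]
  refine prod_congr rfl fun i _ => ?_
  by_cases h1 : i ∈ S <;> by_cases h2 : i ∈ R <;> simp [h1, h2, add_comm]

lemma kk_compl (a : ι → ZMod 2) (S R : Finset ι) : kk a Rᶜ Sᶜ = kk a S R := by
  refine prod_congr rfl fun i _ => ?_
  by_cases h1 : i ∈ S <;> by_cases h2 : i ∈ R <;> simp [h1, h2]

/-- The linear part of the action. -/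
def ll (a : ι → ZMod 2) (w : Finset ι → M) : Finset ι → M := fun S => ∑ R, (kk a S R).val • w R

lemma ll_eq (a : ι → ZMod 2) (w : Finset ι → M) (S : Finset ι) :
    ll a w S = ∑ R ∈ S.powerset, (∏ i ∈ S \ R, a i).val • w R := by
  unfold ll
  rw [← sum_subset (subset_univ S.powerset)]
  · exact sum_congr rfl fun R hR => by rw [kk_eq, if_pos (mem_powerset.1 hR)]
  · intro R _ hR
    rw [kk_eq, if_neg fun h => hR (mem_powerset.2 h), ZMod.val_zero, zero_smul]

lemma ll_two (a : ι → ZMod 2) {w : Finset ι → M} (h : ∀ S, 2 • w S = 0) (S : Finset ι) :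
    2 • ll a w S = 0 := by
  unfold ll
  rw [smul_sum]
  exact sum_eq_zero fun R _ => by rw [smul_comm, h, smul_zero]

lemma ll_ll (a b : ι → ZMod 2) {w : Finset ι → M} (h : ∀ S, 2 • w S = 0) :
    ll a (ll b w) = ll (a + b) w := by
  funext S
  unfold ll
  simp only [smul_sum]
  rw [sum_comm]
  refine sum_congr rfl fun R _ => ?_
  rw [← kk_conv, val_sum (h R)]
  exact sum_congr rfl fun T _ => (val_mul _ _ _).symm

lemma ll_triv {a : ι → ZMod 2} (w : Finset ι → M) {S : Finset ι} (h : ∀ i ∈ S, a i = 0) :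
    ll a w S = w S := by
  rw [ll_eq, sum_eq_single_of_mem S (mem_powerset_self S)]
  · rw [sdiff_self, bot_eq_empty, prod_empty]
    exact one_nsmul _
  · intro R hR hne
    obtain ⟨i, h1, h2⟩ := not_subset.1 fun h => hne (Subset.antisymm (mem_powerset.1 hR) h)
    rw [prod_eq_zero (mem_sdiff.2 ⟨h1, h2⟩) (h i h1), ZMod.val_zero, zero_smul]

lemma ll_one {a : ι → ZMod 2} (w : Finset ι → M) {j : ι} {S : Finset ι} (hj : j ∈ S)
    (h : ∀ i, i ≠ j → a i = 0) (h1 : a j = 1) : ll a w S = w S + w (S.erase j) := by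
  rw [ll_eq, sum_eq_add_of_mem S (S.erase j) (mem_powerset_self S)
    (mem_powerset.2 (erase_subset _ _)) (erase_ne_self.2 hj).symm]
  · rw [sdiff_self, bot_eq_empty, prod_empty, sdiff_erase_self hj, prod_singleton, h1]
    exact congrArg₂ _ (one_nsmul _) (one_nsmul _)
  · intro R hR hne
    have hR' := mem_powerset.1 hR
    have : ¬ S.erase j ⊆ R := fun h2 => by
      by_cases h3 : j ∈ R
      · refine hne.1 (Subset.antisymm hR' fun i hi => ?_)
        by_cases e : i = j
        · exact e ▸ h3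
        · exact h2 (mem_erase.2 ⟨e, hi⟩)
      · exact hne.2 (Subset.antisymm
          (fun i hi => mem_erase.2 ⟨fun e => h3 (e ▸ hi), hR' hi⟩) h2)
    obtain ⟨i, h2, h3⟩ := not_subset.1 this
    rw [mem_erase] at h2
    rw [prod_eq_zero (mem_sdiff.2 ⟨h2.2, h3⟩) (h i h2.1), ZMod.val_zero, zero_smul]

end Gen

variable {ι : Type} [Fintype ι] [DecidableEq ι]

lemma act_eq (ψ : ι → G → ZMod 2) (σ : G) (w : Finset ι → Pt) :
    act ψ σ w = ll (fun i => ψ i σ) fun R => σ • w R :=
  funext fun S => (ll_eq (fun i => ψ i σ) (fun R => σ • w R) S).symm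

lemma smul_ll (σ : G) (a : ι → ZMod 2) (w : Finset ι → Pt) (S : Finset ι) :
    σ • ll a w S = ll a (fun R => σ • w R) S := by
  unfold ll
  rw [smul_sum]
  exact sum_congr rfl fun R _ => smul_comm _ _ _

lemma ep_comm (T U : Pt) : ep T U = ep U T := Ep.ep_comm T U

lemma ep_zero (T : Pt) : ep 0 T = 0 := Ep.ep_zero_left T

lemma ep_add {T T' U : Pt} (hT : 2 • T = 0) (hT' : 2 • T' = 0) (hU : 2 • U = 0) :
    ep (T + T') U = ep T U + ep T' U := Ep.ep_add_left hT hT' hU

lemma ep_smul (σ : G) (T U : Pt) : ep (σ • T) (σ • U) = ep T U := Ep.ep_smul σ T U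

lemma ep_val (c : ZMod 2) (T U : Pt) : ep (c.val • T) U = c * ep T U := by
  have h1 : (1 : ZMod 2).val = 1 := rfl
  rcases zo c with rfl | rfl <;> simp [h1, ep_zero]

lemma ep_sum {κ : Type} (s : Finset κ) {T : κ → Pt} {U : Pt} (hT : ∀ i, 2 • T i = 0)
    (hU : 2 • U = 0) : ep (∑ i ∈ s, T i) U = ∑ i ∈ s, ep (T i) U := by
  classical
  induction s using Finset.induction with
  | empty => simp [ep_zero]
  | insert j s hj ih =>
    rw [sum_insert hj, sum_insert hj, ep_add (hT j) _ hU, ih]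
    rw [smul_sum]
    exact sum_eq_zero fun i _ => hT i

lemma sum_compl' (f : Finset ι → ZMod 2) : ∑ S, f Sᶜ = ∑ S, f S :=
  Equiv.sum_comp (compl_involutive.toPerm _) f

lemma pr_comm (w w' : Finset ι → Pt) : GA.pr w w' = GA.pr w' w := by
  unfold GA.pr
  rw [← sum_compl']
  exact sum_congr rfl fun S _ => by rw [compl_compl, ep_comm]

lemma pr_ll (a : ι → ZMod 2) {w w' : Finset ι → Pt} (h : ∀ S, 2 • w S = 0)
    (h' : ∀ S, 2 • w' S = 0) :
    GA.pr (ll a w) w' = ∑ S, ∑ R, kk a S R * ep (w R) (w' Sᶜ) := by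
  unfold GA.pr ll
  refine sum_congr rfl fun S _ => ?_
  rw [ep_sum _ (fun R => by rw [smul_comm, h, smul_zero]) (h' _)]
  exact sum_congr rfl fun R _ => ep_val _ _ _

lemma pr_adj (a : ι → ZMod 2) {w w' : Finset ι → Pt} (h : ∀ S, 2 • w S = 0)
    (h' : ∀ S, 2 • w' S = 0) : GA.pr (ll a w) w' = GA.pr w (ll a w') := by
  rw [pr_comm w, pr_ll a h h', pr_ll a h' h, sum_comm, ← sum_compl']
  refine sum_congr rfl fun S _ => ?_
  rw [← sum_compl']
  refine sum_congr rfl fun R _ => ?_
  rw [kk_compl, compl_compl, ep_comm]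

lemma pr_inv (a : ι → ZMod 2) {w w' : Finset ι → Pt} (h : ∀ S, 2 • w S = 0)
    (h' : ∀ S, 2 • w' S = 0) : GA.pr (ll a w) (ll a w') = GA.pr w w' := by
  rw [pr_adj a h (ll_two a h'), ll_ll a a h']
  congr 1
  exact funext fun S => ll_triv _ fun i _ => CharTwo.add_self_eq_zero (a i)

end Act

open Act in
theorem act_thm : ActStmt := by
  intro ι _ _
  refine ⟨pr_comm, fun w₁ w₂ w' h1 h2 h3 => ?_, fun ψ => ⟨fun σ w w' => ?_, fun σ w h => ?_,
    fun σ w S h => ?_, fun σ w w' h h' => ?_, fun σ w a S h h1 => ?_, fun hψ σ τ w h => ?_⟩⟩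
  · unfold GA.pr
    rw [← sum_add_distrib]
    exact sum_congr rfl fun S _ =>
      ep_add (congrFun h1 S) (congrFun h2 S) (congrFun h3 Sᶜ)
  · funext S
    simp only [act, Pi.add_apply, smul_add, sum_add_distrib]
  · rw [act_eq]
    exact funext fun S => ll_two _ (fun R => Ep.two_smul' σ (congrFun h R)) S
  · rw [act_eq]
    exact ll_triv _ h
  · rw [act_eq, act_eq, pr_inv _ (fun R => Ep.two_smul' σ (congrFun h R))
      fun R => Ep.two_smul' σ (congrFun h' R)]
    exact sum_congr rfl fun S _ => ep_smul σ _ _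
  · rw [act_eq]
    split_ifs with ha
    · exact ll_one _ ha h h1
    · rw [add_zero]
      exact ll_triv _ fun i hi => h i fun e => ha (e ▸ hi)
  · rw [act_eq, act_eq, act_eq]
    simp only [smul_ll]
    rw [ll_ll _ _ fun R => Ep.two_smul' σ (Ep.two_smul' τ (congrFun h R))]
    congr 1
    · exact funext fun i => hψ i σ τ
    · exact funext fun R => mul_smul σ τ (w R)

theorem mob_thm : MobStmt := by
  intro ι M _ _ a y S
  induction S using Finset.induction generalizing y with
  | empty => simp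
  | insert j S hj ih =>
    have hn : ∀ t ∈ S.powerset, j ∉ t := fun t ht h => hj (mem_powerset.1 ht h)
    have e1 : ∑ t ∈ S.powerset, (-1 : ℤ) ^ (insert j t).card •
        (∏ i ∈ insert j t, (1 - 2 * a i)) • y (insert j t) =
        -((1 - 2 * a j) • ∑ t ∈ S.powerset, (-1 : ℤ) ^ t.card •
          (∏ i ∈ t, (1 - 2 * a i)) • y (insert j t)) := by
      rw [smul_sum, ← sum_neg_distrib]
      refine sum_congr rfl fun t ht => ?_
      rw [card_insert_of_notMem (hn t ht), prod_insert (hn t ht)]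
      module
    rw [sum_powerset_insert hj, sum_powerset_insert hj, e1, ih y, ih fun t => y (insert j t),
      smul_sum, ← sum_neg_distrib, ← sum_add_distrib, ← sum_add_distrib]
    refine sum_congr rfl fun R hR => ?_
    have h1 := hn R hR
    have e2 : ∑ t ∈ R.powerset, (-1 : ℤ) ^ (insert j t).card • y (insert j t) =
        -∑ t ∈ R.powerset, (-1 : ℤ) ^ t.card • y (insert j t) := by
      rw [← sum_neg_distrib]
      refine sum_congr rfl fun t ht => ?_
      rw [card_insert_of_notMem fun h => h1 (mem_powerset.1 ht h)]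
      module
    rw [sum_powerset_insert h1, e2, prod_insert h1, insert_sdiff_insert,
      sdiff_insert_of_notMem hj, insert_sdiff_of_notMem S h1,
      prod_insert fun h => hj (mem_sdiff.1 h).1]
    module

end Pool.Agent.Lib.MP_d6ddbd_nt.GA
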