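import Pool.Agent.Lib.MP_d6ddbd_nt.GA.Stmt
import Pool.Agent.Lib.MP_d6ddbd_nt.KI.Bas

/-!
Normalised cocycles with prescribed finite parts exist.
-/

set_option autoImplicit false
set_option maxSynthPendingDepth 3

open Pool.Agent.Lib.MP_d6ddbd_nt.K11 Pool.Agent.Lib.MP_d6ddbd_nt.KI

noncomputable section

namespace Pool.Agent.Lib.MP_d6ddbd_nt.GA

namespace Bas

variable {c : ℤ} {k : ℕ} {n : Finset ℕ}

theorem rel_zero : Rel c k n 0 := ⟨cy_zero c k, fun v O _ _ _ => kl_zero c O v⟩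

theorem rel_sub_sum {ι : Type} (s : Finset ι) {x : G → Pt} {y : ι → G → Pt} (h : Rel c k n x)
    (h' : ∀ i, Rel c k n (y i)) : Rel c k n (x - ∑ i ∈ s, y i) := by
  classical
  induction s using Finset.induction_on with
  | empty => simpa using h
  | insert a s ha ih =>
    rw [Finset.sum_insert ha, add_comm, ← sub_sub]
    exact ⟨ih.cy.sub (h' a).cy, fun v O a1 a2 a3 => (ih.kl v O a1 a2 a3).sub
      ((h' a).kl v O a1 a2 a3)⟩

/-- The invariant points of order two. -/
theorem two (hQ : LqStmt) {K q : ℕ} (hK : K ≠ 0) {D : LD K} (h : D.Ok q) (c : ℤ) {T : Pt}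
    (h2 : 2 • T = 0) (hf : tw c D.f T = T) (h0 : T ≠ 0) : T = 2 ^ (K - 1) • D.g (cq c D.f) := by
  have e : 2 • 2 ^ (K - 1) • D.g (cq c D.f) = 0 := by
    rw [← mul_smul, ← pow_succ', Nat.sub_add_cancel (Nat.pos_of_ne_zero hK), h.tor]
  have e' : tw c D.f (2 ^ (K - 1) • D.g (cq c D.f)) = 2 ^ (K - 1) • D.g (cq c D.f) := by
    rw [tw_n, tw, h.fix _ (cq_or c _)]
  rw [tw_two c _ h2] at hf
  rw [tw_two c _ e] at e'
  exact (((hQ q D.O D.f D.io h.pl).2.1 _ _ h2 e hf e').resolve_left h0).resolve_left (h.ne _)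

end Bas

open Bas

theorem bas_thm (hN : NormStmt) (hL : LdStmt) (hQ : LqStmt) (hD : DsStmt) (hF : LiftStmt) :
    BasStmt := by
  classical
  intro K r Q d hK hV u
  have ok : ∀ i, (ld K (Q i)).Ok (Q i) := fun i => hL K (Q i) hK (hV.kg i)
  have eig : ∀ k x, k ≤ K → Cy d k x → ∀ i,
      tw d (ld K (Q i)).f (x (ff K (Q i))) = x (ff K (Q i)) := fun k x hk hx i =>
    hx.eig fun T hT => (ok i).sq T (tor_mono hk hT)
  choose β hβ hβ' using hV.sur
  have val : ∀ l i, β l (ff K (Q i)) =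
      if i = l then 2 ^ (K - 1) • (ld K (Q i)).g (cq d (ld K (Q i)).f) else 0 := by
    intro l i
    have h := hβ' l i
    unfold nz at h
    by_cases h1 : β l (ff K (Q i)) = 0 <;> by_cases h2 : i = l
    · rw [if_pos h1, if_pos h2] at h
      exact absurd h zero_ne_one
    · rw [if_neg h2, h1]
    · rw [if_pos h2]
      exact two hQ hK (ok i) d ((hβ l).cy.two _)
        (eig 1 _ (Nat.pos_of_ne_zero hK) (hβ l).cy i) h1
    · rw [if_neg h1, if_neg h2] at h
      exact absurd h one_ne_zero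
  have main : ∀ k, k ≤ K → ∃ x, Rel d k (qs Q) x ∧ ∀ i, x (ff K (Q i)) =
      2 ^ (K - k) • u i • (ld K (Q i)).g (cq d (ld K (Q i)).f) := by
    intro k
    induction k with
    | zero =>
      refine fun _ => ⟨0, rel_zero, fun i => ?_⟩
      rw [Nat.sub_zero, smul_comm, (ok i).tor, smul_zero, Pi.zero_apply]
    | succ k ih =>
      intro hk
      obtain ⟨x, hx, hx'⟩ := ih (by omega)
      obtain ⟨x', h1, h2⟩ := hF K k (qs Q) d x hV.sf.ne_zero hk (fun q hq => by
        obtain ⟨i, -, rfl⟩ := Finset.mem_image.1 hq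
        exact ⟨hV.kg i, hV.nd i⟩) (hD K r Q d hK hV) hx
      set T : Fin r → Pt := fun i => x' (ff K (Q i)) -
        2 ^ (K - (k + 1)) • u i • (ld K (Q i)).g (cq d (ld K (Q i)).f) with hT
      have t2 : ∀ i, 2 • T i = 0 := fun i => by
        have := congrFun h2 (ff K (Q i))
        rw [Pi.smul_apply, hx'] at this
        rw [hT, smul_sub, this, ← mul_smul, ← pow_succ', show K - (k + 1) + 1 = K - k by omega,
          sub_self]
      have tf : ∀ i, tw d (ld K (Q i)).f (T i) = T i := fun i => by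
        rw [hT, tw_sub, eig _ _ hk h1.cy, tw_n, tw_z, tw, (ok i).fix _ (cq_or d _)]
      refine ⟨x' - ∑ l, if T l = 0 then 0 else β l, rel_sub_sum _ h1 fun l => ?_, fun i => ?_⟩
      · split_ifs
        · exact rel_zero
        · exact ⟨(hβ l).cy.mono (by omega), fun v O a1 _ a3 => (hβ l).kl v O a1 (by simp) a3⟩
      · have e : (∑ l, if T l = 0 then 0 else β l) (ff K (Q i)) = T i := by
          rw [Finset.sum_apply, Finset.sum_eq_single i _ (by simp)]
          · split_ifs with h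
            · exact h.symm
            · rw [val, if_pos rfl, ← two hQ hK (ok i) d (t2 i) (tf i) h]
          · intro l _ hl
            split_ifs
            · rfl
            · rw [val, if_neg hl.symm]
        rw [Pi.sub_apply, e, hT, sub_sub_cancel]
  obtain ⟨x, hx, hx'⟩ := main K le_rfl
  obtain ⟨S, a1, a2, a3⟩ := hN.2.2.2 d K (qs Q) x hx
  refine ⟨_, a2, a3, fun i => ?_⟩
  rw [Pi.sub_apply, hx', Nat.sub_self, pow_zero, one_smul, ff, tw_sq, (ok i).sq S a1, sub_self,
    sub_zero]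

end Pool.Agent.Lib.MP_d6ddbd_nt.GA
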