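import Pool.Agent.Lib.MP_d6ddbd_nt.GA.Stmt
import Pool.Agent.Lib.MP_d6ddbd_nt.KI.Bas

/-!
Selmer groups of the quadratic twists of `X₀(11)` on cubes of primes: the matrices and the
singular parts.
-/

set_option autoImplicit false
set_option maxSynthPendingDepth 3

open NumberField Matrix
open Pool.Agent.Lib.MP_d6ddbd_nt.K11 Pool.Agent.Lib.MP_d6ddbd_nt.KI
open Pool.Agent.Lib.MP_d6ddbd_nt.GF (pst)

noncomputable section

namespace Pool.Agent.Lib.MP_d6ddbd_nt.GA

namespace Bit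

section Mu

variable {K q : ℕ} {D : LD K}

theorem mu_zero (h : D.Ok q) : D.mu 0 = 0 := by
  have := h.add 0 0 (smul_zero _) (smul_zero _)
  rw [add_zero] at this
  exact left_eq_add.1 this

theorem mu_sub (h : D.Ok q) {S T : Pt} (hS : 2 ^ K • S = 0) (hT : 2 ^ K • T = 0) :
    D.mu (S - T) = D.mu S - D.mu T := by
  have := h.add (S - T) T (by rw [smul_sub, hS, hT, sub_zero]) hT
  rw [sub_add_cancel] at this
  rw [this, add_sub_cancel_right]

theorem mu_nat (h : D.Ok q) {S : Pt} (hS : 2 ^ K • S = 0) (a : ℕ) :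
    D.mu (a • S) = a • D.mu S := by
  induction a with
  | zero => rw [zero_smul, zero_smul, mu_zero h]
  | succ a ih => rw [succ_nsmul, succ_nsmul, h.add _ _ (by rw [smul_comm, hS, smul_zero]) hS, ih]

theorem mu_int (h : D.Ok q) {S : Pt} (hS : 2 ^ K • S = 0) (a : ℤ) :
    D.mu (a • S) = a • D.mu S := by
  obtain ⟨m, rfl | rfl⟩ := a.eq_nat_or_neg
  · rw [natCast_zsmul, natCast_zsmul, mu_nat h hS]
  · rw [neg_smul, neg_smul, natCast_zsmul, natCast_zsmul, ← zero_sub,
      mu_sub h (smul_zero _) (by rw [smul_comm, hS, smul_zero]), mu_zero h, mu_nat h hS, zero_sub]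

theorem mu_sum {κ : Type} (h : D.Ok q) (s : Finset κ) (y : κ → Pt)
    (hy : ∀ t ∈ s, 2 ^ K • y t = 0) : D.mu (∑ t ∈ s, y t) = ∑ t ∈ s, D.mu (y t) := by
  classical
  induction s using Finset.induction_on with
  | empty => simpa using mu_zero h
  | insert a s ha ih =>
    have h1 := fun t ht => hy t (Finset.mem_insert_of_mem ht)
    rw [Finset.sum_insert ha, Finset.sum_insert ha, h.add _ _ (hy a (Finset.mem_insert_self a s))
      (by rw [Finset.smul_sum]; exact Finset.sum_eq_zero h1), ih h1]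

theorem bit_mul {w : ZMod (2 ^ K)} (hw : 2 • w = 0) (u : ZMod (2 ^ K)) :
    w * u = (bit 0 u).val • w := by
  have e : (bit 0 u).val = u.val % 2 := by rw [bit, pow_zero, Nat.div_one, ZMod.val_natCast]
  conv_lhs => rw [← ZMod.natCast_zmod_val u, ← Nat.div_add_mod u.val 2]
  rw [e, mul_comm, ← nsmul_eq_mul, add_smul, mul_comm, mul_smul, hw, smul_zero, zero_add]

theorem last {r m : ℕ} (h : D.Ok q) (Z : Fin r → Pt) (u : Fin r → ZMod (2 ^ K))
    (h1 : ∀ l, 2 ^ K • Z l = 0) (h2 : ∀ l, 2 ^ (m + 1) • Z l = 0) {T : Pt}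
    (hT : T = 2 ^ m • ∑ l, (bit 0 (u l)).val • Z l) (hf : D.f • T = T) :
    2 ^ m • ∑ l, D.mu (Z l) * u l = 2 ^ (K - 1) * ((nz T).val : ZMod (2 ^ K)) := by
  have h3 : ∀ l, 2 • 2 ^ m • Z l = 0 := fun l => by rw [← mul_smul, ← pow_succ', h2]
  have h4 : ∀ l, 2 ^ K • 2 ^ m • Z l = 0 := fun l => by rw [smul_comm, h1, smul_zero]
  have e : T = ∑ l, (bit 0 (u l)).val • 2 ^ m • Z l := by
    rw [hT, Finset.smul_sum]
    exact Finset.sum_congr rfl fun l _ => smul_comm _ _ _
  have t2 : 2 • T = 0 := by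
    rw [e, Finset.smul_sum]
    exact Finset.sum_eq_zero fun l _ => by rw [smul_comm, h3, smul_zero]
  have a : 2 ^ m • ∑ l, D.mu (Z l) * u l = D.mu T := by
    rw [e, mu_sum h _ _ fun l _ => by rw [smul_comm, h4, smul_zero], Finset.smul_sum]
    refine Finset.sum_congr rfl fun l _ => ?_
    rw [← smul_mul_assoc, ← mu_nat h (h1 l), mu_nat h (h4 l),
      bit_mul (by rw [← mu_nat h (h4 l), h3, mu_zero h])]
  rw [a, nz]
  split_ifs with b
  · rw [b, mu_zero h]
    simp
  · rw [h.top T t2 hf b, show (1 : ZMod 2).val = 1 from rfl]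
    simp

end Mu

variable {K r : ℕ} {Q : Fin r → ℕ} {d : ℤ} {ι : Type} [Fintype ι] [DecidableEq ι] {π π' : ι → ℕ}

theorem xb_tor (hB : BasStmt) (hK : K ≠ 0) (h : Val K Q d) (l : Fin r) (σ : G) :
    2 ^ K • xb K Q d l σ = 0 :=
  (Classical.epsilon_spec (hB K r Q d hK h (Pi.single l 1))).rel.cy.tor σ

theorem df_tor (hB : BasStmt) (hK : K ≠ 0) (h : Cu K Q d π π') (l : Fin r) (S : Finset ι) (σ : G) :
    2 ^ K • df (fun c => xb K Q c l) d π π' S σ = 0 := by
  rw [df, Finset.sum_apply, Finset.smul_sum]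
  exact Finset.sum_eq_zero fun t _ => by
    rw [Pi.smul_apply, smul_comm, xb_tor hB hK (h.val t), smul_zero]

theorem ok (hL : LdStmt) (hK : K ≠ 0) (h : Cu K Q d π π') (i : Fin r) : (ld K (Q i)).Ok (Q i) :=
  hL K _ hK ((h.val ∅).kg i)

theorem df_mat (hL : LdStmt) (hB : BasStmt) (hK : K ≠ 0) (h : Cu K Q d π π') (S : Finset ι)
    (i l : Fin r) : df (mat K Q) d π π' S i l =
      (ld K (Q i)).mu (df (fun c => xb K Q c l) d π π' S (io K (Q i))) := by
  rw [df, df, Matrix.sum_apply, Finset.sum_apply, mu_sum (ok hL hK h i) _ _ fun t _ => by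
    rw [Pi.smul_apply, smul_comm, xb_tor hB hK (h.val t), smul_zero]]
  refine Finset.sum_congr rfl fun t _ => ?_
  rw [Pi.smul_apply, mu_int (ok hL hK h i) (xb_tor hB hK (h.val t) l _), Matrix.smul_apply]
  rfl

theorem df_xu (u : Fin r → ZMod 2) (S : Finset ι) (σ : G) :
    df (xu K Q u) d π π' S σ = ∑ l, (u l).val • df (fun c => xb K Q c l) d π π' S σ := by
  simp only [df, xu, Finset.sum_apply, Pi.smul_apply, Finset.smul_sum]
  rw [Finset.sum_comm]
  exact Finset.sum_congr rfl fun l _ => Finset.sum_congr rfl fun t _ => smul_comm _ _ _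

theorem fix (hQ : LqStmt) {q : ℕ} {D : LD K} (h : D.Ok q) {X : G → Finset ι → Pt}
    (h2 : ∀ σ, 2 • X σ = 0) (hf : Fn X) (hm : ∀ σ τ, Wl D.O q σ →
      X (σ * τ) Finset.univ = X σ Finset.univ + σ • X τ Finset.univ) :
    D.f • X D.io Finset.univ = X D.io Finset.univ := by
  have two : ∀ σ, 2 • X σ Finset.univ = 0 := fun σ => congrFun (h2 σ) Finset.univ
  refine ((hQ q D.O D.f D.io h.pl).1 (fun σ => X σ Finset.univ)
    ⟨fun σ _ => by rw [pow_one, two], fun σ τ a _ => ?_, (hf.map (· Finset.univ)).on _⟩).1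
  rw [hm σ τ a, tw_two 1 σ (two τ)]

theorem mem_qs (i : Fin r) : Q i ∈ qs Q := Finset.mem_image_of_mem Q (Finset.mem_univ i)

theorem chi (hD : DivStmt) (hK : K ≠ 0) {p p' : ℕ} (hp : T3 p) (hp' : T3 p')
    (hs : Sim (md d Q) p p') (h : Cu K Q (d * pst p) π π') (h' : Cu K Q (d * pst p') π π') :
    ∃ d', Ch Q d' (ps (pst p * pst p')) := by
  refine ⟨_, (hD K r Q (d * ∏ i, pst (π i)) Unit (fun _ => p) (fun _ => p') hK
    ⟨fun t => ?_, fun _ => ⟨hp, hp'⟩, fun _ => ⟨hs.1, fun l hl h2 hd hn => ?_⟩⟩).1 ()⟩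
  · by_cases e : () ∈ t
    · convert h'.val ∅ using 1
      simp only [vx, e, if_true, Finset.notMem_empty, if_false, Finset.univ_unique,
        Finset.prod_singleton]
      ring
    · convert h.val ∅ using 1
      simp only [vx, e, if_false, Finset.notMem_empty, Finset.univ_unique, Finset.prod_singleton]
      ring
  · refine hs.2 l hl h2 ?_ hn
    have l0 : Prime (l : ℤ) := Nat.prime_iff_prime_int.1 hl
    have e : md (d * ∏ i, pst (π i)) Q = md d Q * ∏ i, pst (π i) := by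
      rw [md, md]
      ring
    rw [e] at hd
    refine (l0.dvd_or_dvd hd).resolve_right fun a => hn ?_
    obtain ⟨i, -, b⟩ := (l0.dvd_finsetProd_iff _).1 a
    have c : l ∣ π i := by
      have := Int.natAbs_dvd_natAbs.2 b
      simpa [pst, Int.natAbs_mul, Int.natAbs_pow] using this
    rw [(Nat.prime_dvd_prime_iff_eq hl (h.t3 i).1.pr).1 c]
    exact (h.t3 i).1.ty

end Bit

open GA.Bit in
/-- The matrices and the singular parts. -/
theorem bit_thm (hL : LdStmt) (hQ : LqStmt) (hB : BasStmt) (hA : ActStmt) (hD : DivStmt)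
    (hO : OptStmt) : BitStmt := by
  intro K r Q d ι _ _ π π' u i
  refine ⟨fun hc h => ?_, fun p p' hc hp hp' hs h h' => ?_⟩
  · have hK : K ≠ 0 := by omega
    have o := ok hL hK h i
    obtain ⟨a, b, c⟩ := hD K r Q d ι π π' hK h
    have c := c (bit 0 ∘ u) hc
    rw [Matrix.mulVec, dotProduct]
    simp only [df_mat hL hB hK h]
    refine last o _ u (fun l => df_tor hB hK h l _ _) (fun l => ?_) ?_
      (fix hQ o c.two c.fn fun σ τ e => ?_)
    · have := congrFun (b l Finset.univ) (io K (Q i))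
      rwa [Finset.card_univ, show K - Fintype.card ι = K - 1 - Fintype.card ι + 1 by omega] at this
    · rw [ph, df_xu, Finset.card_univ]
      rfl
    · rw [c.mul, Pi.add_apply, ((hA ι).2.2 _).2.2.1 σ _ _ fun j _ =>
        (a j).bad (Q i) _ σ o.pl.pr (Or.inr (mem_qs i)) o.pl.ov e]
  · have hK : K ≠ 0 := by omega
    have o := ok hL hK h i
    obtain ⟨a, -, -⟩ := hD K r Q _ ι π π' hK h
    obtain ⟨b, c⟩ := hO K r Q d ι π π' p p' hc hp hp' hs h h'
    have c := (c (bit 0 ∘ u)).2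
    obtain ⟨d', x⟩ := chi hD hK hp hp' hs h h'
    rw [Matrix.mulVec, dotProduct]
    simp only [Matrix.sub_apply, df_mat hL hB hK h, df_mat hL hB hK h',
      ← mu_sub o (df_tor hB hK h _ _ _) (df_tor hB hK h' _ _ _)]
    refine last o _ u (fun l => ?_) (fun l => ?_) ?_ (fix hQ o c.two c.fn fun σ τ e => ?_)
    · rw [smul_sub, df_tor hB hK h, df_tor hB hK h', sub_zero]
    · have := congrFun (b l Finset.univ) (io K (Q i))
      rwa [Finset.card_univ,
        show K - 1 - Fintype.card ι = K - 2 - Fintype.card ι + 1 by omega] at this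
    · rw [gm, df_xu, df_xu, Finset.card_univ, ← Finset.sum_sub_distrib]
      simp only [← smul_sub]
      rfl
    · rw [c.mul, x.bad (Q i) _ σ o.pl.pr (Or.inr (mem_qs i)) o.pl.ov e, ZMod.val_zero, zero_smul,
        add_zero, Pi.add_apply, ((hA ι).2.2 _).2.2.1 σ _ _ fun j _ =>
        (a j).bad (Q i) _ σ o.pl.pr (Or.inr (mem_qs i)) o.pl.ov e]

open GA.Bit in
/-- Divisibility of the alternating sums of the matrices. -/
theorem dv_thm (hL : LdStmt) (hB : BasStmt) (hD : DivStmt) : DvStmt := by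
  intro K r Q d n P π π' J hK hP h1 h2
  have hK : K ≠ 0 := by omega
  have h : Cu K Q d π π' := ⟨fun t => hP.val _ fun i => by
    split_ifs
    exacts [h2 i, h1 i], fun i => ⟨hP.t3 i _ (h1 i), hP.t3 i _ (h2 i)⟩,
    fun i => hP.sim i _ (h1 i) _ (h2 i)⟩
  ext i l
  have o := ok hL hK h i
  have b : 2 ^ (K - J.card) • df (fun c => xb K Q c l) d π π' J (io K (Q i)) = 0 :=
    congrFun ((hD K r Q d _ π π' hK h).2.1 l J) (io K (Q i))
  rw [Matrix.smul_apply, df_mat hL hB hK h, ← mu_nat o (df_tor hB hK h _ _ _), b, mu_zero o]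
  rfl

end Pool.Agent.Lib.MP_d6ddbd_nt.GA
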