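import Pool.Agent.Lib.MP_d6ddbd_nt.GA.Top

/-!
The cup product of two cubes.
-/

set_option autoImplicit false
set_option maxSynthPendingDepth 3

open Pool.Agent.Lib.MP_d6ddbd_nt.K11 Pool.Agent.Lib.MP_d6ddbd_nt.KI

noncomputable section

namespace Pool.Agent.Lib.MP_d6ddbd_nt.GA

theorem bsp_thm (hL : LdStmt) (hR : RecNStmt) (hQ : LqStmt) (_hU : UnStmt) (hI : InjStmt)
    (hA : ActStmt) (h3 : N3Stmt) : BspStmt := by
  classical
  intro K r Q d ι _ _ ψ u y X Y hK hV hψ hX hY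
  have D : Top.Dt ψ 0 0 0 Y X :=
    ⟨fun i => (hψ i).mul, fun i => (hψ i).fn, fn_const 0, fun _ _ => (add_zero _).symm,
      ⟨fun _ => smul_zero _, fn_const 0, fun σ _ => by
        rw [Pi.zero_apply, Pi.zero_apply, Pi.zero_apply, Top.act0, add_zero]⟩,
      ⟨hY.two, hY.fn, hY.mul⟩, hX.two, hX.fn, fun σ τ => by
        rw [hX.mul, Pi.zero_apply, ZMod.val_zero, zero_smul, add_zero],
      fn_const 0, fun σ τ => by simp [bb, Top.pr0]⟩
  have vX : Vc ψ X := ⟨hX.two, hX.fn, hX.mul⟩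
  have E : Top.cc ψ 0 0 Y X = bb ψ X Y := by
    funext σ τ
    rw [Top.cc, Pi.zero_apply, zero_mul, add_zero]
  have inj := (hI K r Q d hK hV).1
  have pl := fun i => (hL K (Q i) hK (hV.kg i)).pl
  have mq : ∀ v, v ∈ qs Q ↔ ∃ i, Q i = v := fun v => by simp [qs]
  have c2 : C2 (bb ψ X Y) := E ▸ Top.c2 hA D
  have inf : bb ψ X Y cj cj = bb ψ X Y 1 1 := E ▸ Top.inf hA D (fun i => (hψ i).inf) rfl
  have sp : ∀ (v : ℕ) O, v.Prime → v ∉ qs Q → Ov O v → Sp O v (bb ψ X Y) := by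
    intro v O hv n3 hO
    rw [← E]
    by_cases hb : Bad d v
    · exact (Top.sp_sum Finset.univ _ fun S => isoH_thm d v _ _ _ hV.sf.ne_zero hv hO
        (fun σ => Top.two_ap (hX.two σ) S) (fun σ => Top.two_ap (hY.two σ) Sᶜ)
        (hX.kl v _ S hv hb hO) (hY.kl v _ Sᶜ hv hb hO)).congr fun σ τ a _ =>
          Top.cc_sum hA (fun i => (hψ i).bad v _ σ hv (Or.inl hb) hO a) rfl τ
    have m2 : v ≠ 2 := fun e => hb (Or.inl e)
    have m11 : v ≠ 11 := fun e => hb (Or.inr (Or.inl e))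
    by_cases h0 : nr v = 0
    · obtain ⟨w, b, c⟩ := (h3 ι ψ).2 v _ Y D.hom D.fψ ⟨hv, m2, m11, h0⟩ hO D.vY
      exact (Top.t3 hA D b c).1.2 ((Top.sp_cob (fn_const 0)).congr fun σ τ _ _ => by simp)
    · exact Top.unr hA D hv m2 m11 hO fun σ e => ⟨fun i => (hψ i).unr v _ σ hv h0 hO e, rfl, rfl,
        rfl, hY.un v _ σ hv hb n3 h0 hO e, hX.un v _ σ hv hb n3 h0 hO e⟩
  have loc : ∀ i, iv (ld K (Q i)).O (Q i) (bb ψ X Y) = u i * sb K Q Y i + sb K Q X i * y i := by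
    intro i
    have m : Q i ∈ qs Q := (mq _).2 ⟨i, rfl⟩
    have a1 := fun σ (a : Wl (ld K (Q i)).O (Q i) σ) j =>
      (hψ j).bad _ _ σ (pl i).pr (Or.inr m) (pl i).ov a
    rw [(hQ _ _ _ _ (pl i)).2.2 (Finset ι) (fun S σ => X σ S) (fun S σ => Y σ Sᶜ) _
      (fun S => ⟨⟨fun σ _ => tor_one.2 (Top.two_ap (hX.two σ) S), fun σ τ a _ => by
          rw [tw_two _ _ (Top.two_ap (hX.two τ) S)]
          exact Top.vc_ap hA vX (a1 σ a) τ S, (hX.fn.map fun z => z S).on _⟩,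
        ⟨fun σ _ => tor_one.2 (Top.two_ap (hY.two σ) Sᶜ), fun σ τ a _ => by
          rw [tw_two _ _ (Top.two_ap (hY.two τ) Sᶜ)]
          exact Top.vc_ap hA D.vY (a1 σ a) τ Sᶜ, (hY.fn.map fun z => z Sᶜ).on _⟩⟩)
      fun σ τ a _ => E ▸ Top.cc_sum hA (a1 σ a) rfl τ]
    have x0 : ∀ S, nz (X ((ld K (Q i)).f * (ld K (Q i)).f) S) = if S = ∅ then u i else 0 :=
      hX.fin i
    have y0 : ∀ S, nz (Y ((ld K (Q i)).f * (ld K (Q i)).f) S) = if S = ∅ then y i else 0 :=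
      hY.fin i
    simp only [x0, y0, Finset.sum_add_distrib, Finset.compl_eq_empty_iff, mul_ite, ite_mul,
      mul_zero, zero_mul, Finset.sum_ite_eq', Finset.mem_univ, if_true, Finset.compl_empty]
    rfl
  obtain ⟨P, hP⟩ : ∃ P : ℕ → ValuationSubring ℂ, ∀ v : ℕ, v.Prime → Ov (P v) v := by
    have : ∀ v : ℕ, ∃ O, v.Prime → Ov O v := fun v => by
      by_cases hv : v.Prime
      · exact (ex_ov hv).imp fun _ h _ => h
      · exact ⟨⊤, fun h => absurd h hv⟩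
    choose P hP using this
    exact ⟨P, hP⟩
  have key := hR.2 _ (qs Q) (fun v => if v ∈ qs Q then (ld K v).O else P v) c2 inf (fun v hv => by
      split_ifs with h
      · obtain ⟨i, rfl⟩ := (mq v).1 h
        exact (pl i).ov
      · exact hP v hv) (fun v hv => by
      obtain ⟨i, rfl⟩ := (mq v).1 hv
      exact (pl i).pr) (fun v hv hn => by
      simp only [if_neg hn]
      exact sp v _ hv hn (hP v hv))
  rw [Finset.sum_congr rfl fun v hv => by rw [if_pos hv], qs,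
    Finset.sum_image fun i _ j _ e => inj e, Finset.sum_congr rfl fun i _ => loc i] at key
  exact ⟨c2, inf, sp, loc, key⟩

end Pool.Agent.Lib.MP_d6ddbd_nt.GA
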