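import Pool.Agent.Lib.MP_d6ddbd_nt.GA.Stmt
import Pool.Agent.Lib.MP_d6ddbd_nt.KI.Bas

/-!
Selmer groups of the quadratic twists of `X₀(11)` on cubes of primes: the leading term on a cube.
-/

set_option autoImplicit false
set_option linter.unusedSectionVars false

open NumberField Matrix
open Pool.Agent.Lib.MP_d6ddbd_nt.K11 Pool.Agent.Lib.MP_d6ddbd_nt.KI
open Pool.Agent.Lib.MP_d6ddbd_nt.GF (pst)

noncomputable section

namespace Pool.Agent.Lib.MP_d6ddbd_nt.GA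

namespace Cor

/-! ### Arithmetic modulo `2 ^ K` -/

/-- The embedding of `ZMod 2`. -/
def tp (K : ℕ) (a : ZMod 2) : ZMod (2 ^ K) := 2 ^ (K - 1) * (a.val : ZMod (2 ^ K))

variable {K : ℕ}

theorem two_pow (hK : K ≠ 0) : (2 : ZMod (2 ^ K)) ^ (K - 1) * 2 = 0 := by
  rw [← pow_succ, Nat.sub_add_cancel (Nat.one_le_iff_ne_zero.2 hK)]
  exact_mod_cast ZMod.natCast_self (2 ^ K)

theorem tp_zero : tp K 0 = 0 := by simp [tp]

theorem tp_nat (hK : K ≠ 0) (n : ℕ) : tp K n = 2 ^ (K - 1) * (n : ZMod (2 ^ K)) := by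
  rw [tp, ZMod.val_natCast]
  conv_rhs => rw [← Nat.mod_add_div n 2]
  push_cast
  linear_combination (-((n / 2 : ℕ) : ZMod (2 ^ K))) * two_pow hK

theorem tp_add (hK : K ≠ 0) (a b : ZMod 2) : tp K (a + b) = tp K a + tp K b := by
  have := tp_nat hK (a.val + b.val)
  rw [Nat.cast_add, ZMod.natCast_zmod_val, ZMod.natCast_zmod_val] at this
  rw [this, tp, tp]
  push_cast
  ring

theorem tp_sum (hK : K ≠ 0) {κ : Type} (s : Finset κ) (f : κ → ZMod 2) :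
    tp K (∑ i ∈ s, f i) = ∑ i ∈ s, tp K (f i) :=
  map_sum (AddMonoidHom.mk' (tp K) (tp_add hK)) f s

theorem mul_tp (hK : K ≠ 0) (y : ZMod (2 ^ K)) (a : ZMod 2) : y * tp K a = tp K (bit 0 y * a) := by
  have := tp_nat hK (y.val * a.val)
  rw [Nat.cast_mul, Nat.cast_mul, ZMod.natCast_zmod_val, ZMod.natCast_zmod_val] at this
  rw [bit, pow_zero, Nat.div_one, this, tp]
  ring

theorem tp_eq_zero (hK : K ≠ 0) {a : ZMod 2} (h : tp K a = 0) : a = 0 := by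
  by_contra h0
  have h1 : a = 1 := by clear h; revert a; decide
  rw [h1, tp, ZMod.val_one, Nat.cast_one, mul_one] at h
  have h2 : ((2 ^ (K - 1) : ℕ) : ZMod (2 ^ K)) = 0 := by exact_mod_cast h
  have := Nat.le_of_dvd (by positivity) ((ZMod.natCast_eq_zero_iff _ _).1 h2)
  exact absurd this (not_le.2 (Nat.pow_lt_pow_right one_lt_two (by omega)))

theorem bit_single (hK : K ≠ 0) {r : ℕ} (i : Fin r) :
    bit 0 ∘ (Pi.single i 1 : Fin r → ZMod (2 ^ K)) = Pi.single i 1 := by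
  have : Fact (1 < 2 ^ K) := ⟨Nat.one_lt_two_pow hK⟩
  funext j
  by_cases h : j = i
  · subst h
    simp [bit, ZMod.val_one]
  · simp [bit, h]

/-! ### The primes of a cube -/

variable {r : ℕ} {Q : Fin r → ℕ} {d : ℤ} {ι : Type} [Fintype ι] [DecidableEq ι] {π π' : ι → ℕ}

theorem dvd_pst {v p : ℕ} (hv : v.Prime) (hp : p.Prime) (h : (v : ℤ) ∣ pst p) : v = p := by
  have h1 : v ∣ (pst p).natAbs := Int.natCast_dvd.1 h
  rw [pst, Int.natAbs_mul, Int.natAbs_pow] at h1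
  exact (Nat.prime_dvd_prime_iff_eq hv hp).1 (by simpa using h1)

theorem dvd_dd {v : ℕ} (hv : v.Prime) (hπ : ∀ i, T3 (π i)) (h : (v : ℤ) ∣ dd d π)
    (hn : nr v ≠ 0) : (v : ℤ) ∣ d := by
  have hp := Nat.prime_iff_prime_int.1 hv
  refine (hp.dvd_or_dvd h).elim id fun h => ?_
  obtain ⟨i, -, hi⟩ := hp.exists_mem_finset_dvd h
  exact absurd (dvd_pst hv (hπ i).pr hi ▸ (hπ i).ty) hn

theorem bad_iff {p p' : ℕ} (hp : T3 p) (hπ : ∀ i, T3 (π i)) {v : ℕ} (hv : v.Prime)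
    (h : Bad (dd (d * pst p) π) v) : Bad (dd (d * pst p') π) v := by
  rcases h with h | h | ⟨h, hn⟩
  · exact Or.inl h
  · exact Or.inr (Or.inl h)
  · refine Or.inr (Or.inr ⟨?_, hn⟩)
    rcases (Nat.prime_iff_prime_int.1 hv).dvd_or_dvd (dvd_dd hv hπ h hn) with h | h
    · exact (h.mul_right _).mul_right _
    · exact absurd (dvd_pst hv hp.pr h ▸ hp.ty) hn

theorem ne_of_sf {c : ℤ} {ρ : ι → ℕ} (h : Squarefree (c * ∏ i, pst (ρ i))) {i j : ι} (hij : j ≠ i)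
    (hp : (ρ i).Prime) : ρ i ≠ ρ j := fun e => by
  have h1 : pst (ρ i) * pst (ρ i) ∣ c * ∏ i, pst (ρ i) := by
    refine Dvd.dvd.mul_left ?_ c
    have := Finset.prod_dvd_prod_of_subset {i, j} Finset.univ (fun i => pst (ρ i))
      (Finset.subset_univ _)
    rwa [Finset.prod_pair hij.symm, ← e] at this
  have h2 := Int.isUnit_iff_natAbs_eq.1 (h _ h1)
  rw [pst, Int.natAbs_mul, Int.natAbs_pow] at h2
  exact hp.one_lt.ne' (by simpa using h2)

theorem val0 (h : Cu K Q d π π') : Val K Q (dd d π) := by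
  have := h.val ∅
  rwa [show vx d π π' ∅ = dd d π by simp [vx, dd]] at this

theorem ex_tau (hS : SqStmt) (h : Cu K Q d π π') {i : ι} (hi : π i ≠ π' i) :
    ∃ τ : G, (∀ T : Pt, 2 • T = 0 → τ • T = T) ∧ ∀ j, psi π π' j τ = if j = i then 1 else 0 := by
  have h3 := (h.t3 i).1
  obtain ⟨O, hO⟩ := ex_ov h3.pr
  obtain ⟨τ, a, b⟩ := (hS.2 _ _ h3 (h.t3 i).2).2.1 hi O hO
  refine ⟨τ, fun T hT => ine_tor h3.pr h3.n2 h3.n11 hO a (tor_one.2 hT), fun j => ?_⟩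
  split_ifs with e
  · rw [e]; exact b
  · refine (hS.2 _ _ (h.t3 j).1 (h.t3 j).2).1 _ O τ h3.pr ?_ ?_ hO a
    · exact ne_of_sf (val0 h).sf e h3.pr
    · have := ne_of_sf (ρ := fun k => if k ∈ ({j} : Finset ι) then π' k else π k) (h.val {j}).sf e
        (by simpa [Ne.symm e] using h3.pr)
      simpa [Ne.symm e] using this

theorem df_upd {M : Type} [AddCommGroup M] (x : ℤ → M) (a : ι) (l : ℕ) {S : Finset ι}
    (hS : a ∉ S) : df x d π (Function.update π' a l) S = df x d π π' S := by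
  refine Finset.sum_congr rfl fun t ht => ?_
  have : vx d π (Function.update π' a l) t = vx d π π' t := by
    unfold vx
    refine congrArg (d * ·) (Finset.prod_congr rfl fun i _ => ?_)
    split_ifs with h
    · rw [Function.update_of_ne (fun e : i = a => hS (Finset.mem_powerset.1 ht (e ▸ h)))]
    · rfl
  rw [this]

theorem rs_upd (x : ℤ → G → Pt) (a : ι) (l : ℕ) :
    rs a (ph K x d π (Function.update π' a l)) = rs a (ph K x d π π') := by
  funext σ S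
  unfold rs ph
  split_ifs with h
  · rfl
  · rw [df_upd x a l h]

theorem vc {ψ : ι → G → ZMod 2} {u : Fin r → ZMod 2} {X : G → Finset ι → Pt}
    (h : Hd K Q d ψ u X) : Vc ψ X := ⟨h.two, h.fn, h.mul⟩

theorem su (hS : SqStmt) (hD : DivStmt) (hT : SurStmt) (hK : Fintype.card ι < K)
    (h : Cu K Q d π π') {a : ι} (hn : ∀ i, i ≠ a → π i ≠ π' i) {u y : Fin r → ZMod 2}
    (hi : Ind u y) : Su (psi π π') (Finset.univ.erase a) (ph K (xu K Q u) d π π')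
      (ph K (xu K Q y) d π π') := by
  have K0 : K ≠ 0 := by omega
  obtain ⟨h1, -, h2⟩ := hD K r Q d ι π π' K0 h
  have : ∀ i, ∃ τ : G, i ≠ a → (∀ T : Pt, 2 • T = 0 → τ • T = T) ∧
      ∀ j, psi π π' j τ = if j = i then 1 else 0 := fun i => by
    by_cases e : i = a
    · exact ⟨1, fun k => absurd e k⟩
    · obtain ⟨τ, k⟩ := ex_tau hS h (hn i e)
      exact ⟨τ, fun _ => k⟩
  choose τ hτ using this
  exact hT K r Q _ ι _ u y _ _ _ τ K0 (val0 h) (fun i => (h1 i).mul) (h2 u hK) (h2 y hK) hi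
    fun i hi => ⟨(hτ i (Finset.mem_erase.1 hi).1).1, fun j _ => (hτ i (Finset.mem_erase.1 hi).1).2 j⟩

theorem cov (hS : SqStmt) {p M : ℕ} {a : ι} {π'' : ι → ℕ} (hp : T3 p)
    (h : Cu K Q (d * pst p) π π'') (hM : Cov M d Q π π' a Set.univ)
    (e : ∀ i, i ≠ a → π'' i = π' i) (v : ℕ) (hv : v.Prime) (hn : ¬ v ∣ M) :
    ¬ Bad (dd (d * pst p) π) v ∧ v ∉ qs Q ∧
      ∀ O (σ : G) i, Ov O v → Frob O 1 σ → i ≠ a ∨ v ≠ π'' a → psi π π'' i σ = 0 := by
  obtain ⟨a1, a2, a3, a4, a5⟩ := hM v hv hn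
  refine ⟨?_, fun k => ?_, fun O σ i hO hσ k => ?_⟩
  · rintro (k | k | ⟨k, k'⟩)
    · exact a1 k
    · exact a2 k
    · rcases (Nat.prime_iff_prime_int.1 hv).dvd_or_dvd (dvd_dd hv (fun i => (h.t3 i).1) k k') with
        k | k
      · exact k' (a3 k)
      · exact k' (dvd_pst hv hp.pr k ▸ hp.ty)
  · obtain ⟨i, -, k⟩ := Finset.mem_image.1 k
    exact a4 i k.symm
  · refine (hS.2 _ _ (h.t3 i).1 (h.t3 i).2).1 v O σ hv (a5 i trivial).1 ?_ hO hσ
    by_cases ei : i = a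
    · rw [ei]; exact k.resolve_left (not_not.2 ei)
    · rw [e i ei]; exact (a5 i trivial).2 ei

/-- The obstruction in terms of the singular parts. -/
theorem obs (hD : DivStmt) (hB : BitStmt) (hP : BspStmt) (hK : Fintype.card ι < K)
    (h : Cu K Q d π π') (u y : Fin r → ZMod (2 ^ K)) (i : Fin r)
    (e : 2 ^ (K - 1 - Fintype.card ι) • (y i * (df (mat K Q) d π π' Finset.univ *ᵥ u) i +
      (y ᵥ* df (mat K Q) d π π' Finset.univ) i * u i) = 0) :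
    (bit 0 ∘ u) i * sb K Q (ph K (xu K Q (bit 0 ∘ y)) d π π') i +
      sb K Q (ph K (xu K Q (bit 0 ∘ u)) d π π') i * (bit 0 ∘ y) i = 0 := by
  have K0 : K ≠ 0 := by omega
  obtain ⟨h1, -, h2⟩ := hD K r Q d ι π π' K0 h
  set B := df (mat K Q) d π π' Finset.univ with hB'
  set m := K - 1 - Fintype.card ι
  have b : ∀ w j, 2 ^ m • (B *ᵥ w) j = tp K (sb K Q (ph K (xu K Q (bit 0 ∘ w)) d π π') j) :=
    fun w j => (hB K r Q d ι π π' w j).1 hK h
  have s : ∀ j l, 2 ^ m • B j l = 2 ^ m • B l j := fun j l => by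
    have b1 := b (Pi.single l 1) j
    have b2 := b (Pi.single j 1) l
    rw [bit_single K0, mulVec_single_one] at b1 b2
    have := (hP K r Q _ ι _ _ _ _ _ K0 (val0 h) h1 (h2 (Pi.single l 1) hK)
      (h2 (Pi.single j 1) hK)).2.2.2.2
    simp only [Finset.sum_add_distrib, Pi.single_apply, ite_mul, mul_ite, one_mul, zero_mul, mul_one,
      mul_zero, Finset.sum_ite_eq', Finset.mem_univ, if_true] at this
    exact b1.trans (Eq.trans (congrArg (tp K) (CharTwo.add_eq_zero.1 this).symm) b2.symm)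
  have t : 2 ^ m • (y ᵥ* B) i = 2 ^ m • (B *ᵥ y) i := by
    simp only [vecMul, mulVec, dotProduct, Finset.smul_sum]
    exact Finset.sum_congr rfl fun l _ => by
      rw [← mul_smul_comm, ← smul_mul_assoc, s l i, mul_comm]
  rw [smul_add, ← mul_smul_comm, ← smul_mul_assoc, t, b, b, mul_comm _ (u i), mul_tp K0, mul_tp K0,
    ← tp_add K0] at e
  rw [← tp_eq_zero K0 e]
  simp only [Function.comp]
  ring

end Cor

open Cor in
theorem core_thm (hS : SqStmt) (hD : DivStmt) (hO : OptStmt) (hB : BitStmt) (h3 : N3Stmt)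
    (hP : BspStmt) (hE : EtaStmt) (hT : TopStmt) (hSu : SurStmt) (hU : UStmt) (hTh : ThStmt) :
    CoreStmt := by
  intro K r Q d ι _ _ π π' a p₀ M u y hK h₀ hC hn hi hM
  have K0 : K ≠ 0 := by omega
  have K1 : Fintype.card ι < K := by omega
  obtain ⟨c1, -, c2⟩ := hD K r Q _ ι π π' K0 hC
  obtain ⟨U, u1, u2, u3, u4⟩ := hU ι _ a _ _ (fun i => (c1 i).mul) (vc (c2 _ K1)) (vc (c2 _ K1))
    (su hS hD hSu K1 hC hn hi)
  have : ∀ v : ℕ, ∃ (O : ValuationSubring ℂ) (φ : G), (v.Prime → Ov O v) ∧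
      (T3 v → Frob O v φ ∧ φ ∈ U) := fun v => by
    by_cases e : T3 v
    · obtain ⟨O, φ, a, b⟩ := u4 v e
      exact ⟨O, φ, fun _ => a, fun _ => b⟩
    · by_cases e' : v.Prime
      · obtain ⟨O, a⟩ := ex_ov e'
        exact ⟨O, 1, fun _ => a, fun k => absurd k e⟩
      · exact ⟨⊤, 1, fun k => absurd k e', fun k => absurd k e⟩
  choose P σ hP1 hP2 using this
  refine ⟨U, σ, ⟨u2, u3, (hTh K r Q _ ι _ a _ _ _ _ U M (π' a) c1 (c2 _ K1) (c2 _ K1) u1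
    (cov hS h₀ hC hM fun _ _ => rfl)).1⟩, fun p hp => ⟨(hP2 p hp).2, P p, hP1 p hp.pr, (hP2 p hp).1⟩,
    fun l hl hC' hc => ?_⟩
  set π'' := Function.update π' a l with hπ
  have la : π'' a = l := Function.update_self a l π'
  have l3 : T3 l := la ▸ (hC'.t3 a).2
  have lo : ∀ i, i ≠ a → π'' i = π' i := fun i e => Function.update_of_ne e l π'
  obtain ⟨e1, -, e2⟩ := hD K r Q _ ι π π'' K0 hC'
  obtain ⟨η, hη⟩ := hE K r Q _ ι _ _ _ _ _ P K0 (val0 hC') e1 (e2 _ K1) (e2 _ K1) hP1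
    fun i => obs hD hB hP K1 hC' u y i (hc i)
  obtain ⟨t1, t2⟩ := (hTh K r Q _ ι _ a _ _ _ _ U M l e1 (e2 _ K1) (e2 _ K1)
    (fun s => by rw [u1, hπ, rs_upd, rs_upd]) (la ▸ cov hS h₀ hC' hM lo)).2 P η hP1 hη
  refine ⟨η, t2 (su hS hD hSu K1 hC' (fun i e => lo i e ▸ hn i e) hi) l3 hl ?_
    ⟨σ l, (hP2 l l3).2, (hP2 l l3).1⟩, fun p p' hp hp' s1 s2 f1 f2 => ?_⟩
  · obtain ⟨s, k1, k2⟩ := (hS.2 l (π a) l3 (hC'.t3 a).1).2.1
      ((hM l l3.pr hl).2.2.2.2 a trivial).1 (P l) (hP1 l l3.pr)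
    exact ⟨s, k1, by rw [psi, la, mul_comm, k2]⟩
  by_cases pp : p = p'
  · subst pp
    rw [sub_self, zero_mulVec, dotProduct_zero, smul_zero, CharTwo.add_self_eq_zero]
    simp
  obtain ⟨g1, -, g2⟩ := hD K r Q _ ι π π'' K0 f1
  have o := (hO K r Q d ι π π'' p₀ p hK h₀ hp s1 hC' f1).2
  rw [(o _).1, (o _).1] at hη t1
  have t3 : ∀ i, T3 (π i) := fun i => (hC.t3 i).1
  have hη' : Nz Q (dd (d * pst p) π) P _ _ _ η := ⟨hη.sg, fun v s hv k => hη.un v s hv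
    fun k' => k (bad_iff h₀ t3 hv k'), hη.t3⟩
  have n := (h3 ι (psi π π'')).2
  obtain ⟨w, w1, w2⟩ := n p (P p) _ (fun i => (g1 i).mul) (fun i => (g1 i).fn) hp (hP1 p hp.pr)
    (vc (g2 (bit 0 ∘ y) K1))
  obtain ⟨w', w1', w2'⟩ := n p' (P p') _ (fun i => (g1 i).mul) (fun i => (g1 i).fn) hp'
    (hP1 p' hp'.pr) (vc (g2 (bit 0 ∘ y) K1))
  have ch : Ch Q (dd (d * pst p) π) (ps (pst p * pst p')) :=
    (hS.2 p p' hp hp').2.2.2 K r Q d _ (val0 f1).kg s2 fun v hv k k' =>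
      ((Nat.prime_iff_prime_int.1 hv).dvd_or_dvd (dvd_dd hv t3 k k')).resolve_right
        fun k => k' (dvd_pst hv hp.pr k ▸ hp.ty)
  have top := hT K r Q _ ι _ _ _ _ _ _ P η p p' (σ p) (σ p') w w' K0 (val0 f1) g1 hp hp' pp ch
    (g2 _ K1) (g2 _ K1) ((hO K r Q d ι π π'' p p' hK hp hp' s2 f1 f2).2 (bit 0 ∘ u)).2 hP1 hη'
    (hP2 p hp).1 (hP2 p' hp').1 w1 w1' w2 w2'
  rw [t1 p _ w hp (hP2 p hp).2 (hP2 p hp).1 w1 (w2 _ (wl_frob (hP2 p hp).1)),
    t1 p' _ w' hp' (hP2 p' hp').2 (hP2 p' hp').1 w1' (w2' _ (wl_frob (hP2 p' hp').1)), add_zero,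
    add_zero] at top
  rw [← top]
  refine Eq.trans ?_ (tp_sum K0 _ _).symm
  rw [dotProduct, Finset.smul_sum]
  refine Finset.sum_congr rfl fun i _ => ?_
  rw [← mul_smul_comm, (hB K r Q d ι π π'' u i).2 p p' hK hp hp' s2 f1 f2, mul_comm (sb _ _ _ _)]
  exact mul_tp K0 _ _

end Pool.Agent.Lib.MP_d6ddbd_nt.GA
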