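import Pool.Agent.Lib.MP_d6ddbd_nt.GA.Stmt

/-!
From the leading term on a full cube to the leading term on a face of a cell.
-/

set_option autoImplicit false

open NumberField Matrix
open Pool.Agent.Lib.MP_d6ddbd_nt.K11 Pool.Agent.Lib.MP_d6ddbd_nt.KI
open Pool.Agent.Lib.MP_d6ddbd_nt.GF (pst)

noncomputable section

namespace Pool.Agent.Lib.MP_d6ddbd_nt.GA

namespace Cube

/-- All prime factors are inert. -/
def In (e : ℤ) : Prop := ∀ l : ℕ, l.Prime → (l : ℤ) ∣ e → nr l = 0

theorem in_pst {p : ℕ} (h : T3 p) : In (pst p) := fun l hl hd => by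
  have h1 : l ∣ p := by
    have := Int.natAbs_dvd_natAbs.2 hd
    simpa [pst, Int.natAbs_mul, Int.natAbs_pow] using this
  rw [(Nat.prime_dvd_prime_iff_eq hl h.pr).1 h1]
  exact h.ty

theorem in_prod {ι : Type} (s : Finset ι) {π : ι → ℕ} (h : ∀ i, T3 (π i)) :
    In (∏ i ∈ s, pst (π i)) := fun l hl hd => by
  obtain ⟨i, -, hi⟩ := ((Nat.prime_iff_prime_int.1 hl).dvd_finsetProd_iff _).1 hd
  exact in_pst (h i) l hl hi

theorem sim_mul {d e : ℤ} {r : ℕ} {Q : Fin r → ℕ} {p p' : ℕ} (h : Sim (md d Q) p p')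
    (he : In e) : Sim (md (d * e) Q) p p' := by
  refine ⟨h.1, fun l hl h2 hd hn => h.2 l hl h2 ?_ hn⟩
  rw [show md (d * e) Q = md d Q * e by unfold md; ring] at hd
  exact ((Nat.prime_iff_prime_int.1 hl).dvd_or_dvd hd).resolve_right fun h => hn (he l hl h)

variable {n : ℕ} {J : Finset (Fin n)} {b : Fin n} {d : ℤ} {π ρ ρ' : Fin n → ℕ} {p : ℕ}
  {π₂ : J.erase b → ℕ}

theorem vx_eq (hb : b ∈ J) (h1 : ∀ i, i ≠ b → ρ i = π i) (h2 : ρ b = p) (h3 : ∀ i, π₂ i = ρ' i)
    (t : Finset (J.erase b)) :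
    vx ((d * ∏ i ∈ Jᶜ, pst (π i)) * pst p) (fun i : J.erase b => π i) π₂ t =
      vx d ρ ρ' (t.map (Function.Embedding.subtype _)) := by
  have hm : ∀ i, i ∈ t.map (Function.Embedding.subtype _) → i ∈ J.erase b := fun i hi => by
    obtain ⟨j, -, rfl⟩ := Finset.mem_map.1 hi
    exact j.2
  unfold vx
  rw [← Finset.prod_compl_mul_prod J, ← Finset.mul_prod_erase J _ hb,
    ← Finset.prod_coe_sort (J.erase b), if_neg fun h => Finset.notMem_erase b J (hm b h), h2,
    mul_assoc, mul_assoc]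
  congr 2
  · refine Finset.prod_congr rfl fun i hi => ?_
    have := Finset.mem_compl.1 hi
    rw [if_neg fun h => this (Finset.mem_of_mem_erase (hm i h)), h1 i fun h => this (h ▸ hb)]
  · congr 1
    refine Finset.prod_congr rfl fun i _ => ?_
    rw [h3, h1 i (Finset.ne_of_mem_erase i.2)]
    exact congrArg pst (if_congr (Finset.mem_map' (Function.Embedding.subtype _)).symm rfl rfl)

theorem df_eq {N : Type} [AddCommGroup N] (x : ℤ → N) (hb : b ∈ J) (h1 : ∀ i, i ≠ b → ρ i = π i)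
    (h2 : ρ b = p) (h3 : ∀ i, π₂ i = ρ' i) :
    df x ((d * ∏ i ∈ Jᶜ, pst (π i)) * pst p) (fun i : J.erase b => π i) π₂ Finset.univ =
      df x d ρ ρ' (J.erase b) := by
  unfold df
  refine Finset.sum_bij (fun t _ => t.map (Function.Embedding.subtype _)) (fun t _ => ?_)
    (fun t _ t' _ h => Finset.map_injective _ h) (fun s hs => ?_) fun t _ => ?_
  · refine Finset.mem_powerset.2 fun i hi => ?_
    obtain ⟨j, -, rfl⟩ := Finset.mem_map.1 hi
    exact j.2
  · exact ⟨s.subtype _, Finset.mem_powerset.2 (Finset.subset_univ _),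
      Finset.subtype_map_of_mem (Finset.mem_powerset.1 hs)⟩
  · rw [vx_eq hb h1 h2 h3, Finset.card_map]

theorem df_ins {N : Type} [AddCommGroup N] (x : ℤ → N) (hb : b ∈ J) :
    df x d ρ ρ' J =
      df x d ρ ρ' (J.erase b) - df x d (Function.update ρ b (ρ' b)) ρ' (J.erase b) := by
  unfold df
  conv_lhs => rw [← Finset.insert_erase hb]
  rw [Finset.sum_powerset_insert (Finset.notMem_erase b J), sub_eq_add_neg,
    ← Finset.sum_neg_distrib]
  congr 1
  refine Finset.sum_congr rfl fun t ht => ?_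
  have h : b ∉ t := fun h => Finset.notMem_erase b J (Finset.mem_powerset.1 ht h)
  rw [Finset.card_insert_of_notMem h, pow_succ, mul_neg_one, neg_smul]
  refine congrArg (fun z => -((-1 : ℤ) ^ t.card • x (d * z))) (Finset.prod_congr rfl fun i _ => ?_)
  by_cases hi : i = b
  · subst hi
    simp [h]
  · simp [hi]

theorem cu {K r : ℕ} {Q : Fin r → ℕ} {P : Fin n → Finset ℕ} (hC : Cell K Q d P) (hb : b ∈ J)
    (hπ : ∀ i, π i ∈ P i) (hp : p ∈ P b) (hρ : ∀ i, ρ' i ∈ P i) (h3 : ∀ i, π₂ i = ρ' i) :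
    Cu K Q ((d * ∏ i ∈ Jᶜ, pst (π i)) * pst p) (fun i : J.erase b => π i) π₂ := by
  refine ⟨fun t => ?_, fun i => ⟨hC.t3 _ _ (hπ i), h3 i ▸ hC.t3 _ _ (hρ i)⟩, fun i => ?_⟩
  · rw [vx_eq (ρ := Function.update π b p) hb (fun i hi => Function.update_of_ne hi _ _)
      (Function.update_self _ _ _) h3]
    refine hC.val _ fun i => ?_
    split_ifs
    · exact hρ i
    · rcases eq_or_ne i b with rfl | hi
      · rwa [Function.update_self]
      · rw [Function.update_of_ne hi]
        exact hπ i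
  · rw [h3]
    exact sim_mul (sim_mul (hC.sim _ _ (hπ i) _ (hρ i)) (in_prod _ fun j => hC.t3 _ _ (hπ j)))
      (in_pst (hC.t3 _ _ hp))

end Cube

theorem cube2_thm (h : CoreStmt) : Cube2Stmt := by
  intro K r Q d n P π π' J a b u y M hC hπ hπ' ha hb hab hK hne hI hM
  have ha' : a ∈ J.erase b := Finset.mem_erase.2 ⟨hab, ha⟩
  have hc : Fintype.card (J.erase b) + 1 = J.card := by
    rw [Fintype.card_coe, Finset.card_erase_add_one hb]
  have hin := Cube.in_prod Jᶜ fun j => hC.t3 _ _ (hπ j)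
  obtain ⟨U, σ, h1, h2, h3⟩ := h K r Q (d * ∏ i ∈ Jᶜ, pst (π i)) (J.erase b) (fun i => π i)
    (fun i => π' i) ⟨a, ha'⟩ (π b) M u y (by omega) (hC.t3 _ _ (hπ b))
    (Cube.cu hC hb hπ (hπ b) hπ' fun _ => rfl)
    (fun i hi => hne i (Finset.mem_of_mem_erase i.2) (fun e => hi (Subtype.ext e))
      (Finset.ne_of_mem_erase i.2)) hI fun v hv hvM => by
      obtain ⟨a1, a2, a3, a4, a5⟩ := hM v hv hvM
      exact ⟨a1, a2, fun hd => ((Nat.prime_iff_prime_int.1 hv).dvd_or_dvd hd).elim a3 (hin v hv),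
        a4, fun i _ => ⟨(a5 i i.2).1, fun hi => (a5 i i.2).2 fun e => hi (Subtype.ext e)⟩⟩
  refine ⟨U, σ, ⟨h1.opn, h1.le.trans (Nat.pow_le_pow_right (by norm_num)
    (Nat.pow_le_pow_right (by norm_num) ?_)), h1.ine⟩, fun p hp => h2 p (hC.t3 _ _ hp),
    fun l hl hlM hz => ?_⟩
  · have := J.card_le_univ
    rw [Fintype.card_fin] at this
    omega
  have e1 : ∀ i : J.erase b, Function.update (fun i : J.erase b => π' i) ⟨a, ha'⟩ l i =
      Function.update π' a l i := fun i => by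
    simp only [Function.update_apply, Subtype.ext_iff]
  have e2 : ∀ i, Function.update π' a l i ∈ P i := fun i => by
    rcases eq_or_ne i a with rfl | hi
    · rwa [Function.update_self]
    · rw [Function.update_of_ne hi]
      exact hπ' i
  obtain ⟨η, h4, h5⟩ := h3 l hlM (Cube.cu hC hb hπ (hπ b) e2 e1) (by
    rw [Cube.df_eq _ hb (fun _ _ => rfl) rfl e1,
      show K - 1 - Fintype.card (J.erase b) = K - J.card by omega]
    exact hz)
  refine ⟨η, h4, fun p hp p' hp' => ?_⟩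
  have e3 : ∀ i : J.erase b, Function.update (fun i : J.erase b => π' i) ⟨a, ha'⟩ l i =
      Function.update (Function.update π' a l) b p' i := fun i => by
    rw [e1, Function.update_of_ne (Finset.ne_of_mem_erase i.2)]
  rw [← h5 p p' (hC.t3 _ _ hp) (hC.t3 _ _ hp') (Cube.sim_mul (hC.sim _ _ (hπ b) _ hp) hin)
    (Cube.sim_mul (hC.sim _ _ hp _ hp') hin) (Cube.cu hC hb hπ hp e2 e1)
    (Cube.cu hC hb hπ hp' e2 e1), Cube.df_ins _ hb, Function.update_self, Function.update_idem,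
    Cube.df_eq (ρ := Function.update π b p) _ hb (fun i hi => Function.update_of_ne hi _ _)
      (Function.update_self _ _ _) e3,
    Cube.df_eq (ρ := Function.update π b p') _ hb (fun i hi => Function.update_of_ne hi _ _)
      (Function.update_self _ _ _) e3,
    show K - 2 - Fintype.card (J.erase b) = K - 1 - J.card by omega]

end Pool.Agent.Lib.MP_d6ddbd_nt.GA
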