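import Pool.Agent.Lib.MP_d6ddbd_nt.GA.Stmt
import Pool.Agent.Lib.MP_d6ddbd_nt.KI.AllX

/-!
A class of level one is detected by the primes of type one.
-/

set_option autoImplicit false
set_option maxSynthPendingDepth 3

open Pool.Agent.Lib.MP_02f36d_nt (xc yc)
open Pool.Agent.Lib.MP_d6ddbd_nt.K11 Pool.Agent.Lib.MP_d6ddbd_nt.KI

noncomputable section

namespace Pool.Agent.Lib.MP_d6ddbd_nt.GA

namespace Det

/-- The automorphisms that fix the points of order two. -/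
def N0 (σ : G) : Prop := ∀ T : Pt, 2 • T = 0 → σ • T = T

theorem add_zero_iff {T U : Pt} (hU : 2 • U = 0) : T + U = 0 ↔ T = U := by
  rw [add_eq_zero_iff_eq_neg, Ep.neg_two hU]

theorem four {T U X : Pt} (hT : 2 • T = 0) (hU : 2 • U = 0) (hX : 2 • X = 0) (h0 : T ≠ 0)
    (h1 : U ≠ 0) (h : T ≠ U) : X = 0 ∨ X = T ∨ X = U ∨ X = T + U := by
  by_contra e
  simp only [not_or] at e
  obtain ⟨a, b, c, d⟩ := e
  have k : ∀ Y : Pt, Y ≠ 0 → X ≠ Y → ep Y X = 1 := fun Y s t => by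
    unfold ep
    rw [if_neg (by rintro (r | r | r); exacts [s r, a r, t r.symm])]
  have := ep_add hT hU hX
  rw [k T h0 b, k U h1 c, k _ (fun r => h ((add_zero_iff hU).1 r)) d] at this
  exact absurd this (by decide)

theorem agree {σ τ : G} {T U : Pt} (hT : 2 • T = 0) (hU : 2 • U = 0) (h0 : T ≠ 0) (h1 : U ≠ 0)
    (h : T ≠ U) (a : σ • T = τ • T) (b : σ • U = τ • U) {X : Pt} (hX : 2 • X = 0) :
    σ • X = τ • X := by
  rcases four hT hU hX h0 h1 h with rfl | rfl | rfl | rfl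
  · rw [smul_zero, smul_zero]
  · exact a
  · exact b
  · rw [smul_add, smul_add, a, b]

theorem cy_sq {ω : G} (h : Cy3 ω) {T : Pt} (hT : 2 • T = 0) : ω • ω • T = T + ω • T := by
  rw [← add_zero_iff (Ep.two_add hT (Ep.two_smul' ω hT)), ← h T hT]
  abel

theorem cy_ne {ω : G} (h : Cy3 ω) {T : Pt} (hT : 2 • T = 0) (h0 : T ≠ 0) : T ≠ ω • T := fun e => by
  have := cy_sq h hT
  rw [← e, ← e] at this
  exact h0 (left_eq_add.1 this)

theorem cy_mul {ω : G} (h : Cy3 ω) : Cy3 (ω * ω) := fun T hT => by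
  have h1 := Ep.two_smul' ω hT
  have h2 := Ep.two_smul' ω h1
  simp only [mul_smul]
  rw [cy_sq h h2, cy_sq h h1, cy_sq h hT]
  have e : T + ω • T + (ω • T + (T + ω • T)) + (T + ω • T) + T = 2 • (2 • T) + 2 • (2 • ω • T) := by
    simp only [two_nsmul]; abel
  rw [e, hT, h1, smul_zero, add_zero]

theorem cy_conj {ω : G} (h : Cy3 ω) (σ : G) : Cy3 (σ⁻¹ * ω * σ) := fun T hT => by
  have := congrArg (σ⁻¹ • ·) (h _ (Ep.two_smul' σ hT))
  simpa only [mul_smul, smul_inv_smul, inv_smul_smul, smul_add, smul_zero] using this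

theorem cy_agree {τ ρ : G} (h : Cy3 τ) (h' : Cy3 ρ) {T : Pt} (hT : 2 • T = 0) (h0 : T ≠ 0)
    (e : τ • T = ρ • T) : N0 (ρ⁻¹ * τ) := fun X hX => by
  rw [mul_smul, inv_smul_eq_iff]
  refine agree hT (Ep.two_smul' ρ hT) h0 (fun r => h0 ((smul_eq_zero' ρ T).1 r)) (cy_ne h' hT h0)
    e ?_ hX
  rw [cy_sq h' hT, ← e, cy_sq h hT]

theorem ex_cj : ∃ T : Pt, 2 • T = 0 ∧ cj • T ≠ T := by
  obtain ⟨-, -, hpt, h2, ⟨e₁, e₂, e₃, hf, -, -, n23, -, c2, -⟩, -⟩ := r1_thm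
  have hx : fc e₂ = 0 := by rw [hf]; ring
  obtain ⟨-, b2, b3⟩ := hpt e₂ 0 (by rw [hx]; ring)
  refine ⟨pt e₂ 0, (h2 _).2 (Or.inr ⟨b3, by rw [b2, hx]⟩), fun h => n23 ?_⟩
  have := congrArg xc h
  rw [xc_smul, b2, c2] at this
  exact this.symm

variable {y : G → Pt}

theorem conj (h : Coc y) {n : G} (hn : N0 n) (g : G) : y (g * n * g⁻¹) = g • y n := by
  have := h.mul (g * n * g⁻¹) g
  rw [inv_mul_cancel_right, h.mul g n, mul_smul, mul_smul, hn _ (Ep.two_smul' _ (h.two g)),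
    smul_inv_smul, add_comm] at this
  exact (add_right_cancel this).symm

theorem N0.conj {n : G} (hn : N0 n) (g : G) : N0 (g * n * g⁻¹) := fun T hT => by
  rw [mul_smul, mul_smul, hn _ (Ep.two_smul' _ hT), smul_inv_smul]

theorem N0.pow {n : G} (hn : N0 n) (a : ℕ) : N0 (n ^ a) := fun T hT => by
  induction a with
  | zero => rw [pow_zero, one_smul]
  | succ a ih => rw [pow_succ, mul_smul, hn T hT, ih]

theorem cob (hN : NormStmt) (h : Coc y) (h0 : ∀ n, N0 n → y n = 0) : Cob y := by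
  obtain ⟨hw, h2, -⟩ := hN
  obtain ⟨S, hS, eS⟩ := (h2 w3 1 1 _ hw (Or.inl rfl) (tor_one.2 (h.two w3))).2
  rw [one_smul] at eS
  have hS := tor_one.1 hS
  obtain ⟨z, hz⟩ : ∃ z : G → Pt, ∀ σ, z σ = y σ - (σ • S - S) := ⟨_, fun _ => rfl⟩
  have zm : ∀ σ τ, z (σ * τ) = z σ + σ • z τ := fun σ τ => by
    rw [hz, hz, hz, h.mul, mul_smul, smul_sub, smul_sub]; abel
  have zw : z w3 = 0 := by rw [hz, eS, sub_self]
  have zn : ∀ ρ τ, z ρ = 0 → N0 (ρ⁻¹ * τ) → z τ = 0 := fun ρ τ a b => by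
    have := zm ρ (ρ⁻¹ * τ)
    rwa [mul_inv_cancel_left, a, hz (ρ⁻¹ * τ), h0 _ b, b S hS, sub_self, sub_self, smul_zero,
      add_zero] at this
  obtain ⟨T, hT, t0⟩ := ex_cj
  have t0 : T ≠ 0 := fun e => t0 (by rw [e, smul_zero])
  have z3 : ∀ τ, Cy3 τ → z τ = 0 := fun τ hτ => by
    rcases four hT (Ep.two_smul' w3 hT) (Ep.two_smul' τ hT) t0
      (fun r => t0 ((smul_eq_zero' w3 T).1 r)) (cy_ne hw hT t0) with e | e | e | e
    · exact absurd ((smul_eq_zero' τ T).1 e) t0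
    · exact absurd e.symm (cy_ne hτ hT t0)
    · exact zn w3 τ zw (cy_agree hτ hw hT t0 e)
    · refine zn (w3 * w3) τ (by rw [zm, zw, smul_zero, add_zero])
        (cy_agree hτ (cy_mul hw) hT t0 ?_)
      rw [e, mul_smul, cy_sq hw hT]
  refine ⟨S, hS, fun σ => sub_eq_zero.1 ((hz σ).symm.trans ?_)⟩
  have t2 : 2 • z σ = 0 := by
    rw [hz, smul_sub, smul_sub, h.two, Ep.two_smul' σ hS, hS, sub_self, sub_self]
  refine (h2 w3 1 1 _ hw (Or.inl rfl) (tor_one.2 t2)).1 ?_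
  have e := zm σ (σ⁻¹ * w3 * σ)
  rw [z3 _ (cy_conj hw σ), smul_zero, add_zero, mul_assoc, mul_inv_cancel_left, zm, zw,
    zero_add] at e
  rw [one_smul, e]

theorem ex_n (hN : NormStmt) (h : Coc y) (hb : ¬ Cob y) : ∃ n, N0 n ∧ cj • y n ≠ y n := by
  by_contra e
  push Not at e
  refine hb (cob hN h fun n hn => by_contra fun h0 => ?_)
  obtain ⟨T, hT, t0⟩ := ex_cj
  have e2 := e _ (hn.conj w3)
  rw [conj h hn] at e2
  refine t0 ((agree (τ := 1) (h.two n) (Ep.two_smul' w3 (h.two n)) h0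
    (fun r => h0 ((smul_eq_zero' w3 _).1 r)) (cy_ne hN.1 (h.two n) h0) ?_ ?_ hT).trans
    (one_smul _ _))
  · rw [one_smul, e n hn]
  · rw [one_smul, e2]

end Det

open Det in
theorem det_thm (hN : NormStmt) : DetStmt := by
  intro y N h hb
  obtain ⟨n, hn, e⟩ := ex_n hN h hb
  obtain ⟨J₁, a₁, b₁⟩ := coc_fn h
  obtain ⟨J₂, a₂, b₂⟩ := ex_tor 1 1
  obtain ⟨J, hJ, m₁, m₂⟩ := a₁.union a₂
  have ag : ∀ σ τ, Ag J σ τ → y σ = y τ ∧ ∀ T : Pt, 2 • T = 0 → σ • T = τ • T := fun σ τ a =>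
    ⟨b₁ σ τ (a.mono m₁), fun T hT => (b₂ σ τ (a.mono m₂)).2 T (tor_one.2 hT)⟩
  obtain ⟨M, hM⟩ := ram_thm J hJ
  obtain ⟨s, hs⟩ : ∃ s, s = cj * n := ⟨_, rfl⟩
  have ss : s * s = cj * n * cj⁻¹ * n := by rw [hs, cj_inv]; group
  have sT : ∀ T : Pt, 2 • T = 0 → s • T = cj • T := fun T hT => by rw [hs, mul_smul, hn T hT]
  have s2 : N0 (s * s) := fun T hT => by rw [ss, mul_smul, hn T hT, hn.conj cj T hT]
  have y2 : y (s * s) ≠ 0 := by
    rw [ss, h.mul, conj h hn, hn.conj cj _ (h.two n)]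
    exact fun r => e ((add_zero_iff (h.two n)).1 r)
  obtain ⟨p, O, φ, a, b, hp, hl, hO, hφ, hab⟩ := vA.2.2.2.1 J s (N + M + 11) hJ
  obtain ⟨T₀, hT₀, t0⟩ := ex_cj
  have f1 : ∀ T : Pt, 2 • T = 0 → φ • T = s ^ a • T :=
    (ag _ _ fun x hx => by simpa using (hab 1 x hx).1).2
  have ha : Odd a := by
    by_contra r
    obtain ⟨k, rfl⟩ := Nat.not_odd_iff_even.1 r
    have f0 : N0 φ := fun T hT => by
      rw [f1 T hT, ← two_mul, pow_mul, pow_two, s2.pow k T hT]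
    refine t0 ?_
    rw [← sT T₀ hT₀, (ag s (φ ^ b) fun x hx => by simpa using (hab 1 x hx).2).2 T₀ hT₀,
      f0.pow b T₀ hT₀]
  obtain ⟨k, rfl⟩ := ha
  have f2 : ∀ T : Pt, 2 • T = 0 → φ • T = cj • T := fun T hT => by
    rw [f1 T hT, pow_succ', pow_mul, pow_two, mul_smul, s2.pow k T hT, sT T hT]
  have f3 : N0 (φ * φ) := fun T hT => by
    rw [mul_smul, f2 T hT, f2 _ (Ep.two_smul' cj hT), ← mul_smul, cj_mul_cj, one_smul]
  have f4 : y (φ * φ) = y (s * s) := by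
    rw [← pow_two, (ag _ _ fun x hx => (hab 2 x hx).1).1, mul_comm, pow_mul, pow_two,
      ((cy_one (c := 1)).2 h).pow_of (fun T hT => by
        rw [tw_two _ _ (tor_one.1 hT), s2 T (tor_one.1 hT)]), add_smul, mul_comm, mul_smul, h.two,
      smul_zero, zero_add, one_smul]
  refine ⟨p, by omega, hp, ?_, fun O' φ' hO' hφ' => ?_⟩
  · refine ((rA.2 p O hp (by omega) (by omega) hO).2.2.2.2.2.2.2 φ hφ).2.1.2
      ⟨fun T hT => by rw [← mul_smul, f3 T hT], T₀, hT₀, by rwa [f2 T₀ hT₀]⟩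
  · obtain ⟨g, hg⟩ := tr_thm.1 p O O' hp hO hO'
    obtain ⟨ψ, hψ⟩ : ∃ ψ, ψ = g⁻¹ * φ' * g := ⟨_, rfl⟩
    have i := hM p O _ hp (by omega) hO (frob_quot hp hO hφ (hψ ▸ hg p φ' hφ'))
    obtain ⟨k1, k2⟩ := ag φ ψ fun x hx => by
      conv_lhs => rw [← i x hx]
      exact φ.apply_symm_apply _
    have k3 : y (ψ * ψ) = y (φ * φ) := by rw [h.mul, h.mul, k1, k2 _ (h.two _)]
    have k4 : N0 (ψ * ψ) := fun T hT => by
      rw [mul_smul, ← k2 T hT, ← k2 _ (Ep.two_smul' φ hT), ← mul_smul, f3 T hT]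
    have k5 : φ' * φ' = g * (ψ * ψ) * g⁻¹ := by rw [hψ]; group
    rw [k5, conj h k4, k3, f4]
    exact fun r => y2 ((smul_eq_zero' g _).1 r)

end Pool.Agent.Lib.MP_d6ddbd_nt.GA
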