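import Pool.Agent.Lib.MP_d6ddbd_nt.GA.Stmt
import Pool.Agent.Lib.MP_d6ddbd_nt.KI.Bas
import Pool.Agent.Lib.MP_d6ddbd_nt.KI.Cm
import Pool.Agent.Lib.MP_d6ddbd_nt.KI.Dk
import Pool.Agent.Lib.MP_d6ddbd_nt.K11.L
import Pool.Agent.Lib.MP_d6ddbd_nt.K11.Two
import Pool.Agent.Lib.MP_d6ddbd_nt.K11.Eleven
import Pool.Agent.Lib.MP_d6ddbd_nt.K11.Good
import Pool.Agent.Lib.MP_d6ddbd_nt.K11.Kum
import Pool.Agent.Lib.MP_d6ddbd_nt.K11.Final

/-!
A bound for the dimension of the Selmer group of level one.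
-/

set_option autoImplicit false

open NumberField
open Pool.Agent.Stark (Pr og SqCl cl cl_mul cl_eq_cl)
open Pool.Agent.Lib.MP_d6ddbd_nt.K11 Pool.Agent.Lib.MP_d6ddbd_nt.KI

noncomputable section

namespace Pool.Agent.Lib.MP_d6ddbd_nt.GA

namespace Dim

variable {L : Type} [Field L] [NumberField L] {θ : L}

/-- Two primes over `l` control the parities at all primes over `l`. -/
theorem two (hθ : Cub θ) {l : ℕ} (hl : l.Prime) (h2 : l ≠ 2) (h11 : l ≠ 11) :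
    ∃ S : Finset (Pr L), S.card ≤ 2 ∧ ∀ α : L, α ≠ 0 → IsSquare (Algebra.norm ℚ α) →
      (∀ 𝔮 ∈ S, Even (og 𝔮 α)) → ∀ 𝔮 ∈ ab L l, Even (og 𝔮 α) := by
  classical
  obtain ⟨-, -, h3, h4, -⟩ := pr_thm L θ hθ
  obtain ⟨-, -, a0, a1, a3, a⟩ := h3 l hl h2 h11
  rcases a with a | a | a
  · obtain ⟨𝔭, e, -⟩ := a0 a
    exact ⟨ab L l, by simp [e], fun _ _ _ h => h⟩
  · obtain ⟨𝔭, 𝔮, -, e, -⟩ := a1 a
    refine ⟨{𝔭, 𝔮}, Finset.card_le_two, fun _ _ _ h 𝔯 hr => h 𝔯 ?_⟩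
    simpa using (e 𝔯).1 hr
  · obtain ⟨c, n⟩ := a3 a
    obtain ⟨𝔭, hp⟩ := Finset.card_pos.1 (show 0 < (ab L l).card by omega)
    refine ⟨(ab L l).erase 𝔭, by rw [Finset.card_erase_of_mem hp]; omega, fun α h0 hs h 𝔮 hq => ?_⟩
    by_cases e : 𝔮 = 𝔭
    · subst e
      have b := (h4 l α hl h0).2 hs
      rw [← Finset.add_sum_erase _ _ hp, n _ hp,
        show Nat.log l l = 1 by simpa using Nat.log_pow hl.one_lt 1, Nat.cast_one, one_mul] at b
      exact (Int.even_add.1 b).2 (Finset.even_sum _ fun 𝔯 hr => (h 𝔯 hr).mul_left _)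
    · exact h 𝔮 (Finset.mem_erase.2 ⟨e, hq⟩)

/-- A set of primes that controls the parities at all primes over `d`. -/
theorem ctl (hθ : Cub θ) {d : ℤ} (hd : Fam d) :
    ∃ S : Finset (Pr L), S.card ≤ 2 * d.natAbs.primeFactors.card ∧
      ∀ α : L, Wc d ∅ α → (∀ 𝔮 ∈ S, Even (og 𝔮 α)) → Wc 1 ∅ α := by
  classical
  have h : ∀ l : ℕ, ∃ S : Finset (Pr L), S.card ≤ 2 ∧ (l.Prime → (l : ℤ) ∣ d → ∀ α : L, α ≠ 0 →
      IsSquare (Algebra.norm ℚ α) → (∀ 𝔮 ∈ S, Even (og 𝔮 α)) →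
      ∀ 𝔮 ∈ ab L l, Even (og 𝔮 α)) := fun l => by
    by_cases a : l.Prime ∧ (l : ℤ) ∣ d
    · have h2 : l ≠ 2 := by
        rintro rfl
        have := hd.m4
        have := a.2
        omega
      have h11 : l ≠ 11 := by
        rintro rfl
        exact hd.n11 a.2
      obtain ⟨S, b, c⟩ := two hθ a.1 h2 h11
      exact ⟨S, b, fun _ _ => c⟩
    · exact ⟨∅, by simp, fun b c => absurd ⟨b, c⟩ a⟩
  choose S hS hS' using h
  refine ⟨d.natAbs.primeFactors.biUnion S, ?_, fun α w e => ⟨w.ne, w.sq, w.two, fun p hp _ hB => ?_⟩⟩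
  · refine Finset.card_biUnion_le.trans ?_
    rw [mul_comm]
    exact Finset.sum_le_card_nsmul _ _ _ fun l _ => hS l
  · by_cases a : (p : ℤ) ∣ d
    · refine hS' p hp a α w.ne w.sq fun 𝔮 hq => e 𝔮 (Finset.mem_biUnion.2 ⟨p, ?_, hq⟩)
      exact Nat.mem_primeFactors.2 ⟨hp, Int.natCast_dvd.1 a, Int.natAbs_ne_zero.2 hd.sf.ne_zero⟩
    · exact w.ev p hp a hB

theorem sel_rep {d : ℤ} {r : ℕ} {β : Fin r → G → Pt} (h : ∀ i, Sel d 1 ∅ (β i))
    (a : Fin r → ZMod 2) : Sel d 1 ∅ (rep β a) :=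
  (SelS d 1 ∅).sum_mem fun i _ => (h i).nat _

theorem rep_add {d : ℤ} {r : ℕ} {β : Fin r → G → Pt} (h : ∀ i, Sel d 1 ∅ (β i))
    (a a' : Fin r → ZMod 2) : rep β (a + a') = rep β a + rep β a' := by
  unfold rep
  rw [← Finset.sum_add_distrib]
  refine Finset.sum_congr rfl fun i _ => ?_
  have t : β i + β i = 0 := funext fun σ => by
    rw [Pi.add_apply, ← two_nsmul]; exact (h i).two σ
  have z : ∀ x : ZMod 2, x = 0 ∨ x = 1 := by decide
  have v1 : (1 : ZMod 2).val = 1 := rfl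
  have v2 : (1 + 1 : ZMod 2).val = 0 := rfl
  rw [Pi.add_apply]
  rcases z (a i) with e | e <;> rcases z (a' i) with e' | e' <;> rw [e, e'] <;>
    simp [v1, v2, t]

theorem lA : LStmt :=
  have h := pf_thm pr_thm
  l_thm pr_thm h (two_thm pr_thm h) (eleven_thm pr_thm h) (good_thm pr_thm h) (locd_thm pr_thm h)

theorem kA : KumStmt := kum_thm vA rA pr_thm

theorem fam_one : Fam 1 := ⟨squarefree_one, by norm_num, by norm_num⟩

end Dim

open Dim

theorem dim_thm : DimStmt := by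
  classical
  obtain ⟨L, _, _, θ, hθ⟩ := Final.exists_cub
  have fin := ((lA L θ hθ 1 fam_one).2.2 ∅ (by simp)).2.2.1
  have fin' : Finite (WS L 1 ∅) := Module.finite_of_finite (ZMod 2)
  refine ⟨Nat.card (WS L 1 ∅), fun d r β hd hβ hind => ?_⟩
  obtain ⟨S, hS, hS'⟩ := ctl hθ hd
  have hm := ((lA L θ hθ d hd).2.2 ∅ (by simp)).1
  choose α a0 asq ak using fun a => (kA L θ hθ).1 _ (sel_rep hβ a).coc
  have aw : ∀ a, Wc d ∅ (α a) := fun a =>
    (dk_thm L θ hθ d ∅ (α a) _ hd (by simp) (by simp) (by simp) (a0 a) (asq a) (sel_rep hβ a).coc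
      (ak a) (sel_rep hβ a).kl).1
  have inj : ∀ a a', cl (α a) = cl (α a') → a = a' := fun a a' e => by
    have k := Cm.kum_mul pr_thm hθ (a0 a) (a0 a') (sel_rep hβ a).coc (sel_rep hβ a').coc (ak a)
      (ak a')
    rw [← rep_add hβ] at k
    have s := sel_rep hβ (a + a')
    have c := ((kA L θ hθ).2 _ _ (mul_ne_zero (a0 a) (a0 a')) s.coc k).1
      ((cl_eq_cl (a0 a) (a0 a')).1 e)
    have z := hind _ ((cb_cob_iff s.two).2 c)
    funext i
    have zi := congrFun z i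
    have w : ∀ x y : ZMod 2, x + y = 0 → x = y := by decide
    exact w _ _ zi
  let f : (Fin r → ZMod 2) → S → ZMod 2 := fun a 𝔮 => (og 𝔮.1 (α a) : ZMod 2)
  have c1 := Finset.card_le_mul_card_image_of_maps_to (s := Finset.univ) (t := Finset.univ) (f := f)
    (fun _ _ => Finset.mem_univ _) (Nat.card (WS L 1 ∅)) fun b _ => by
      rcases (Finset.univ.filter fun a => f a = b).eq_empty_or_nonempty with e | ⟨a₀, h₀⟩
      · simp [e]
      have m : ∀ a : (Finset.univ.filter fun a => f a = b), cl (α a * α a₀) ∈ WS L 1 ∅ := by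
        rintro ⟨a, h⟩
        refine Submodule.subset_span ⟨_, hS' _ (hm _ _ (aw a) (aw a₀)).1 fun 𝔮 hq => ?_, rfl⟩
        have e := congrFun ((Finset.mem_filter.1 h).2.trans (Finset.mem_filter.1 h₀).2.symm) ⟨𝔮, hq⟩
        rw [show og 𝔮 (α a * α a₀) = og 𝔮 (α a) + og 𝔮 (α a₀) from
          Pool.Agent.Stark.ord_mul (a0 a) (a0 a₀), ← ZMod.intCast_eq_zero_iff_even, Int.cast_add]
        have w : ∀ x y : ZMod 2, x = y → x + y = 0 := by decide
        exact w _ _ e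
      rw [← Nat.card_eq_finsetCard]
      refine Nat.card_le_card_of_injective (fun a => (⟨_, m a⟩ : WS L 1 ∅)) fun a a' e => ?_
      have e' := congrArg Subtype.val e
      simp only [cl_mul (a0 _) (a0 _), add_left_inj] at e'
      exact Subtype.ext (inj _ _ e')
  simp only [Finset.card_univ, Fintype.card_fun, ZMod.card, Fintype.card_fin,
    Fintype.card_coe] at c1
  have c2 : 2 ^ r ≤ 2 ^ (Nat.card (WS L 1 ∅) + S.card) := by
    rw [pow_add]
    exact c1.trans (Nat.mul_le_mul_right _ Nat.lt_two_pow_self.le)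
  have := (Nat.pow_le_pow_iff_right (by norm_num)).1 c2
  omega

end Pool.Agent.Lib.MP_d6ddbd_nt.GA
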