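import Pool.Agent.Lib.MP_d6ddbd_nt.GA.Stmt
import Pool.Agent.Lib.MP_d6ddbd_nt.KI.Bas

/-!
Divisibility of the alternating sums of the normalised cocycles on a cube.
-/

set_option autoImplicit false
set_option maxSynthPendingDepth 3

open Pool.Agent.Lib.MP_d6ddbd_nt.K11 Pool.Agent.Lib.MP_d6ddbd_nt.KI
open Pool.Agent.Lib.MP_d6ddbd_nt.GF (pst)

noncomputable section

namespace Pool.Agent.Lib.MP_d6ddbd_nt.GA

namespace Div

theorem cq_fin {α : Type} (s : Finset α) (f : α → ℤ) (h : ∀ i, f i ≠ 0) (σ : G) :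
    cq (∏ i ∈ s, f i) σ = ∏ i ∈ s, cq (f i) σ := by
  classical
  induction s using Finset.induction_on with
  | empty => exact cq_of (c := 1) one_ne_zero (s := 1) (by simp) (by simp)
  | insert i s hi ih =>
    rw [Finset.prod_insert hi, Finset.prod_insert hi,
      cq_prod (h i) (Finset.prod_ne_zero_iff.2 fun j _ => h j), ih]

theorem val_prod {α : Type} (s : Finset α) (f : α → ZMod 2) :
    (∏ i ∈ s, f i).val = ∏ i ∈ s, (f i).val := by
  classical
  have h : ∀ a b : ZMod 2, (a * b).val = a.val * b.val := by decide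
  induction s using Finset.induction_on with
  | empty => rfl
  | insert i s hi ih => rw [Finset.prod_insert hi, Finset.prod_insert hi, h, ih]

theorem pst_ne {p : ℕ} (h : T3 p) : pst p ≠ 0 :=
  mul_ne_zero (pow_ne_zero _ (by norm_num)) (Nat.cast_ne_zero.2 h.pr.ne_zero)

theorem dvd_pst {p v : ℕ} (h : T3 p) (hv : v.Prime) (e : (v : ℤ) ∣ pst p) : nr v = 0 := by
  have h1 : (v : ℤ) ∣ p := ((isUnit_neg_one.pow _).dvd_mul_left).1 e
  rw [(Nat.prime_dvd_prime_iff_eq hv h.pr).1 (Int.natCast_dvd_natCast.1 h1)]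
  exact h.ty

theorem fn_pi {α X : Type} [Finite α] {f : G → α → X} (h : ∀ a, Fn fun σ => f σ a) : Fn f := by
  classical
  have := Fintype.ofFinite α
  choose J a b using h
  refine ⟨Finset.univ.biUnion J, fun x hx => ?_, fun σ τ e => funext fun i => b i σ τ fun x hx =>
    e x (Finset.mem_biUnion.2 ⟨i, Finset.mem_univ i, hx⟩)⟩
  obtain ⟨i, -, hi⟩ := Finset.mem_biUnion.1 hx
  exact a i x hi

theorem kl_sum {α : Type} {c : ℤ} {O : ValuationSubring ℂ} {v : ℕ} (s : Finset α)
    (f : α → G → Pt) (h : ∀ a ∈ s, Kl c O v (f a)) : Kl c O v (∑ a ∈ s, f a) :=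
  Finset.sum_induction f (Kl c O v) (fun _ _ => Kl.add) (kl_zero c O v) h

theorem cy_sum {α : Type} {c : ℤ} {k : ℕ} (s : Finset α) (f : α → G → Pt)
    (h : ∀ a ∈ s, Cy c k (f a)) : Cy c k (∑ a ∈ s, f a) :=
  Finset.sum_induction f (Cy c k) (fun _ _ => Cy.add) (cy_zero c k) h

variable {K r : ℕ} {Q : Fin r → ℕ}

theorem bs_xb (hB : BasStmt) (hK : K ≠ 0) {c : ℤ} (h : Val K Q c) (l : Fin r) :
    Bs K Q c (Pi.single l 1) (xb K Q c l) := Classical.epsilon_spec (hB K r Q c hK h _)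

theorem bs_xu (hB : BasStmt) (hK : K ≠ 0) {c : ℤ} (h : Val K Q c) (u : Fin r → ZMod 2) :
    Bs K Q c (fun i => (u i).val) (xu K Q u c) := by
  have b := bs_xb hB hK h
  refine ⟨⟨cy_sum _ _ fun l _ => (b l).rel.cy.nat _, fun v O h1 h2 h3 =>
    kl_sum _ _ fun l _ => ((b l).rel.kl v O h1 h2 h3).nat _⟩, ?_, fun i => ?_⟩
  · simp only [xu, Finset.sum_apply, Pi.smul_apply, fun l => (b l).nm, smul_zero,
      Finset.sum_const_zero]
  · simp only [xu, Finset.sum_apply, Pi.smul_apply, fun l => (b l).fin i]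
    rw [Finset.sum_eq_single i (fun l _ e => by rw [Pi.single_eq_of_ne e.symm, zero_smul, smul_zero])
      (by simp), Pi.single_eq_same, one_smul, natCast_zsmul]

variable {d : ℤ} {ι : Type} [Fintype ι] [DecidableEq ι] {π π' : ι → ℕ}

theorem vx_empty (d : ℤ) (π π' : ι → ℕ) : vx d π π' ∅ = dd d π := by simp [vx, dd]

theorem df_apply (x : ℤ → G → Pt) (S : Finset ι) (σ : G) :
    df x d π π' S σ = ∑ t ∈ S.powerset, (-1 : ℤ) ^ t.card • x (vx d π π' t) σ := by
  simp only [df, Finset.sum_apply, Pi.smul_apply]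

variable (hC : Cu K Q d π π')

include hC

theorem t3_ite (t : Finset ι) (i : ι) : T3 (if i ∈ t then π' i else π i) := by
  split_ifs
  exacts [(hC.t3 i).2, (hC.t3 i).1]

theorem dvd_vx {v : ℕ} (hv : v.Prime) (hn : nr v ≠ 0) (t : Finset ι) :
    (v : ℤ) ∣ vx d π π' t ↔ (v : ℤ) ∣ d := by
  have hp := Nat.prime_iff_prime_int.1 hv
  refine ⟨fun h => (hp.dvd_or_dvd h).resolve_right fun e => ?_, fun h => h.mul_right _⟩
  obtain ⟨i, -, hi⟩ := (hp.dvd_finsetProd_iff _).1 e
  exact hn (dvd_pst (t3_ite hC t i) hv hi)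

theorem bad_vx {v : ℕ} (hv : v.Prime) (t t' : Finset ι) :
    Bad (vx d π π' t) v ↔ Bad (vx d π π' t') v :=
  or_congr_right (or_congr_right (and_congr_left fun hn =>
    (dvd_vx hC hv hn t).trans (dvd_vx hC hv hn t').symm))

/-- The characters at the vertices. -/
theorem cq_vx (t : Finset ι) (σ : G) :
    cq (vx d π π' t) σ = cq (dd d π) σ * ∏ i ∈ t, (1 - 2 * ((psi π π' i σ).val : ℤ)) := by
  have d0 : d ≠ 0 := left_ne_zero_of_mul (hC.val ∅).sf.ne_zero
  have h1 := fun i => pst_ne (hC.t3 i).1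
  have h2 := fun i => pst_ne (t3_ite hC t i)
  have h3 : ∀ i, cq (pst (if i ∈ t then π' i else π i)) σ = cq (pst (π i)) σ *
      if i ∈ t then 1 - 2 * ((psi π π' i σ).val : ℤ) else 1 := fun i => by
    split_ifs
    · rw [psi, ← cq_ps, cq_prod (h1 i) (pst_ne (hC.t3 i).2), ← mul_assoc, cq_sq, one_mul]
    · rw [mul_one]
  rw [vx, dd, cq_prod d0 (Finset.prod_ne_zero_iff.2 fun i _ => h2 i),
    cq_prod d0 (Finset.prod_ne_zero_iff.2 fun i _ => h1 i), cq_fin _ _ h1, cq_fin _ _ h2]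
  simp only [h3, Finset.prod_mul_distrib, Finset.prod_ite_mem, Finset.univ_inter, mul_assoc]

theorem cq_vx_of {σ : G} (h : ∀ i, psi π π' i σ = 0) (t : Finset ι) :
    cq (vx d π π' t) σ = cq (dd d π) σ := by
  simp [cq_vx hC, h]

theorem ch (hS : SqStmt) (t : Finset ι) (i : ι) : Ch Q (vx d π π' t) (psi π π' i) :=
  (hS.2 _ _ (hC.t3 i).1 (hC.t3 i).2).2.2.2 K r Q d _ (hC.val t).kg (hC.sim i)
    fun _ hv h hn => (dvd_vx hC hv hn t).1 h

/-- The cocycle relation for the alternating sums. -/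
theorem df_mul (hM : MobStmt) {k : ℕ} {x : ℤ → G → Pt}
    (hx : ∀ t, Cy (vx d π π' t) k (x (vx d π π' t))) (S : Finset ι) (σ τ : G) :
    df x d π π' S (σ * τ) = df x d π π' S σ + ∑ R ∈ S.powerset,
      (∏ i ∈ S \ R, 2 * ((psi π π' i σ).val : ℤ)) • tw (vx d π π' R) σ (df x d π π' R τ) := by
  have h := congrArg (twh (dd d π) σ) (hM ι Pt (fun i => (psi π π' i σ).val)
    (fun t => x (vx d π π' t) τ) S)
  simp only [map_sum, map_zsmul, twh_apply] at h
  simp only [df_apply, fun t => (hx t).mul σ τ, smul_add, Finset.sum_add_distrib]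
  congr 1
  refine (Finset.sum_congr rfl fun t _ => ?_).trans (h.trans (Finset.sum_congr rfl fun R _ => ?_))
  · rw [tw, tw, cq_vx hC, mul_comm, mul_smul]
  · rw [← twh_apply, map_sum, mul_comm, mul_smul]
    simp only [map_zsmul, twh_apply, tw, cq_vx hC R, Finset.smul_sum]
    refine Finset.sum_congr rfl fun t _ => ?_
    generalize σ • x (vx d π π' t) τ = T
    module

variable {u : Fin r → ℤ} {x : ℤ → G → Pt} (hx : ∀ t, Bs K Q (vx d π π' t) u (x (vx d π π' t)))

include hx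

omit hC in
theorem df_fn (S : Finset ι) : Fn (df x d π π' S) :=
  Finset.sum_induction _ Fn (fun _ _ a b => a.map₂ b (· + ·)) (fn_const 0)
    fun t _ => (hx t).rel.cy.fn.map (((-1 : ℤ) ^ t.card) • ·)

omit hC in
theorem df_w3 (S : Finset ι) : df x d π π' S w3 = 0 := by
  simp only [df_apply, fun t => (hx t).nm, smul_zero, Finset.sum_const_zero]

theorem df_kl (hS : SqStmt) (S t₀ : Finset ι) {v : ℕ} {O : ValuationSubring ℂ} (hv : v.Prime)
    (hb : Bad (vx d π π' t₀) v) (hO : Ov O v) : Kl (vx d π π' t₀) O v (df x d π π' S) := by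
  have hn : v ∉ qs Q := fun h => by
    obtain ⟨i, -, rfl⟩ := Finset.mem_image.1 h
    rcases hb with e | e | e
    exacts [((hC.val t₀).kg i).n2 e, ((hC.val t₀).kg i).n11 e, (hC.val t₀).nd i e.1]
  refine kl_sum _ _ fun t _ => (((hx t).rel.kl v O hv hn hO).congr fun σ hσ => ?_).z _
  have h := fun i => (ch hC hS t₀ i).bad v O σ hv (.inl hb) hO hσ
  rw [cq_vx_of hC h, cq_vx_of hC h]

theorem df_un (hU : UnStmt) (S t₀ : Finset ι) {v : ℕ} {O : ValuationSubring ℂ} {σ : G}
    (hv : v.Prime) (hb : ¬ Bad (vx d π π' t₀) v) (hq : v ∉ qs Q) (hn : nr v ≠ 0) (hO : Ov O v)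
    (hσ : Frob O 1 σ) : df x d π π' S σ = 0 := by
  rw [df_apply]
  refine Finset.sum_eq_zero fun t _ => ?_
  rw [(hU (vx d π π' t) K v O _ σ hv (fun e => hb (.inl e)) (fun e => hb (.inr (.inl e)))
    (fun e => hb ((bad_vx hC hv t t₀).1 (.inr (.inr ⟨e, hn⟩)))) hO hσ).2.2 ((hx t).rel.cy.tor σ)
    ((hx t).rel.kl v O hv hq hO), smul_zero]

theorem df_ff (hL : LdStmt) (hS : SqStmt) (hK : K ≠ 0) {S : Finset ι} (h0 : S ≠ ∅) (i : Fin r) :
    df x d π π' S (ff K (Q i)) = 0 := by
  have o := (hL K _ hK ((hC.val ∅).kg i)).pl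
  have h := fun j => (ch hC hS ∅ j).bad _ _ _ o.pr
    (.inr (Finset.mem_image_of_mem Q (Finset.mem_univ i))) o.ov (wl_frob o.fr)
  simp only [df_apply, fun t => (hx t).fin i, cq_vx_of hC h]
  rw [← Finset.sum_smul, Finset.sum_powerset_neg_one_pow_card_of_nonempty
    (Finset.nonempty_iff_ne_empty.2 h0), zero_smul]

/-- The divisibility for a family of normalised cocycles. -/
theorem df_div (hL : LdStmt) (hS : SqStmt) (hU : UnStmt) (hR : GA.RelStmt) (hI : InjStmt)
    (hM : MobStmt) (hK : K ≠ 0) (S : Finset ι) : 2 ^ (K - S.card) • df x d π π' S = 0 := by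
  have tor : ∀ (S : Finset ι) σ, 2 ^ K • df x d π π' S σ = 0 := fun S σ => by
    rw [df_apply, Finset.smul_sum]
    exact Finset.sum_eq_zero fun t _ => by rw [smul_comm, (hx t).rel.cy.tor, smul_zero]
  induction S using Finset.strongInduction with
  | H S ih =>
    rcases eq_or_ne S ∅ with rfl | h0
    · exact funext (tor ∅)
    refine (hI K r Q _ hK (hC.val S)).2.2 K _ (hR _ K _ _ (cy_of (fun σ => ?_) (fun σ τ => ?_)
      ((df_fn hx S).map ((2 ^ (K - S.card)) • ·))) (fun v O a b e => (df_kl hC hx hS S S a b e).nat _)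
      fun v O σ a b e f g h => ?_) ?_ fun i => ?_
    · rw [Pi.smul_apply, smul_comm, tor, smul_zero]
    · simp only [Pi.smul_apply]
      rw [df_mul hC hM (fun t => (hx t).rel.cy), smul_add, Finset.smul_sum,
        Finset.sum_eq_single_of_mem S (Finset.mem_powerset_self S) fun R hR e => ?_,
        Finset.sdiff_self, Finset.prod_empty, one_smul, tw_n]
      have h1 := Finset.mem_powerset.1 hR
      have h2 : 2 ^ (K - S.card + (S \ R).card) • df x d π π' R τ = 0 :=
        tor_mono (by rw [Finset.card_sdiff_of_subset h1]; have := Finset.card_le_card h1; omega)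
          (congrFun (ih R (Finset.ssubset_iff_subset_ne.2 ⟨h1, e⟩)) τ)
      rw [Finset.prod_mul_distrib, Finset.prod_const, mul_comm, mul_smul, smul_comm,
        show (2 : ℤ) ^ (S \ R).card = (2 ^ (S \ R).card : ℕ) by norm_cast, natCast_zsmul,
        ← mul_smul, ← pow_add, tw_tor _ _ h2, smul_zero]
    · rw [Pi.smul_apply, df_un hC hx hU S S a b e f g h, smul_zero]
    · rw [Pi.smul_apply, df_w3 hx, smul_zero]
    · rw [Pi.smul_apply, df_ff hC hx hL hS hK h0, smul_zero]

end Div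

open GA.Div in
theorem div_thm (hL : LdStmt) (hS : SqStmt) (hU : UnStmt) (hR : GA.RelStmt) (hI : InjStmt)
    (hB : BasStmt) (hM : MobStmt) : DivStmt := by
  intro K r Q d ι _ _ π π' hK hC
  refine ⟨fun i => vx_empty d π π' ▸ ch hC hS ∅ i, fun l S =>
    df_div hC (fun t => bs_xb hB hK (hC.val t) l) hL hS hU hR hI hM hK S, fun u hc => ?_⟩
  have hx := fun t => bs_xu hB hK (hC.val t) u
  have le : ∀ S : Finset ι, S.card < K := fun S => (Finset.card_le_univ S).trans_lt hc
  have two : ∀ σ S, 2 • ph K (xu K Q u) d π π' σ S = 0 := fun σ S => by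
    rw [ph, ← mul_smul, ← pow_succ', show K - 1 - S.card + 1 = K - S.card by have := le S; omega]
    exact congrFun (df_div hC hx hL hS hU hR hI hM hK S) σ
  rw [← vx_empty d π π']
  refine ⟨⟨fun σ => funext (two σ), fn_pi fun S => (df_fn hx S).map ((2 ^ (K - 1 - S.card)) • ·),
    fun v O S a b e => (df_kl hC hx hS S ∅ a b e).nat _, fun v O σ a b e f g h => funext fun S => ?_⟩,
    fun σ τ => funext fun S => ?_, fun i S => ?_⟩
  · rw [ph, df_un hC hx hU S ∅ a b e f g h, smul_zero, Pi.zero_apply]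
  · rw [Pi.add_apply, ph, df_mul hC hM (fun t => (hx t).rel.cy), smul_add, Finset.smul_sum, act]
    refine congrArg _ (Finset.sum_congr rfl fun R hR => ?_)
    have h1 := Finset.mem_powerset.1 hR
    rw [← tw_two (vx d π π' R) σ (two τ R), ph, tw_n, val_prod, Finset.prod_mul_distrib,
      Finset.prod_const, show K - 1 - R.card = K - 1 - S.card + (S \ R).card by
        rw [Finset.card_sdiff_of_subset h1]; have := Finset.card_le_card h1; have := le S; omega,
      ← Nat.cast_prod, show (2 : ℤ) ^ (S \ R).card = (2 ^ (S \ R).card : ℕ) by norm_cast,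
      ← Nat.cast_mul, natCast_zsmul, ← mul_smul, ← mul_smul, pow_add]
    congr 1
    ring
  · split_ifs with h0
    · subst h0
      have h1 : ∀ a : ZMod 2, a = 0 ∨ a = 1 := by decide
      rw [ph, df_apply, Finset.powerset_empty, Finset.sum_singleton, (hx ∅).fin, Finset.card_empty,
        pow_zero, one_smul, Nat.sub_zero]
      rcases h1 (u i) with e | e <;> rw [e]
      · simp [nz]
      · rw [show ((1 : ZMod 2).val : ℤ) = 1 from rfl, one_smul]
        exact if_neg ((hL K _ hK ((hC.val ∅).kg i)).ne _)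
    · rw [ph, df_ff hC hx hL hS hK h0, smul_zero]
      exact if_pos rfl

end Pool.Agent.Lib.MP_d6ddbd_nt.GA
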