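import Pool.Agent.Lib.MP_d6ddbd_nt.GA.Stmt
import Pool.Agent.Lib.MP_d6ddbd_nt.KI.Basis
import Pool.Agent.Lib.MP_d6ddbd_nt.KI.Fr
import Pool.Agent.Lib.MP_d6ddbd_nt.KI.Gd
import Pool.Agent.Lib.MP_d6ddbd_nt.KI.Le
import Pool.Agent.Lib.MP_d6ddbd_nt.KI.Tr

/-!
Selmer groups of the quadratic twists of `X₀(11)` on cubes of primes: the dual Selmer group
vanishes.
-/

set_option autoImplicit false
set_option maxSynthPendingDepth 3

open Pool.Agent.Lib.MP_d6ddbd_nt.K11 Pool.Agent.Lib.MP_d6ddbd_nt.KI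
open Pool.Agent.Lib.MP_d6ddbd_nt.GF (pst)

noncomputable section

namespace Pool.Agent.Lib.MP_d6ddbd_nt.GA

namespace Ds

variable {x y : G → Pt}

theorem lc (h : Coc x) (O : ValuationSubring ℂ) (v : ℕ) : Lc 1 1 O v x :=
  have k : Cy 1 1 x := cy_one.2 h
  ⟨fun σ _ => k.tor σ, fun σ τ _ _ => k.mul σ τ, k.fn.on _⟩

theorem rel_rep {c : ℤ} {n : Finset ℕ} {r : ℕ} {β : Fin r → G → Pt} (h : ∀ i, Rel c 1 n (β i))
    (a : Fin r → ZMod 2) : Rel c 1 n (rep β a) :=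
  Finset.sum_induction _ (Rel c 1 n)
    (fun _ _ a b => ⟨a.cy.add b.cy, fun v O s t u => (a.kl v O s t u).add (b.kl v O s t u)⟩)
    ⟨cy_zero c 1, fun v O _ _ _ => kl_zero c O v⟩
    fun i _ => ⟨(h i).cy.nat _, fun v O s t u => ((h i).kl v O s t u).nat _⟩

theorem rep_sub {r : ℕ} {β : Fin r → G → Pt} (h : ∀ i σ, 2 • β i σ = 0) (a a' : Fin r → ZMod 2) :
    rep β (a - a') = rep β a - rep β a' := by
  have z : ∀ u : ZMod 2, u = 0 ∨ u = 1 := by decide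
  rw [rep, rep, rep, ← Finset.sum_sub_distrib]
  refine Finset.sum_congr rfl fun i _ => ?_
  have t : -β i = β i := funext fun σ => Ep.neg_two (h i σ)
  rw [Pi.sub_apply]
  rcases z (a i) with u | u <;> rcases z (a' i) with v | v <;> simp [u, v, ZMod.val_one, t]

theorem fix_cj (hx : Coc x) : cj • x cj = x cj := by
  have := hx.mul cj cj
  rw [cj_mul_cj, ((cy_one (c := 1)).2 hx).one, eq_comm, add_eq_zero_iff_neg_eq,
    Ep.neg_two (hx.two cj)] at this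
  exact this.symm

theorem ep_z {T : Pt} (h : 2 • T = 0) (a : ℤ) : ep (a • T) T = 0 := by
  have t : (2 : ℤ) • T = 0 := by rw [← h, ← natCast_zsmul]; rfl
  obtain ⟨b, rfl | rfl⟩ := Int.even_or_odd' a
  · rw [mul_comm, mul_smul, t, smul_zero, ep_zero]
  · rw [add_smul, mul_comm, mul_smul, t, smul_zero, zero_add, one_smul, ep_self]

/-- The cup product of two cocycles splits at infinity. -/
theorem cup_cj (hx : Coc x) (hy : Coc y) : cup x y cj cj = cup x y 1 1 := by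
  rw [cup_one hx, cup, fix_cj hy]
  rcases (fr_thm 1 cj 1 (Or.inl rfl) (fun T _ => by rw [← mul_smul, cj_mul_cj, one_smul])
    BasisA.mv).2 1 (x cj) (y cj) (tor_one.2 (hx.two cj)) (tor_one.2 (hy.two cj))
    (by rw [fix_cj hx]) (by rw [fix_cj hy]) with ⟨a, e⟩ | ⟨a, e⟩
  · rw [e, ep_z (hy.two cj)]
  · rw [e, ep_comm, ep_z (hx.two cj)]

/-- The cup product of two unramified cocycles splits. -/
theorem sp_unr {v : ℕ} {O : ValuationSubring ℂ} (hv : v.Prime) (h2 : v ≠ 2) (h11 : v ≠ 11)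
    (hO : Ov O v) (hx : Coc x) (hy : Coc y) (ix : ∀ σ, Frob O 1 σ → x σ = 0)
    (iy : ∀ σ, Frob O 1 σ → y σ = 0) : Sp O v (cup x y) := by
  refine unr_thm v O _ hv hO (cup_c2 hx hy) fun n n' σ σ' τ τ' a a' b b' => ?_
  have i := vA.2.1.2.2.1 O v n _ _ hv hO a a'
  have j := vA.2.1.2.2.1 O v n' _ _ hv hO b b'
  rw [← mul_inv_cancel_left σ σ', ← mul_inv_cancel_left τ τ']
  generalize σ⁻¹ * σ' = i' at i
  generalize τ⁻¹ * τ' = j' at j
  rw [cup, cup, hx.mul, hy.mul, ix _ i, iy _ j, smul_zero, smul_zero, add_zero, add_zero, mul_smul,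
    ine_tor hv h2 h11 hO i (tor_one.2 (hy.two τ))]

theorem nz_eq {T T' : Pt} (h : T = 0 ∨ T' = 0 ∨ T = T') (e : nz T = nz T') : T = T' := by
  unfold nz at e
  by_cases a : T = 0 <;> by_cases b : T' = 0 <;> simp_all

end Ds

open Ds in
theorem ds_thm (hL : LdStmt) (hR : RecNStmt) (hQ : LqStmt) (hU : UnStmt) (hI : InjStmt)
    (hD : DetStmt) : DsStmt := by
  classical
  intro K r Q d hK hV y P hy hP hS hun
  by_contra hc
  have d0 : 0 < d.natAbs := Int.natAbs_pos.2 hV.sf.ne_zero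
  obtain ⟨p, hN, pp, p1, hp⟩ := hD y (22 * d.natAbs + ∑ i, Q i) hy hc
  have pd : ¬ (p : ℤ) ∣ 22 * d := fun h => by
    have h' : p ∣ 22 * d.natAbs := by simpa [Int.natAbs_mul] using Int.natCast_dvd.1 h
    have := Nat.le_of_dvd (by omega) h'
    omega
  have pQ : p ∉ qs Q := fun h => by
    obtain ⟨i, -, e⟩ := Finset.mem_image.1 h
    have := Finset.single_le_sum (f := Q) (fun i _ => Nat.zero_le (Q i)) (Finset.mem_univ i)
    omega
  have gd : ∀ v : ℕ, ¬ (v : ℤ) ∣ 22 * d → v ≠ 2 ∧ v ≠ 11 ∧ ¬ (v : ℤ) ∣ d := fun v h =>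
    ⟨fun e => h (e ▸ Dvd.dvd.mul_right (by norm_num) d),
      fun e => h (e ▸ Dvd.dvd.mul_right (by norm_num) d), fun e => h (e.mul_left 22)⟩
  obtain ⟨p2, p11, pd'⟩ := gd p pd
  obtain ⟨i1, i2, -⟩ := hI K r Q d hK hV
  obtain ⟨β, b1, b2⟩ := hV.gw (insert p (qs Q)) fun q hq => by
    rcases Finset.mem_insert.1 hq with rfl | hq
    · exact ⟨pp, p2, p11, pd', p1⟩
    · obtain ⟨i, -, rfl⟩ := Finset.mem_image.1 hq
      exact ⟨(hV.kg i).pr, (hV.kg i).n2, (hV.kg i).n11, hV.nd i, (hV.kg i).ty⟩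
  have cd : (insert p (qs Q)).card = r + 1 := by
    rw [Finset.card_insert_of_notMem pQ, qs, Finset.card_image_of_injective _ i1, Finset.card_univ,
      Fintype.card_fin]
  obtain ⟨a, a', ne, e⟩ := Fintype.exists_ne_map_eq_of_card_lt
    (fun (a : Fin (insert p (qs Q)).card → ZMod 2) (i : Fin r) => nz (rep β a (ff K (Q i)))) (by
      simp only [Fintype.card_fun, ZMod.card, Fintype.card_fin, cd]
      exact Nat.pow_lt_pow_right one_lt_two r.lt_succ_self)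
  obtain ⟨x, hx⟩ : ∃ x, x = rep β (a - a') := ⟨_, rfl⟩
  have xr : Rel d 1 (insert p (qs Q)) x := hx ▸ rel_rep b1 _
  have xc := xr.cy.coc
  have xf : ∀ i, x (ff K (Q i)) = 0 := fun i => by
    obtain ⟨q1, q2, -⟩ := hQ _ _ _ _ (hL K (Q i) hK (hV.kg i)).pl
    have c := (rel_rep b1 a).cy.coc
    have c' := (rel_rep b1 a').cy.coc
    rw [hx, rep_sub fun i => (b1 i).cy.two, Pi.sub_apply, sub_eq_zero]
    exact nz_eq (q2 _ _ (c.two _) (c'.two _) (q1 _ (lc c _ _)).2.1 (q1 _ (lc c' _ _)).2.1)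
      (congrFun e i)
  have o := hP p pp
  obtain ⟨f, hf⟩ := ex_frob pp o
  obtain ⟨j, hj, mv⟩ := ex_ine_pst pp o
  obtain ⟨q1, -, q3⟩ := hQ p (P p) f j ⟨pp, p2, p11, p1, o, hf, hj, mv⟩
  have xj : x j ≠ 0 := fun h => by
    have k : Kl d (P p) p x := gd_thm d 1 p x (P p) pp p2 p11 o xr.cy
      (fun σ hσ => (hU d 1 p (P p) x σ pp p2 p11 pd' o hσ).1) ((q1 x (lc xc _ _)).2.2 h)
    refine ne (sub_eq_zero.1 (b2 _ (hx ▸ i2 x ⟨xr.cy, fun v O hv hn hO => ?_⟩ xf)))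
    by_cases e : v = p
    · subst e
      exact tr_thm.2.1 d 1 v x (P v) O xr.cy hv o hO k
    · exact xr.kl v O hv (by simp [e, hn]) hO
  have rc := hR.2 (cup y x) {p} P (cup_c2 hy xc) (cup_cj hy xc) hP (by simpa using pp)
    fun v hv hn => by
      have vp : v ≠ p := by simpa using hn
      by_cases h1 : v ∈ qs Q
      · exact hS v x hv xc (Or.inl h1)
      have k := xr.kl v (P v) hv (by simp [vp, h1]) (hP v hv)
      by_cases h2 : (v : ℤ) ∣ 22 * d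
      · exact hS v x hv xc (Or.inr ⟨h2, k⟩)
      obtain ⟨v2, v11, vd⟩ := gd v h2
      exact sp_unr hv v2 v11 (hP v hv) hy xc (fun σ hσ => hun v σ hv h2 h1 hσ) fun σ hσ =>
        (hU d 1 v (P v) x σ hv v2 v11 vd (hP v hv) hσ).2.2 (xr.cy.tor σ) k
  rw [Finset.sum_singleton, q3 Unit (fun _ => y) (fun _ => x) _ (fun _ => ⟨lc hy _ _, lc xc _ _⟩)
    fun σ τ _ _ => by simp] at rc
  simp [nz, xj, hp (P p) f o hf, hun p j pp pd pQ hj] at rc

end Pool.Agent.Lib.MP_d6ddbd_nt.GA
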