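import Pool.Agent.Lib.MP_d6ddbd_nt.GA.Stmt
import Pool.Agent.Lib.MP_d6ddbd_nt.KI.AllX
import Pool.Agent.Lib.MP_d6ddbd_nt.KI.Rev

/-!
From classes of the cubic field to relaxed Selmer cocycles, and the lower bound for their number.
-/

set_option autoImplicit false
set_option maxSynthPendingDepth 3

open NumberField
open Pool.Agent.Stark (SqCl cl cl_mul cl_eq_zero)
open Pool.Agent.Lib.MP_d6ddbd_nt.K11 Pool.Agent.Lib.MP_d6ddbd_nt.KI

noncomputable section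

namespace Pool.Agent.Lib.MP_d6ddbd_nt.GA

theorem relof_thm : RelOfStmt := by
  intro L _ _ θ hθ d B α hd h hb _
  obtain ⟨ξ, a, b⟩ := Cm.inv_kum pr_thm hθ h.ne h.sq
  refine ⟨ξ, ⟨cy_one.2 a, fun p O hp hn hO =>
    Rev.loc hθ hd.sf.ne_zero h.ne h.sq a b hp hO ?_⟩, b⟩
  by_cases n : (p : ℤ) ∣ d
  · exact ((locdAll L θ hθ d p hd hp n).2.2.2 α h.ne h.sq).2 fun 𝔭 h4 h5 =>
      hb 𝔭 ((K11.L.mem_D1 pr_thm hθ hd).2 ⟨p, hp, n, h4, h5⟩)
  by_cases e2 : p = 2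
  · exact e2 ▸ ((two_thm pr_thm pfAll L θ hθ).2.2.2.2 d α hd.m4 h.ne h.sq).2 h.two
  have h1 := h.ev p hp n hn
  by_cases e11 : p = 11
  · subst e11
    exact (eleven_thm pr_thm pfAll L θ hθ d α hd.n11 h.ne h.sq).2 h1
  · exact (good_thm pr_thm pfAll L θ hθ d p α hp e2 e11 n h.ne h.sq).2 h1

namespace Gw

variable {L : Type} [Field L] [NumberField L] {θ : L}

theorem comb (hθ : Cub θ) {r : ℕ} (x : Fin r → L) (ξ : Fin r → G → Pt) (h0 : ∀ i, x i ≠ 0)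
    (hc : ∀ i, Coc (ξ i)) (hk : ∀ i, Kum θ (x i) (ξ i)) (a : Fin r → ZMod 2) (s : Finset (Fin r)) :
    Coc (∑ i ∈ s, (a i).val • ξ i) ∧ ∃ y : L, y ≠ 0 ∧ Kum θ y (∑ i ∈ s, (a i).val • ξ i) ∧
      cl y = ∑ i ∈ s, a i • cl (x i) := by
  induction s using Finset.induction_on with
  | empty =>
    refine ⟨Cm.coc_zero, 1, one_ne_zero, fun e s σ hs _ => ?_,
      (cl_eq_zero one_ne_zero).2 IsSquare.one⟩
    rw [map_one, sq_eq_one_iff] at hs
    rcases hs with rfl | rfl <;> simp [R1.wl0]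
  | insert i s hi ih =>
    obtain ⟨c, y, y0, y1, y2⟩ := ih
    rw [Finset.sum_insert hi, Finset.sum_insert hi]
    rcases Pool.Agent.Stark.zmod2_cases (a i) with e | e <;> rw [e]
    · rw [ZMod.val_zero, zero_smul, zero_smul, zero_add, zero_add]
      exact ⟨c, y, y0, y1, y2⟩
    · rw [ZMod.val_one, one_smul, one_smul]
      exact ⟨Cm.coc_add (hc i) c, x i * y, mul_ne_zero (h0 i) y0,
        Cm.kum_mul pr_thm hθ (h0 i) y0 (hc i) c (hk i) y1, by rw [cl_mul (h0 i) y0, y2]⟩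

theorem ex_rep {d : ℤ} {B : Finset ℕ} (hm : ∀ x y : L, Wc d B x → Wc d B y → Wc d B (x * y))
    {c : SqCl L} (hc : c ∈ WS L d B) : ∃ x, Wc d B x ∧ cl x = c := by
  have c1 : cl (1 : L) = 0 := (cl_eq_zero one_ne_zero).2 IsSquare.one
  induction hc using Submodule.span_induction with
  | mem c h => exact h
  | zero => exact ⟨1, Asm.wc_one d B, c1⟩
  | add c c' _ _ h h' =>
    obtain ⟨x, a, rfl⟩ := h
    obtain ⟨y, b, rfl⟩ := h'
    exact ⟨x * y, hm x y a b, cl_mul a.ne b.ne⟩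
  | smul t c _ h =>
    rcases Pool.Agent.Stark.zmod2_cases t with rfl | rfl
    · exact ⟨1, Asm.wc_one d B, by rw [zero_smul, c1]⟩
    · rwa [one_smul]

end Gw

theorem gw_thm : GwStmt := by
  refine fun d hd => ⟨fun B hB => ?_, fun r B μ T h1 h2 h3 =>
    surjAll.1 0 1 ∅ d r B μ T one_ne_zero (fun w hw => absurd hw (Finset.notMem_empty w)) hd.n11
      h1 h2 h3⟩
  obtain ⟨L, _, _, θ, hθ⟩ := Final.exists_cub
  obtain ⟨-, hU, hL⟩ := lAll L θ hθ d hd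
  obtain ⟨m1, m2, m3, m4⟩ := hL B hB
  have hW : ∀ c : WS L d B, ∃ x, Wc d B x ∧ cl x = c.1 := fun c =>
    Gw.ex_rep (fun x y a b => (m1 x y a b).1) c.2
  let φ : WS L d B →ₗ[ZMod 2] UU L d := LinearMap.codRestrict (UU L d)
    (LinearMap.pi fun 𝔭 : D1 L d => (Asm.lin (Asm.ad_bv θ d 𝔭.1)).comp (WS L d B).subtype)
    fun c => by
      obtain ⟨x, hx, e⟩ := hW c
      change (fun 𝔭 : D1 L d => Asm.lin (Asm.ad_bv θ d 𝔭.1) c.1) ∈ _
      simp only [← e, Asm.lin_cl _ hx.ne]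
      exact (m2 x hx).2.1
  have k1 := φ.finrank_range_add_finrank_ker
  have k2 := (LinearMap.range φ).finrank_le
  obtain ⟨v, hv⟩ := exists_linearIndependent_of_le_finrank (R := ZMod 2) (M := LinearMap.ker φ)
    (n := B.card) (by omega)
  choose x x1 x2 using fun i => hW (v i).1
  have x3 : ∀ i, ∀ 𝔭 ∈ D1 L d, bv θ d 𝔭 (x i) = 0 := fun i 𝔭 h => by
    rw [← Asm.lin_cl (Asm.ad_bv θ d 𝔭) (x1 i).ne, x2]
    exact congrFun (congrArg Subtype.val (v i).2) ⟨𝔭, h⟩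
  choose ξ a b using fun i => relof_thm L θ hθ d B (x i) hd (x1 i) (x3 i) fun p hp =>
    ⟨(hB p hp).2.1, (hB p hp).2.2.1, (hB p hp).2.2.2.1⟩
  refine ⟨ξ, a, fun u hu => ?_⟩
  obtain ⟨c, y, y0, y1, y2⟩ :=
    Gw.comb hθ x ξ (fun i => (x1 i).ne) (fun i => (a i).cy.coc) b u Finset.univ
  rw [(cl_eq_zero y0).2 (((kumAll L θ hθ).2 y _ y0 c y1).2 ((cb_cob_iff c.two).1 hu))] at y2
  refine funext (Fintype.linearIndependent_iff.1 hv u (Subtype.ext (Subtype.ext ?_)))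
  simpa [x2] using y2.symm

end Pool.Agent.Lib.MP_d6ddbd_nt.GA
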