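import Pool.Agent.Lib.MP_d6ddbd_nt.GA.Stmt
import Pool.Agent.Lib.MP_d6ddbd_nt.KI.Basis
import Pool.Agent.Lib.MP_d6ddbd_nt.KI.Cm1
import Pool.Agent.Lib.MP_d6ddbd_nt.KI.Fr
import Pool.Agent.Lib.MP_d6ddbd_nt.KI.Gd
import Pool.Agent.Lib.MP_d6ddbd_nt.KI.Tr

/-!
A relaxed Selmer cocycle is determined by its finite parts at the auxiliary primes.
-/

set_option autoImplicit false
set_option maxSynthPendingDepth 3

open NumberField
open Pool.Agent.Lib.MP_d6ddbd_nt.K11 Pool.Agent.Lib.MP_d6ddbd_nt.KI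
open Pool.Agent.Lib.MP_d6ddbd_nt.GF (pst)

noncomputable section

namespace Pool.Agent.Lib.MP_d6ddbd_nt.GA

namespace Inj

/-- The value of a cocycle at complex conjugation is fixed by it. -/
theorem fix_cj {z : G → Pt} (h : Coc z) : cj • z cj = z cj := by
  have e := h.mul cj cj
  rw [cj_mul_cj, ((cy_one (c := 1)).2 h).one] at e
  have t := h.two cj
  rw [two_nsmul] at t
  exact add_left_cancel (e.symm.trans t.symm)

theorem ep_z (a : ℤ) {T : Pt} (h : 2 • T = 0) : ep (a • T) T = 0 := by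
  have e : ∀ b : ℤ, (2 * b) • T = 0 := fun b => by
    rw [mul_comm, mul_smul, two_zsmul, ← two_nsmul, h, smul_zero]
  obtain ⟨b, rfl | rfl⟩ := Int.even_or_odd' a
  · rw [e, ep_zero]
  · rw [add_smul, e, zero_add, one_smul, ep_self]

/-- Points of order two that are fixed by complex conjugation are orthogonal. -/
theorem ep_cj {T U : Pt} (hT : 2 • T = 0) (hU : 2 • U = 0) (a : cj • T = T) (b : cj • U = U) :
    ep T U = 0 := by
  rcases (fr_thm 1 cj 1 (Or.inl rfl) (fun T _ => by rw [← mul_smul, cj_mul_cj, one_smul])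
    BasisA.mv).2 1 T U (tor_one.2 hT) (tor_one.2 hU) (by rw [a]) (by rw [b]) with ⟨c, e⟩ | ⟨c, e⟩
  · rw [e]; exact ep_z c hU
  · rw [e, ep_comm]; exact ep_z c hT

/-- The cup product splits at infinity. -/
theorem cup_cj {x y : G → Pt} (hx : Coc x) (hy : Coc y) : cup x y cj cj = cup x y 1 1 := by
  rw [cup_one hx, cup, fix_cj hy]
  exact ep_cj (hx.two _) (hy.two _) (fix_cj hx) (fix_cj hy)

theorem lc {c : ℤ} {x : G → Pt} (h : Cy c 1 x) (O : ValuationSubring ℂ) (v : ℕ) : Lc 1 1 O v x :=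
  have h' : Cy 1 1 x := cy_one.2 h.coc
  ⟨fun σ _ => h'.tor σ, fun σ τ _ _ => h'.mul σ τ, h'.fn.on _⟩

theorem nz_zero : nz 0 = 0 := if_pos rfl

theorem nz_eq_zero {T : Pt} : nz T = 0 ↔ T = 0 := by
  unfold nz; split_ifs with h <;> simp [h]

variable {K r : ℕ} {Q : Fin r → ℕ} {d : ℤ}

theorem mem_qs {v : ℕ} : v ∈ qs Q ↔ ∃ i, Q i = v := by simp [qs]

theorem inj (hV : Val K Q d) : Function.Injective Q := fun i l e => by
  obtain ⟨x, -, h⟩ := hV.sur l
  have a := h i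
  rw [e, h l, if_pos rfl] at a
  by_contra n
  rw [if_neg n] at a
  exact one_ne_zero a

/-- Places that extend the chosen ones. -/
theorem ex_pl (hL : LdStmt) (hK : K ≠ 0) (hQ : ∀ i, Kg K (Q i)) :
    ∃ P : ℕ → ValuationSubring ℂ, (∀ v : ℕ, v.Prime → Ov (P v) v) ∧
      ∀ i, P (Q i) = (ld K (Q i)).O := by
  classical
  choose! O hO using fun (v : ℕ) (hv : v.Prime) => ex_ov hv
  refine ⟨fun v => if v ∈ qs Q then (ld K v).O else O v, fun v hv => ?_,
    fun i => if_pos (mem_qs.2 ⟨i, rfl⟩)⟩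
  dsimp only
  split_ifs with h
  · obtain ⟨i, rfl⟩ := mem_qs.1 h
    exact (hL K _ hK (hQ i)).pl.ov
  · exact hO v hv

/-- A relaxed class of level one without singular parts is a Selmer class. -/
theorem sel (hL : LdStmt) (hQ : LqStmt) (hU : UnStmt) (hK : K ≠ 0) (hV : Val K Q d) {x : G → Pt}
    (hx : Rel d 1 (qs Q) x) (h : ∀ i, x (io K (Q i)) = 0) : Sel d 1 ∅ x := by
  refine ⟨hx.cy, fun v O hv _ hO => ?_, fun p hp => absurd hp (Finset.notMem_empty p)⟩
  by_cases hn : v ∈ qs Q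
  · obtain ⟨i, rfl⟩ := mem_qs.1 hn
    have p := (hL K _ hK (hV.kg i)).pl
    exact tr_thm.2.1 d 1 _ x _ O hx.cy hv p.ov hO (gd_thm d 1 _ x _ hv p.n2 p.n11 p.ov hx.cy
      (fun σ hσ => (hU d 1 _ _ x σ hv p.n2 p.n11 (hV.nd i) p.ov hσ).1)
      (((hQ _ _ _ _ p).1 x (lc hx.cy _ _)).2.2 (h i)))
  · exact hx.kl v O hv hn hO

theorem one (hL : LdStmt) (hR : RecNStmt) (hQ : LqStmt) (hU : UnStmt) (hK : K ≠ 0)
    (hV : Val K Q d) {x : G → Pt} (hx : Rel d 1 (qs Q) x) (h0 : ∀ i, x (ff K (Q i)) = 0) :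
    Cb d x := by
  refine hV.inj x (sel hL hQ hU hK hV hx fun l => ?_) h0
  obtain ⟨P, hP, hP'⟩ := ex_pl hL hK hV.kg
  obtain ⟨y, hy, hy'⟩ := hV.sur l
  have s := hR.2 (cup x y) (qs Q) P (cup_c2 hx.cy.coc hy.coc) (cup_cj hx.cy.coc hy.coc) hP
    (fun v hv => by obtain ⟨i, rfl⟩ := mem_qs.1 hv; exact (hV.kg i).pr)
    fun v hv hn => isoH_thm d v _ x y hV.sf.ne_zero hv (hP v hv) hx.cy.two hy.two
      (hx.kl v _ hv hn (hP v hv)) (hy.kl v _ hv (Finset.notMem_empty v) (hP v hv))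
  have e : ∀ i, iv (P (Q i)) (Q i) (cup x y) = if i = l then nz (x (io K (Q i))) else 0 :=
    fun i => by
      have a := (hQ _ _ _ _ (hL K _ hK (hV.kg i)).pl).2.2 Unit (fun _ => x) (fun _ => y) (cup x y)
        (fun _ => ⟨lc hx.cy _ _, lc hy.cy _ _⟩) fun σ τ _ _ => by simp
      have b := h0 i
      have c := hy' i
      rw [ff] at b c
      rw [hP', a, Fintype.sum_unique, b, c, nz_zero, zero_mul, zero_add, mul_ite, mul_one,
        mul_zero, io]
  rw [qs, Finset.sum_image fun i _ j _ e => inj hV e, Finset.sum_congr rfl fun i _ => e i,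
    Finset.sum_ite_eq', if_pos (Finset.mem_univ l)] at s
  exact nz_eq_zero.1 s

end Inj

theorem inj_thm (hN : NormStmt) (hL : LdStmt) (hR : RecNStmt) (hQ : LqStmt) (hU : UnStmt) :
    InjStmt := fun K r Q d hK hV => by
  refine ⟨Inj.inj hV, fun x => Inj.one hL hR hQ hU hK hV, fun k => ?_⟩
  induction k with
  | zero => exact fun x h _ _ => funext fun σ => by simpa using h.cy.tor σ
  | succ k ih =>
    intro x h hw h0
    have a : Rel d 1 (qs Q) (2 ^ k • x) :=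
      ⟨h.cy.pow, fun v O hv hn hO => (h.kl v O hv hn hO).nat _⟩
    have b : 2 ^ k • x = 0 := hN.2.2.1 d 1 _ a.cy
      (Inj.one hL hR hQ hU hK hV a fun i => by rw [Pi.smul_apply, h0, smul_zero])
      (by rw [Pi.smul_apply, hw, smul_zero])
    exact ih x ⟨h.cy.of_tor fun σ => congrFun b σ, h.kl⟩ hw h0

end Pool.Agent.Lib.MP_d6ddbd_nt.GA
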