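import Pool.Agent.Lib.MP_d6ddbd_nt.GA.Stmt
import Pool.Agent.Lib.MP_d6ddbd_nt.KI.Bas

/-!
Selmer groups of the quadratic twists of `X₀(11)` on cubes of primes: validity does not change when
the inert primes move in their classes.
-/

set_option autoImplicit false
set_option maxSynthPendingDepth 3

open Pool.Agent.Lib.MP_d6ddbd_nt.K11 Pool.Agent.Lib.MP_d6ddbd_nt.KI
open Pool.Agent.Lib.MP_d6ddbd_nt.GF (pst)

noncomputable section

namespace Pool.Agent.Lib.MP_d6ddbd_nt.GA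

namespace Inv

/-- Two twists that agree at the bad primes. -/
structure Ev (c c' : ℤ) : Prop where
  dv : ∀ v : ℕ, v.Prime → nr v ≠ 0 → ((v : ℤ) ∣ c ↔ (v : ℤ) ∣ c')
  cq : ∀ (v : ℕ) O (σ : G), v.Prime → Bad c v → Ov O v → Wl O v σ → cq c σ = cq c' σ

variable {c c' : ℤ} {n : Finset ℕ} {x : G → Pt}

theorem Ev.bad (h : Ev c c') {v : ℕ} (hv : v.Prime) : Bad c v ↔ Bad c' v :=
  or_congr_right (or_congr_right (and_congr_left fun e => h.dv v hv e))

theorem Ev.symm (h : Ev c c') : Ev c' c :=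
  ⟨fun v a b => (h.dv v a b).symm, fun v O σ a b e f => (h.cq v O σ a ((h.bad a).2 b) e f).symm⟩

theorem Ev.rel (h : Ev c c') (hR : GA.RelStmt) (hU : UnStmt) (hn : ∀ v ∈ n, ¬ Bad c v)
    (hx : Rel c 1 n x) : Rel c' 1 n x := by
  refine hR c' 1 n x (cy_one.2 hx.cy.coc) (fun v O hv hb hO => ?_) fun v O σ hv hb e f hO hσ => ?_
  · have hb' := (h.bad hv).2 hb
    exact (hx.kl v O hv (fun e => hn v e hb') hO).congr fun σ hσ => h.cq v O σ hv hb' hO hσ
  · have hb' : ¬ Bad c v := fun a => hb ((h.bad hv).1 a)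
    exact (hU c 1 v O x σ hv (fun a => hb' (Or.inl a)) (fun a => hb' (Or.inr (Or.inl a)))
      (fun a => hb' (Or.inr (Or.inr ⟨a, f⟩))) hO hσ).2.2 (hx.cy.tor σ) (hx.kl v O hv e hO)

theorem Ev.sel (h : Ev c c') (hR : GA.RelStmt) (hU : UnStmt) (hx : Sel c 1 ∅ x) : Sel c' 1 ∅ x :=
  have := h.rel hR hU (n := ∅) (fun _ a => absurd a (Finset.notMem_empty _)) ⟨hx.cy, hx.kl⟩
  ⟨this.cy, this.kl, fun _ a => absurd a (Finset.notMem_empty _)⟩

theorem rep_two {r : ℕ} {B : Fin r → G → Pt} (h : ∀ i σ, 2 • B i σ = 0) (a : Fin r → ZMod 2)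
    (σ : G) : 2 • rep B a σ = 0 := by
  rw [rep, Finset.sum_apply, Finset.smul_sum]
  exact Finset.sum_eq_zero fun i _ => by rw [Pi.smul_apply, smul_comm, h, smul_zero]

theorem Ev.val (h : Ev c c') (hR : GA.RelStmt) (hU : UnStmt) {K r : ℕ} {Q : Fin r → ℕ}
    (hV : Val K Q c) (hs : Squarefree c') : Val K Q c' where
  sf := hs
  gw B hB := by
    have e : ∀ p ∈ B, ¬ (p : ℤ) ∣ c := fun p hp a =>
      (hB p hp).2.2.2.1 ((h.dv p (hB p hp).1 (by rw [(hB p hp).2.2.2.2]; norm_num)).1 a)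
    obtain ⟨β, h1, h2⟩ := hV.gw B fun p hp =>
      ⟨(hB p hp).1, (hB p hp).2.1, (hB p hp).2.2.1, e p hp, (hB p hp).2.2.2.2⟩
    refine ⟨β, fun i => h.rel hR hU (fun p hp a => ?_) (h1 i), fun a ha =>
      h2 a (ha.swap (rep_two (fun i => (h1 i).cy.two) a) c)⟩
    rcases a with a | a | a
    exacts [(hB p hp).2.1 a, (hB p hp).2.2.1 a, e p hp a.1]
  sj r' B μ T h1 h2 hT :=
    hV.sj r' B μ T (fun i => ⟨cy_one.2 (h1 i).1.coc, fun O hO => ((h1 i).2 O hO).congr fun σ hσ =>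
      (h.cq 11 O σ (by norm_num) (Or.inr (Or.inl rfl)) hO hσ).symm⟩)
      (fun a ha => h2 a (ha.swap (rep_two (fun i => (h1 i).1.two) a) c')) hT
  kg := hV.kg
  nd i a := hV.nd i ((h.dv _ (hV.kg i).pr (by rw [(hV.kg i).ty]; norm_num)).2 a)
  inj x hx e := (hV.inj x (h.symm.sel hR hU hx) e).swap hx.two c'
  sur l :=
    let ⟨x, a, b⟩ := hV.sur l
    ⟨x, h.sel hR hU a, b⟩

theorem pst_ne {p : ℕ} (hp : p.Prime) : pst p ≠ 0 :=
  mul_ne_zero (pow_ne_zero _ (by norm_num)) (by exact_mod_cast hp.ne_zero)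

theorem dv_dd {d : ℤ} {ι : Type} [Fintype ι] {π : ι → ℕ} (h : ∀ i, T3 (π i)) {v : ℕ}
    (hv : v.Prime) (e : nr v ≠ 0) : (v : ℤ) ∣ dd d π ↔ (v : ℤ) ∣ d := by
  refine ⟨fun a => ?_, fun a => a.mul_right _⟩
  have hp := Nat.prime_iff_prime_int.1 hv
  refine (hp.dvd_or_dvd a).resolve_right fun b => ?_
  obtain ⟨i, -, hi⟩ := hp.exists_mem_finset_dvd b
  rcases hp.dvd_or_dvd hi with f | f
  · exact hp.not_unit (isUnit_of_dvd_unit f (isUnit_one.neg.pow _))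
  · have := (Nat.prime_dvd_prime_iff_eq hv (h i).pr).1 (Int.natCast_dvd_natCast.1 f)
    exact e (this ▸ (h i).ty)

theorem cq_fin {ι : Type} (s : Finset ι) (a : ι → ℤ) (h : ∀ i, a i ≠ 0) (σ : G) :
    cq (∏ i ∈ s, a i) σ = ∏ i ∈ s, cq (a i) σ := by
  classical
  induction s using Finset.induction_on with
  | empty =>
    rw [Finset.prod_empty, Finset.prod_empty]
    exact cq_of one_ne_zero (s := 1) (by simp) (by simp)
  | insert i s hi ih =>
    rw [Finset.prod_insert hi, Finset.prod_insert hi,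
      cq_prod (h i) (Finset.prod_ne_zero_iff.2 fun j _ => h j), ih]

end Inv

open Inv in
theorem inv_thm (hS : SqStmt) (hR : GA.RelStmt) (hU : UnStmt) : InvStmt := by
  intro K r Q d ι _ π π' hV hs h
  have hd : d ≠ 0 := left_ne_zero_of_mul hs.ne_zero
  have h1 : ∀ i, pst (π i) ≠ 0 := fun i => pst_ne (h i).1.pr
  have h2 : ∀ i, pst (π' i) ≠ 0 := fun i => pst_ne (h i).2.1.pr
  refine Ev.val ⟨fun v hv e => ?_, fun v O σ hv hb hO hσ => ?_⟩ hR hU hV hs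
  · rw [dv_dd (fun i => (h i).1) hv e, dv_dd (fun i => (h i).2.1) hv e]
  · have hb' : v = 2 ∨ (v : ℤ) ∣ 11 * d ∧ nr v ≠ 0 := by
      rcases hb with a | a | a
      · exact Or.inl a
      · subst a
        exact Or.inr ⟨dvd_mul_right _ _, hS.1⟩
      · exact Or.inr ⟨((dv_dd (fun i => (h i).1) hv a.2).1 a.1).mul_left _, a.2⟩
    rw [dd, dd, cq_prod hd (Finset.prod_ne_zero_iff.2 fun j _ => h1 j),
      cq_prod hd (Finset.prod_ne_zero_iff.2 fun j _ => h2 j), cq_fin _ _ h1, cq_fin _ _ h2]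
    congr 1
    refine Finset.prod_congr rfl fun i _ => ?_
    have e := ((hS.2 _ _ (h i).1 (h i).2.1).2.2.1 _ (h i).2.2).2 v O σ hv hb' hO hσ
    rw [ps_zero, cq_prod (h1 i) (h2 i)] at e
    linear_combination cq (pst (π' i)) σ * e - cq (pst (π i)) σ * cq_sq (pst (π' i)) σ

end Pool.Agent.Lib.MP_d6ddbd_nt.GA
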