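import Pool.Agent.Lib.MP_d6ddbd_nt.GA.Stmt
import Pool.Agent.Lib.MP_d6ddbd_nt.KI.Bas

/-!
The matrix of the singular parts is even, and Selmer classes give kernel vectors.
-/

set_option autoImplicit false
set_option maxSynthPendingDepth 3

open Matrix
open Pool.Agent.Lib.MP_d6ddbd_nt.K11 Pool.Agent.Lib.MP_d6ddbd_nt.KI

noncomputable section

namespace Pool.Agent.Lib.MP_d6ddbd_nt.GA

namespace Ker

/-- The relaxed Selmer cocycles as a subgroup. -/
def RS (c : ℤ) (k : ℕ) (n : Finset ℕ) : AddSubgroup (G → Pt) where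
  carrier := {x | Rel c k n x}
  zero_mem' := ⟨cy_zero c k, fun v O _ _ _ => kl_zero c O v⟩
  add_mem' := fun h h' =>
    ⟨h.cy.add h'.cy, fun v O a b e => (h.kl v O a b e).add (h'.kl v O a b e)⟩
  neg_mem' := fun h => ⟨h.cy.neg, fun v O a b e => (h.kl v O a b e).neg⟩

theorem rel_mono {c : ℤ} {k : ℕ} {x : G → Pt} (h : Rel c k ∅ x) (n : Finset ℕ) : Rel c k n x :=
  ⟨h.cy, fun v O a _ e => h.kl v O a (Finset.notMem_empty v) e⟩

/-- The points of level `K`. -/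
def tK (K : ℕ) : AddSubgroup Pt where
  carrier := {S | 2 ^ K • S = 0}
  zero_mem' := smul_zero _
  add_mem' := fun {a b} h h' => by
    change 2 ^ K • (a + b) = 0
    rw [smul_add, h, h', add_zero]
  neg_mem' := fun {a} h => by
    change 2 ^ K • (-a) = 0
    rw [smul_neg, h, neg_zero]

theorem mu_sum {K q r : ℕ} {D : LD K} (h : D.Ok q) (a : Fin r → ℤ) (S : Fin r → Pt)
    (hS : ∀ l, 2 ^ K • S l = 0) (h0 : ∑ l, a l • S l = 0) : ∑ l, D.mu (S l) * a l = 0 := by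
  let μ : tK K →+ ZMod (2 ^ K) := AddMonoidHom.mk' (fun T => D.mu T) fun T T' => h.add _ _ T.2 T'.2
  have e : (∑ l, a l • (⟨S l, hS l⟩ : tK K)) = 0 := Subtype.ext (by simpa using h0)
  have := congrArg μ e
  rw [map_sum, map_zero] at this
  rw [← this]
  refine Finset.sum_congr rfl fun l _ => ?_
  rw [map_zsmul, zsmul_eq_mul, mul_comm]
  rfl

theorem bit_cast {K : ℕ} (hK : K ≠ 0) (a : ℤ) : bit 0 (a : ZMod (2 ^ K)) = (a : ZMod 2) := by
  have h : 2 ∣ 2 ^ K := dvd_pow_self 2 hK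
  rw [bit, pow_zero, Nat.div_one, ZMod.natCast_val]
  exact map_intCast (ZMod.castHom h (ZMod 2)) a

theorem top_two {K : ℕ} (hK : K ≠ 0) {T : Pt} (h : 2 ^ K • T = 0) : 2 • 2 ^ (K - 1) • T = 0 := by
  rwa [← mul_smul, ← pow_succ', Nat.sub_add_cancel (Nat.pos_of_ne_zero hK)]

variable {K r : ℕ} {Q : Fin r → ℕ} {d : ℤ}

theorem norm (hN : NormStmt) (hL : LdStmt) (hU : UnStmt) (hK : K ≠ 0) (h : Val K Q d) {k : ℕ}
    (hk : k ≤ K) {x : G → Pt} (hx : Sel d k ∅ x) : ∃ x', Rel d k (qs Q) x' ∧ x' w3 = 0 ∧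
      ∀ i, x' (ff K (Q i)) = x (ff K (Q i)) ∧ x' (io K (Q i)) = 0 := by
  obtain ⟨S, hS, h1, h2⟩ := hN.2.2.2 d k ∅ x ⟨hx.cy, hx.kl⟩
  refine ⟨_, rel_mono h1 _, h2, fun i => ?_⟩
  have o := hL K (Q i) hK (h.kg i)
  refine ⟨?_, (hU d k (Q i) _ _ _ o.pl.pr o.pl.n2 o.pl.n11 (h.nd i) o.pl.ov o.pl.ine).2.2
    (h1.cy.tor _) (h1.kl _ _ o.pl.pr (Finset.notMem_empty _) o.pl.ov)⟩
  rw [Pi.sub_apply, ff, tw_sq, o.sq S (tor_mono hk hS), sub_self, sub_zero]

theorem xb_spec (hB : BasStmt) (hK : K ≠ 0) (h : Val K Q d) (l : Fin r) :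
    Bs K Q d (Pi.single l 1) (xb K Q d l) := Classical.epsilon_spec (hB K r Q d hK h _)

theorem top_zero (hN : NormStmt) (hL : LdStmt) (hQ : LqStmt) (hU : UnStmt) (hI : InjStmt)
    (hB : BasStmt) (hK : K ≠ 0) (h : Val K Q d) (i l : Fin r) :
    2 ^ (K - 1) • xb K Q d l (io K (Q i)) = 0 := by
  have b := xb_spec hB hK h l
  obtain ⟨β, h1, h2⟩ := h.sur l
  obtain ⟨x, h3, h4, h5⟩ := norm hN hL hU hK h (Nat.pos_of_ne_zero hK) h1
  have h6 : Rel d 1 (qs Q) (2 ^ (K - 1) • xb K Q d l) :=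
    ⟨(b.rel.cy.nat _).of_tor fun σ => tor_one.2 (top_two hK (b.rel.cy.tor σ)),
      fun v O a e f => (b.rel.kl v O a e f).nat _⟩
  have h7 := (hI K r Q d hK h).2.2 1 _ ((RS d 1 (qs Q)).sub_mem h6 h3)
    (by rw [Pi.sub_apply, Pi.smul_apply, b.nm, h4, smul_zero, sub_self]) fun j => by
      have o := hL K (Q j) hK (h.kg j)
      have e := h2 j
      rw [Pi.sub_apply, Pi.smul_apply, b.fin, (h5 j).1, sub_eq_zero]
      by_cases hj : j = l
      · subst hj
        rw [if_pos rfl] at e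
        rw [Pi.single_eq_same, one_smul]
        have t1 := top_two hK (o.tor (cq d (ld K (Q j)).f))
        have t2 := h1.two (ff K (Q j))
        have f1 : tw d (ld K (Q j)).f ((ld K (Q j)).g (cq d (ld K (Q j)).f)) = _ :=
          o.fix _ (cq_or d _)
        have f2 := h1.cy.eig (φ := (ld K (Q j)).f) fun T hT =>
          o.sq T (tor_mono (Nat.pos_of_ne_zero hK) hT)
        rcases (hQ _ _ _ _ o.pl).2.1 _ _ t1 t2 (by rw [← tw_two d _ t1, tw_n, f1])
          (by rw [← tw_two d _ t2]; exact f2) with e1 | e1 | e1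
        · exact absurd e1 (o.ne _)
        · rw [e1, nz, if_pos rfl] at e
          exact absurd e (by decide)
        · exact e1
      · rw [if_neg hj] at e
        rw [Pi.single_eq_of_ne hj, zero_smul, smul_zero]
        by_contra h0
        rw [nz, if_neg (Ne.symm h0)] at e
        exact absurd e (by decide)
  have := congrFun (sub_eq_zero.1 h7) (io K (Q i))
  rwa [(h5 i).2] at this

theorem vec (hN : NormStmt) (hL : LdStmt) (hU : UnStmt) (hI : InjStmt) (hB : BasStmt)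
    (hK : K ≠ 0) (h : Val K Q d) {x : G → Pt} (hx : Sel d K ∅ x) : ∃ a : Fin r → ℤ,
      (∀ i, x (ff K (Q i)) = a i • (ld K (Q i)).g (cq d (ld K (Q i)).f)) ∧
      mat K Q d *ᵥ (fun i => (a i : ZMod (2 ^ K))) = 0 := by
  have o := fun i => hL K (Q i) hK (h.kg i)
  have b := xb_spec hB hK h
  choose a ha using fun i => (o i).gen (cq d (ld K (Q i)).f) (x (ff K (Q i))) (cq_or d _)
    (hx.cy.tor _) (hx.cy.eig (o i).sq)
  refine ⟨a, ha, funext fun i => ?_⟩
  obtain ⟨x', h3, h4, h5⟩ := norm hN hL hU hK h le_rfl hx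
  have h6 : ∑ l, a l • xb K Q d l ∈ RS d K (qs Q) :=
    sum_mem fun l _ => zsmul_mem (b l).rel _
  have h7 := (hI K r Q d hK h).2.2 K _ ((RS d K (qs Q)).sub_mem h6 h3)
    (by simp [Finset.sum_apply, (b _).nm, h4]) fun j => by
      rw [Pi.sub_apply, (h5 j).1, ha, Finset.sum_apply, Finset.sum_eq_single j, Pi.smul_apply,
        (b j).fin, Pi.single_eq_same, one_smul, sub_self]
      · intro l _ hl
        rw [Pi.smul_apply, (b l).fin, Pi.single_eq_of_ne hl.symm, zero_smul, smul_zero]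
      · exact fun hj => absurd (Finset.mem_univ j) hj
  have h8 := congrFun (sub_eq_zero.1 h7) (io K (Q i))
  rw [(h5 i).2, Finset.sum_apply] at h8
  exact mu_sum (o i) a _ (fun l => (b l).rel.cy.tor _) h8

theorem cb_even (hL : LdStmt) (hK : K ≠ 0) (h : Val K Q d) {x : G → Pt} (hx : Sel d K ∅ x)
    {a : Fin r → ℤ} (ha : ∀ i, x (ff K (Q i)) = a i • (ld K (Q i)).g (cq d (ld K (Q i)).f))
    (he : ∀ i, (a i : ZMod 2) = 0) : Cb d (2 ^ (K - 1) • x) := by
  refine h.inj _ (hx.top hK) fun i => ?_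
  obtain ⟨m, hm⟩ := (ZMod.intCast_zmod_eq_zero_iff_dvd _ 2).1 (he i)
  have t := top_two hK ((hL K (Q i) hK (h.kg i)).tor (cq d (ld K (Q i)).f))
  rw [Pi.smul_apply, ha, smul_comm, hm, mul_comm, mul_smul, natCast_zsmul, t, smul_zero]

end Ker

theorem ker2_thm (hN : NormStmt) (hL : LdStmt) (hQ : LqStmt) (hU : UnStmt) (hI : InjStmt)
    (hB : BasStmt) : Ker2Stmt := by
  intro K r Q d h2 h
  have hK : K ≠ 0 := by omega
  refine ⟨(hI K r Q d hK h).1, ?_, fun hT => ?_⟩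
  · ext i l
    have := Ker.mu_sum (r := 1) (hL K (Q i) hK (h.kg i)) (fun _ => ((2 ^ (K - 1) : ℕ) : ℤ))
      (fun _ => xb K Q d l (io K (Q i))) (fun _ => (Ker.xb_spec hB hK h l).rel.cy.tor _)
      (by rw [Fin.sum_univ_one, natCast_zsmul]; exact Ker.top_zero hN hL hQ hU hI hB hK h i l)
    rw [Fin.sum_univ_one, Int.cast_natCast, mul_comm, ← nsmul_eq_mul] at this
    exact this
  · rw [Two, Nat.sub_add_cancel (Nat.pos_of_ne_zero hK)] at hT
    push Not at hT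
    obtain ⟨x, y, hx, hy, h3, h4, h5⟩ := hT
    obtain ⟨a, ha, ha'⟩ := Ker.vec hN hL hU hI hB hK h hx
    obtain ⟨b, hb, hb'⟩ := Ker.vec hN hL hU hI hB hK h hy
    refine ⟨_, _, ha', hb', fun e => h3 ?_, fun e => h4 ?_, fun e => h5 ?_⟩
    · exact Ker.cb_even hL hK h hx ha fun i => (Ker.bit_cast hK _).symm.trans (congrFun e i)
    · exact Ker.cb_even hL hK h hy hb fun i => (Ker.bit_cast hK _).symm.trans (congrFun e i)
    · rw [← smul_sub]
      refine Ker.cb_even hL hK h (hx.sub hy) (a := fun i => a i - b i)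
        (fun i => by rw [Pi.sub_apply, ha, hb, sub_smul]) fun i => ?_
      have := congrFun e i
      simp only [Function.comp, Ker.bit_cast hK] at this
      rw [Int.cast_sub, this, sub_self]

end Pool.Agent.Lib.MP_d6ddbd_nt.GA
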