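import Pool.Agent.Lib.MP_d6ddbd_nt.GA.Stmt
import Pool.Agent.Lib.MP_d6ddbd_nt.KI.Bas
import Pool.Agent.Lib.MP_d6ddbd_nt.KI.Fr

/-!
The choices at an auxiliary prime.
-/

set_option autoImplicit false
set_option maxSynthPendingDepth 3

open Pool.Agent.Lib.MP_d6ddbd_nt.K11 Pool.Agent.Lib.MP_d6ddbd_nt.KI

noncomputable section

namespace Pool.Agent.Lib.MP_d6ddbd_nt.GA

theorem ld_thm : LdStmt := by
  classical
  intro K q hK kg
  refine Classical.epsilon_spec (p := fun D : LD K => D.Ok q) ?_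
  obtain ⟨O, f, hO, hf, sq⟩ := kg.fr
  obtain ⟨i, hi, mv⟩ := ex_ine_pst kg.pr hO
  obtain ⟨t1, t2⟩ := ((rA.2 q O kg.pr kg.n2 kg.n11 hO).2.2.2.2.2.2.2 f hf).2.1.1 kg.ty
  obtain ⟨e, he, h1, h2⟩ := Alg0.free Fr.half Fr.v4 (DistribSMul.toAddMonoidHom Pt f) K t1 t2
  simp only [DistribSMul.toAddMonoidHom_apply] at h1 h2
  obtain ⟨k, rfl⟩ := Nat.exists_eq_succ_of_ne_zero hK
  have he' : 2 ^ (k + 1) • f • e = 0 := sm_tor f he
  have fe : f • f • e = e := sq e he
  generalize hfe : f • e = e' at h1 h2 he' fe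
  have z : ∀ {T : Pt} {a : ℤ}, 2 ^ (k + 1) • T = 0 → 2 ^ (k + 1) ∣ a → a • T = 0 := by
    rintro T _ hT ⟨c, rfl⟩
    rw [mul_comm, mul_smul, show ((2 : ℤ) ^ (k + 1)) • T = 0 by exact_mod_cast hT, smul_zero]
  have sz : ∀ (a : ℤ) (T : Pt), f • a • T = a • f • T := fun a T =>
    map_zsmul (DistribSMul.toAddMonoidHom Pt f) a T
  let mu : Pt → ZMod (2 ^ (k + 1)) := fun T =>
    if h : 2 ^ (k + 1) • T = 0 then ((h1 T h).choose : ℤ) else 0
  have hmu : ∀ a b : ℤ, mu (a • e + b • e') = a := by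
    intro a b
    have h : 2 ^ (k + 1) • (a • e + b • e') = 0 := by
      rw [smul_add, smul_comm, he, smul_comm, he', smul_zero, smul_zero, add_zero]
    obtain ⟨b', e1⟩ := (h1 _ h).choose_spec
    have e2 := (h2 (a - (h1 _ h).choose) (b - b') (by
      rw [sub_smul, sub_smul, sub_add_sub_comm, ← e1, sub_self])).1
    simp only [mu, dif_pos h]
    exact (ZMod.intCast_eq_intCast_iff_dvd_sub _ _ _).2 (by exact_mod_cast e2)
  have gen : ∀ (η : ℤ) (S : Pt), (η = 1 ∨ η = -1) → 2 ^ (k + 1) • S = 0 → η • f • S = S →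
      ∃ a : ℤ, S = a • (e + η • e') := by
    intro η S _ hS h
    obtain ⟨a, b, rfl⟩ := h1 S hS
    rw [smul_add, sz, sz, fe, hfe] at h
    have e2 := (h2 (η * b - a) (η * a - b) (by rw [← sub_eq_zero.2 h]; module)).2
    refine ⟨a, ?_⟩
    have := z he' e2
    rw [← sub_eq_zero, ← neg_eq_zero, ← this]
    module
  refine ⟨⟨O, f, i, fun η => e + η • e', mu⟩, ⟨kg.pr, kg.n2, kg.n11, kg.ty, hO, hf, hi, mv⟩, sq,
    fun η => ?_, fun η h => ?_, fun η hη => ?_, gen, fun S T hS hT => ?_, fun T hT h h0 => ?_⟩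
  · show 2 ^ (k + 1) • (e + η • e') = 0
    rw [smul_add, he, smul_comm, he', smul_zero, add_zero]
  · have h' : 2 ^ k • (e + η • e') = 0 := h
    have e2 := (h2 (2 ^ k) (2 ^ k * η) (by
      rw [← h', ← natCast_zsmul]; push_cast; module)).1
    have := Int.le_of_dvd (by positivity) e2
    rw [pow_succ] at this
    have : (0 : ℤ) < 2 ^ k := by positivity
    omega
  · show η • f • (e + η • e') = e + η • e'
    rw [smul_add, sz, fe, hfe]
    rcases hη with rfl | rfl <;> module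
  · obtain ⟨a, b, rfl⟩ := h1 S hS
    obtain ⟨a', b', rfl⟩ := h1 T hT
    show mu _ = mu _ + mu _
    rw [show a • e + b • e' + (a' • e + b' • e') = (a + a') • e + (b + b') • e' by module,
      hmu, hmu, hmu, Int.cast_add]
  · obtain ⟨a, rfl⟩ := gen 1 T (Or.inl rfl) (tor_mono (k := 1) (by omega) (tor_one.2 hT))
      (by rw [one_smul, h])
    rw [one_smul, smul_add] at hT h0 ⊢
    obtain ⟨c, hc⟩ := (h2 (2 * a) (2 * a) (by rw [← hT]; module)).1
    have ha : a = 2 ^ k * c := by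
      rw [pow_succ] at hc
      linarith
    show mu _ = 2 ^ k
    rw [hmu]
    rcases Int.even_or_odd' c with ⟨m, rfl | rfl⟩
    · have d : (2 : ℤ) ^ (k + 1) ∣ a := ⟨m, by rw [ha]; ring⟩
      exact absurd (by rw [z he d, z he' d, add_zero]) h0
    · have p : ((2 : ZMod (2 ^ (k + 1))) ^ (k + 1)) = 0 := by
        exact_mod_cast ZMod.natCast_self (2 ^ (k + 1))
      rw [ha]
      push_cast
      linear_combination (m : ZMod (2 ^ (k + 1))) * p

end Pool.Agent.Lib.MP_d6ddbd_nt.GA
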