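import Pool.Agent.Lib.MP_d6ddbd_nt.GA.Stmt
import Pool.Agent.Lib.MP_d6ddbd_nt.KI.Basis
import Pool.Agent.Lib.MP_d6ddbd_nt.KI.Tr
import Pool.Agent.Lib.MP_d6ddbd_nt.KI.Gd
import Pool.Agent.Lib.MP_d6ddbd_nt.KI.Fr

/-!
Global lifting of relaxed Selmer cocycles.
-/

set_option autoImplicit false
set_option maxSynthPendingDepth 3

open Pool.Agent.Lib.MP_02f36d_nt (xc yc)
open Pool.Agent.Lib.MP_d6ddbd_nt.K11 Pool.Agent.Lib.MP_d6ddbd_nt.KI

noncomputable section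

namespace Pool.Agent.Lib.MP_d6ddbd_nt.GA

namespace Lift

variable {c : ℤ} {k v : ℕ} {x y : G → Pt} {O : ValuationSubring ℂ} {σ : G}

/-- A half. -/
def hf (P : Pt) : Pt := (ex_div 1 P).choose

theorem two_hf (P : Pt) : 2 • hf P = P := (ex_div 1 P).choose_spec

/-- The obstruction. -/
def xi (c : ℤ) (x : G → Pt) (σ τ : G) : Pt := hf (x σ) + tw c σ (hf (x τ)) - hf (x (σ * τ))

theorem tor_hf (hx : Cy c k x) (σ : G) : 2 ^ (k + 1) • hf (x σ) = 0 := by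
  rw [pow_succ, mul_smul, two_hf, hx.tor]

theorem xi_two (hx : Cy c k x) (σ τ : G) : 2 • xi c x σ τ = 0 := by
  rw [xi, smul_sub, smul_add, ← tw_n, two_hf, two_hf, two_hf, hx.mul, sub_self]

theorem z2_xi (hx : Cy c k x) : Z2 (xi c x) := by
  refine ⟨xi_two hx, ?_, fun σ τ υ => ?_⟩
  · obtain ⟨J, a, b⟩ := hx.fn
    obtain ⟨J', a', b'⟩ := ex_tor c (k + 1)
    obtain ⟨J'', h, h1, h2⟩ := a.union a'
    refine ⟨J'', h, fun σ σ' τ τ' e e' => ?_⟩
    have e1 := b σ σ' (e.mono h1)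
    have e2 := b τ τ' (e'.mono h1)
    obtain ⟨e3, e4⟩ := b' σ σ' (e.mono h2)
    have e5 : ∀ T : Pt, 2 ^ (k + 1) • T = 0 → tw c σ T = tw c σ' T := fun T hT => by
      rw [tw, tw, e3, e4 T hT]
    rw [xi, xi, hx.mul, hx.mul, e1, e2, e5 _ (tor_hf hx τ'),
      e5 _ (tor_mono (Nat.le_succ k) (hx.tor τ'))]
  · rw [← tw_two c σ (xi_two hx τ υ), xi, xi, xi, xi, tw_sub, tw_add, ← tw_mul, mul_assoc]
    abel

theorem tz_of {D : G → Prop} (hx : Cy c k x) (h1 : FnOn D y) (h2 : ∀ σ, D σ → 2 • y σ = x σ)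
    (h3 : ∀ σ τ, D σ → D τ → y (σ * τ) = y σ + tw c σ (y τ)) :
    Tz D (xi c x) fun σ => hf (x σ) - y σ := by
  have t : ∀ σ, D σ → 2 • (hf (x σ) - y σ) = 0 := fun σ s => by
    rw [smul_sub, two_hf, h2 σ s, sub_self]
  refine ⟨t, (hx.fn.on D).map₂ h1 fun a b => hf a - b, fun σ τ s s' => ?_⟩
  rw [← tw_two c σ (t τ s'), xi, tw_sub, h3 σ τ s s']
  abel

theorem wl_dc (hv : v.Prime) (h : Wl O v σ) : Dc O σ := fun _ hz =>
  let ⟨a, e⟩ := h
  (V2.c2 e (pow_ne_zero a hv.ne_zero) hz).1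

theorem cob_mul (c : ℤ) (S : Pt) (σ τ : G) :
    tw c (σ * τ) S - S = tw c σ S - S + tw c σ (tw c τ S - S) := by
  rw [tw_sub, tw_mul]
  abel

theorem cob_fn (c : ℤ) {S : Pt} (hS : AlgP S) : Fn fun σ => tw c σ S - S :=
  (fn_tw c hS).map (· - S)

/-- The local lift at a place with the Kummer condition. -/
theorem kum (hx : Cy c k x) (hv : v.Prime) (hO : Ov O v) (h : Kl c O v x) :
    ∃ S : Pt, AlgP S ∧ ∀ σ, Dc O σ → 2 • (tw c σ S - S) = x σ := by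
  obtain ⟨S, a, b⟩ := h
  obtain ⟨J, hJ, e⟩ := hx.fn.map₂ (cob_fn c a) Prod.mk
  refine ⟨hf S, alg_of_pow (k := 1) (by rwa [pow_one, two_hf]), fun σ s => ?_⟩
  obtain ⟨w, hw, ag⟩ := dec_thm v O σ J hv hO s hJ
  have e1 : x w = x σ := congrArg Prod.fst (e w σ ag)
  have e2 : tw c w S - S = tw c σ S - S := congrArg Prod.snd (e w σ ag)
  rw [smul_sub, ← tw_n, two_hf, ← e2, ← e1, b w hw]

/-- The local lift at infinity. -/
theorem inf (hx : Cy c k x) :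
    ∃ S : Pt, AlgP S ∧ ∀ σ, σ = 1 ∨ σ = cj → 2 • (tw c σ S - S) = x σ := by
  have e := hx.mul cj cj
  rw [cj_mul_cj, hx.one, add_comm] at e
  obtain ⟨S, a, b⟩ := (fr_thm k cj (cq c cj) (cq_or c cj)
    (fun T _ => by rw [← mul_smul, cj_mul_cj, one_smul]) BasisA.mv).1 (x cj) (hx.tor cj) e.symm
  refine ⟨hf S, alg_of_pow (k := 1) (by rw [pow_one, two_hf]; exact alg_tor a), ?_⟩
  rintro σ (rfl | rfl)
  · rw [tw_one, sub_self, smul_zero, hx.one]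
  · rw [smul_sub, ← tw_n, two_hf, b]
    rfl

theorem good (hv : v.Prime) (h : ¬ (v : ℤ) ∣ 22 * c) : v ≠ 2 ∧ v ≠ 11 ∧ ¬ (v : ℤ) ∣ c :=
  have _ := hv
  ⟨fun e => h (e ▸ Dvd.dvd.mul_right (by norm_num) c),
    fun e => h (e ▸ Dvd.dvd.mul_right (by norm_num) c), fun e => h (e.mul_left 22)⟩

theorem unr (hx : Cy c k x) (hv : v.Prime) (h : ¬ (v : ℤ) ∣ 22 * c) (hO : Ov O v)
    (hk : Kl c O v x) {S : Pt} (hS : AlgP S) (e : ∀ σ, Dc O σ → 2 • (tw c σ S - S) = x σ)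
    (hσ : Frob O 1 σ) : tw c σ S - S = 0 := by
  obtain ⟨h2, h11, hc⟩ := good hv h
  have q := cq_ine hv h2 hO hc hσ
  refine (kl_pt (c := c) (O := O) (v := v) hS).ine (k := 1) hv h2 h11 hO ?_ hσ q
  rw [pow_one]
  exact (e σ (wl_dc hv (wl_ine v hσ))).trans (hk.ine hv h2 h11 hO (hx.tor σ) hσ q)

end Lift

open Lift in
theorem lift_thm (hL : LdStmt) (hC : LocStmt) (hP : GA.PtStmt) (_hU : UnStmt) : LiftStmt := by
  intro K k n c x hc hk hn hD hx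
  have cy := hx.cy
  have loc : ∀ v : ℕ, ∃ (O : ValuationSubring ℂ) (y : G → Pt), v.Prime → Ov O v ∧
      Tz (Dc O) (xi c x) (fun σ => hf (x σ) - y σ) ∧ (v ∉ n → ∃ S : Pt, AlgP S ∧
        (∀ σ, Dc O σ → 2 • (tw c σ S - S) = x σ) ∧ ∀ σ, y σ = tw c σ S - S) := by
    intro v
    by_cases hv : v.Prime
    · by_cases hm : v ∈ n
      · obtain ⟨kg, nd⟩ := hn v hm
        have ok := hL K v (by omega) kg
        obtain ⟨y, a, b, d⟩ := hC c K k v _ _ _ x ok.pl kg.dv ok.sq nd hk cy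
        exact ⟨_, y, fun _ => ⟨ok.pl.ov, tz_of cy a b d, fun h => absurd hm h⟩⟩
      · obtain ⟨O, hO⟩ := ex_ov hv
        obtain ⟨S, a, b⟩ := kum cy hv hO (hx.kl v O hv hm hO)
        exact ⟨O, fun σ => tw c σ S - S, fun _ => ⟨hO,
          tz_of cy ((cob_fn c a).on _) b fun σ τ _ _ => cob_mul c S σ τ,
          fun _ => ⟨S, a, b, fun _ => rfl⟩⟩⟩
    · exact ⟨⊤, 0, fun h => absurd h hv⟩
  choose P y hy using loc
  obtain ⟨S', a', b'⟩ := inf cy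
  obtain ⟨J, hJ, fJ⟩ := cy.fn
  obtain ⟨N, hN⟩ := ram_thm J hJ
  obtain ⟨φ, t, hφ⟩ := hP c n (xi c x) P (fun v σ => hf (x σ) - y v σ)
    (fun σ => hf (x σ) - (tw c σ S' - S')) (N + n.sup id + (22 * c).natAbs) hc hD (z2_xi cy)
    (fun v hv => ⟨(hy v hv).1, (hy v hv).2.1⟩)
    (tz_of cy ((cob_fn c a').on _) b' fun σ τ _ _ => cob_mul c S' σ τ) (by
      intro v σ i hv lt _ hi
      have hm : v ∉ n := fun h => by
        have : v ≤ n.sup id := Finset.le_sup (f := id) h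
        omega
      have hd : ¬ (v : ℤ) ∣ 22 * c := fun h => by
        have := Nat.le_of_dvd (Int.natAbs_pos.2 (mul_ne_zero (by norm_num) hc))
          (Int.natCast_dvd.1 h)
        omega
      obtain ⟨hO, -, h3⟩ := hy v hv
      obtain ⟨S, a, b, d⟩ := h3 hm
      have e1 : x (σ * i) = x σ := fJ _ _ fun z hz => by
        show σ (i z) = σ z
        rw [hN v _ i hv (by omega) hO hi z hz]
      have e2 := unr cy hv hd hO (hx.kl v _ hv hm hO) a b hi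
      show hf (x (σ * i)) - y v (σ * i) = hf (x σ) - y v σ
      rw [e1, d, d, cob_mul, e2, tw_zero, add_zero])
  have t2 := fun σ => t.two σ trivial
  have cy' : Cy c (k + 1) fun σ => hf (x σ) - φ σ := by
    refine cy_of (fun σ => ?_) (fun σ τ => ?_) ?_
    · rw [smul_sub, tor_hf cy, tor_mono (k := 1) (by omega) (tor_one.2 (t2 σ)), sub_zero]
    · have e := t.eq σ τ trivial trivial
      rw [xi, ← tw_two c σ (t2 τ), sub_eq_sub_iff_add_eq_add] at e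
      rw [tw_sub, sub_add_sub_comm, sub_eq_sub_iff_add_eq_add, add_comm (hf _), ← e]
    · obtain ⟨J', a, b⟩ := t.fn
      exact Fn.map₂ cy.fn ⟨J', a, fun σ τ => b σ τ trivial trivial⟩ fun a b => hf a - b
  refine ⟨_, ⟨cy', fun v O hv hm hO => ?_⟩, funext fun σ => ?_⟩
  · obtain ⟨hO', -, h3⟩ := hy v hv
    obtain ⟨S, a, b, d⟩ := h3 hm
    refine tr_thm.2.1 c (k + 1) v _ (P v) O cy' hv hO' hO ?_
    by_cases hd : (v : ℤ) ∣ 22 * c
    · have e := (kl_pt (c := c) (O := P v) (v := v) a).sub ((hφ v hv hm).1 hd)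
      convert e using 1
      funext σ
      simp only [Pi.sub_apply, d]
      abel
    · obtain ⟨h2, h11, hc'⟩ := good hv hd
      refine gd_thm c (k + 1) v _ _ hv h2 h11 hO' cy' (fun σ s => cq_ine hv h2 hO' hc' s)
        fun σ s => ?_
      have e : φ σ = hf (x σ) - y v σ := (hφ v hv hm).2 hd σ s
      show hf (x σ) - φ σ = 0
      rw [e, d, unr cy hv hd hO' (hx.kl v _ hv hm hO') a b s, sub_zero, sub_self]
  · show 2 • (hf (x σ) - φ σ) = x σ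
    rw [smul_sub, two_hf, t2, sub_zero]

end Pool.Agent.Lib.MP_d6ddbd_nt.GA
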