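import Pool.Agent.Lib.MP_d6ddbd_nt.GA.Stmt
import Pool.Agent.Lib.MP_d6ddbd_nt.KI.Bas
import Pool.Agent.Lib.MP_d6ddbd_nt.KI.Fr
import Pool.Agent.Lib.MP_d6ddbd_nt.KI.Gd
import Pool.Agent.Lib.MP_d6ddbd_nt.KI.Le
import Pool.Agent.Lib.MP_d6ddbd_nt.KI.Tr

/-!
Local lifting of cocycles at an auxiliary prime.
-/

set_option autoImplicit false
set_option maxSynthPendingDepth 3

open NumberField
open Pool.Agent.Lib.MP_d6ddbd_nt.K11 Pool.Agent.Lib.MP_d6ddbd_nt.KI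
open Pool.Agent.Lib.MP_d6ddbd_nt.GF (pst)

noncomputable section

namespace Pool.Agent.Lib.MP_d6ddbd_nt.GA

namespace Loc

variable {O : ValuationSubring ℂ} {q : ℕ}

/-- Roots of unity of two-power order are distinct modulo an odd place. -/
theorem root_eq (hq : q.Prime) (h2 : q ≠ 2) (hO : Ov O q) (m : ℕ) :
    ∀ a b : ℂ, a ^ 2 ^ m = 1 → b ^ 2 ^ m = 1 → a - b ∈ O.nonunits → a = b := by
  induction m with
  | zero =>
    intro a b ha hb _
    rw [pow_zero, pow_one] at ha hb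
    rw [ha, hb]
  | succ m ih =>
    intro a b ha hb h
    have n0 : 2 ^ (m + 1) ≠ 0 := by positivity
    have e := ih (a ^ 2) (b ^ 2) (by rw [← pow_mul, ← pow_succ', ha])
      (by rw [← pow_mul, ← pow_succ', hb])
      (V2.pow_sub (Cheb.root_mem O n0 ha) (Cheb.root_mem O n0 hb) h 2)
    refine (sq_eq_sq_iff_eq_or_eq_neg.1 e).elim id fun e => ?_
    refine absurd (V2.nu_of_mul (x := a) (y := ((2 : ℤ) : ℂ)) ?_
      fun h' => V2.one_not (ha ▸ V2.pow_nu n0 h')) (V2.int_not hq hO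
        fun d => h2 ((Nat.prime_dvd_prime_iff_eq hq Nat.prime_two).1 (by exact_mod_cast d)))
    rwa [show a * ((2 : ℤ) : ℂ) = a - b by rw [e]; push_cast; ring]

theorem root_alg {m : ℕ} {ζ : ℂ} {c : ℤ} (h : ζ ^ 2 ^ m = c) : IsAlgebraic ℚ ζ :=
  IsAlgebraic.of_pow (n := 2 ^ m) (by positivity) (h ▸ isAlgebraic_intCast c)

theorem frob_root (hq : q.Prime) (h2 : q ≠ 2) (hO : Ov O q) {m Q : ℕ} {σ : G} {ζ : ℂ}
    (hσ : Frob O Q σ) (h : ζ ^ 2 ^ m = 1) : σ ζ = ζ ^ Q :=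
  root_eq hq h2 hO m _ _ (by rw [← map_pow, h, map_one]) (by rw [← pow_mul, mul_comm, pow_mul, h,
    one_pow]) (hσ ζ (root_alg (c := 1) (by simpa using h)) (Cheb.root_mem O (by positivity) h)).2

/-- The Kummer cocycle of a root of order `2 ^ K`. -/
theorem kum {K : ℕ} (hK : K ≠ 0) {c : ℤ} {i : G} (hi : i (rt c) ≠ rt c) :
    ∃ (ζ : ℂ) (t : G → ℕ), ζ ^ 2 ^ K = 1 ∧ Fn t ∧ Odd (t i) ∧
      ∀ (σ τ : G) (a : ℕ) (T : Pt), σ ζ = ζ ^ a → 2 ^ K • T = 0 →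
        t (σ * τ) • T = t σ • T + a • t τ • T := by
  have hn : 2 ^ K ≠ 0 := by positivity
  have : NeZero (2 ^ K) := ⟨hn⟩
  have hζ := Complex.isPrimitiveRoot_exp _ hn
  generalize Complex.exp (2 * Real.pi * Complex.I / (2 ^ K : ℕ)) = ζ at hζ
  obtain ⟨w, hw⟩ := IsAlgClosed.exists_pow_nat_eq (c : ℂ) (Nat.pos_of_ne_zero hn)
  have c0 : (c : ℂ) ≠ 0 := fun e => hi (by
    have := rt_sq c
    rw [e, pow_eq_zero_iff two_ne_zero] at this
    rw [this, map_zero])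
  have w0 : w ≠ 0 := fun e => c0 (by rw [← hw, e, zero_pow hn])
  have ht : ∀ σ : G, ζ ^ (Classical.epsilon fun a : ℕ => ζ ^ a * w = σ w) * w = σ w := fun σ => by
    obtain ⟨a, -, e⟩ := hζ.eq_pow_of_pow_eq_one (ξ := σ w / w)
      (by rw [div_pow, ← map_pow, hw, map_intCast, div_self c0])
    exact Classical.epsilon_spec (p := fun a : ℕ => ζ ^ a * w = σ w)
      ⟨a, by rw [e, div_mul_cancel₀ _ w0]⟩
  refine ⟨ζ, fun σ => Classical.epsilon fun a : ℕ => ζ ^ a * w = σ w, hζ.pow_eq_one,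
    (fn_ap (root_alg hw)).map fun u => Classical.epsilon fun a : ℕ => ζ ^ a * w = u, ?_,
    fun σ τ a T e hT => ?_⟩
  · obtain ⟨K, rfl⟩ := Nat.exists_eq_succ_of_ne_zero hK
    refine Nat.not_even_iff_odd.1 fun ⟨m, hm⟩ => hi ?_
    have e := ht i
    beta_reduce at hm
    rw [hm] at e
    have s : i (w ^ 2 ^ K) = w ^ 2 ^ K := by
      rw [map_pow, ← e, mul_pow, ← two_mul, ← pow_mul, mul_right_comm, ← pow_succ', pow_mul,
        hζ.pow_eq_one, one_pow, one_mul]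
    have s2 : (w ^ 2 ^ K) ^ 2 = rt c ^ 2 := by rw [← pow_mul, ← pow_succ, hw, rt_sq]
    rcases sq_eq_sq_iff_eq_or_eq_neg.1 s2 with r | r <;> rw [r] at s
    · exact s
    · rwa [map_neg, neg_inj] at s
  · have e1 := ht (σ * τ)
    have e2 := ht σ
    have e3 := ht τ
    beta_reduce
    generalize Classical.epsilon (fun a : ℕ => ζ ^ a * w = (σ * τ) w) = t1 at e1 ⊢
    generalize Classical.epsilon (fun a : ℕ => ζ ^ a * w = σ w) = t2 at e2 ⊢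
    generalize Classical.epsilon (fun a : ℕ => ζ ^ a * w = τ w) = t3 at e3 ⊢
    have e4 : ζ ^ t1 = ζ ^ (t2 + a * t3) := mul_right_cancel₀ w0 (by
      rw [e1, RingAut.mul_apply, ← e3, map_mul, map_pow, e, ← e2, pow_add, pow_mul]
      ring)
    rw [(hζ.isOfFinOrder hn).pow_eq_pow_iff_modEq, ← hζ.eq_orderOf] at e4
    rw [← mul_smul, ← add_smul, nsmul_eq_mod_nsmul _ hT, e4, ← nsmul_eq_mod_nsmul _ hT]

/-- Continuous properties pass from the Weil monoid to the decomposition group. -/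
theorem dens (hq : q.Prime) (hO : Ov O q) {P : G → Prop} (hP : Fn P) (h : ∀ σ, Wl O q σ → P σ)
    {σ : G} (hσ : Dc O σ) : P σ := by
  obtain ⟨J, a, b⟩ := hP
  obtain ⟨w, c, d⟩ := dec_thm q O σ J hq hO hσ a
  exact b w σ d ▸ h w c

/-- Unramified local cocycles are coboundaries. -/
theorem unr (hq : q.Prime) (h2 : q ≠ 2) (h11 : q ≠ 11) (hO : Ov O q) {c : ℤ} (hc : ¬ (q : ℤ) ∣ c)
    {φ : G} (hφ : Frob O q φ) {k : ℕ} {y : G → Pt} (hy : 2 ^ k • y φ = 0)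
    (hm : ∀ σ τ, Wl O q σ → y (σ * τ) = y σ + tw c σ (y τ)) (hI : ∀ σ, Frob O 1 σ → y σ = 0) :
    ∃ (n : ℕ) (T : Pt), 2 ^ n • T = 0 ∧ ∀ σ, Wl O q σ → y σ = tw c σ T - T := by
  obtain ⟨n, T, hT, e⟩ := Alg0.onto Fr.half Fr.v4 (twh c φ - AddMonoidHom.id Pt)
    ((Gd.fix_fin rA hq h2 h11 hO (Q := q * q) (by have := hq.one_lt; nlinarith)
      (V2.c1 hφ hφ)).subset fun T ⟨a, b⟩ => ⟨a, by
        have b' : tw c φ T = T := sub_eq_zero.1 b
        rw [mul_smul, ← tw_sq c, tw_mul, b', b']⟩) hy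
  have e' : tw c φ T - T = y φ := e
  have pw : ∀ m : ℕ, y (φ ^ m) = tw c (φ ^ m) T - T := fun m => by
    induction m with
    | zero => rw [pow_zero, hI _ (ine_one O), tw_one, sub_self]
    | succ m ih =>
      rw [pow_succ, hm _ _ ((wl_frob hφ).pow m), ih, ← e', tw_mul, tw_sub]
      abel
  refine ⟨n, T, hT, fun σ hσ => ?_⟩
  obtain ⟨m, ι, a, rfl, -⟩ := hσ.dec hq hO hφ
  rw [hm _ _ ((wl_frob hφ).pow m), tw_mul, hI _ a, tw_ine hq h2 h11 hO hc a hT, pw, tw_zero,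
    add_zero]

end Loc

open Loc in
theorem loc_thm (_hU : UnStmt) : LocStmt := by
  intro c K k q O f i x ⟨hq, h2, h11, ty, hO, fr, ine, mv⟩ hK hf hc hk hx
  obtain ⟨ζ, t, hζ, ft, odd, hm⟩ := kum (K := K) (by omega) mv
  have xK := fun σ => tor_mono hk.le (hx.tor σ)
  have zi : ∀ σ, Frob O 1 σ → σ ζ = ζ ^ 1 := fun σ h => frob_root hq h2 hO h hζ
  have zf : f ζ = ζ ^ q := frob_root hq h2 hO fr hζ
  have ti : ∀ {σ : G} {T : Pt} {n : ℕ}, Frob O 1 σ → 2 ^ n • T = 0 → tw c σ T = T :=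
    fun h h' => tw_ine hq h2 h11 hO hc h h'
  have ng : ∀ T : Pt, 2 ^ K • T = 0 → q • T = -T := fun T hT => by
    obtain ⟨m, e⟩ := hK
    rw [eq_neg_iff_add_eq_zero, ← succ_nsmul, e, mul_comm, mul_smul, hT, smul_zero]
  have sm : ∀ {n : ℕ} (a : ℕ) {T : Pt}, n • T = 0 → n • a • T = 0 := fun a T h => by
    rw [smul_comm, h, smul_zero]
  have can : ∀ T : Pt, 2 ^ K • T = 0 → ∃ a : ℤ, a • t i • T = T := fun T hT => by
    simpa using odd_cancel (u := t i) (by exact_mod_cast odd) hT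
  obtain ⟨T0, hT0, e0⟩ : ∃ T0 : Pt, 2 ^ k • T0 = 0 ∧ t i • T0 = x i := by
    obtain ⟨a, e⟩ := can _ (xK i)
    exact ⟨a • x i, by rw [smul_comm, hx.tor, smul_zero], by rw [smul_comm, e]⟩
  have T0K := tor_mono hk.le hT0
  have xI : ∀ σ, Frob O 1 σ → x σ = t σ • T0 := fun σ hσ => by
    obtain ⟨u, e⟩ := le_thm Pt K q O (pst q) i (fun σ => x σ - t σ • T0) hq h2 hO ine mv
      (fun σ _ => by rw [smul_sub, xK, sm _ T0K, sub_zero])
      (fun σ τ a _ => by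
        rw [hx.mul, ti a (xK τ), hm σ τ 1 T0 (zi σ a) T0K, one_smul]
        abel)
      ((hx.fn.map₂ ft fun a b => a - b • T0).on _) σ hσ
    rwa [e0, sub_self, smul_zero, sub_eq_zero] at e
  have F0 : tw c f T0 + T0 = 0 := by
    have hi := (wl_frob fr).conj hq hO ine
    have e : i * f = f * (f⁻¹ * i * f) := by group
    generalize f⁻¹ * i * f = j at hi e
    have a1 : x i = tw c f (x j) := by
      have := hx.mul i f
      rw [ti ine (xK f), e, hx.mul, add_comm] at this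
      exact (add_right_cancel this).symm
    have a2 : ∀ T : Pt, 2 ^ K • T = 0 → t i • T = -(t j • T) := fun T hT => by
      have := hm i f 1 T (zi i ine) hT
      rw [one_smul, e, hm f j q T zf hT, add_comm, ng _ (sm _ hT)] at this
      exact (add_right_cancel this).symm
    have a3 : 2 ^ K • (tw c f T0 + T0) = 0 := by rw [smul_add, tw_tor c f T0K, T0K, add_zero]
    obtain ⟨a, a4⟩ := can _ a3
    rw [← a4, a2 _ a3, smul_add, ← tw_n, ← xI j hi, ← a1, ← e0, a2 _ T0K, xI j hi,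
      neg_add_cancel, neg_zero, smul_zero]
  obtain ⟨S, hS, eS⟩ := (fr_thm k f (cq c f) (cq_or c f) (fun T h => hf T (tor_mono hk.le h))
    (((rA.2 q O hq h2 h11 hO).2.2.2.2.2.2.2 f fr).2.1.1 ty).2).1 T0 hT0 F0
  obtain ⟨S', rfl⟩ := Fr.half S
  have hS' : 2 ^ K • S' = 0 := tor_mono (k := k + 1) hk (by rw [pow_succ, mul_smul, hS])
  obtain ⟨T1, hT1, e1, F1⟩ : ∃ T1 : Pt, 2 ^ K • T1 = 0 ∧ 2 • T1 = T0 ∧ tw c f T1 = q • T1 := by
    have a : 2 ^ K • (tw c f S' - S') = 0 := by rw [smul_sub, tw_tor c f hS', hS', sub_zero]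
    refine ⟨_, a, by rw [smul_sub, ← tw_n, eS]; rfl, ?_⟩
    rw [ng _ a, tw_sub, ← tw_mul, tw_sq, hf _ hS', neg_sub]
  have pm : ∀ σ τ : G, (∃ a : ℕ, σ ζ = ζ ^ a ∧ tw c σ T1 = a • T1) →
      (∃ a : ℕ, τ ζ = ζ ^ a ∧ tw c τ T1 = a • T1) →
      ∃ a : ℕ, (σ * τ) ζ = ζ ^ a ∧ tw c (σ * τ) T1 = a • T1 := fun σ τ ⟨a, a1, a2⟩ ⟨b, b1, b2⟩ =>
    ⟨a * b, by rw [RingAut.mul_apply, b1, map_pow, a1, pow_mul],
      by rw [tw_mul, b2, tw_n, a2, smul_comm, mul_smul]⟩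
  have pW : ∀ σ, Wl O q σ → ∃ a : ℕ, σ ζ = ζ ^ a ∧ tw c σ T1 = a • T1 := fun σ hσ => by
    have pI : ∀ ι, Frob O 1 ι → ∃ a : ℕ, ι ζ = ζ ^ a ∧ tw c ι T1 = a • T1 := fun ι h =>
      ⟨1, zi ι h, by rw [ti h hT1, one_smul]⟩
    obtain ⟨m, ι, a, rfl, -⟩ := hσ.dec hq hO fr
    refine pm _ _ ?_ (pI ι a)
    clear hσ
    induction m with
    | zero => exact pI 1 (ine_one O)
    | succ m ih => rw [pow_succ]; exact pm _ _ ih ⟨q, zf, F1⟩
  have zm : ∀ σ τ : G, (∃ a : ℕ, σ ζ = ζ ^ a ∧ tw c σ T1 = a • T1) →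
      t (σ * τ) • T1 = t σ • T1 + tw c σ (t τ • T1) := fun σ τ ⟨a, a1, a2⟩ => by
    rw [hm σ τ a T1 a1 hT1, tw_n, a2, smul_comm a]
  obtain ⟨n, U, hU, eU⟩ := unr hq h2 h11 hO hc fr (k := K) (y := fun σ => x σ - 2 • t σ • T1)
    (by rw [smul_sub, xK, sm _ (sm _ hT1), sub_zero])
    (fun σ τ a => by
      rw [hx.mul, zm σ τ (pW σ a), tw_sub, tw_n c σ 2, smul_add]
      abel)
    (fun σ a => by rw [smul_comm, e1, xI σ a, sub_self])
  obtain ⟨U', rfl⟩ := Fr.half U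
  have aU : AlgP U' := alg_tor (k := n + 1) (by rw [pow_succ, mul_smul, hU])
  refine ⟨fun σ => t σ • T1 + (tw c σ U' - U'),
    (ft.map₂ (fn_tw c aU) fun a V => a • T1 + (V - U')).on _, fun σ hσ => ?_, fun σ τ hσ _ => ?_⟩
  · have := dens hq hO ((hx.fn.map₂ ft fun a b => a - 2 • b • T1).map₂ (fn_tw c (alg_tor hU))
      fun a V => a = V - 2 • U') eU hσ
    rw [smul_add, smul_sub, ← tw_n, ← this, add_sub_cancel]
  · have := dens hq hO ((fn_ap (root_alg (c := 1) (by simpa using hζ))).map₂ (fn_tw c (alg_tor hT1))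
      fun u V => ∃ a : ℕ, u = ζ ^ a ∧ V = a • T1) pW hσ
    beta_reduce
    rw [zm σ τ this, tw_add, tw_sub, tw_mul]
    abel

end Pool.Agent.Lib.MP_d6ddbd_nt.GA
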