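import Pool.Agent.Lib.MP_d6ddbd_nt.GA.Stmt
import Pool.Agent.Lib.MP_d6ddbd_nt.KI.Bas
import Pool.Agent.Lib.MP_d6ddbd_nt.KI.Bl
import Pool.Agent.Lib.MP_d6ddbd_nt.KI.Le
import Pool.Agent.Lib.MP_d6ddbd_nt.KI.SubA

/-!
The local pairing at a prime of type one.
-/

set_option autoImplicit false
set_option maxSynthPendingDepth 3

open Pool.Agent.Lib.MP_d6ddbd_nt.K11 Pool.Agent.Lib.MP_d6ddbd_nt.KI
open Pool.Agent.Lib.MP_d6ddbd_nt.GF (pst)

noncomputable section

namespace Pool.Agent.Lib.MP_d6ddbd_nt.GA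

namespace Lq

variable {q : ℕ} {O : ValuationSubring ℂ} {f i σ τ : G} {x y : G → Pt} {T U : Pt}

theorem nz_add (hU : 2 • U = 0) : nz (T + U) = nz T + nz U + ep T U := Ep.qf_add hU

theorem nz_sm (σ : G) (T : Pt) : nz (σ • T) = nz T := Ep.qf_smul σ T

theorem nz_zero : nz 0 = 0 := if_pos rfl

theorem nz_ne (h : T ≠ 0) : nz T = 1 := if_neg h

theorem self_add (h : 2 • T = 0) : T + T = 0 := by rw [← two_nsmul, h]

/-- Local cocycles with values in the points of order two. -/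
structure Lz (O : ValuationSubring ℂ) (q : ℕ) (x : G → Pt) : Prop where
  two : ∀ σ, Wl O q σ → 2 • x σ = 0
  mul : ∀ σ τ, Wl O q σ → Wl O q τ → x (σ * τ) = x σ + σ • x τ
  fn : FnOn (Wl O q) x

theorem lz_of (h : Lc 1 1 O q x) : Lz O q x :=
  ⟨fun σ s => tor_one.1 (h.tor σ s),
    fun σ τ s t => by rw [h.mul σ τ s t, tw_two 1 σ (tor_one.1 (h.tor τ t))], h.fn⟩

theorem Lz.add (hx : Lz O q x) (hy : Lz O q y) : Lz O q (x + y) :=
  ⟨fun σ s => Ep.two_add (hx.two σ s) (hy.two σ s), fun σ τ s t => by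
    simp only [Pi.add_apply]
    rw [hx.mul σ τ s t, hy.mul σ τ s t, smul_add]
    abel, hx.fn.map₂ hy.fn (· + ·)⟩

theorem sp_zero : Sp O q fun _ _ => 0 :=
  ⟨fun _ => 0, (fn_const 0).on _, fun _ _ _ _ => by simp⟩

theorem sp_sum {κ : Type} (s : Finset κ) (c : κ → G → G → ZMod 2) (h : ∀ j, Sp O q (c j)) :
    Sp O q fun σ τ => ∑ j ∈ s, c j σ τ := by
  classical
  induction s using Finset.induction_on with
  | empty => simpa using sp_zero
  | insert a s ha ih => exact ((h a).add ih).congr fun σ τ _ _ => Finset.sum_insert ha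

theorem z2 (a : ZMod 2) : a + a = 0 := CharTwo.add_self_eq_zero a

theorem sp_self (hx : Lz O q x) : Sp O q (cup x x) :=
  ⟨fun σ => nz (x σ), hx.fn.map₂ hx.fn fun a _ => nz a, fun σ τ s t => by
    have e := nz_add (T := x σ) (Ep.two_smul' σ (hx.two τ t))
    rw [← hx.mul σ τ s t, nz_sm] at e
    show ep _ _ = nz _ + nz _ + nz _
    linear_combination -e - z2 (nz (x σ)) - z2 (nz (x τ))⟩

theorem sp_symm (hx : Lz O q x) (hy : Lz O q y) :
    Sp O q fun σ τ => cup x y σ τ + cup y x σ τ :=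
  ⟨fun σ => ep (x σ) (y σ), hx.fn.map₂ hy.fn ep, fun σ τ s t => by
    have a := hx.two σ s
    have b := Ep.two_smul' σ (hx.two τ t)
    have c := hy.two σ s
    have d := Ep.two_smul' σ (hy.two τ t)
    show ep _ _ + ep _ _ = ep _ _ + ep _ _ + ep _ _
    rw [hx.mul σ τ s t, hy.mul σ τ s t, ep_add a b (Ep.two_add c d), ep_add' a c d, ep_add' b c d,
      ep_sm, ep_comm (y σ)]
    linear_combination -z2 (ep (x σ) (y σ)) - z2 (ep (x τ) (y τ))⟩

theorem sp_cob (hy : Lz O q y) (hT : 2 • T = 0) (hx : ∀ σ, Wl O q σ → x σ = σ • T + T) :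
    Sp O q (cup x y) :=
  ⟨fun σ => ep T (y σ), hy.fn.map₂ hy.fn fun a _ => ep T a, fun σ τ s t => by
    have c := hy.two σ s
    have d := Ep.two_smul' σ (hy.two τ t)
    show ep _ _ = ep _ _ + ep _ _ + ep _ _
    rw [hx σ s, hy.mul σ τ s t, ep_add (Ep.two_smul' σ hT) hT d, ep_add' hT c d, ep_sm]
    linear_combination -z2 (ep T (y σ))⟩

section Place

variable (h : Pl1 q O f i)
include h

theorem ty : (∀ T : Pt, 2 • T = 0 → f • f • T = T) ∧ ∃ T : Pt, 2 • T = 0 ∧ f • T ≠ T :=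
  ((rA.2 q O h.pr h.n2 h.n11 h.ov).2.2.2.2.2.2.2 f h.fr).2.1.1 h.ty

theorem ine (hσ : Frob O 1 σ) (hT : 2 • T = 0) : σ • T = T :=
  SubA.in_fix h.pr h.n2 h.n11 h.ov hσ hT

theorem wf : Wl O q f := wl_frob h.fr

theorem wi : Wl O q i := wl_ine q h.ine

theorem le (hx : Lz O q x) (hσ : Frob O 1 σ) : x σ = 0 ∨ x σ = x i := by
  obtain ⟨J, a, b⟩ := hx.fn
  obtain ⟨u, e⟩ := le_thm Pt 1 q O (pst q) i x h.pr h.n2 h.ov h.ine h.mv
    (fun σ s => tor_one.2 (hx.two σ (wl_ine q s)))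
    (fun σ τ s t => by
      rw [hx.mul σ τ (wl_ine q s) (wl_ine q t), ine h s (hx.two τ (wl_ine q t))])
    ⟨J, a, fun σ τ s t => b σ τ (wl_ine q s) (wl_ine q t)⟩ σ hσ
  rw [e]
  exact SubA.zs2 u (hx.two i (wi h))

theorem fix_i (hx : Lz O q x) : f • x i = x i := by
  have hj := (wf h).conj h.pr h.ov h.ine
  have e1 := hx.mul i f (wi h) (wf h)
  have e2 := hx.mul f _ (wf h) (wl_ine q hj)
  rw [ine h h.ine (hx.two f (wf h))] at e1
  rw [show f * (f⁻¹ * i * f) = i * f by group, e1, add_comm, add_right_inj] at e2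
  rcases le h hx hj with e | e
  · rw [e2, e, smul_zero, smul_zero]
  · rw [e] at e2
    exact e2.symm

theorem fix_ff (hx : Lz O q x) : f • x (f * f) = x (f * f) := by
  rw [hx.mul f f (wf h) (wf h), smul_add, (ty h).1 _ (hx.two f (wf h)), add_comm]

theorem fix_w (hT : 2 • T = 0) (hf : f • T = T) (hσ : Wl O q σ) : σ • T = T := by
  obtain ⟨a, j, hj, rfl, -⟩ := hσ.dec h.pr h.ov h.fr
  rw [mul_smul, ine h hj hT]
  induction a with
  | zero => rw [pow_zero, one_smul]
  | succ a ih => rw [pow_succ, mul_smul, hf, ih ((wf h).pow a |>.mul (wl_ine q hj))]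

theorem van (hx : Lz O q x) (h1 : x i = 0) (h2 : x f = 0) (hσ : Wl O q σ) : x σ = 0 := by
  obtain ⟨a, j, hj, rfl, -⟩ := hσ.dec h.pr h.ov h.fr
  have hI : ∀ σ, Frob O 1 σ → x σ = 0 := fun σ s => (le h hx s).elim id fun e => e.trans h1
  have hp : ∀ a : ℕ, x (f ^ a) = 0 := by
    intro a
    induction a with
    | zero => rw [pow_zero]; exact hI 1 (ine_one O)
    | succ a ih => rw [pow_succ, hx.mul _ _ ((wf h).pow a) (wf h), ih, h2, smul_zero, add_zero]
  rw [hx.mul _ _ ((wf h).pow a) (wl_ine q hj), hp, hI j hj, smul_zero, add_zero]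

theorem fix2 (hT : 2 • T = 0) (hU : 2 • U = 0) (a : f • T = T) (b : f • U = U) :
    T = 0 ∨ U = 0 ∨ T = U := SubA.fix2 (ty h).2 hT hU a b

theorem ex_fix : ∃ S T : Pt, 2 • S = 0 ∧ 2 • T = 0 ∧ T ≠ 0 ∧ f • T = T ∧ f • S + S = T := by
  obtain ⟨a, S, b, c⟩ := ty h
  refine ⟨S, f • S + S, b, Ep.two_add (Ep.two_smul' f b) b, fun e => c ?_, ?_, rfl⟩
  · rw [add_eq_zero_iff_eq_neg, Ep.neg_two b] at e
    exact e
  · rw [smul_add, a S b, add_comm]

/-- Unramified cocycles that vanish at the square of the Frobenius element are coboundaries. -/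
theorem cob (hx : Lz O q x) (h1 : x i = 0) (h2 : x (f * f) = 0) :
    ∃ S : Pt, 2 • S = 0 ∧ ∀ σ, Wl O q σ → x σ = σ • S + S := by
  have t := hx.two f (wf h)
  have e : f • x f = x f := by
    rw [hx.mul f f (wf h) (wf h), add_comm, add_eq_zero_iff_eq_neg, Ep.neg_two t] at h2
    exact h2
  obtain ⟨S, hS, e1⟩ : ∃ S : Pt, 2 • S = 0 ∧ x f = f • S + S := by
    obtain ⟨S, T, a, b, c, d, e'⟩ := ex_fix h
    rcases fix2 h t b e d with k | k | k
    · exact ⟨0, smul_zero _, by rw [k, smul_zero, add_zero]⟩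
    · exact absurd k c
    · exact ⟨S, a, k.trans e'.symm⟩
  have hz : Lz O q fun σ => σ • S + S :=
    ⟨fun σ _ => Ep.two_add (Ep.two_smul' σ hS) hS, fun σ τ _ _ => by
      rw [smul_add, mul_smul, show σ • S + S + (σ • τ • S + σ • S) =
        σ • τ • S + S + (σ • S + σ • S) by abel, self_add (Ep.two_smul' σ hS), add_zero],
      ((fn_sm (alg_tor (tor_one.2 hS))).map (· + S)).on _⟩
  refine ⟨S, hS, fun σ s => ?_⟩
  have k := van h (hx.add hz) (by
    show x i + (i • S + S) = 0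
    rw [h1, ine h h.ine hS, self_add hS, add_zero]) (by
    show x f + (f • S + S) = 0
    rw [← e1, self_add t]) s
  rw [Pi.add_apply, add_eq_zero_iff_eq_neg, Ep.neg_two (hz.two σ s)] at k
  exact k

theorem sp_unr (hx : Lz O q x) (hy : Lz O q y) (h1 : x i = 0) (h2 : y i = 0) :
    Sp O q (cup x y) := by
  have wff := (wf h).mul (wf h)
  rcases fix2 h (hx.two _ wff) (hy.two _ wff) (fix_ff h hx) (fix_ff h hy) with k | k | k
  · obtain ⟨S, a, b⟩ := cob h hx h1 k
    exact sp_cob hy a b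
  · obtain ⟨S, a, b⟩ := cob h hy h2 k
    exact ((sp_symm hx hy).add (sp_cob hx a b)).congr fun σ τ _ _ => by
      linear_combination -z2 (cup y x σ τ)
  · obtain ⟨S, a, b⟩ := cob h (hx.add hy) (by rw [Pi.add_apply, h1, h2, add_zero])
      (by rw [Pi.add_apply, k, self_add (hy.two _ wff)])
    refine ((sp_cob hy a b).add (sp_self hy)).congr fun σ τ s t => ?_
    have e : cup (x + y) y σ τ = cup x y σ τ + cup y y σ τ :=
      ep_add (hx.two σ s) (hy.two σ s) (Ep.two_smul' σ (hy.two τ t))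
    linear_combination -e - z2 (cup y y σ τ)

variable (hT : 2 • T = 0) (h0 : T ≠ 0) (hf : f • T = T)
include hT h0 hf

theorem val_i (hx : Lz O q x) : x i = 0 ∨ x i = T :=
  (fix2 h (hx.two i (wi h)) hT (fix_i h hx) hf).imp_right fun k => k.resolve_left h0

theorem eps_ine (hx : Lz O q x) (hσ : Frob O 1 σ) : ep T (x σ) = 0 := by
  rcases le h hx hσ with e | e
  · rw [e, ep_zero']
  · rcases val_i h hT h0 hf hx with k | k
    · rw [e, k, ep_zero']
    · rw [e, k, ep_self]

omit h0 in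
theorem eps_mul (hx : Lz O q x) (s : Wl O q σ) (t : Wl O q τ) :
    ep T (x (σ * τ)) = ep T (x σ) + ep T (x τ) := by
  rw [hx.mul σ τ s t, ep_add' hT (hx.two σ s) (Ep.two_smul' σ (hx.two τ t)), ← ep_sm σ T (x τ),
    fix_w h hT hf s]

theorem eps_f (hx : Lz O q x) : ep T (x f) = nz (x (f * f)) := by
  have t := hx.two f (wf h)
  rw [hx.mul f f (wf h) (wf h)]
  by_cases e : f • x f = x f
  · rw [e, self_add t, nz_zero, ep_comm, ep_eq_zero]
    exact fix2 h t hT e hf
  · rw [nz_ne fun k => e (by rwa [add_comm, add_eq_zero_iff_eq_neg, Ep.neg_two t] at k)]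
    refine if_neg ?_
    rintro (k | k | k)
    · exact h0 k
    · exact e (by rw [k, smul_zero])
    · exact e (by rw [← k, hf])

omit h hT h0 hf in
theorem ep_val (a : ZMod 2) (T U : Pt) : ep (a.val • T) U = a * ep T U := by
  have z : ∀ a : ZMod 2, a = 0 ∨ a = 1 := by decide
  rcases z a with rfl | rfl
  · rw [ZMod.val_zero, zero_smul, ep_zero, zero_mul]
  · rw [ZMod.val_one, one_smul, one_mul]

omit h0 in
theorem lz_r : Lz O q fun σ => (ps (pst q) σ).val • T :=
  ⟨fun σ _ => by rw [smul_comm, hT, smul_zero], fun σ τ s _ => by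
    have z : ∀ a : ZMod 2, a = 0 ∨ a = 1 := by decide
    have z1 : ((1 + 1 : ZMod 2)).val = 0 := by decide
    have w := fix_w h hT hf s
    rw [ps_mul]
    rcases z (ps (pst q) σ) with a | a <;> rcases z (ps (pst q) τ) with b | b <;> rw [a, b] <;>
      simp only [zero_add, add_zero, z1, ZMod.val_zero, ZMod.val_one, zero_smul, one_smul,
        smul_zero, w, self_add hT],
    ((fn_ps (pst q)).map fun a => a.val • T).on _⟩

/-- The cup product up to a coboundary, one argument unramified. -/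
theorem half (hx : Lz O q x) (hy : Lz O q y) (h2 : y i = 0) :
    Sp O q fun σ τ => cup x y σ τ + ps (pst q) σ * (nz (x i) * ep T (y τ)) := by
  rcases val_i h hT h0 hf hx with k | k
  · exact (sp_unr h hx hy k h2).congr fun σ τ _ _ => by rw [k, nz_zero]; ring
  · have hr := lz_r h hT hf
    have p1 : ps (pst q) i = 1 := if_neg h.mv
    refine (sp_unr h (hx.add hr) hy (by
      show x i + (ps (pst q) i).val • T = 0
      rw [p1, k, ZMod.val_one, one_smul, self_add hT]) h2).congr fun σ τ s t => ?_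
    have d := Ep.two_smul' σ (hy.two τ t)
    show _ = ep (x σ + (ps (pst q) σ).val • T) (σ • y τ)
    rw [ep_add (hx.two σ s) (hr.two σ s) d, ep_val, k, nz_ne h0, one_mul,
      ← ep_sm σ T (y τ), fix_w h hT hf s]
    rfl

theorem full (hx : Lz O q x) (hy : Lz O q y) : Sp O q fun σ τ => cup x y σ τ +
    ps (pst q) σ * (nz (x i) * ep T (y τ) + nz (y i) * ep T (x τ)) := by
  rcases val_i h hT h0 hf hy with k | k
  · exact (half h hT h0 hf hx hy k).congr fun σ τ _ _ => by rw [k, nz_zero]; ring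
  · have hr := lz_r h hT hf
    have p1 : ps (pst q) i = 1 := if_neg h.mv
    refine ((half h hT h0 hf hx (hy.add hr) (by
      show y i + (ps (pst q) i).val • T = 0
      rw [p1, k, ZMod.val_one, one_smul, self_add hT])).add (sp_symm hx hr)).congr
      fun σ τ s t => ?_
    have d := Ep.two_smul' σ (hx.two τ t)
    have e1 : cup x (y + fun σ => (ps (pst q) σ).val • T) σ τ =
        cup x y σ τ + cup x (fun σ => (ps (pst q) σ).val • T) σ τ := by
      rw [cup, Pi.add_apply, smul_add]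
      exact ep_add' (hx.two σ s) (Ep.two_smul' σ (hy.two τ t)) (Ep.two_smul' σ (hr.two τ t))
    have e2 : cup (fun σ => (ps (pst q) σ).val • T) x σ τ = ps (pst q) σ * ep T (x τ) := by
      show ep ((ps (pst q) σ).val • T) (σ • x τ) = _
      rw [ep_val, ← ep_sm σ T (x τ), fix_w h hT hf s]
    have e3 : ep T ((y + fun σ => (ps (pst q) σ).val • T) τ) = ep T (y τ) := by
      show ep T (y τ + (ps (pst q) τ).val • T) = _
      rw [ep_add' hT (hy.two τ t) (hr.two τ t), ep_comm T (_ • T), ep_val, ep_self,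
        mul_zero, add_zero]
    rw [e1, e2, e3, k, nz_ne h0]
    linear_combination -z2 (cup x (fun σ => (ps (pst q) σ).val • T) σ τ)

end Place

end Lq

open Lq in
theorem lq_thm (_hU : UnStmt) : LqStmt := by
  intro q O f i h
  refine ⟨fun x hx => ⟨fix_i h (lz_of hx), fix_ff h (lz_of hx), fun e σ s =>
    (le h (lz_of hx) s).elim id fun k => k.trans e⟩, fun T T' a b c d => fix2 h a b c d,
    fun κ _ x y c hxy hc => ?_⟩
  obtain ⟨-, T, -, hT, h0, hf, -⟩ := ex_fix h
  have hx := fun j => lz_of (hxy j).1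
  have hy := fun j => lz_of (hxy j).2
  let ε : G → ZMod 2 := fun τ => ∑ j, (nz (x j i) * ep T (y j τ) + nz (y j i) * ep T (x j τ))
  have s1 : Sp O q fun σ τ => c σ τ + ps (pst q) σ * ε τ :=
    (sp_sum Finset.univ _ fun j => full h hT h0 hf (hx j) (hy j)).congr fun σ τ s t => by
      rw [hc σ τ s t, Finset.sum_add_distrib, ← Finset.mul_sum]
  have s2 := bl_thm le_thm q O (pst q) ε (fun σ τ => ps (pst q) σ * ε τ) i f h.pr h.n2 h.ov h.ine
    h.mv h.fr (fun σ τ s t => by
      simp only [ε]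
      rw [← Finset.sum_add_distrib]
      refine Finset.sum_congr rfl fun j _ => ?_
      rw [eps_mul h hT hf (hx j) s t, eps_mul h hT hf (hy j) s t]
      ring) (fun σ s => Finset.sum_eq_zero fun j _ => by
      rw [eps_ine h hT h0 hf (hx j) s, eps_ine h hT h0 hf (hy j) s]
      ring) fun _ _ _ _ => rfl
  have s3 : Sp O q c ↔ ε f = 0 := by
    rw [← s2]
    exact ⟨fun k => (s1.add k).congr fun σ τ _ _ => by linear_combination -z2 (c σ τ),
      fun k => (s1.add k).congr fun σ τ _ _ => by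
        linear_combination -z2 (ps (pst q) σ * ε τ)⟩
  have s4 : ε f = ∑ j, (nz (x j (f * f)) * nz (y j i) + nz (x j i) * nz (y j (f * f))) :=
    Finset.sum_congr rfl fun j _ => by
      rw [eps_f h hT h0 hf (hx j), eps_f h hT h0 hf (hy j)]
      ring
  have z : ∀ a : ZMod 2, a = 0 ∨ a = 1 := by decide
  rw [← s4, iv]
  rcases z (ε f) with e | e
  · rw [if_pos (s3.2 e), e]
  · rw [if_neg fun k => by rw [s3.1 k] at e; exact zero_ne_one e, e]

end Pool.Agent.Lib.MP_d6ddbd_nt.GA
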