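import Pool.Agent.Lib.MP_d6ddbd_nt.GA.Stmt
import Pool.Agent.Lib.MP_d6ddbd_nt.KI.Bas

/-!
Vectors of cocycles at inert primes are coboundaries.
-/

set_option autoImplicit false
set_option maxSynthPendingDepth 3

open Pool.Agent.Lib.MP_d6ddbd_nt.K11 Pool.Agent.Lib.MP_d6ddbd_nt.KI

namespace Pool.Agent.Lib.MP_d6ddbd_nt.GA

namespace N3

theorem fn_pi {κ Z : Type} [Finite κ] {f : κ → G → Z} (h : ∀ i, Fn (f i)) :
    Fn fun σ i => f i σ := by
  classical
  cases nonempty_fintype κ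
  choose J a b using h
  refine ⟨Finset.univ.biUnion J, fun x hx => ?_, fun σ τ e => funext fun i => b i σ τ
    (e.mono fun x hx => Finset.mem_biUnion.2 ⟨i, Finset.mem_univ i, hx⟩)⟩
  obtain ⟨i, -, hi⟩ := Finset.mem_biUnion.1 hx
  exact a i x hi

variable {ι : Type} [DecidableEq ι] {ψ : ι → G → ZMod 2}

theorem act_low (σ : G) {w : Finset ι → Pt} {S : Finset ι} (h : ∀ R ⊂ S, w R = 0) :
    act ψ σ w S = σ • w S := by
  unfold act
  rw [Finset.sum_eq_single S]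
  · rw [Finset.sdiff_self, Finset.prod_empty, ZMod.val_one, one_smul]
  · intro R hR hne
    rw [h R (Finset.ssubset_iff_subset_ne.2 ⟨Finset.mem_powerset.1 hR, hne⟩), smul_zero, smul_zero]
  · exact fun h => absurd (Finset.mem_powerset_self S) h

theorem act_sub (σ : G) (w w' : Finset ι → Pt) : act ψ σ (w - w') = act ψ σ w - act ψ σ w' := by
  funext S
  simp only [act, Pi.sub_apply, smul_sub, Finset.sum_sub_distrib]

theorem fn_act [Finite ι] (h : ∀ i, Fn (ψ i)) {w : Finset ι → Pt} (hw : 2 • w = 0) :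
    Fn fun σ => act ψ σ w :=
  (fn_pi h).map₂ (fn_pi fun R => fn_sm (alg_tor (tor_one.2 (congrFun hw R))))
    fun a b S => ∑ R ∈ S.powerset, (∏ i ∈ S \ R, a i).val • b R

theorem fix (hN : NormStmt) {φ : G} (hφ : Cy3 φ) {T : Pt} (hT : 2 • T = 0) (h : φ • T = T) :
    T = 0 :=
  (hN.2.1 φ 1 1 T hφ (Or.inl rfl) (tor_one.2 hT)).1 (by rw [one_smul, h])

theorem inj (hN : NormStmt) {φ : G} (hφ : Cy3 φ) {w : Finset ι → Pt} (hw : 2 • w = 0)
    (A : Finset ι) (h : ∀ S ⊆ A, act ψ φ w S = w S) (S : Finset ι) : S ⊆ A → w S = 0 := by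
  induction S using Finset.strongInduction with
  | H S ih =>
    intro hS
    exact fix hN hφ (congrFun hw S)
      ((act_low φ fun R hR => ih R hR (hR.subset.trans hS)).symm.trans (h S hS))

end N3

theorem n3_thm (hN : NormStmt) (hT : T3Stmt) (hA : ActStmt) : N3Stmt := by
  intro ι _ _ ψ
  obtain ⟨-, a2, -, -, -, a6⟩ := (hA ι).2.2 ψ
  have sur : ∀ (φ : G) w, Cy3 φ → 2 • w = 0 → ∃ w', 2 • w' = 0 ∧ act ψ φ w' - w' = w := by
    intro φ w hφ hw
    have hf : {w : Finset ι → Pt | 2 • w = 0}.Finite :=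
      (Set.Finite.pi' fun _ => (Cheb.tors r1_thm 1).1).subset fun w hw S =>
        tor_one.2 (congrFun hw S)
    have hm : Set.MapsTo (fun w => act ψ φ w - w) {w | 2 • w = 0} {w | 2 • w = 0} :=
      fun w (hw : 2 • w = 0) => show 2 • (act ψ φ w - w) = 0 by rw [smul_sub, a2 φ w hw, hw, sub_zero]
    refine ((hf.injOn_iff_bijOn_of_mapsTo hm).1 fun u (hu : 2 • u = 0) u' (hu' : 2 • u' = 0)
      (e : act ψ φ u - u = act ψ φ u' - u') => sub_eq_zero.1 (funext fun S => ?_)).surjOn hw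
    refine N3.inj (ψ := ψ) hN hφ (by rw [smul_sub, hu, hu', sub_zero]) Finset.univ
      (fun S _ => congrFun ?_ S) S (Finset.subset_univ S)
    rw [N3.act_sub, sub_eq_sub_iff_sub_eq_sub, e]
  refine ⟨fun φ w hφ hw => ⟨fun A h S => N3.inj hN hφ hw A h S, sur φ w hφ hw⟩,
    fun v O X hψ hf hv hO hX => ?_⟩
  obtain ⟨f, f1⟩ := vA.1.2.2.2.2 v O hv.pr hO
  have f2 : Cy3 f := ((rA.2 v O hv.pr hv.n2 hv.n11 hO).2.2.2.2.2.2.2 f f1).2.2.1 hv.ty
  obtain ⟨w, w1, w2⟩ := sur f (X f) f2 (hX.two f)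
  obtain ⟨Y, hY⟩ : ∃ Y : G → Finset ι → Pt, ∀ σ, Y σ = X σ - (act ψ σ w - w) := ⟨_, fun _ => rfl⟩
  have y0 : Y f = 0 := by rw [hY, w2, sub_self]
  have y1 : ∀ σ, 2 • Y σ = 0 := fun σ => by
    rw [hY, smul_sub, smul_sub, hX.two, a2 σ w w1, w1, sub_zero, sub_zero]
  have y2 : Fn Y := by
    rw [funext hY]
    exact hX.fn.map₂ (N3.fn_act hf w1) fun a b => a - (b - w)
  have y3 : ∀ σ τ, Y (σ * τ) = Y σ + act ψ σ (Y τ) := fun σ τ => by
    rw [hY, hY, hY, hX.mul, a6 hψ σ τ w w1, N3.act_sub, N3.act_sub]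
    abel
  have key : ∀ S σ, Wl O v σ → Y σ S = 0 := fun S => by
    induction S using Finset.strongInduction with
    | H S ih =>
      obtain ⟨T, t1, t2⟩ := hT 1 1 v O (fun σ => Y σ S) hv hO
        ⟨fun σ _ => tor_one.2 (congrFun (y1 σ) S), fun σ τ _ hτ => by
          rw [y3, Pi.add_apply, N3.act_low σ fun R hR => ih R hR τ hτ,
            tw_two 1 σ (congrFun (y1 τ) S)], (y2.map fun a => a S).on _⟩
      have t3 := t2 f ⟨1, by rwa [pow_one]⟩
      rw [y0, tw_two 1 f (tor_one.1 t1)] at t3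
      intro σ hσ
      rw [t2 σ hσ, N3.fix hN f2 (tor_one.1 t1) (sub_eq_zero.1 t3.symm), tw_zero, sub_zero]
  exact ⟨w, w1, fun σ hσ => sub_eq_zero.1 ((hY σ).symm.trans (funext fun S => key S σ hσ))⟩

end Pool.Agent.Lib.MP_d6ddbd_nt.GA
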