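import Pool.Agent.Lib.MP_d6ddbd_nt.GA.Stmt
import Pool.Agent.Lib.MP_d6ddbd_nt.KI.Bas

/-!
Selmer groups of the quadratic twists of `X₀(11)` on cubes of primes: normalised cocycles.
-/

set_option autoImplicit false
set_option maxSynthPendingDepth 3

open Pool.Agent.Lib.MP_d6ddbd_nt.K11 Pool.Agent.Lib.MP_d6ddbd_nt.KI

noncomputable section

namespace Pool.Agent.Lib.MP_d6ddbd_nt.GA

namespace Norm

theorem ex_cy : ∃ ω, Cy3 ω := by
  obtain ⟨ω, hω⟩ := K11.Fin.ex_w r1_thm
  refine ⟨ω, fun T hT => ?_⟩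
  by_cases h0 : T = 0
  · rw [h0, smul_zero, smul_zero, add_zero, add_zero]
  have t1 : 2 • ω • T = 0 := sm_tor ω hT
  have t2 : 2 • ω • ω • T = 0 := sm_tor ω t1
  have n2 : ω • ω • T ≠ T := fun e => h0 (hω T hT e)
  have n1 : ω • T ≠ T := fun e => n2 (by rw [e, e])
  have z1 : ω • T ≠ 0 := fun e => h0 ((smul_eq_zero_iff_eq ω).1 e)
  have z2 : ω • ω • T ≠ 0 := fun e => z1 ((smul_eq_zero_iff_eq ω).1 e)
  have one : ∀ a : ZMod 2, a ≠ 0 → a = 1 := by decide
  have e1 : ep (ω • T) T = 1 := one _ fun e => by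
    rcases ep_eq_zero.1 e with e | e | e
    exacts [z1 e, h0 e, n1 e]
  have e2 : ep (ω • ω • T) T = 1 := one _ fun e => by
    rcases ep_eq_zero.1 e with e | e | e
    exacts [z2 e, h0 e, n2 e]
  have e3 : ep (ω • ω • T + ω • T) T = 0 := by rw [ep_add t2 t1 hT, e1, e2]; decide
  rcases ep_eq_zero.1 e3 with e | e | e
  · refine absurd (smul_left_cancel ω ?_) n1
    generalize ω • ω • T = A at *
    generalize ω • T = B at *
    linear_combination (norm := module) e - t1
  · exact absurd e h0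
  · rw [e, ← two_nsmul, hT]

theorem cy_w : Cy3 w3 := Classical.epsilon_spec ex_cy

theorem inj {φ : G} {η : ℤ} (hφ : Cy3 φ) (hη : η = 1 ∨ η = -1) (k : ℕ) :
    ∀ T : Pt, 2 ^ k • T = 0 → η • φ • T = T → T = 0 := by
  induction k with
  | zero => intro T hT _; simpa using hT
  | succ k ih =>
    intro T hT h
    have h2 : 2 • T = 0 := ih _ (by rwa [pow_succ, mul_smul] at hT)
      (by rw [K11.Fin.sm_n, smul_comm, h])
    rw [K11.Fin.sgn_two (sm_tor φ h2) hη] at h
    have := hφ T h2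
    rw [h, h] at this
    linear_combination (norm := module) this - h2

theorem sur {φ : G} {η : ℤ} (hφ : Cy3 φ) (hη : η = 1 ∨ η = -1) (k : ℕ) :
    ∀ T : Pt, 2 ^ k • T = 0 → ∃ S : Pt, 2 ^ k • S = 0 ∧ η • φ • S - S = T := by
  induction k with
  | zero =>
    intro T hT
    exact ⟨0, smul_zero _, by rw [smul_zero, smul_zero, sub_zero]; simpa using hT.symm⟩
  | succ k ih =>
    intro T hT
    obtain ⟨S, a, b⟩ := ih (2 • T) (by rwa [pow_succ, mul_smul] at hT)
    obtain ⟨S, rfl⟩ := ex_div 1 S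
    rw [pow_one] at a b
    rw [K11.Fin.sm_n] at b
    have h2 : 2 • (T - (η • φ • S - S)) = 0 := by
      generalize φ • S = C at *
      linear_combination (norm := module) -b
    have t1 := sm_tor φ h2
    have t2 := sm_tor φ t1
    refine ⟨S + φ • (T - (η • φ • S - S)), ?_, ?_⟩
    · rw [pow_succ, mul_smul, smul_add, t1, add_zero, a]
    · have := hφ _ h2
      rw [K11.Fin.sm_add, smul_add, K11.Fin.sgn_two t2 hη]
      generalize φ • φ • (T - (η • φ • S - S)) = A at *
      generalize φ • (T - (η • φ • S - S)) = B at *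
      generalize φ • S = C at *
      linear_combination (norm := module) this - t1 - h2

end Norm

theorem norm_thm : NormStmt := by
  refine ⟨Norm.cy_w, fun φ η k T hφ hη hT => ⟨Norm.inj hφ hη k T hT, Norm.sur hφ hη k T hT⟩,
    fun c k x _ hb h0 => ?_, fun c k n x hx => ?_⟩
  · obtain ⟨T, j, a, b⟩ := hb
    have hT : T = 0 := Norm.inj Norm.cy_w (cq_or c w3) j T a (by
      have := b w3
      rwa [h0, eq_comm, sub_eq_zero] at this)
    funext σ
    rw [b, hT, tw_zero, sub_zero, Pi.zero_apply]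
  · obtain ⟨S, a, b⟩ := Norm.sur Norm.cy_w (cq_or c w3) k (x w3) (hx.cy.tor w3)
    refine ⟨S, a, ⟨hx.cy.sub (cy_cob a), fun v O hv hn hO =>
      (hx.kl v O hv hn hO).sub (kl_pt (alg_tor a))⟩, ?_⟩
    rw [Pi.sub_apply, ← b]
    exact sub_self _

end Pool.Agent.Lib.MP_d6ddbd_nt.GA
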