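import Pool.Agent.Lib.MP_d6ddbd_nt.GA.Stmt
import Pool.Agent.Lib.MP_d6ddbd_nt.KI.Basis
import Pool.Agent.Lib.MP_d6ddbd_nt.KI.Br
import Pool.Agent.Lib.MP_b4b3cb_nt.BC.GPK

/-!
The duality of Poitou and Tate for the points of order two.
-/

set_option autoImplicit false
set_option maxSynthPendingDepth 3

open Pool.Agent.Lib.MP_d6ddbd_nt.K11 Pool.Agent.Lib.MP_d6ddbd_nt.KI
open Rat.HeightOneSpectrum (natGenerator prime_natGenerator primesEquiv)

noncomputable section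

namespace Pool.Agent.Lib.MP_d6ddbd_nt.GA

namespace PtA

open Br (Ga lf rs_lf rs_coe)

theorem pv0 {k H A A' P : Type} [Field k] [Finite k] [CharP k 2] [Algebra (ZMod 2) k] [Group H]
    [TopologicalSpace H] [AddCommGroup A] [Module k A] [AddCommGroup A'] [Module k A']
    {D I : P → Subgroup H} {β : A' →ₗ[k] A →ₗ[k] k} {R : BC.FR k H A} {R' : BC.FR k H A'}
    {ξ : H → H → A} {f : ∀ v, D v → A} (hP : BC.Pf R' R β) (d : BC.Dat I R ξ f) (u : A') :
    BC.PV β R ξ f (R'.d1 u) 0 := by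
  have h2 : (2 : k) = 0 := CharTwo.two_eq_zero
  refine ⟨fun g h => β u (ξ g h), ∅, BC.lc_one (β u) d.z2.1, fun g h l => ?_,
    fun v _ => ⟨fun g => β u (f v g), BC.lc_one (β u) (d.lc v), fun g h => ?_⟩, rfl⟩
  · have := congrArg (β u) (d.z2.2 g h l)
    simp only [BC.d3, BC.c12, BC.FR.d1_apply, map_sub, map_add, LinearMap.sub_apply, hP.eq] at this ⊢
    linear_combination this + (β u (ξ (g * h) l) + β u (ξ g h)) * h2
  · simp only [BC.pl, BC.c11, d.df, BC.FR.d2, BC.FR.d1_apply, map_sub, map_add,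
      LinearMap.sub_apply, BC.FR.res_ac, hP.eq]
    ring

/-- The points of order two. -/
def V : AddSubgroup Pt where
  carrier := {T | 2 • T = 0}
  add_mem' := Ep.two_add
  zero_mem' := smul_zero _
  neg_mem' := fun h => (Ep.neg_two h).symm ▸ h

instance : Module (ZMod 2) V := AddCommGroup.zmodModule fun x => Subtype.ext x.2

instance : Finite V := ((Cheb.tors r1_thm 1).1.subset fun _ h => tor_one.2 h).to_subtype

theorem ag {σ τ : G} (h : Br.rs σ = Br.rs τ) {x : ℂ} (hx : IsAlgebraic ℚ x) : σ x = τ x :=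
  (rs_coe σ ⟨x, mem_algebraicClosure_iff.2 hx⟩).symm.trans (h ▸ rs_coe τ _)

theorem fn_lf {X : Type} {f : G → X} (hf : Fn f) (σ : G) : f (lf (Br.rs σ)) = f σ :=
  let ⟨_, a, b⟩ := hf
  b _ _ fun x hx => ag (rs_lf _) (a x hx)

theorem lc {X : Type} {f : G → X} (hf : Fn f) : IsLocallyConstant fun g : Ga => f (lf g) := by
  obtain ⟨J, a, b⟩ := hf
  obtain ⟨U, o, -, h⟩ := Br.exU a
  refine (IsLocallyConstant.iff_eventually_eq _).2 fun g => (Br.near o g).mono fun g' e => ?_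
  exact (b _ _ (h _ _ (by simpa only [rs_lf] using e))).symm

theorem desc {X : Type} {D : Subgroup Ga} {E : G → Prop} (hE : ∀ g ∈ D, ∃ σ, E σ ∧ Br.rs σ = g)
    {f : G → X} (hf : FnOn E f) : ∃ F : D → X, IsLocallyConstant F ∧
      ∀ σ (g : D), E σ → Br.rs σ = g → F g = f σ := by
  obtain ⟨J, a, b⟩ := hf
  obtain ⟨U, o, -, h⟩ := Br.exU a
  choose s s1 s2 using fun g : D => hE g g.2
  refine ⟨fun g => f (s g), (IsLocallyConstant.iff_eventually_eq _).2 fun g => ?_,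
    fun σ g e1 e2 => b _ _ (s1 g) e1 fun x hx => ag ((s2 g).trans e2.symm) (a x hx)⟩
  exact (continuous_subtype_val.continuousAt.eventually (Br.near o g.1)).mono fun g' e =>
    (b _ _ (s1 g) (s1 g') (h _ _ (by rwa [s2, s2]))).symm

theorem asc {X : Type} {D : Subgroup Ga} (hD : IsClosed (D : Set Ga)) {F : D → X}
    (hF : IsLocallyConstant F) : ∃ J, Al J ∧ ∀ s t (hs : Br.rs s ∈ D) (ht : Br.rs t ∈ D),
      Ag J s t → F ⟨_, hs⟩ = F ⟨_, ht⟩ := by
  have : CompactSpace D := isCompact_iff_compactSpace.1 hD.isCompact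
  obtain ⟨U, o, -, h⟩ := BC.unif1 hF
  obtain ⟨W, w, e⟩ := isOpen_induced_iff.1 o
  obtain ⟨U', o', -, h'⟩ := Br.top.nhds W (w.mem_nhds (e.ge U.one_mem :))
  obtain ⟨J, a, b⟩ := Br.exJ o'
  refine ⟨J, a, fun s t hs ht k => ?_⟩
  rw [← h ⟨_, hs⟩ (⟨_, hs⟩⁻¹ * ⟨_, ht⟩) (e.le (h' (b s t k))), mul_inv_cancel_left]

theorem fn_rs {X : Type} {F : Ga → X} (hF : IsLocallyConstant F) : Fn fun σ => F (Br.rs σ) :=
  let ⟨J, a, b⟩ := asc (D := ⊤) isClosed_univ (BC.lc_at hF continuous_subtype_val)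
  ⟨J, a, fun s t e => b s t trivial trivial e⟩

/-- The action. -/
def ac (σ : G) : V →ₗ[ZMod 2] V := AddMonoidHom.toZModLinearMap 2 (AddMonoidHom.mk'
  (fun T => ⟨σ • T.1, Ep.two_smul' σ T.2⟩) fun _ _ => Subtype.ext (smul_add _ _ _))

theorem fn_ac : Fn ac :=
  let ⟨J, a, b⟩ := ex_tor 1 1
  ⟨J, a, fun σ τ e => LinearMap.ext fun T => Subtype.ext ((b σ τ e).2 _ (tor_one.2 T.2))⟩

theorem ac_mul (σ τ : G) : ac (σ * τ) = ac σ * ac τ :=
  LinearMap.ext fun _ => Subtype.ext (mul_smul _ _ _)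

/-- The representation. -/
def R : BC.FR (ZMod 2) Ga V where
  ac :=
    { toFun := fun g => ac (lf g)
      map_one' := by
        rw [← map_one Br.rs, fn_lf fn_ac]
        exact LinearMap.ext fun _ => Subtype.ext (one_smul _ _)
      map_mul' := fun g h => by
        rw [← ac_mul, ← fn_lf fn_ac (lf g * lf h), map_mul, rs_lf, rs_lf] }
  lc := lc fn_ac

theorem R_ac (σ : G) (T : V) : (R.ac (Br.rs σ) T : Pt) = σ • T.1 :=
  congrArg (fun F : V →ₗ[ZMod 2] V => (F T : Pt)) (fn_lf fn_ac σ)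

/-- The pairing. -/
def be : V →ₗ[ZMod 2] V →ₗ[ZMod 2] ZMod 2 := AddMonoidHom.toZModLinearMap 2 (AddMonoidHom.mk'
  (fun T => AddMonoidHom.toZModLinearMap 2 (AddMonoidHom.mk' (fun U => ep T.1 U.1)
    fun U U' => ep_add' T.2 U.2 U'.2)) fun T T' => LinearMap.ext fun U => ep_add T.2 T'.2 U.2)

theorem nd (u : V) (h : ∀ v : V, ep u.1 v.1 = 0) : u = 0 := by
  obtain ⟨T, a, b⟩ := BasisA.mv
  have t : T ≠ 0 := fun e => b (by rw [e, smul_zero])
  rcases ep_eq_zero.1 (h ⟨T, a⟩) with e | e | e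
  · exact Subtype.ext e
  · exact absurd e t
  rcases ep_eq_zero.1 (h ⟨_, Ep.two_smul' cj a⟩) with e' | e' | e'
  · exact Subtype.ext e'
  · exact absurd ((smul_eq_zero' _ _).1 e') t
  · exact absurd (e'.symm.trans e) b

theorem pf : BC.Pf R R be :=
  ⟨fun g u v => ep_sm (lf g) u.1 v.1, nd, fun v h => nd v fun u => (ep_comm _ _).trans (h u)⟩

open Classical in
/-- A retraction. -/
def pj (T : Pt) : V := if h : 2 • T = 0 then ⟨T, h⟩ else 0

theorem pj_coe {T : Pt} (h : 2 • T = 0) : (pj T : Pt) = T := by rw [pj, dif_pos h]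

theorem z1 {x : G → Pt} (hx : Coc x) : (fun g => pj (x (lf g))) ∈ R.Z1 :=
  R.mk_z1 (lc ((coc_fn hx).map pj)) fun g h => Subtype.ext (by
    rw [← rs_lf g, ← rs_lf h, ← map_mul, AddSubgroup.coe_add, R_ac]
    simp only [fn_lf (coc_fn hx), pj_coe (hx.two _)]
    exact hx.mul _ _)

theorem coc {y : Ga → V} (hy : y ∈ R.Z1) : Coc fun σ => (y (Br.rs σ) : Pt) :=
  (cy_one (c := 1)).1 (cy_of (fun σ => tor_one.2 (y _).2) (fun σ τ => by
    rw [map_mul, BC.FR.coc hy, AddSubgroup.coe_add, R_ac, tw_two _ _ (y _).2])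
    ((fn_rs hy.1).map Subtype.val))

variable {O : ValuationSubring ℂ} {v : ℕ}

theorem dc (hv : v.Prime) (hO : Ov O v) {g : Ga} (hg : g ∈ SC.Dec ℚ (Br.pr O)) : Dc O (lf g) := by
  intro x hx
  obtain ⟨a, b, e, h⟩ := Br.frac (Br.max hv hO) hx
  have k := (Br.pm.mem_dec _ _).1 hg
  have e' := congrArg (lf g) e
  rw [map_mul, ← Br.smul_coe, ← Br.smul_coe, rs_lf] at e'
  rw [Br.mem_iff e h, Br.mem_iff e' (by rwa [k, k]), k]

theorem wl_dc (hv : v.Prime) {σ : G} (h : Wl O v σ) : Dc O σ :=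
  let ⟨_, e⟩ := h
  fun y hy => (vA.2.1.2.1 O _ σ y e (pow_ne_zero _ hv.ne_zero) hy).1

theorem ine (hv : v.Prime) (hO : Ov O v) {σ : G} (h : Frob O 1 σ) :
    Br.rs σ ∈ SC.Ine ℚ (Br.pr O) := (Br.pm.mem_ine _ _).2 fun x => by
  simpa only [pow_one] using (Br.fr_iff (Br.max hv hO)).1 h x

/-- The Kummer condition. -/
def Ku (c : ℤ) (O : ValuationSubring ℂ) (v : ℕ) (D : Subgroup Ga) : Submodule (ZMod 2) (D → V) :=
  (R.res D).Z1 ⊓ AddSubgroup.toZModSubmodule 2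
    { carrier := {x | ∃ S, AlgP S ∧ ∀ σ (g : D), Wl O v σ → Br.rs σ = g →
        (x g : Pt) = tw c σ S - S}
      add_mem' := fun ⟨S, a, b⟩ ⟨S', a', b'⟩ => ⟨S + S', alg_add a a', fun σ g h e => by
        rw [Pi.add_apply, AddSubgroup.coe_add, b σ g h e, b' σ g h e, tw_add]; abel⟩
      zero_mem' := ⟨0, alg_zero, fun σ _ _ _ => by simp [tw_zero]⟩
      neg_mem' := fun ⟨S, a, b⟩ => ⟨-S, alg_neg a, fun σ g h e => by
        rw [Pi.neg_apply, AddSubgroup.coe_neg, b σ g h e, tw_neg]; abel⟩ }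

theorem ng_inj : Function.Injective (natGenerator : Stark.Pr ℚ → ℕ) :=
  fun _ _ k => primesEquiv.injective (Subtype.ext k)

theorem exS (T : Finset ℕ) (h : 2 ∈ T) : ∃ S : Finset (SC.Pl ℚ), BC.S2 ℚ ⊆ S ∧
    (∀ φ, Sum.inr φ ∈ S) ∧ ∀ q, Sum.inl q ∈ S ↔ natGenerator q ∈ T := by
  refine ⟨(T.preimage _ ng_inj.injOn).disjSum Finset.univ, ?_, by simp, by simp⟩
  rintro (q | φ) e
  · have a := (Br.le_og q (a := 2) two_ne_zero 0).2 (by simp)
    have b := (Br.le_og q (a := 2) two_ne_zero 1).1 (by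
      have := BC.inl_mem_S2.1 e
      push_cast at a ⊢
      omega)
    rw [pow_one] at b
    simpa [(Nat.prime_dvd_prime_iff_eq (prime_natGenerator q) Nat.prime_two).1
      (by exact_mod_cast b)] using h
  · simp

end PtA

open PtA Br in
theorem pt_thm' : GA.PtStmt := by
  classical
  intro c n ξ P f f' N hc hD hξ hP hf' hN
  have hO := fun v hv => (hP v hv).1
  let π := plc P hO
  have pq := fun q : Stark.Pr ℚ => prime_natGenerator q
  let E : SC.Pl ℚ → G → Prop :=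
    Sum.elim (fun q => Dc (P (natGenerator q))) fun _ σ => σ = 1 ∨ σ = cj
  let f₀ : SC.Pl ℚ → G → Pt := Sum.elim (fun q => f (natGenerator q)) fun _ => f'
  have t₀ : ∀ v, Tz (E v) ξ (f₀ v) := by
    rintro (q | φ)
    exacts [(hP _ (pq q)).2, hf']
  have e1 : ∀ v, ∀ g ∈ π.D v, ∃ σ, E v σ ∧ Br.rs σ = g := by
    rintro (q | φ) g hg
    · exact ⟨_, dc (pq q) (hO _ (pq q)) hg, rs_lf g⟩
    · rcases ((cjs.sq cj_rs).2.1 g).1 hg with rfl | rfl
      exacts [⟨1, .inl rfl, map_one _⟩, ⟨cj, .inr rfl, rfl⟩]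
  have e2 : ∀ v σ τ, E v σ → E v τ → E v (σ * τ) := by
    rintro (q | φ) σ τ a b
    · exact fun x hx => (a _ (V2.alg τ hx)).trans (b x hx)
    · rcases a with rfl | rfl <;> rcases b with rfl | rfl <;> simp [E, cj_mul_cj]
  choose F F1 F2 using fun v => desc (e1 v) (t₀ v).fn
  obtain ⟨J, hJ, hJ'⟩ := hξ.fn
  have x1 : ∀ σ τ, ξ (lf (Br.rs σ)) (lf (Br.rs τ)) = ξ σ τ := fun σ τ =>
    hJ' _ _ _ _ (fun x hx => ag (rs_lf _) (hJ x hx)) fun x hx => ag (rs_lf _) (hJ x hx)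
  have hd : BC.Dat π.I R (fun g h => pj (ξ (lf g) (lf h))) fun v g => pj (F v g) := by
    refine ⟨⟨?_, fun g h l => Subtype.ext ?_⟩, fun v => BC.lc_one pj (F1 v),
      fun v g h => Subtype.ext ?_, ?_⟩
    · obtain ⟨U, o, -, b⟩ := exU hJ
      refine (IsLocallyConstant.iff_eventually_eq _).2 fun p => ?_
      filter_upwards [(near o p.1).prod_nhds (near o p.2)] with p' hp
      exact congrArg pj (hJ' _ _ _ _ (b _ _ (by simpa only [rs_lf] using hp.1))
        (b _ _ (by simpa only [rs_lf] using hp.2))).symm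
    · rw [← rs_lf g, ← rs_lf h, ← rs_lf l]
      simp only [← map_mul, AddSubgroup.coe_add, R_ac, x1, pj_coe (hξ.two _ _)]
      exact hξ.eq _ _ _
    · obtain ⟨σ, a, a'⟩ := e1 v g g.2
      obtain ⟨τ, b, b'⟩ := e1 v h h.2
      simp only [BC.FR.d2, BC.FR.res_ac, AddSubgroup.coe_sub, AddSubgroup.coe_add]
      rw [F2 v σ g a a', F2 v τ h b b', F2 v (σ * τ) (g * h) (e2 v σ τ a b)
        (by rw [map_mul, a', b']; rfl), ← a', ← b', R_ac, x1, pj_coe (hξ.two _ _),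
        pj_coe ((t₀ v).two _ a), pj_coe ((t₀ v).two _ b), pj_coe ((t₀ v).two _ (e2 v σ τ a b))]
      exact (t₀ v).eq σ τ a b
    · obtain ⟨S, -, s1, s2⟩ := exS (Finset.range (N + 3)) (by simp)
      refine ⟨S, ?_⟩
      rintro (q | φ) hv g i hi
      · have a := dc (pq q) (hO _ (pq q)) g.2
        have b := Br.ine (max (pq q) (hO _ (pq q))) hi
        have := hN _ _ _ (pq q) (by simp [s2] at hv; omega) a b
        exact congrArg pj ((F2 (.inl q) _ _ (e2 (.inl q) _ _ a (wl_dc (pq q) (wl_ine _ b)))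
          (by rw [map_mul, rs_lf, rs_lf]; rfl)).trans
          (this.trans (F2 (.inl q) _ _ a (rs_lf _)).symm))
      · exact absurd (s1 φ) hv
  let A : SC.Pl ℚ → Prop := Sum.elim (fun q => natGenerator q ∈ n) fun _ => True
  let l : SC.Pl ℚ → ℕ := Sum.elim natGenerator fun _ => 0
  let Y : ∀ v, Submodule (ZMod 2) (π.D v → V) := fun v =>
    if A v then (R.res _).Z1 else if (l v : ℤ) ∣ 22 * c then Ku c (P (l v)) (l v) _
    else (R.res _).Un ((π.I v).subgroupOf (π.D v))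
  have c0 : (22 * c).natAbs ≠ 0 := by simpa using hc
  obtain ⟨S, s0, s1, s2⟩ := exS (n ∪ (22 * c).natAbs.divisors) (Finset.mem_union_right _
    (Nat.mem_divisors.2 ⟨Int.natCast_dvd.1 ⟨11 * c, by push_cast; ring⟩, c0⟩))
  have s3 : ∀ q, Sum.inl q ∉ S ↔ natGenerator q ∉ n ∧ ¬ (natGenerator q : ℤ) ∣ 22 * c := fun q => by
    rw [s2, Finset.mem_union, not_or, Nat.mem_divisors, Int.natCast_dvd, and_iff_left c0]
  have hC : BC.Cd π.I R Y S := by
    refine ⟨fun v => ?_, fun v => ?_, ?_⟩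
    · rintro _ ⟨u, rfl⟩
      have z := (R.res (π.D v)).d1_mem u
      simp only [Y]
      split_ifs with a b
      · exact z
      · exact ⟨z, u, alg_tor (tor_one.2 u.2), fun σ g _ e => by
          rw [BC.FR.d1_apply, BC.FR.res_ac, ← e, AddSubgroup.coe_sub, R_ac, tw_two _ _ u.2]⟩
      · refine ⟨z, fun i hi => ?_⟩
        rcases v with q | φ
        · refine sub_eq_zero.2 (Subtype.ext (ine_tor (pq q) (fun e => b ?_) (fun e => b ?_)
            (hO _ (pq q)) (Br.ine (max (pq q) (hO _ (pq q))) hi) (tor_one.2 u.2)))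
          · exact ⟨11 * c, by simp only [l, Sum.elim_inl, e]; push_cast; ring⟩
          · exact ⟨2 * c, by simp only [l, Sum.elim_inl, e]; push_cast; ring⟩
        · exact absurd trivial a
    · simp only [Y]
      split_ifs
      exacts [le_rfl, inf_le_left, fun _ h => h.1]
    · rintro (q | φ) hv
      · exact (if_neg ((s3 q).1 hv).1).trans (if_neg ((s3 q).1 hv).2)
      · exact absurd (s1 φ) hv
  have gp := BC.gpK (ZMod 2) π
  obtain ⟨φ, p1, p2, p3⟩ := gp.pt pf s0 hC hd fun y hy => by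
    obtain ⟨T, a, b⟩ := hD _ P (coc hy.1) hO (fun v x hv hx h => by
      obtain ⟨q, rfl⟩ := exq hv
      have z := BC.FR.res_z1 (z1 hx) (π.D (.inl q))
      obtain ⟨η, h1, h2⟩ := (hy.2 (.inl q)).2 (fun g => pj (x (lf g))) (by
        simp only [Y]
        split_ifs with a b
        · exact z
        · obtain ⟨S, u, w⟩ := (h.resolve_left a).2
          exact ⟨z, S, u, fun σ g k e => by
            beta_reduce
            rw [← e, fn_lf (coc_fn hx), pj_coe (hx.two _), w σ k]⟩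
        · exact absurd (h.resolve_left a).1 b)
      obtain ⟨J, j1, j2⟩ := asc (pm.closed _) h1
      have m : ∀ σ, Wl (P (natGenerator q)) (natGenerator q) σ → Br.rs σ ∈ π.D (.inl q) :=
        fun σ k => w_dec hv (hO _ hv) k
      refine ⟨fun σ => if k : Br.rs σ ∈ π.D (.inl q) then η ⟨_, k⟩ else 0,
        ⟨J, j1, fun σ τ u w e => ?_⟩, fun σ τ u w => ?_⟩
      · simp only [dif_pos (m σ u), dif_pos (m τ w)]
        exact j2 σ τ _ _ e
      · simp only [dif_pos (m σ u), dif_pos (m τ w), dif_pos (m _ (u.mul w))]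
        have := h2 ⟨_, m σ u⟩ ⟨_, m τ w⟩
        rw [CharTwo.sub_eq_add] at this
        refine Eq.trans ?_ (this.trans (by congr 2; exact Subtype.ext (map_mul _ _ _).symm))
        change _ = ep _ (R.ac (Br.rs σ) (pj (x (lf (Br.rs τ)))) : Pt)
        rw [R_ac, fn_lf (coc_fn hx), pj_coe (hx.two _)]
        rfl) fun v σ hv h1 h2 h3 => by
      obtain ⟨q, rfl⟩ := exq hv
      exact congrArg Subtype.val
        ((((BC.PTe.cd_ann gp.toG0 pf s0 hC).un (.inl q) ((s3 q).2 ⟨h2, h1⟩)).le (hy.2 _)).2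
          ⟨_, w_dec hv (hO _ hv) (wl_ine _ h3)⟩ (PtA.ine hv (hO _ hv) h3))
    have : y = R.d1 ⟨T, a⟩ := funext fun g => Subtype.ext (by
      rw [← rs_lf g, BC.FR.d1_apply, AddSubgroup.coe_sub, R_ac]
      exact b _)
    exact this ▸ pv0 pf hd _
  refine ⟨fun σ => φ (Br.rs σ), ⟨fun σ _ => (φ _).2, ((fn_rs p1).map Subtype.val).on _,
    fun σ τ _ _ => ?_⟩, fun v hv hn => ?_⟩
  · have := congrArg Subtype.val (p2 (Br.rs σ) (Br.rs τ))
    rwa [x1, pj_coe (hξ.two _ _), BC.FR.d2, AddSubgroup.coe_sub, AddSubgroup.coe_add, R_ac,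
      ← map_mul] at this
  obtain ⟨q, rfl⟩ := exq hv
  have k : ∀ σ (h : Wl (P (natGenerator q)) (natGenerator q) σ),
      (pj (F (.inl q) ⟨_, w_dec hv (hO _ hv) h⟩) : Pt) = f (natGenerator q) σ := fun σ h => by
    rw [F2 (.inl q) σ _ (wl_dc hv h) rfl]
    exact pj_coe ((hP _ hv).2.two _ (wl_dc hv h))
  refine ⟨fun h => ?_, fun h i hi => ?_⟩
  · have y : Y (.inl q) = _ := (if_neg hn).trans (if_pos h)
    obtain ⟨S, a, b⟩ := (y.le (p3 (.inl q))).2
    exact ⟨S, a, fun σ e => by rw [Pi.sub_apply, ← k σ e]; exact b σ ⟨_, w_dec hv (hO _ hv) e⟩ e rfl⟩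
  · rw [← k i (wl_ine _ hi)]
    exact congrArg Subtype.val (sub_eq_zero.1 (((hC.un _ ((s3 q).2 ⟨hn, h⟩)).le (p3 _)).2
      ⟨_, w_dec hv (hO _ hv) (wl_ine _ hi)⟩ (PtA.ine hv (hO _ hv) hi)))

end Pool.Agent.Lib.MP_d6ddbd_nt.GA
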