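import Pool.Agent.Lib.MP_d6ddbd_nt.GA.Stmt
import Pool.Agent.Lib.MP_d6ddbd_nt.KI.Br
import Pool.Agent.Lib.MP_d6ddbd_nt.KI.Tr
import Pool.Agent.Lib.MP_b4b3cb_nt.Par.Glo

/-!
Reciprocity for two-cocycles with values in signs, for any finite set of primes.
-/

set_option autoImplicit false

open NumberField
open Pool.Agent.Lib.MP_d6ddbd_nt.K11 Pool.Agent.Lib.MP_d6ddbd_nt.KI
open Pool.Agent.Stark (Pr)

noncomputable section

namespace Pool.Agent.Lib.MP_d6ddbd_nt.GA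

namespace RecN

/-- Splitting does not depend on the place. -/
theorem move {c : G → G → ZMod 2} {v : ℕ} {O O' : ValuationSubring ℂ} (hc : C2 c) (hv : v.Prime)
    (hO : Ov O v) (hO' : Ov O' v) (h : Sp O v c) : Sp O' v c := by
  classical
  obtain ⟨g, hg⟩ := tr_thm.1 v O O' hv hO hO'
  obtain ⟨η, ⟨J, hJ, h1⟩, h2⟩ := h
  obtain ⟨J', hJ', h3⟩ := hc.fn
  have hw : ∀ s, Wl O' v s → Wl O v (g⁻¹ * s * g) := fun s ⟨n, hn⟩ => ⟨n, hg _ _ hn⟩
  refine ⟨fun s => η (g⁻¹ * s * g) + c g (g⁻¹ * s * g) + c s g,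
    ⟨J' ∪ (J ∪ J').image g, fun x hx => ?_, fun s t hs ht e => ?_⟩, fun s t hs ht => ?_⟩
  · rcases Finset.mem_union.1 hx with a | a
    · exact hJ' x a
    · obtain ⟨y, hy, rfl⟩ := Finset.mem_image.1 a
      exact V2.alg g ((Finset.mem_union.1 hy).elim (hJ y) (hJ' y))
  · have k : ∀ x ∈ J ∪ J', (g⁻¹ * s * g) x = (g⁻¹ * t * g) x := fun x hx => by
      have := e (g x) (Finset.mem_union_right _ (Finset.mem_image_of_mem _ hx))
      change g⁻¹ (s (g x)) = g⁻¹ (t (g x))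
      rw [this]
    simp only
    rw [h1 _ _ (hw s hs) (hw t ht) fun x hx => k x (Finset.mem_union_left _ hx),
      h3 g g _ _ (fun _ _ => rfl) fun x hx => k x (Finset.mem_union_right _ hx),
      h3 s t g g (fun x hx => e x (Finset.mem_union_left _ hx)) fun _ _ => rfl]
  · have e1 := hc.eq s t g
    have e2 := hc.eq s g (g⁻¹ * t * g)
    have e3 := hc.eq g (g⁻¹ * s * g) (g⁻¹ * t * g)
    have e4 := h2 _ _ (hw s hs) (hw t ht)
    rw [show g * (g⁻¹ * t * g) = t * g by group] at e2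
    rw [show g * (g⁻¹ * s * g) = s * g by group] at e3
    rw [show g⁻¹ * s * g * (g⁻¹ * t * g) = g⁻¹ * (s * t) * g by group] at e3 e4
    simp only
    grind

open Rat.HeightOneSpectrum in
theorem sum {c : G → G → ZMod 2} {S : Finset ℕ} {P : ℕ → ValuationSubring ℂ} (hc : C2 c)
    (hi : c cj cj = c 1 1) (hP : ∀ v : ℕ, v.Prime → Ov (P v) v) (hS : ∀ v ∈ S, v.Prime)
    (h : ∀ v : ℕ, v.Prime → v ∉ S → Sp (P v) v c) : ∑ v ∈ S, iv (P v) v c = 0 := by
  classical
  have F := SP.facts ℚ Br.Qb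
  let π := Br.plc P hP
  have : Nonempty (Pr ℚ) := ⟨(Br.exq Nat.prime_two).choose⟩
  choose! q hq using fun (v : ℕ) (hv : v.Prime) => Br.exq hv
  have inj : ∀ p p' : Pr ℚ, natGenerator p = natGenerator p' → p = p' := fun p p' k =>
    primesEquiv.injective (Subtype.ext k)
  have key := SP.rec2 π _ 1 (Br.br.coc_sg (Br.cz hc)) (Br.sg_sq _) (fun _ => Br.cc c)
    (fun v => SP.cz_iff.2 (SC.st_Sz.cz_mono (Br.cz hc) le_top)) (fun v => by
      rw [← Br.br.sgc_add, Br.br.sz (F.dict.closed π v)]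
      exact SC.st_Sz.zero fun g _ h _ => CharTwo.add_self_eq_zero _)
    (S.image fun v => Sum.inl (q v)) fun w hw => SP.sz_iff.2 (by
      rcases w with p | φ
      · have hp := prime_natGenerator p
        refine Br.sz_of_sp hc hp (hP _ hp) (h _ hp fun k => hw (Finset.mem_image.2 ⟨_, k, ?_⟩))
        rw [inj _ _ (hq _ hp)]
      · exact Br.sz_inf hc hi)
  rw [Finset.sum_image fun v hv v' hv' e => by
    rw [← hq v (hS v hv), ← hq v' (hS v' hv'), Sum.inl_injective e]] at key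
  rw [← key]
  refine Finset.sum_congr rfl fun v hv => ?_
  have hp := hS v hv
  have e : π.D (.inl (q v)) = SC.Dec ℚ (Br.pr (P v)) := by
    change SC.Dec ℚ (Br.pr (P (natGenerator (q v)))) = _
    rw [hq v hp]
  have k : Sp (P v) v c ↔ SP.Sz fun g h : π.D (.inl (q v)) => Br.cc c g h := by
    rw [SP.sz_iff, e]
    exact ⟨Br.sz_of_sp hc hp (hP v hp), Br.sp_of_sz hc hp (hP v hp)⟩
  unfold iv SP.i2
  exact if_congr k rfl rfl

end RecN

theorem recn_thm : RecNStmt :=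
  ⟨fun _ _ _ _ hc hv hO hO' h => RecN.move hc hv hO hO' h,
    fun _ _ _ hc hi hP hS h => RecN.sum hc hi hP hS h⟩

end Pool.Agent.Lib.MP_d6ddbd_nt.GA
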