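import Pool.Agent.Lib.MP_d6ddbd_nt.GA.Iface
import Pool.Agent.Lib.MP_d6ddbd_nt.KI.Basis

/-!
Auxiliary primes and classes of primes.
-/

set_option autoImplicit false

open Pool.Agent.Lib.MP_d6ddbd_nt.K11 Pool.Agent.Lib.MP_d6ddbd_nt.KI

noncomputable section

namespace Pool.Agent.Lib.MP_d6ddbd_nt.GA

theorem kg_thm : KgStmt := by
  intro K
  obtain ⟨J, hJ, h⟩ := ex_tor 1 (K + 1)
  have hn : 2 ^ K ≠ 0 := by positivity
  have hζ := Complex.isPrimitiveRoot_exp _ hn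
  generalize Complex.exp (2 * Real.pi * Complex.I / (2 ^ K : ℕ)) = ζ at hζ
  obtain ⟨J', a, b, c⟩ := hJ.union (J' := {ζ}) fun x hx => by
    rw [Finset.mem_singleton.1 hx]
    exact IsAlgebraic.of_pow (Nat.pos_of_ne_zero hn) (by rw [hζ.pow_eq_one]; exact isAlgebraic_one)
  refine ⟨J', a, fun q O φ hq h2 h11 hO hφ e => ?_⟩
  have t := (h φ cj (e.mono b)).2
  have s : ∀ T : Pt, 2 ^ (K + 1) • T = 0 → φ • φ • T = T := fun T hT => by
    rw [t T hT, t _ (sm_tor cj hT), ← mul_smul, cj_mul_cj, one_smul]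
  have o : ∀ T : Pt, 2 • T = 0 → 2 ^ (K + 1) • T = 0 := fun T hT =>
    tor_mono (by omega) (tor_one.2 hT)
  refine ⟨hq, h2, h11, Cheb.dvd_of_frob hq h2 hO hφ hζ ?_,
    ((rA.2 q O hq h2 h11 hO).2.2.2.2.2.2.2 φ hφ).2.1.2 ⟨fun T hT => s T (o T hT), ?_⟩,
    O, φ, hO, hφ, fun T hT => s T (tor_mono K.le_succ hT)⟩
  · rw [e ζ (c ζ (by simp)), cj_apply, mul_comm, Complex.mul_conj, Complex.normSq_eq_norm_sq,
      hζ.norm'_eq_one hn]
    simp
  · obtain ⟨T, u, v⟩ := BasisA.mv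
    exact ⟨T, u, by rwa [t T (o T u)]⟩

theorem sim_thm : SimStmt := by
  intro M p p' hp hp' h1 h2 h
  have e : p % 8 = p' % 8 := by
    rw [jacobiSym.at_neg_one hp, jacobiSym.at_neg_one hp', ZMod.χ₄_nat_eq_if_mod_four,
      ZMod.χ₄_nat_eq_if_mod_four] at h1
    rw [jacobiSym.at_two hp, jacobiSym.at_two hp', ZMod.χ₈_nat_eq_if_mod_eight,
      ZMod.χ₈_nat_eq_if_mod_eight] at h2
    have := Nat.odd_iff.1 hp
    have := Nat.odd_iff.1 hp'
    split_ifs at h1 h2 <;> omega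
  refine ⟨e, fun l hl l2 hM _ => ?_⟩
  have ol := hl.odd_of_ne_two l2
  rw [jacobiSym.quadratic_reciprocity hp ol, jacobiSym.quadratic_reciprocity hp' ol, h l hl l2 hM]
  congr 1
  have : p / 2 % 2 = p' / 2 % 2 := by omega
  rw [pow_mul, pow_mul, neg_one_pow_eq_pow_mod_two (p / 2), this, ← neg_one_pow_eq_pow_mod_two]

end Pool.Agent.Lib.MP_d6ddbd_nt.GA
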