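import Pool.Agent.Lib.MP_d6ddbd_nt.GA.Stmt
import Pool.Agent.Lib.MP_d6ddbd_nt.GA.KgSim
import Pool.Agent.Lib.MP_d6ddbd_nt.KI.Bas

/-!
The quadratic character attached to two inert primes of the same class.
-/

set_option autoImplicit false

open Pool.Agent.Lib.MP_d6ddbd_nt.K11 Pool.Agent.Lib.MP_d6ddbd_nt.KI
open Pool.Agent.Lib.MP_d6ddbd_nt.GF (pst)

noncomputable section

namespace Pool.Agent.Lib.MP_d6ddbd_nt.GA

namespace Sq

variable {O : ValuationSubring ℂ} {σ : G} {c : ℤ} {p p' v : ℕ}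

theorem half {m : ℤ} (hc : c = 1 + 4 * m) :
    (1 + rt c) / 2 * ((1 + rt c) / 2 - 1) = m ∧ IsAlgebraic ℚ ((1 + rt c) / 2) ∧
      (1 + rt c) / 2 ∈ O := by
  have h := rt_sq c
  have e : (1 + rt c) / 2 * ((1 + rt c) / 2 - 1) = m := by
    have : (c : ℂ) = 1 + 4 * m := by exact_mod_cast hc
    linear_combination h / 4 + this / 4
  refine ⟨e, ?_, ?_⟩
  · rw [div_eq_mul_inv]
    exact (isAlgebraic_one.add (rt_alg c)).mul (by exact_mod_cast (isAlgebraic_natCast 2).inv)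
  · generalize (1 + rt c) / 2 = x at e
    by_contra hx
    have x0 : x ≠ 0 := fun h0 => hx (h0 ▸ zero_mem _)
    have h1 := O.inv_mem_nonunits_iff.2 (Or.inr hx)
    have h2 := add_mem h1 (V2.mul_nu (intCast_mem O m) (V2.pow_nu two_ne_zero h1))
    rw [show x⁻¹ + m * x⁻¹ ^ 2 = 1 by rw [← e]; field_simp; ring] at h2
    exact V2.one_not h2

theorem fix {m : ℤ} (hc : c = 1 + 4 * m) (hO : Ov O 2)
    (h : σ ((1 + rt c) / 2) - (1 + rt c) / 2 ∈ O.nonunits) : cq c σ = 1 := by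
  refine (cq_or c σ).resolve_right fun e => ?_
  rw [map_div₀, map_add, map_one, map_ofNat, rt_neg (cq_eq_neg.1 e),
    show (1 + -rt c) / 2 - (1 + rt c) / 2 = -rt c by ring] at h
  have h1 := V2.pow_nu two_ne_zero h
  rw [neg_sq, rt_sq] at h1
  exact V2.int_not Nat.prime_two hO (by omega) h1

theorem two4 (hc : c % 4 = 1) (hO : Ov O 2) (h : Frob O 1 σ) : cq c σ = 1 := by
  have e : c = 1 + 4 * (c / 4) := by omega
  obtain ⟨-, a, b⟩ := half (O := O) e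
  exact fix e hO (by simpa using (h _ a b).2)

theorem two8 (hc : c % 8 = 1) (hO : Ov O 2) (h : Wl O 2 σ) : cq c σ = 1 := by
  have e : c = 1 + 4 * (c / 8 * 2) := by omega
  obtain ⟨e', a, b⟩ := half (O := O) e
  obtain ⟨n, h⟩ := h
  refine fix e hO ?_
  generalize (1 + rt c) / 2 = x at e' a b
  have h1 : x * (x - 1) ∈ O.nonunits := by
    rw [e', Int.cast_mul]
    exact V2.mul_nu (intCast_mem O _) (by exact_mod_cast hO)
  have h2 : x ^ 2 ^ n - x ∈ O.nonunits := by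
    by_cases h0 : x ∈ O.nonunits
    · exact sub_mem (V2.pow_nu (by positivity) h0) h0
    · have h3 := V2.nu_of_mul h1 h0
      have h4 := sub_mem (V2.pow_sub b (one_mem O) h3 (2 ^ n)) h3
      rwa [one_pow, sub_sub_sub_cancel_right] at h4
  have := add_mem (h x a b).2 h2
  rwa [sub_add_sub_cancel] at this

theorem odd (hp : T3 p) : p % 2 = 1 := hp.pr.eq_two_or_odd.resolve_left hp.n2

theorem ne0 (hp : T3 p) : pst p ≠ 0 := fun h => by
  have := (KK.pst_mod (odd hp)).1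
  omega

theorem nd (hp : T3 p) (hv : v.Prime) (h : v ≠ p) : ¬ (v : ℤ) ∣ pst p := fun e => by
  have := Int.natCast_dvd.1 e
  rw [(KK.pst_mod (odd hp)).2] at this
  exact h ((Nat.prime_dvd_prime_iff_eq hv hp.pr).1 this)

theorem nd2 (hp : T3 p) (hp' : T3 p') (hv : v.Prime) (h : v ≠ p) (h' : v ≠ p') :
    ¬ (v : ℤ) ∣ pst p * pst p' := fun e =>
  ((Nat.prime_iff_prime_int.1 hv).dvd_or_dvd e).elim (nd hp hv h) (nd hp' hv h')

theorem ine (hp : T3 p) (hp' : T3 p') (hv : v.Prime) (h : v ≠ p) (h' : v ≠ p') (hO : Ov O v)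
    (hσ : Frob O 1 σ) : ps (pst p * pst p') σ = 0 := by
  rw [ps_zero]
  rcases eq_or_ne v 2 with rfl | h2
  · refine two4 ?_ hO hσ
    rw [Int.mul_emod, (KK.pst_mod (odd hp)).1, (KK.pst_mod (odd hp')).1]
    rfl
  · exact cq_ine hv h2 hO (nd2 hp hp' hv h h') hσ

theorem prod (h : p % 8 = p' % 8) : pst p * pst p' = p * p' := by
  have : p / 2 % 2 = p' / 2 % 2 := by omega
  rw [pst, pst, neg_one_pow_eq_pow_mod_two (p / 2), this, ← neg_one_pow_eq_pow_mod_two,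
    mul_mul_mul_comm, ← mul_pow]
  simp

theorem inf (hp : T3 p) (hp' : T3 p') (h : p % 8 = p' % 8) : ps (pst p * pst p') cj = 0 := by
  rw [ps_zero]
  refine cq_of (mul_ne_zero (ne0 hp) (ne0 hp')) (s := (Real.sqrt (p * p') : ℝ)) ?_ (by simp)
  rw [prod h, ← Complex.ofReal_pow, Real.sq_sqrt (by positivity)]
  simp

theorem loc {M : ℤ} (hp : T3 p) (hp' : T3 p') (h : Sim M p p') (hv : v.Prime)
    (hM : v = 2 ∨ (v : ℤ) ∣ M ∧ nr v ≠ 0) (hO : Ov O v) (hσ : Wl O v σ) :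
    ps (pst p * pst p') σ = 0 := by
  rw [ps_zero]
  rcases eq_or_ne v 2 with rfl | h2
  · refine two8 ?_ hO hσ
    have h1 := h.1
    have h3 := odd hp
    have h4 : p * p' % 8 = 1 := by
      rw [Nat.mul_mod, ← h1]
      have : p % 8 = 1 ∨ p % 8 = 3 ∨ p % 8 = 5 ∨ p % 8 = 7 := by omega
      rcases this with e | e | e | e <;> rw [e]
    rw [prod h1]
    exact_mod_cast h4
  · obtain ⟨h3, h4⟩ := hM.resolve_left h2
    have n1 : v ≠ p := fun e => h4 (e ▸ hp.ty)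
    have n2 : v ≠ p' := fun e => h4 (e ▸ hp'.ty)
    have n3 := nd2 hp hp' hv n1 n2
    obtain ⟨φ, hφ⟩ := ex_frob hv hO
    obtain ⟨a, ι, hι, rfl, -⟩ := hσ.dec hv hO hφ
    have e : cq (pst p * pst p') φ = 1 := by
      rw [cq_of (mul_ne_zero (ne0 hp) (ne0 hp')) (rt_sq _)
        (vA.2.1.2.2.2.2.2.2.2.2 v O φ _ _ hv h2 n3 hO hφ (rt_sq _)), prod h.1, jacobiSym.mul_left,
        ← h.2 v hv h2 h3 h4, ← sq]
      refine jacobiSym.sq_one ?_
      rw [Int.gcd_natCast_natCast]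
      exact (Nat.coprime_primes hp.pr hv).2 n1.symm
    rw [cq_mul, cq_pow, e, cq_ine hv h2 hO n3 hι]
    simp

theorem nr11 : nr 11 ≠ 0 := Nat.card_ne_zero.2 ⟨⟨⟨8, by unfold fc; decide⟩⟩, inferInstance⟩

end Sq

theorem sq_thm : SqStmt := by
  refine ⟨Sq.nr11, fun p p' hp hp' => ⟨fun v O σ hv h h' hO hσ => Sq.ine hp hp' hv h h' hO hσ,
    fun h O hO => ?_, fun M h => ⟨Sq.inf hp hp' h.1, fun v O σ hv hM hO hσ =>
      Sq.loc hp hp' h hv hM hO hσ⟩, fun K r Q d d' hQ h hd => ⟨fn_ps _, ps_mul _, ?_, Sq.inf hp hp' h.1,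
      fun v O σ hv hn hO hσ => Sq.ine hp hp' hv (fun e => hn (e ▸ hp.ty)) (fun e => hn (e ▸ hp'.ty))
        hO hσ⟩⟩⟩
  · obtain ⟨σ, a, b⟩ := ex_ine_pst hp.pr hO
    refine ⟨σ, a, ?_⟩
    rw [ps_prod (Sq.ne0 hp) (Sq.ne0 hp'), ps_one.2 (cq_eq_neg.2 b),
      ps_zero.2 (cq_ine hp.pr hp.n2 hO (Sq.nd hp' hp.pr h) a), add_zero]
  · intro v O σ hv hb hO hσ
    refine Sq.loc hp hp' h hv ?_ hO hσ
    rcases hb with (e | e | ⟨e, e'⟩) | e
    · exact Or.inl e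
    · subst e
      exact Or.inr ⟨Dvd.dvd.mul_right (Dvd.intro d rfl) _, Sq.nr11⟩
    · exact Or.inr ⟨Dvd.dvd.mul_right (Dvd.dvd.mul_left (hd v hv e e') _) _, e'⟩
    · obtain ⟨i, -, rfl⟩ := Finset.mem_image.1 e
      exact Or.inr ⟨Dvd.dvd.mul_left (Finset.dvd_prod_of_mem (fun i => (Q i : ℤ))
        (Finset.mem_univ i)) _, by rw [(hQ i).ty]; exact one_ne_zero⟩

end Pool.Agent.Lib.MP_d6ddbd_nt.GA
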