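import Pool.Agent.Lib.MP_d6ddbd_nt.GA.Stmt
import Pool.Agent.Lib.MP_d6ddbd_nt.KI.Bas
import Pool.Agent.Lib.MP_d6ddbd_nt.KI.Fr

/-!
Selmer groups of the quadratic twists of `X₀(11)` on cubes of primes: the values of two vectors of
cocycles on the kernel of the action, and the subgroup that they cut out.
-/

set_option autoImplicit false
set_option maxSynthPendingDepth 3
set_option linter.unusedSectionVars false

open Pool.Agent.Lib.MP_d6ddbd_nt.K11 Pool.Agent.Lib.MP_d6ddbd_nt.KI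

noncomputable section

namespace Pool.Agent.Lib.MP_d6ddbd_nt.GA

namespace Sur

variable {ι : Type} [Fintype ι] [DecidableEq ι] {ψ : ι → G → ZMod 2} {X Y : G → Finset ι → Pt}

/-- The kernel of the action. -/
def N0 (ψ : ι → G → ZMod 2) (g : G) : Prop :=
  (∀ i, ψ i g = 0) ∧ ∀ T : Pt, 2 • T = 0 → g • T = T

theorem hom_one (h : Hom ψ) (i : ι) : ψ i 1 = 0 := by
  have := h i 1 1
  rw [mul_one] at this
  exact left_eq_add.1 this

theorem hom_conj (h : Hom ψ) (i : ι) (t g : G) : ψ i (t * g * t⁻¹) = ψ i g := by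
  have := h i (t * g * t⁻¹) t
  rw [inv_mul_cancel_right, h, add_comm] at this
  exact (add_right_cancel this).symm

theorem hom_comm (h : Hom ψ) (i : ι) {g : G} (hg : g ∈ commutator G) : ψ i g = 0 := by
  let f : G →* Multiplicative (ZMod 2) :=
    { toFun := fun σ => Multiplicative.ofAdd (ψ i σ)
      map_one' := by rw [hom_one h]; rfl
      map_mul' := fun σ τ => by rw [h]; rfl }
  exact Abelianization.commutator_subset_ker f hg

theorem n0_one (h : Hom ψ) : N0 ψ 1 := ⟨hom_one h, fun T _ => one_smul _ T⟩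

theorem N0.mul (h : Hom ψ) {g g' : G} (a : N0 ψ g) (b : N0 ψ g') : N0 ψ (g * g') :=
  ⟨fun i => by rw [h, a.1, b.1, add_zero], fun T hT => by rw [mul_smul, b.2 T hT, a.2 T hT]⟩

theorem N0.conj (h : Hom ψ) {g : G} (a : N0 ψ g) (t : G) : N0 ψ (t * g * t⁻¹) :=
  ⟨fun i => by rw [hom_conj h, a.1], fun T hT => by
    rw [mul_smul, mul_smul, a.2 _ (sm_tor _ hT), smul_inv_smul]⟩

theorem N0.act (hA : ActStmt) {g : G} (a : N0 ψ g) {w : Finset ι → Pt} (hw : 2 • w = 0) :
    act ψ g w = w := funext fun S => by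
  rw [((hA ι).2.2 ψ).2.2.1 g w S fun i _ => a.1 i, a.2 _ (congrFun hw S)]

/-- The component at `S` depends only on the components below `S`. -/
theorem act_congr (σ : G) {w w' : Finset ι → Pt} {S : Finset ι} (h : ∀ R ⊆ S, w R = w' R) :
    act ψ σ w S = act ψ σ w' S :=
  Finset.sum_congr rfl fun R hR => by rw [h R (Finset.mem_powerset.1 hR)]

/-- The action of an element that is dual to the direction `i`. -/
theorem act_dir (hA : ActStmt) {A S : Finset ι} {i : ι} {t : G} (hi : i ∈ A) (hS : S ⊆ A)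
    (h1 : ∀ T : Pt, 2 • T = 0 → t • T = T) (h2 : ∀ j ∈ A, ψ j t = if j = i then 1 else 0)
    {w : Finset ι → Pt} (hw : 2 • w = 0) :
    act ψ t w S = w S + if i ∈ S then w (S.erase i) else 0 := by
  have e := ((hA ι).2.2 fun j σ => if j ∈ A then ψ j σ else 0).2.2.2.2.1 t w i S
    (fun j hj => by
      split_ifs with h
      · rw [h2 j h, if_neg hj]
      · rfl) (by rw [if_pos hi, h2 i hi, if_pos rfl])
  rw [h1 _ (congrFun hw S), h1 _ (congrFun hw _)] at e
  rw [← e]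
  refine Finset.sum_congr rfl fun R _ => ?_
  rw [Finset.prod_congr rfl fun j hj => (if_pos (hS (Finset.mem_sdiff.1 hj).1)).symm]

section One

variable (hA : ActStmt) (h : Hom ψ) (h2 : ∀ σ, 2 • X σ = 0)
  (hm : ∀ σ τ, X (σ * τ) = X σ + act ψ σ (X τ))

include hA h2 hm

theorem x_mul {g : G} (a : N0 ψ g) (τ : G) : X (g * τ) = X g + X τ := by
  rw [hm, a.act hA (h2 τ)]

include h

theorem x_one : X 1 = 0 := by
  have := x_mul hA h2 hm (n0_one h) 1
  rw [mul_one] at this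
  exact left_eq_add.1 this

theorem x_conj {g : G} (a : N0 ψ g) (t : G) : X (t * g * t⁻¹) = act ψ t (X g) := by
  have := x_mul hA h2 hm (a.conj h t) t
  rw [inv_mul_cancel_right, hm, add_comm] at this
  exact (add_right_cancel this).symm

/-- One step of the induction on the face. -/
theorem x_step {A S : Finset ι} {i : ι} {t g : G} {T : Pt} (hi : i ∈ A) (hn : i ∉ S)
    (hS : S ⊆ A) (h1 : ∀ T : Pt, 2 • T = 0 → t • T = T)
    (h3 : ∀ j ∈ A, ψ j t = if j = i then 1 else 0) (a : N0 ψ g) (e : X g S = T)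
    (e' : ∀ S' ⊆ A, ¬ S ⊆ S' → X g S' = 0) :
    X (t * g * t⁻¹ * g) (insert i S) = T ∧
      ∀ S' ⊆ A, ¬ insert i S ⊆ S' → X (t * g * t⁻¹ * g) S' = 0 := by
  have k : ∀ S' ⊆ A, X (t * g * t⁻¹ * g) S' = if i ∈ S' then X g (S'.erase i) else 0 := by
    intro S' hS'
    rw [x_mul hA h2 hm (a.conj h t), x_conj hA h h2 hm a, Pi.add_apply,
      act_dir hA hi hS' h1 h3 (h2 g), add_right_comm, ← two_nsmul]
    rw [show 2 • X g S' = 0 from congrFun (h2 g) S', zero_add]
  refine ⟨?_, fun S' hS' hn' => ?_⟩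
  · rw [k _ (Finset.insert_subset hi hS), if_pos (Finset.mem_insert_self i S),
      Finset.erase_insert hn, e]
  · rw [k _ hS']
    split_ifs with hi'
    · exact e' _ ((Finset.erase_subset i S').trans hS') fun hs =>
        hn' (Finset.insert_subset hi' (hs.trans (Finset.erase_subset i S')))
    · rfl

end One

/-- From the empty face to all faces. -/
theorem su_of (hA : ActStmt) (h : Hom ψ) (hX : ∀ σ, 2 • X σ = 0) (hY : ∀ σ, 2 • Y σ = 0)
    (mX : ∀ σ τ, X (σ * τ) = X σ + act ψ σ (X τ)) (mY : ∀ σ τ, Y (σ * τ) = Y σ + act ψ σ (Y τ))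
    {A : Finset ι} {τ : ι → G}
    (hτ : ∀ i ∈ A, (∀ T : Pt, 2 • T = 0 → τ i • T = T) ∧
      ∀ j ∈ A, ψ j (τ i) = if j = i then 1 else 0)
    (h0 : ∀ T T' : Pt, 2 • T = 0 → 2 • T' = 0 → ∃ g, N0 ψ g ∧ X g ∅ = T ∧ Y g ∅ = T') :
    Su ψ A X Y := by
  have h1 : ∀ (T T' : Pt), 2 • T = 0 → 2 • T' = 0 → ∀ S : Finset ι, S ⊆ A → ∃ g, N0 ψ g ∧
      (X g S = T ∧ ∀ S' ⊆ A, ¬ S ⊆ S' → X g S' = 0) ∧
      (Y g S = T' ∧ ∀ S' ⊆ A, ¬ S ⊆ S' → Y g S' = 0) := by
    intro T T' hT hT' S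
    induction S using Finset.induction_on with
    | empty =>
      intro _
      obtain ⟨g, a, b, c⟩ := h0 T T' hT hT'
      exact ⟨g, a, ⟨b, fun _ _ k => (k (Finset.empty_subset _)).elim⟩, c,
        fun _ _ k => (k (Finset.empty_subset _)).elim⟩
    | insert i S hn ih =>
      intro hS
      have hi : i ∈ A := hS (Finset.mem_insert_self i S)
      have hS' : S ⊆ A := (Finset.subset_insert i S).trans hS
      obtain ⟨g, a, b, c⟩ := ih hS'
      exact ⟨τ i * g * (τ i)⁻¹ * g, (a.conj h _).mul h a,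
        x_step hA h hX mX hi hn hS' (hτ i hi).1 (hτ i hi).2 a b.1 b.2,
        x_step hA h hY mY hi hn hS' (hτ i hi).1 (hτ i hi).2 a c.1 c.2⟩
  intro w w' hw hw'
  have h2 : ∀ F : Finset (Finset ι), (∀ S ∈ F, S ⊆ A) →
      ∃ g, N0 ψ g ∧ ∀ S ∈ F, X g S = w S ∧ Y g S = w' S := by
    intro F
    refine Finset.induction_on_max_value Finset.card F ?_ ?_
    · exact fun _ => ⟨1, n0_one h, fun _ k => absurd k (Finset.notMem_empty _)⟩
    · intro S F hn hle ih hF
      obtain ⟨g, a, b⟩ := ih fun S' k => hF S' (Finset.mem_insert_of_mem k)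
      obtain ⟨g', a', b', c'⟩ := h1 (w S - X g S) (w' S - Y g S)
        (by rw [smul_sub, show 2 • w S = 0 from congrFun hw S,
          show 2 • X g S = 0 from congrFun (hX g) S, sub_zero])
        (by rw [smul_sub, show 2 • w' S = 0 from congrFun hw' S,
          show 2 • Y g S = 0 from congrFun (hY g) S, sub_zero]) S
        (hF S (Finset.mem_insert_self S F))
      refine ⟨g * g', a.mul h a', fun S' hS' => ?_⟩
      rw [x_mul hA hX mX a, x_mul hA hY mY a, Pi.add_apply, Pi.add_apply]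
      rcases Finset.mem_insert.1 hS' with rfl | k
      · rw [b'.1, c'.1, add_sub_cancel, add_sub_cancel]
        exact ⟨rfl, rfl⟩
      · have n : ¬ S ⊆ S' := fun s =>
          hn ((Finset.eq_of_subset_of_card_le s (hle S' k)).symm ▸ k)
        rw [b'.2 S' (hF S' hS') n, c'.2 S' (hF S' hS') n, add_zero, add_zero]
        exact b S' k
  obtain ⟨g, a, b⟩ := h2 A.powerset fun S k => Finset.mem_powerset.1 k
  exact ⟨g, a.1, a.2, fun S k => b S (Finset.mem_powerset.2 k)⟩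

/-- The empty component is a cocycle with the Kummer condition at `11`. -/
theorem bot (hA : ActStmt) {K r : ℕ} {Q : Fin r → ℕ} {d : ℤ} {u : Fin r → ZMod 2}
    (h : Hd K Q d ψ u X) : Cy d 1 (fun σ => X σ ∅) ∧ Ke d fun σ => X σ ∅ :=
  ⟨cy_of (fun σ => tor_one.2 (congrFun (h.two σ) ∅)) (fun σ τ => by
      rw [h.mul, Pi.add_apply, ((hA ι).2.2 ψ).2.2.1 σ _ ∅ fun i k => absurd k
        (Finset.notMem_empty i), tw_two d σ (congrFun (h.two τ) ∅)]) (h.fn.map fun w => w ∅),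
    fun O hO => h.kl 11 O ∅ (by norm_num) (Or.inr (Or.inl rfl)) hO⟩

theorem nz_zero : nz 0 = 0 := if_pos rfl

theorem z2 : ∀ a : ZMod 2, a = 0 ∨ a = 1 := by decide

theorem two_neg {T : Pt} (h : 2 • T = 0) : -T = T := by
  rw [neg_eq_iff_add_eq_zero, ← two_nsmul, h]

/-- Elements on which the components without `a` agree. -/
theorem rs_eq {a : ι} {σ τ : G} : rs a X σ = rs a X τ ↔ ∀ S, a ∉ S → X σ S = X τ S :=
  ⟨fun h S hS => by simpa [rs, hS] using congrFun h S, fun h => funext fun S => by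
    unfold rs
    split_ifs with k
    · rfl
    · exact h S k⟩

theorem rs_zero {a : ι} {σ : G} : rs a X σ = 0 ↔ ∀ S, a ∉ S → X σ S = 0 :=
  ⟨fun h S hS => by simpa [rs, hS] using congrFun h S, fun h => funext fun S => by
    unfold rs
    split_ifs with k
    · rfl
    · exact h S k⟩

theorem rs_mul (hX : Vc ψ X) {a : ι} (g : G) {σ τ : G} (h : rs a X σ = rs a X τ) :
    rs a X (g * σ) = rs a X (g * τ) := rs_eq.2 fun S hS => by
  rw [hX.mul, hX.mul, Pi.add_apply, Pi.add_apply,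
    act_congr g fun R hR => rs_eq.1 h R fun k => hS (hR k)]

theorem rs_one (hA : ActStmt) (h : Hom ψ) (hX : Vc ψ X) (a : ι) : rs a X 1 = 0 :=
  rs_zero.2 fun S _ => by rw [x_one hA h hX.two hX.mul]; rfl

theorem rs_quot (hA : ActStmt) (h : Hom ψ) (hX : Vc ψ X) {a : ι} {σ τ : G}
    (e : rs a X σ = rs a X τ) : rs a X (σ⁻¹ * τ) = 0 := by
  rw [← rs_mul hX σ⁻¹ e, inv_mul_cancel, rs_one hA h hX]

theorem rs_prod (hA : ActStmt) (h : Hom ψ) (hX : Vc ψ X) {a : ι} {σ τ : G}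
    (e : rs a X σ = 0) (e' : rs a X τ = 0) : rs a X (σ * τ) = 0 := by
  rw [rs_mul hX σ (e'.trans (rs_one hA h hX a).symm), mul_one, e]

/-- Conjugation of an element without fixed vectors. -/
theorem rs_conj (hA : ActStmt) (hX : Vc ψ X) {a : ι} {g φ : G} {w : Finset ι → Pt}
    (hg : N0 ψ g) (e : act ψ φ w - w = X φ) (e' : ∀ S ⊆ Finset.univ.erase a, X g S = w S) :
    rs a X (g⁻¹ * φ * g) = 0 := rs_zero.2 fun S hS => by
  have k : ∀ R ⊆ S, X g R = w R := fun R hR => e' R fun j hj =>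
    Finset.mem_erase.2 ⟨fun n => hS (hR (n ▸ hj)), Finset.mem_univ j⟩
  have h1 := congrFun (x_mul hA hX.two hX.mul hg (g⁻¹ * φ * g)) S
  rw [mul_assoc g⁻¹, mul_inv_cancel_left, hX.mul, Pi.add_apply, Pi.add_apply, act_congr φ k,
    k S (Finset.Subset.refl S)] at h1
  have h2 := congrFun e S
  have h3 : 2 • X φ S = 0 := congrFun (hX.two φ) S
  rw [Pi.sub_apply] at h2
  rw [mul_assoc, ← h3, two_nsmul]
  nth_rewrite 2 [← h2]
  rw [add_sub, h1, add_sub_cancel_left]

/-- A code for the points of order two. -/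
theorem ex_code : ∃ c : Pt → Fin 4, ∀ T T' : Pt, 2 • T = 0 → 2 • T' = 0 → c T = c T' → T = T' := by
  classical
  obtain ⟨T₁, T₂, T₃, h⟩ := Fr.v4
  refine ⟨fun T => if T = 0 then 0 else if T = T₁ then 1 else if T = T₂ then 2 else 3,
    fun T T' a b e => ?_⟩
  have h1 := h T a
  have h2 := h T' b
  dsimp only at e
  split_ifs at e <;> grind

end Sur

open Sur

theorem sur_thm (hL : LdStmt) (_hQ : LqStmt) (hA : ActStmt) : SurStmt := by
  intro K r Q d ι _ _ ψ u y X Y A τ hK hV h hX hY hI hτ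
  refine su_of hA h hX.two hY.two hX.mul hY.mul hτ fun T T' hT hT' => ?_
  have hB : ∀ i, Cy d 1 (![fun σ => X σ ∅, fun σ => Y σ ∅] i) ∧
      Ke d (![fun σ => X σ ∅, fun σ => Y σ ∅] i) := fun i => by
    fin_cases i
    · exact bot hA hX
    · exact bot hA hY
  have hi : ∀ a, Cb d (rep ![fun σ => X σ ∅, fun σ => Y σ ∅] a) → a = 0 := by
    intro a ha
    have tw2 : ∀ σ, 2 ^ 1 • rep ![fun σ => X σ ∅, fun σ => Y σ ∅] a σ = 0 := fun σ => by
      simp only [rep, Fin.sum_univ_two, Pi.add_apply, Pi.smul_apply, Matrix.cons_val_zero,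
        Matrix.cons_val_one, pow_one]
      rw [smul_add, smul_comm, smul_comm 2, show 2 • X σ ∅ = 0 from congrFun (hX.two σ) ∅,
        show 2 • Y σ ∅ = 0 from congrFun (hY.two σ) ∅, smul_zero, smul_zero, add_zero]
    have k : ∀ i, (a 0).val • X (ff K (Q i)) ∅ + (a 1).val • Y (ff K (Q i)) ∅ = 0 := fun i => by
      have := ha.val_sq tw2 fun T hT => (hL K (Q i) hK (hV.kg i)).sq T
        (tor_mono (Nat.one_le_iff_ne_zero.2 hK) hT)
      simpa only [ff, rep, Fin.sum_univ_two, Pi.add_apply, Pi.smul_apply, Matrix.cons_val_zero,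
        Matrix.cons_val_one] using this
    have fX : ∀ i, nz (X (ff K (Q i)) ∅) = u i := fun i => (hX.fin i ∅).trans (if_pos rfl)
    have fY : ∀ i, nz (Y (ff K (Q i)) ∅) = y i := fun i => (hY.fin i ∅).trans (if_pos rfl)
    have v0 : (0 : ZMod 2).val = 0 := rfl
    have v1 : (1 : ZMod 2).val = 1 := rfl
    rcases z2 (a 0) with a0 | a0 <;> rcases z2 (a 1) with a1 | a1 <;>
      simp only [a0, a1, v0, v1, zero_smul, one_smul, add_zero, zero_add] at k
    · funext i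
      fin_cases i
      · exact a0
      · exact a1
    · exact (hI.2.1 (funext fun i => by rw [← fY, k, nz_zero]; rfl)).elim
    · exact (hI.1 (funext fun i => by rw [← fX, k, nz_zero]; rfl)).elim
    · refine (hI.2.2 (funext fun i => ?_)).elim
      rw [← fX, ← fY, eq_neg_of_add_eq_zero_left (k i), two_neg (congrFun (hY.two _) ∅)]
  obtain ⟨g, a, b⟩ := hV.sj 2 _ ![1, 0] T hB hi hT
  obtain ⟨g', a', b'⟩ := hV.sj 2 _ ![0, 1] T' hB hi hT'
  have n : N0 ψ g := ⟨fun i => hom_comm h i a.cm, fun S hS => a.tor S (tor_one.2 hS)⟩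
  have n' : N0 ψ g' := ⟨fun i => hom_comm h i a'.cm, fun S hS => a'.tor S (tor_one.2 hS)⟩
  have b0 : X g ∅ = 1 • T := b 0
  have b1 : Y g ∅ = 0 • T := b 1
  have b0' : X g' ∅ = 0 • T' := b' 0
  have b1' : Y g' ∅ = 1 • T' := b' 1
  refine ⟨g * g', n.mul h n', ?_, ?_⟩
  · rw [x_mul hA hX.two hX.mul n, Pi.add_apply, b0, b0', one_smul, zero_smul, add_zero]
  · rw [x_mul hA hY.two hY.mul n, Pi.add_apply, b1, b1', one_smul, zero_smul, zero_add]

theorem u_thm (hA : ActStmt) (h3 : N3Stmt) : UStmt := by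
  intro ι _ _ ψ a X Y h hX hY hS
  let U : Subgroup G :=
    { carrier := {σ | rs a X σ = 0 ∧ rs a Y σ = 0}
      mul_mem' := fun e e' => ⟨rs_prod hA h hX e.1 e'.1, rs_prod hA h hY e.2 e'.2⟩
      one_mem' := ⟨rs_one hA h hX a, rs_one hA h hY a⟩
      inv_mem' := fun e => ⟨by simpa using rs_quot hA h hX (e.1.trans (rs_one hA h hX a).symm),
        by simpa using rs_quot hA h hY (e.2.trans (rs_one hA h hY a).symm)⟩ }
  refine ⟨U, fun _ => Iff.rfl, ?_, ?_, fun v hv => ?_⟩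
  · obtain ⟨J, hJ, e⟩ := hX.fn.map₂ hY.fn Prod.mk
    refine ⟨J, hJ, fun σ hσ => ?_⟩
    have k := e σ 1 hσ
    exact ⟨(rs_eq.2 fun S _ => congrFun (congrArg Prod.fst k) S).trans (rs_one hA h hX a),
      (rs_eq.2 fun S _ => congrFun (congrArg Prod.snd k) S).trans (rs_one hA h hY a)⟩
  · obtain ⟨c, hc⟩ := ex_code
    have inj : Function.Injective fun (q : G ⧸ U) (S : Finset ι) =>
        (c (X q.out S), c (Y q.out S)) := fun q q' e => by
      rw [← q.out_eq', ← q'.out_eq', QuotientGroup.eq]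
      exact ⟨rs_quot hA h hX (rs_eq.2 fun S _ => hc _ _ (congrFun (hX.two _) S)
          (congrFun (hX.two _) S) (congrArg Prod.fst (congrFun e S))),
        rs_quot hA h hY (rs_eq.2 fun S _ => hc _ _ (congrFun (hY.two _) S)
          (congrFun (hY.two _) S) (congrArg Prod.snd (congrFun e S)))⟩
    refine (Nat.card_le_card_of_injective _ inj).trans (le_of_eq ?_)
    rw [Nat.card_eq_fintype_card, Fintype.card_fun, Fintype.card_finset]
    rfl
  · obtain ⟨O, hO⟩ := ex_ov hv.pr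
    obtain ⟨φ, hφ⟩ := ex_frob hv.pr hO
    have c3 : Cy3 φ := ((rA.2 v O hv.pr hv.n2 hv.n11 hO).2.2.2.2.2.2.2 φ hφ).2.2.1 hv.ty
    obtain ⟨w, hw, e⟩ := ((h3 ι ψ).1 φ (X φ) c3 (hX.two φ)).2
    obtain ⟨w', hw', e'⟩ := ((h3 ι ψ).1 φ (Y φ) c3 (hY.two φ)).2
    obtain ⟨g, g1, g2, g3⟩ := hS w w' hw hw'
    refine ⟨_, g⁻¹ * φ * g, vA.2.1.2.2.2.2.1 O v g hO, ?_,
      rs_conj hA hX ⟨g1, g2⟩ e fun S k => (g3 S k).1,
      rs_conj hA hY ⟨g1, g2⟩ e' fun S k => (g3 S k).2⟩
    simpa only [inv_inv] using vA.2.1.2.2.2.1 O v φ g⁻¹ hφ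

end Pool.Agent.Lib.MP_d6ddbd_nt.GA
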