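import Pool.Agent.Lib.MP_d6ddbd_nt.GA.Stmt
import Pool.Agent.Lib.MP_d6ddbd_nt.KI.Bas
import Pool.Agent.Lib.MP_d6ddbd_nt.KI.Le

/-!
Local cocycles at an inert prime are coboundaries.
-/

set_option autoImplicit false
set_option maxSynthPendingDepth 3

open Pool.Agent.Lib.MP_d6ddbd_nt.K11 Pool.Agent.Lib.MP_d6ddbd_nt.KI

noncomputable section

namespace Pool.Agent.Lib.MP_d6ddbd_nt.GA

namespace T3a

variable {c : ℤ} {k v : ℕ} {O : ValuationSubring ℂ} {x : G → Pt} {f : G}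

/-- A Frobenius element at an inert prime is a three-cycle. -/
theorem cy3 (hv : T3 v) (hO : Ov O v) (hf : Frob O v f) : Cy3 f :=
  ((rA.2 v O hv.pr hv.n2 hv.n11 hO).2.2.2.2.2.2.2 f hf).2.2.1 hv.ty

/-- A local cocycle that vanishes on inertia and at the Frobenius element vanishes. -/
theorem ext0 (hv : v.Prime) (hO : Ov O v) (hf : Frob O v f) (hx : Lc c k O v x) (h0 : x f = 0)
    (hI : ∀ σ, Frob O 1 σ → x σ = 0) (σ : G) (hσ : Wl O v σ) : x σ = 0 := by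
  obtain ⟨a, ι, hι, rfl, -⟩ := hσ.dec hv hO hf
  have h1 : ∀ a : ℕ, x (f ^ a) = 0 := by
    intro a
    induction a with
    | zero => exact hI _ (ine_one O)
    | succ a ih => rw [pow_succ, hx.mul _ _ ((wl_frob hf).pow a) (wl_frob hf), ih, h0, tw_zero,
        add_zero]
  rw [hx.mul _ _ ((wl_frob hf).pow a) (wl_ine v hι), h1, hI ι hι, tw_zero, add_zero]

/-- Level one. -/
theorem one (hN : NormStmt) (hv : T3 v) (hO : Ov O v) (hf : Frob O v f) (hx : Lc c 1 O v x)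
    (h0 : x f = 0) (σ : G) (hσ : Wl O v σ) : x σ = 0 := by
  obtain ⟨s, hs, hm⟩ := ex_ine_pst hv.pr hO
  have t : ∀ σ, Wl O v σ → 2 • x σ = 0 := fun σ h => tor_one.1 (hx.tor σ h)
  have hle := le_thm Pt 1 v O _ s x hv.pr hv.n2 hO hs hm (fun σ h => hx.tor σ (wl_ine v h))
    (fun σ τ h h' => by
      rw [hx.mul σ τ (wl_ine v h) (wl_ine v h'), tw_two c σ (t τ (wl_ine v h')),
        ine_tor hv.pr hv.n2 hv.n11 hO h (hx.tor τ (wl_ine v h'))])
    (let ⟨J, a, b⟩ := hx.fn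
     ⟨J, a, fun σ τ h h' e => b σ τ (wl_ine v h) (wl_ine v h') e⟩)
  have hi := (wl_frob hf).conj hv.pr hO hs
  obtain ⟨u, hu⟩ := hle _ hi
  have ts := t s (wl_ine v hs)
  have e1 := hx.mul s f (wl_ine v hs) (wl_frob hf)
  have e2 := hx.mul f _ (wl_frob hf) (wl_ine v hi)
  rw [h0, tw_zero, add_zero] at e1
  rw [h0, zero_add, hu, tw_z, tw_two c f ts, ← mul_assoc, mul_inv_cancel_left, e1] at e2
  have t2 : (2 : ℤ) • f • x s = 0 := by
    have := sm_tor f ts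
    rwa [← natCast_zsmul] at this
  have hz : x s = 0 := by
    rcases Int.even_or_odd' u with ⟨w, rfl | rfl⟩
    · rw [e2, mul_comm, mul_smul, t2, smul_zero]
    · rw [add_smul, mul_comm, mul_smul, t2, smul_zero, zero_add] at e2
      exact (hN.2.1 f 1 1 _ (cy3 hv hO hf) (Or.inl rfl) (tor_one.2 ts)).1 e2.symm
  refine ext0 hv.pr hO hf hx h0 (fun τ hτ => ?_) σ hσ
  obtain ⟨w, hw⟩ := hle τ hτ
  rw [hw, hz, smul_zero]

/-- A local cocycle that vanishes at the Frobenius element vanishes. -/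
theorem all (hN : NormStmt) (hv : T3 v) (hO : Ov O v) (hf : Frob O v f) (hx : Lc c k O v x)
    (h0 : x f = 0) (σ : G) (hσ : Wl O v σ) : x σ = 0 := by
  induction k generalizing x σ with
  | zero => simpa using hx.tor σ hσ
  | succ k ih =>
    have h2 : Lc c k O v fun σ => 2 • x σ :=
      ⟨fun σ h => by rw [← mul_smul, ← pow_succ, hx.tor σ h],
        fun σ τ h h' => by rw [hx.mul σ τ h h', smul_add, tw_n],
        hx.fn.map₂ hx.fn fun a _ => 2 • a⟩
    exact one hN hv hO hf ⟨fun τ h => tor_one.2 (ih h2 (by rw [h0, smul_zero]) τ h), hx.mul, hx.fn⟩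
      h0 σ hσ

end T3a

open T3a in
theorem t3_thm (hN : NormStmt) (_hU : UnStmt) : T3Stmt := by
  intro c k v O x hv hO hx
  obtain ⟨f, hf⟩ := ex_frob hv.pr hO
  obtain ⟨S, hS, e⟩ :=
    (hN.2.1 f (cq c f) k (x f) (cy3 hv hO hf) (cq_or c f) (hx.tor f (wl_frob hf))).2
  have hc := cy_cob (c := c) hS
  have h1 : Lc c k O v fun σ => x σ - (tw c σ S - S) :=
    ⟨fun σ h => by rw [smul_sub, hx.tor σ h, hc.tor σ, sub_self],
      fun σ τ h h' => by
        rw [hx.mul σ τ h h', hc.mul σ τ, tw_sub c σ (x τ)]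
        abel,
      hx.fn.map₂ (hc.fn.on _) (· - ·)⟩
  exact ⟨S, hS, fun σ hσ => sub_eq_zero.1 (all hN hv hO hf h1 (sub_eq_zero.2 e.symm) σ hσ)⟩

end Pool.Agent.Lib.MP_d6ddbd_nt.GA
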