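import Pool.Agent.Lib.MP_d6ddbd_nt.GA.Stmt
import Pool.Agent.Lib.MP_d6ddbd_nt.KI.Bas
import Pool.Agent.Lib.MP_d6ddbd_nt.KI.Tr

/-!
Selmer groups of the quadratic twists of `X₀(11)` on cubes of primes: the normalised splitting is a
quadratic character of the subgroup `U`, ramified at the moving prime only.
-/

set_option autoImplicit false
set_option maxSynthPendingDepth 3

open Pool.Agent.Lib.MP_d6ddbd_nt.K11 Pool.Agent.Lib.MP_d6ddbd_nt.KI

noncomputable section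

namespace Pool.Agent.Lib.MP_d6ddbd_nt.GA

namespace Th

variable {ι : Type} [Fintype ι] [DecidableEq ι] {ψ : ι → G → ZMod 2} {a : ι}
  {X Y : G → Finset ι → Pt} {σ τ : G}

omit [Fintype ι] in
theorem rs_iff : rs a X σ = 0 ↔ ∀ S, a ∉ S → X σ S = 0 := by
  refine ⟨fun h S hS => ?_, fun h => funext fun S => ?_⟩
  · simpa [rs, hS] using congrFun h S
  · by_cases hS : a ∈ S
    · simp [rs, hS]
    · simp [rs, hS, h S hS]

omit [Fintype ι] in
theorem act_off {w : Finset ι → Pt} (h : ∀ S, a ∉ S → w S = 0) (σ : G) {S : Finset ι}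
    (hS : a ∉ S) : act ψ σ w S = 0 := by
  refine Finset.sum_eq_zero fun R hR => ?_
  rw [h R fun e => hS (Finset.mem_powerset.1 hR e), smul_zero, smul_zero]

omit [Fintype ι] in
theorem act_zero (σ : G) : act ψ σ (0 : Finset ι → Pt) = 0 := by
  funext S
  refine Finset.sum_eq_zero fun R _ => ?_
  rw [Pi.zero_apply, smul_zero, smul_zero]

theorem pr_off {w w' : Finset ι → Pt} (h : ∀ S, a ∉ S → w S = 0) (h' : ∀ S, a ∉ S → w' S = 0) :
    GA.pr w w' = 0 := by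
  refine Finset.sum_eq_zero fun S _ => ?_
  by_cases hS : a ∈ S
  · rw [h' Sᶜ (by simpa using hS), ep_zero']
  · rw [h S hS, ep_zero]

theorem pr_zero (w : Finset ι → Pt) : GA.pr 0 w = 0 :=
  Finset.sum_eq_zero fun S _ => by rw [Pi.zero_apply, ep_zero]

theorem pr_zero' (w : Finset ι → Pt) : GA.pr w 0 = 0 :=
  Finset.sum_eq_zero fun S _ => by rw [Pi.zero_apply, ep_zero']

theorem cy3 {v : ℕ} {O : ValuationSubring ℂ} {f : G} (hv : T3 v) (hO : Ov O v)
    (hf : Frob O v f) : Cy3 f :=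
  ((rA.2 v O hv.pr hv.n2 hv.n11 hO).2.2.2.2.2.2.2 f hf).2.2.1 hv.ty

/-- A vector whose coboundary vanishes at a cyclic element away from `a` is supported at `a`. -/
theorem off (h3 : N3Stmt) {f : G} {w : Finset ι → Pt} (hf : Cy3 f) (hw : 2 • w = 0)
    (h : ∀ S, a ∉ S → (act ψ f w - w) S = 0) (S : Finset ι) (hS : a ∉ S) : w S = 0 := by
  refine ((h3 ι ψ).1 f w hf hw).1 (Finset.univ.erase a) (fun R hR => ?_) S
    (Finset.subset_erase.2 ⟨Finset.subset_univ S, hS⟩)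
  exact sub_eq_zero.1 (h R (Finset.subset_erase.1 hR).2)

omit [Fintype ι] [DecidableEq ι] in
theorem two_app {w : Finset ι → Pt} (hw : 2 • w = 0) (S : Finset ι) : 2 • w S = 0 :=
  congrFun hw S

omit [Fintype ι] [DecidableEq ι] in
theorem conj_hom (hψ : Hom ψ) (j : ι) (g i : G) : ψ j (g * i * g⁻¹) = ψ j i := by
  have h := hψ j (g * i * g⁻¹) g
  rw [inv_mul_cancel_right, hψ j g i] at h
  linear_combination -h

/-- The values at a conjugate of an element at which both cocycles vanish. -/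
theorem conj {η : G → ZMod 2} (hX : ∀ σ τ, X (σ * τ) = X σ + act ψ σ (X τ))
    (hη : Sg (bb ψ X Y) η) (g : G) {i : G} (hx : X i = 0) (hy : Y i = 0) :
    X (g * i * g⁻¹) = X g - act ψ (g * i * g⁻¹) (X g) ∧
      η (g * i * g⁻¹) = η i + GA.pr (X (g * i * g⁻¹)) (act ψ (g * i * g⁻¹) (Y g)) := by
  have h1 := hX (g * i * g⁻¹) g
  have h2 := hη.2 (g * i * g⁻¹) g
  have h3 := hη.2 g i
  rw [inv_mul_cancel_right] at h1 h2
  rw [hX g i, hx, act_zero, add_zero] at h1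
  rw [bb, hy, act_zero, pr_zero'] at h3
  rw [bb] at h2
  refine ⟨eq_sub_of_add_eq h1.symm, ?_⟩
  rw [h2]
  linear_combination h3

theorem ex_two : ∃ T T' : Pt, 2 • T = 0 ∧ 2 • T' = 0 ∧ ep T T' = 1 := by
  obtain ⟨-, -, h, h2, ⟨a, b, c, e, n, -⟩, -⟩ := r1_thm
  have ha : (0 : ℂ) ^ 2 = fc a := by rw [e]; ring
  have hb : (0 : ℂ) ^ 2 = fc b := by rw [e]; ring
  obtain ⟨a1, a2, a3⟩ := h a 0 ha
  obtain ⟨b1, b2, b3⟩ := h b 0 hb
  refine ⟨_, _, (h2 _).2 (Or.inr ⟨a3, by rw [a2, ← ha]; ring⟩),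
    (h2 _).2 (Or.inr ⟨b3, by rw [b2, ← hb]; ring⟩), if_neg ?_⟩
  rintro (k | k | k)
  exacts [a1 k, b1 k, n (by rw [← a2, k, b2])]

section Main

variable {K r : ℕ} {Q : Fin r → ℕ} {d : ℤ} {u : Fin r → ZMod 2} {v : ℕ}
  {O : ValuationSubring ℂ}

omit [Fintype ι] [DecidableEq ι] in
theorem hom (h : ∀ i, Ch Q d (ψ i)) : Hom ψ := fun i => (h i).mul

theorem vc (h : Hd K Q d ψ u X) : Vc ψ X := ⟨h.two, h.fn, h.mul⟩

theorem t3 (hv : v.Prime) (hb : ¬ Bad d v) (h : nr v = 0) : T3 v :=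
  ⟨hv, fun e => hb (Or.inl e), fun e => hb (Or.inr (Or.inl e)), h⟩

theorem fix (hv : T3 v) (hO : Ov O v) (h : Frob O 1 σ) {T : Pt} (hT : 2 • T = 0) : σ • T = T :=
  ine_tor (k := 1) hv.pr hv.n2 hv.n11 hO h (by rwa [pow_one])

/-- The components on which the characters are unramified vanish on inertia. -/
theorem ine (hA : ActStmt) (h3 : N3Stmt) (hψ : ∀ i, Ch Q d (ψ i)) (hX : Hd K Q d ψ u X)
    (hv : v.Prime) (hb : ¬ Bad d v) (hq : v ∉ qs Q) (hO : Ov O v) (h : Frob O 1 σ)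
    {S : Finset ι} (hS : ∀ i ∈ S, ψ i σ = 0) : X σ S = 0 := by
  by_cases e : nr v = 0
  · have t := t3 hv hb e
    obtain ⟨w, hw, k⟩ := (h3 ι ψ).2 v O X (hom hψ) (fun i => (hψ i).fn) t hO (vc hX)
    rw [k σ (wl_ine v h), Pi.sub_apply, ((hA ι).2.2 ψ).2.2.1 σ w S hS,
      fix t hO h (two_app hw S), sub_self]
  · rw [hX.un v O σ hv hb hq e hO h, Pi.zero_apply]

/-- At the moving prime both cocycles vanish on a generator of inertia. -/
theorem ram0 (hA : ActStmt) (h3 : N3Stmt) (hψ : ∀ i, Ch Q d (ψ i)) (hX : Hd K Q d ψ u X)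
    (hv : T3 v) (hO : Ov O v) (h : Frob O 1 σ) (h0 : ∀ i, i ≠ a → ψ i σ = 0) (h1 : ψ a σ = 1)
    {f : G} (hf : Frob O v f) (hU : rs a X f = 0) : X σ = 0 := by
  obtain ⟨w, hw, k⟩ := (h3 ι ψ).2 v O X (hom hψ) (fun i => (hψ i).fn) hv hO (vc hX)
  have o := off (ψ := ψ) h3 (cy3 hv hO hf) hw fun S hS => by
    rw [← k f (wl_frob hf)]
    exact rs_iff.1 hU S hS
  funext S
  rw [k σ (wl_ine v h), Pi.sub_apply, ((hA ι).2.2 ψ).2.2.2.2.1 σ w a S h0 h1,
    fix hv hO h (two_app hw S), o _ (Finset.notMem_erase a S), smul_zero, ite_self, add_zero,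
    sub_self, Pi.zero_apply]

/-- The splitting vanishes on the elements of inertia at the chosen place that kill `X`. -/
theorem eta0 (h3 : N3Stmt) (hψ : ∀ i, Ch Q d (ψ i)) (hY : Hd K Q d ψ u Y)
    {P : ℕ → ValuationSubring ℂ} {η : G → ZMod 2} (hη : Nz Q d P ψ X Y η) (hv : v.Prime)
    (hb : ¬ Bad d v) (hq : v ∉ qs Q) (hO : Ov (P v) v) (h : Frob (P v) 1 σ) (hx : X σ = 0) :
    η σ = 0 := by
  by_cases e : nr v = 0
  · have t := t3 hv hb e
    obtain ⟨w, hw, k⟩ := (h3 ι ψ).2 v (P v) Y (hom hψ) (fun i => (hψ i).fn) t hO (vc hY)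
    rw [hη.t3 v w σ t hw k h, hx, pr_zero]
  · exact hη.un v σ hv hb hq e h

end Main

end Th

open Th in
theorem th_thm (_hU : UnStmt) (hA : ActStmt) (h3 : N3Stmt) : ThStmt := by
  intro K r Q d ι _ _ ψ a u y X Y U M l hψ hX hY hU H
  have z : ∀ x : ZMod 2, x + x = 0 := by decide
  refine ⟨fun v O σ hv hM hO h => ?_, fun P η hP hη => ⟨fun p f w t hf hp hw e => ?_, ?_⟩⟩
  · obtain ⟨hb, hq, k⟩ := H v hv hM
    have k' : ∀ S : Finset ι, a ∉ S → ∀ i ∈ S, ψ i σ = 0 := fun S hS i hi =>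
      k O σ i hO h (Or.inl fun e => hS (e ▸ hi))
    exact (hU σ).2 ⟨rs_iff.2 fun S hS => ine hA h3 hψ hX hv hb hq hO h (k' S hS),
      rs_iff.2 fun S hS => ine hA h3 hψ hY hv hb hq hO h (k' S hS)⟩
  · obtain ⟨f1, f2⟩ := (hU f).1 hf
    have o := off (ψ := ψ) h3 (cy3 t (hP p t.pr) hp) hw fun S hS => by
      rw [← e]
      exact rs_iff.1 f2 S hS
    exact pr_off (rs_iff.1 f1) fun S hS => act_off o f hS
  rintro hS t hM ⟨i, hi, h1⟩ ⟨f, hf, hl⟩
  have mul : ∀ σ ∈ U, ∀ τ ∈ U, η (σ * τ) = η σ + η τ := fun σ hσ τ hτ => by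
    have e := hη.sg.2 σ τ
    rw [bb, pr_off (rs_iff.1 ((hU σ).1 hσ).1) fun S hS =>
      act_off (rs_iff.1 ((hU τ).1 hτ).2) σ hS] at e
    linear_combination e + z (η (σ * τ))
  have one : η 1 = 0 := by
    have e := mul 1 U.one_mem 1 U.one_mem
    rw [mul_one, z] at e
    exact e
  refine ⟨mul, ?_, fun v O g hv hd hO hg _ => ?_, ?_⟩
  · obtain ⟨J, hJ, k⟩ := hη.sg.1
    exact ⟨J, hJ, fun σ _ h => (k σ 1 h).trans one⟩
  · obtain ⟨hb, hq, k⟩ := H v hv fun e => hd ((e.mul_left 2).mul_right l)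
    have n : v ≠ l := fun e => hd (e ▸ dvd_mul_left v (2 * M))
    obtain ⟨h, hh⟩ := tr_thm.1 v (P v) O hv (hP v hv) hO
    have j := hh 1 g hg
    have x0 : ∀ {u X}, Hd K Q d ψ u X → ∀ {O σ}, Ov O v → Frob O 1 σ → X σ = 0 :=
      fun hX O σ hO h => funext fun S =>
        ine hA h3 hψ hX hv hb hq hO h fun i _ => k O σ i hO h (Or.inr n)
    have c := (conj hX.mul hη.sg h (x0 hX (hP v hv) j) (x0 hY (hP v hv) j)).2
    have e : h * (h⁻¹ * g * h) * h⁻¹ = g := by group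
    rw [e, x0 hX hO hg, pr_zero, add_zero] at c
    rw [c]
    exact eta0 h3 hψ hY hη hv hb hq (hP v hv) j (x0 hX (hP v hv) j)
  · obtain ⟨hb, hq, k⟩ := H l t.pr hM
    have hO := hP l t.pr
    have h0 : ∀ j, j ≠ a → ψ j i = 0 := fun j hj => k _ i j hO hi (Or.inl hj)
    have x0 := ram0 hA h3 hψ hX t hO hi h0 h1 hl ((hU f).1 hf).1
    have y0 := ram0 hA h3 hψ hY t hO hi h0 h1 hl ((hU f).1 hf).2
    obtain ⟨T, T', hT, hT', e⟩ := ex_two
    obtain ⟨g, -, -, hg⟩ := hS (fun S => if S = ∅ then T else 0) (fun _ => T')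
      (funext fun S => by
        rw [Pi.smul_apply, Pi.zero_apply]
        split_ifs
        exacts [hT, smul_zero _])
      (funext fun _ => hT')
    have O' := vA.2.1.2.2.2.2.1 (P l) l g⁻¹ hO
    have i' := vA.2.1.2.2.2.1 (P l) 1 i g hi
    refine ⟨_, g * i * g⁻¹, O', i', ?_⟩
    obtain ⟨c1, c2⟩ := conj hX.mul hη.sg g x0 y0
    have a0 : ∀ j, j ≠ a → ψ j (g * i * g⁻¹) = 0 := fun j hj => by
      rw [conj_hom (hom hψ), h0 j hj]
    have a1 : ψ a (g * i * g⁻¹) = 1 := by rw [conj_hom (hom hψ), h1]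
    have ac := fun w S => ((hA ι).2.2 ψ).2.2.2.2.1 (g * i * g⁻¹) w a S a0 a1
    have sub : ∀ S : Finset ι, a ∉ S → S ⊆ Finset.univ.erase a := fun S hS =>
      Finset.subset_erase.2 ⟨Finset.subset_univ S, hS⟩
    have xv : ∀ S : Finset ι, X (g * i * g⁻¹) S = if S = {a} then T else 0 := fun S => by
      rw [c1, Pi.sub_apply, ac, fix t O' i' (two_app (hX.two g) S),
        fix t O' i' (two_app (hX.two g) _), (hg _ (sub _ (Finset.notMem_erase a S))).1,
        sub_add_cancel_left]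
      by_cases m : S = {a}
      · rw [if_pos m, m, if_pos (Finset.mem_singleton_self a), if_pos (Finset.erase_singleton a),
          Ep.neg_two hT]
      · rw [if_neg m]
        split_ifs with m1 m2
        · exact absurd (by rw [← Finset.insert_erase m1, m2]; rfl) m
        · exact neg_zero
        · exact neg_zero
    rw [c2, eta0 h3 hψ hY hη t.pr hb hq hO hi x0, zero_add, GA.pr,
      Finset.sum_eq_single {a} (fun S _ m => by rw [xv, if_neg m, ep_zero]) (by simp), xv,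
      if_pos rfl, ac, if_neg (by simp), add_zero, fix t O' i' (two_app (hY.two g) _),
      (hg _ (sub _ (by simp))).2, e]
    exact one_ne_zero

end Pool.Agent.Lib.MP_d6ddbd_nt.GA
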