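import Pool.Agent.Lib.MP_d6ddbd_nt.GA.Stmt
import Pool.Agent.Lib.MP_d6ddbd_nt.KI.Basis
import Pool.Agent.Lib.MP_d6ddbd_nt.KI.Bl
import Pool.Agent.Lib.MP_d6ddbd_nt.KI.Le
import Pool.Agent.Lib.MP_d6ddbd_nt.KI.Cm1

/-!
The top term: reciprocity for the cup product of the next component with a cube.
-/

set_option autoImplicit false
set_option maxSynthPendingDepth 3
set_option linter.unusedSectionVars false

open Pool.Agent.Lib.MP_d6ddbd_nt.K11 Pool.Agent.Lib.MP_d6ddbd_nt.KI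
open Pool.Agent.Lib.MP_d6ddbd_nt.GF (pst)

noncomputable section

namespace Pool.Agent.Lib.MP_d6ddbd_nt.GA

namespace Top

theorem z2 (a : ZMod 2) : a + a = 0 := CharTwo.add_self_eq_zero a

theorem zor : ∀ a : ZMod 2, a = 0 ∨ a = 1 := by decide

theorem fn_pi {ι Z : Type} [Fintype ι] {f : ι → G → Z} (h : ∀ i, Fn (f i)) :
    Fn fun σ i => f i σ := by
  classical
  choose J a b using h
  refine ⟨Finset.univ.biUnion J, fun x hx => ?_, fun σ τ e => funext fun i => b i σ τ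
    (e.mono fun x hx => Finset.mem_biUnion.2 ⟨i, Finset.mem_univ _, hx⟩)⟩
  obtain ⟨i, -, hi⟩ := Finset.mem_biUnion.1 hx
  exact a i x hi

theorem fn2 {A B : Type} {f : G → A} {g : G → B} (hf : Fn f) (hg : Fn g) (c : G → G → ZMod 2)
    (h : ∀ σ σ' τ τ', f σ = f σ' → g τ = g τ' → c σ τ = c σ' τ') :
    ∃ J : Finset ℂ, Al J ∧ ∀ σ σ' τ τ', Ag J σ σ' → Ag J τ τ' → c σ τ = c σ' τ' := by
  obtain ⟨J, a, b⟩ := hf
  obtain ⟨J', a', b'⟩ := hg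
  obtain ⟨J'', e, h1, h2⟩ := a.union a'
  exact ⟨J'', e, fun σ σ' τ τ' s t => h _ _ _ _ (b σ σ' (s.mono h1)) (b' τ τ' (t.mono h2))⟩

theorem ep_cj {T T' : Pt} (hT : 2 • T = 0) (hT' : 2 • T' = 0) (h : cj • T = T)
    (h' : cj • T' = T') : ep T T' = 0 := by
  obtain ⟨U, hU, hm⟩ := BasisA.mv
  have hc := Ep.two_smul' cj hU
  have hW : U + cj • U ≠ 0 := fun e => hm (by
    rw [eq_neg_of_add_eq_zero_right e, Ep.neg_two hU])
  have key : ∀ S : Pt, 2 • S = 0 → cj • S = S → S = 0 ∨ S = U + cj • U := by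
    intro S hS e
    have k : ep S (U + cj • U) = 0 := by
      have k2 : ep S (cj • U) = ep S U := by
        conv_lhs => rw [← e]
        exact ep_sm cj S U
      rw [ep_add' hS hU hc, k2, z2]
    rcases ep_eq_zero.1 k with a | a | a
    exacts [Or.inl a, absurd a hW, Or.inr a]
  rcases key T hT h with a | a
  · rw [a, ep_zero]
  rcases key T' hT' h' with b | b
  · rw [b, ep_zero']
  rw [a, b, ep_self]

variable {O : ValuationSubring ℂ} {v : ℕ}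

theorem sp_cob {θ : G → ZMod 2} (h : Fn θ) : Sp O v fun σ τ => θ σ + θ τ + θ (σ * τ) :=
  ⟨θ, h.on _, fun _ _ _ _ => rfl⟩

theorem sp_sum {κ : Type} (s : Finset κ) (c : κ → G → G → ZMod 2) (h : ∀ j, Sp O v (c j)) :
    Sp O v fun σ τ => ∑ j ∈ s, c j σ τ := by
  classical
  induction s using Finset.induction_on with
  | empty => exact (sp_cob (fn_const 0)).congr fun σ τ _ _ => by simp
  | insert a s ha ih => exact ((h a).add ih).congr fun σ τ _ _ => by rw [Finset.sum_insert ha]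

theorem sp_iff {a b : G → G → ZMod 2} {θ : G → ZMod 2} (h : Fn θ)
    (e : ∀ σ τ, Wl O v σ → Wl O v τ → a σ τ = b σ τ + (θ σ + θ τ + θ (σ * τ))) :
    Sp O v a ↔ Sp O v b :=
  ⟨fun s => (s.add (sp_cob h)).congr fun σ τ x y => by
    rw [e σ τ x y, add_assoc, z2, add_zero], fun s => (s.add (sp_cob h)).congr e⟩

theorem hom_wl {ε : G → ZMod 2} {φ ι : G} (hφ : Wl O v φ)
    (hε : ∀ σ τ, Wl O v σ → Wl O v τ → ε (σ * τ) = ε σ + ε τ) (hI : ∀ σ, Frob O 1 σ → ε σ = 0)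
    (hι : Frob O 1 ι) (a : ℕ) : ε (φ ^ a * ι) = a * ε φ := by
  rw [hε _ _ (hφ.pow a) (wl_ine v hι), hI ι hι, add_zero]
  induction a with
  | zero => simpa using hI 1 (ine_one O)
  | succ a ih => rw [pow_succ, hε _ _ (hφ.pow a) hφ, ih]; push_cast; ring

/-- The product of two unramified characters splits. -/
theorem sp_unr (hv : v.Prime) (hO : Ov O v) {χ ε : G → ZMod 2} (hf : Fn χ)
    (hχ : ∀ σ τ, χ (σ * τ) = χ σ + χ τ) (hχI : ∀ σ, Frob O 1 σ → χ σ = 0)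
    (hε : ∀ σ τ, Wl O v σ → Wl O v τ → ε (σ * τ) = ε σ + ε τ) (hI : ∀ σ, Frob O 1 σ → ε σ = 0) :
    Sp O v fun σ τ => χ σ * ε τ := by
  obtain ⟨φ, hφ⟩ := ex_frob hv hO
  have k : ∀ (n : ℕ) σ σ', Frob O (v ^ n) σ → Frob O (v ^ n) σ' → χ σ = χ σ' := by
    intro n σ σ' a b
    have := hχ σ (σ⁻¹ * σ')
    rw [mul_inv_cancel_left, hχI _ (V2.c3 hv hO a b), add_zero] at this
    exact this.symm
  have h1 : Sp O v fun σ τ => ε φ * (χ σ * χ τ) :=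
    unr_thm v O _ hv hO ⟨fn2 hf hf _ fun σ σ' τ τ' a b => by rw [a, b], fun σ τ υ => by
      rw [hχ, hχ]; ring⟩ fun n n' σ σ' τ τ' a b c d => by rw [k n σ σ' a b, k n' τ τ' c d]
  refine h1.congr fun σ τ a b => ?_
  obtain ⟨n, ι, a1, rfl, -⟩ := a.dec hv hO hφ
  obtain ⟨m, ι', b1, rfl, -⟩ := b.dec hv hO hφ
  have w := wl_frob hφ
  rw [hom_wl w hε hI b1, hom_wl w (fun σ τ _ _ => hχ σ τ) hχI a1,
    hom_wl w (fun σ τ _ _ => hχ σ τ) hχI b1]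
  rcases zor (χ φ) with e | e <;> rw [e] <;> ring

section Cube

variable {ι : Type} [Fintype ι] [DecidableEq ι] {ψ : ι → G → ZMod 2} {χ η : G → ZMod 2}
  {X Y Γ : G → Finset ι → Pt}

theorem pr0 (w : Finset ι → Pt) : pr 0 w = 0 := Finset.sum_eq_zero fun _ _ => ep_zero _

theorem act0 (σ : G) : act ψ σ 0 = 0 := by
  funext S
  simp [act]

theorem two_add {w w' : Finset ι → Pt} (h : 2 • w = 0) (h' : 2 • w' = 0) : 2 • (w + w') = 0 := by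
  rw [smul_add, h, h', add_zero]

theorem sub_two {w w' : Finset ι → Pt} (h' : 2 • w' = 0) : w - w' = w + w' := by
  rw [sub_eq_add_neg, neg_eq_iff_add_eq_zero.2 ((two_nsmul w').symm.trans h')]

theorem two_n (a : ℕ) {w : Finset ι → Pt} (h : 2 • w = 0) : 2 • a • w = 0 := by
  rw [smul_comm, h, smul_zero]

theorem two_ap {w : Finset ι → Pt} (h : 2 • w = 0) (S : Finset ι) : 2 • w S = 0 := congrFun h S

theorem pr_val (a : ZMod 2) (w w' : Finset ι → Pt) : pr (a.val • w) w' = a * pr w w' := by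
  rcases zor a with rfl | rfl
  · simp [pr0]
  · rw [ZMod.val_one, one_smul, one_mul]

theorem pr_add' (hA : ActStmt) {w w₁ w₂ : Finset ι → Pt} (h : 2 • w = 0) (h₁ : 2 • w₁ = 0)
    (h₂ : 2 • w₂ = 0) : pr w (w₁ + w₂) = pr w w₁ + pr w w₂ := by
  obtain ⟨a, b, -⟩ := hA ι
  rw [a, b _ _ _ h₁ h₂ h, a w₁, a w₂]

theorem fn_act (h : ∀ i, Fn (ψ i)) :
    Fn fun σ => fun w : {w : Finset ι → Pt // 2 • w = 0} => act ψ σ w.1 := by
  obtain ⟨J, a, b⟩ := fn_pi h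
  obtain ⟨J', a', b'⟩ := ex_tor 1 1
  obtain ⟨J'', e, h1, h2⟩ := a.union a'
  refine ⟨J'', e, fun σ τ s => funext fun w => funext fun S => ?_⟩
  refine Finset.sum_congr rfl fun R _ => ?_
  rw [(b' σ τ (s.mono h2)).2 _ (tor_one.2 (two_ap w.2 R)),
    Finset.prod_congr rfl fun i _ => congrFun (b σ τ (s.mono h1)) i]

/-- The data of the cup product. -/
structure Dt (ψ : ι → G → ZMod 2) (χ η : G → ZMod 2) (X Y Γ : G → Finset ι → Pt) : Prop where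
  hom : Hom ψ
  fψ : ∀ i, Fn (ψ i)
  fχ : Fn χ
  mχ : ∀ σ τ, χ (σ * τ) = χ σ + χ τ
  vX : Vc ψ X
  vY : Vc ψ Y
  two : ∀ σ, 2 • Γ σ = 0
  fΓ : Fn Γ
  mul : ∀ σ τ, Γ (σ * τ) = Γ σ + act ψ σ (Γ τ) + (χ σ).val • act ψ σ (X τ)
  sg : Sg (bb ψ X Y) η

/-- The two-cocycle. -/
def cc (ψ : ι → G → ZMod 2) (χ η : G → ZMod 2) (Y Γ : G → Finset ι → Pt) (σ τ : G) : ZMod 2 :=
  bb ψ Γ Y σ τ + χ σ * η τ

theorem pr_gm (hA : ActStmt) (h : Dt ψ χ η X Y Γ) (σ τ : G) {w : Finset ι → Pt} (hw : 2 • w = 0) :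
    pr (Γ (σ * τ)) (act ψ σ w) = pr (Γ σ) (act ψ σ w) + pr (Γ τ) w + χ σ * pr (X τ) w := by
  obtain ⟨-, b, c⟩ := hA ι
  obtain ⟨-, c2, -, c4, -, -⟩ := c ψ
  have t1 := c2 σ _ (h.two τ)
  have t2 := c2 σ _ (h.vX.two τ)
  have t3 := c2 σ _ hw
  rw [h.mul, b _ _ _ (two_add (h.two σ) t1) (two_n _ t2) t3, b _ _ _ (h.two σ) t1 t3, pr_val,
    c4 σ _ _ (h.two τ) hw, c4 σ _ _ (h.vX.two τ) hw]

theorem c2 (hA : ActStmt) (h : Dt ψ χ η X Y Γ) : C2 (cc ψ χ η Y Γ) := by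
  obtain ⟨c1, c2, -, -, -, c6⟩ := (hA ι).2.2 ψ
  refine ⟨fn2 (((fn_act h.fψ).map₂ h.fΓ Prod.mk).map₂ h.fχ Prod.mk)
    (h.vY.fn.map₂ h.sg.1 Prod.mk) _ fun σ σ' τ τ' a b => ?_, fun σ τ υ => ?_⟩
  · simp only [Prod.mk.injEq] at a b
    have := congrFun a.1.1 ⟨Y τ', h.vY.two τ'⟩
    simp only [] at this
    rw [cc, cc, bb, bb, a.1.2, a.2, b.1, b.2, this]
  · have t := c2 τ _ (h.vY.two υ)
    have s := h.sg.2 τ υ
    rw [bb] at s
    rw [cc, cc, cc, cc, bb, bb, bb, bb, c6 h.hom σ τ _ (h.vY.two υ), pr_gm hA h σ τ t, h.vY.mul,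
      c1, pr_add' hA (h.two σ) (c2 σ _ (h.vY.two τ)) (c2 σ _ t), s, h.mχ]
    linear_combination -χ σ * z2 (η υ) - χ σ * z2 (η τ)

theorem cc_sum (hA : ActStmt) {σ : G} (h1 : ∀ i, ψ i σ = 0) (h2 : χ σ = 0) (τ : G) :
    cc ψ χ η Y Γ σ τ = ∑ S, cup (fun σ => Γ σ S) (fun σ => Y σ Sᶜ) σ τ := by
  rw [cc, h2, zero_mul, add_zero, bb, pr]
  exact Finset.sum_congr rfl fun S _ => by
    rw [((hA ι).2.2 ψ).2.2.1 σ _ _ fun i _ => h1 i, cup]

theorem gm_ap (hA : ActStmt) (h : Dt ψ χ η X Y Γ) {σ : G} (h1 : ∀ i, ψ i σ = 0) (h2 : χ σ = 0)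
    (τ : G) (S : Finset ι) : Γ (σ * τ) S = Γ σ S + σ • Γ τ S := by
  rw [h.mul, h2, ZMod.val_zero, zero_smul, add_zero, Pi.add_apply,
    ((hA ι).2.2 ψ).2.2.1 σ _ _ fun i _ => h1 i]

theorem vc_ap (hA : ActStmt) (h : Vc ψ Y) {σ : G} (h1 : ∀ i, ψ i σ = 0) (τ : G) (S : Finset ι) :
    Y (σ * τ) S = Y σ S + σ • Y τ S := by
  rw [h.mul, Pi.add_apply, ((hA ι).2.2 ψ).2.2.1 σ _ _ fun i _ => h1 i]

theorem fix_cj {x : G → Pt} (h2 : 2 • x cj = 0) (h1 : x (1 * 1) = x 1 + (1 : G) • x 1)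
    (h : x (cj * cj) = x cj + cj • x cj) : x 1 = 0 ∧ cj • x cj = x cj := by
  rw [mul_one, one_smul] at h1
  have e := left_eq_add.1 h1
  rw [cj_mul_cj, e] at h
  exact ⟨e, by rw [eq_neg_of_add_eq_zero_right h.symm, Ep.neg_two h2]⟩

theorem inf (hA : ActStmt) (h : Dt ψ χ η X Y Γ) (h1 : ∀ i, ψ i cj = 0) (h2 : χ cj = 0) :
    cc ψ χ η Y Γ cj cj = cc ψ χ η Y Γ 1 1 := by
  have a1 : ∀ i, ψ i 1 = 0 := fun i => by simpa using h.hom i 1 1
  have a2 : χ 1 = 0 := by simpa using h.mχ 1 1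
  have g := fun S => fix_cj (x := fun σ => Γ σ S) (two_ap (h.two cj) S) (gm_ap hA h a1 a2 1 S)
    (gm_ap hA h h1 h2 cj S)
  have y := fun S => fix_cj (x := fun σ => Y σ S) (two_ap (h.vY.two cj) S) (vc_ap hA h.vY a1 1 S)
    (vc_ap hA h.vY h1 cj S)
  rw [cc_sum hA h1 h2, cc_sum hA a1 a2, Finset.sum_eq_zero, Finset.sum_eq_zero]
  · intro S _
    rw [cup, (g S).1, ep_zero]
  · intro S _
    rw [cup, (y Sᶜ).2]
    exact ep_cj (two_ap (h.two cj) S) (two_ap (h.vY.two cj) _) (g S).2 (y Sᶜ).2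

/-- At an inert prime. -/
theorem t3 (hA : ActStmt) (h : Dt ψ χ η X Y Γ) {w : Finset ι → Pt} (hw : 2 • w = 0)
    (hY : ∀ τ, Wl O v τ → Y τ = act ψ τ w - w) :
    (Sp O v (cc ψ χ η Y Γ) ↔ Sp O v fun σ τ => χ σ * (η τ + pr (X τ) (act ψ τ w))) ∧
    ∀ σ τ, Wl O v σ → Wl O v τ → η (σ * τ) + pr (X (σ * τ)) (act ψ (σ * τ) w) =
      η σ + pr (X σ) (act ψ σ w) + (η τ + pr (X τ) (act ψ τ w)) := by
  obtain ⟨-, b, c⟩ := hA ι
  obtain ⟨c1, c2, -, c4, -, c6⟩ := c ψ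
  refine ⟨sp_iff (θ := fun σ => pr (Γ σ) (act ψ σ w))
    (h.fΓ.map₂ (fn_act h.fψ) fun a b => pr a (b ⟨w, hw⟩)) fun σ τ _ s => ?_, fun σ τ _ s => ?_⟩
  · have t := c2 τ _ hw
    rw [cc, bb, hY τ s, sub_two hw, c1, pr_add' hA (h.two σ) (c2 σ _ t) (c2 σ _ hw),
      c6 h.hom σ τ _ hw, pr_gm hA h σ τ t]
    linear_combination -χ σ * z2 (pr (X τ) (act ψ τ w)) - z2 (pr (Γ τ) (act ψ τ w))
  · have t := c2 τ _ hw
    have k := h.sg.2 σ τ
    rw [bb, hY τ s, sub_two hw, c1, pr_add' hA (h.vX.two σ) (c2 σ _ t) (c2 σ _ hw)] at k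
    rw [c6 h.hom σ τ _ hw, h.vX.mul, b _ _ _ (h.vX.two σ) (c2 σ _ (h.vX.two τ)) (c2 σ _ t),
      c4 σ _ _ (h.vX.two τ) t]
    linear_combination k + z2 (η (σ * τ)) - z2 (pr (X σ) (act ψ σ w))

/-- At an unramified prime. -/
theorem unr (hA : ActStmt) (h : Dt ψ χ η X Y Γ) (hv : v.Prime) (h2 : v ≠ 2) (h11 : v ≠ 11)
    (hO : Ov O v) (hI : ∀ σ, Frob O 1 σ → (∀ i, ψ i σ = 0) ∧ χ σ = 0 ∧ η σ = 0 ∧ X σ = 0 ∧
      Y σ = 0 ∧ Γ σ = 0) : Sp O v (cc ψ χ η Y Γ) := by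
  obtain ⟨-, -, c3, -, -, c6⟩ := (hA ι).2.2 ψ
  refine unr_thm v O _ hv hO (c2 hA h) fun n n' σ σ' τ τ' a a' b b' => ?_
  have i1 := V2.c3 hv hO a a'
  have i2 := V2.c3 hv hO b b'
  rw [← mul_inv_cancel_left σ σ', ← mul_inv_cancel_left τ τ']
  generalize σ⁻¹ * σ' = s at i1 ⊢
  generalize τ⁻¹ * τ' = t at i2 ⊢
  obtain ⟨s1, s2, -, s4, -, s6⟩ := hI s i1
  obtain ⟨-, -, t3, -, t5, -⟩ := hI t i2
  have e1 : Y (τ * t) = Y τ := by rw [h.vY.mul, t5, act0, add_zero]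
  have e2 : Γ (σ * s) = Γ σ := by rw [h.mul, s6, s4, act0, smul_zero, add_zero, add_zero]
  have e3 : act ψ s (Y τ) = Y τ := funext fun S => by
    rw [c3 s _ _ fun i _ => s1 i, ine_tor hv h2 h11 hO i1 (tor_one.2 (two_ap (h.vY.two τ) S))]
  have e4 : η (τ * t) = η τ := by
    have k := h.sg.2 τ t
    rw [bb, t5, act0, (hA ι).1, pr0, t3] at k
    linear_combination -k - z2 (η τ)
  rw [cc, cc, bb, bb, e1, e2, c6 h.hom σ s _ (h.vY.two τ), e3, e4, h.mχ, s2, add_zero]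

end Cube

end Top

theorem top_thm (hL : LdStmt) (hR : RecNStmt) (hQ : LqStmt) (hS : SqStmt) (_hU : UnStmt)
    (hI : InjStmt) (hA : ActStmt) (h3 : N3Stmt) : TopStmt := by
  classical
  intro K r Q d ι _ _ ψ u y X Y Γ P η p p' f f' w w' hK hV hψ hp hp' hne hχ hX hY hΓ hP hN hf hf'
    hw hw' eY eY'
  have D : Top.Dt ψ (ps (pst p * pst p')) η X Y Γ :=
    ⟨fun i => (hψ i).mul, fun i => (hψ i).fn, hχ.fn, hχ.mul, ⟨hX.two, hX.fn, hX.mul⟩,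
      ⟨hY.two, hY.fn, hY.mul⟩, hΓ.two, hΓ.fn, hΓ.mul, hN.sg⟩
  have inj := (hI K r Q d hK hV).1
  have pl := fun i => (hL K (Q i) hK (hV.kg i)).pl
  have mq : ∀ v, v ∈ qs Q ↔ ∃ i, Q i = v := fun v => by simp [qs]
  have nq : ∀ v, T3 v → v ∉ qs Q := fun v hv h => by
    obtain ⟨i, rfl⟩ := (mq v).1 h
    have := (hV.kg i).ty
    rw [hv.ty] at this
    exact zero_ne_one this
  have zI : ∀ v w, T3 v → 2 • w = 0 → (∀ τ, Wl (P v) v τ → Y τ = act ψ τ w - w) →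
      ∀ σ, Frob (P v) 1 σ → η σ + pr (X σ) (act ψ σ w) = 0 := fun v w a b c σ e => by
    rw [hN.t3 v w σ a b c e, Top.z2]
  have ram : ∀ v g w, T3 v → (∃ σ, Frob (P v) 1 σ ∧ ps (pst p * pst p') σ = 1) → Frob (P v) v g →
      2 • w = 0 → (∀ τ, Wl (P v) v τ → Y τ = act ψ τ w - w) →
      iv (P v) v (Top.cc ψ (ps (pst p * pst p')) η Y Γ) = η g + pr (X g) (act ψ g w) := by
    rintro v g w a ⟨σ, s1, s2⟩ hg b c
    obtain ⟨k1, k2⟩ := Top.t3 hA D b c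
    have k3 := bl_thm le_thm v (P v) (pst p * pst p') (fun τ => η τ + pr (X τ) (act ψ τ w)) _ σ g
      a.pr a.n2 (hP v a.pr) s1 (cq_eq_neg.1 (ps_one.1 s2)) hg k2 (zI v w a b c) fun _ _ _ _ => rfl
    rw [iv, k1, k3]
    rcases Top.zor (η g + pr (X g) (act ψ g w)) with e | e <;> simp [e]
  have key := hR.2 _ (insert p (insert p' (qs Q))) (fun v => if v ∈ qs Q then (ld K v).O else P v)
    (Top.c2 hA D) (Top.inf hA D (fun i => (hψ i).inf) hχ.inf) (fun v hv => by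
      split_ifs with h
      · obtain ⟨i, rfl⟩ := (mq v).1 h
        exact (pl i).ov
      · exact hP v hv) (fun v hv => by
      rcases Finset.mem_insert.1 hv with rfl | hv
      · exact hp.pr
      rcases Finset.mem_insert.1 hv with rfl | hv
      · exact hp'.pr
      obtain ⟨i, rfl⟩ := (mq v).1 hv
      exact (pl i).pr) (fun v hv hn => by
      simp only [Finset.mem_insert, not_or] at hn
      obtain ⟨n1, n2, n3⟩ := hn
      simp only [if_neg n3]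
      have hO := hP v hv
      by_cases hb : Bad d v
      · exact (Top.sp_sum Finset.univ _ fun S => isoH_thm d v _ _ _ hV.sf.ne_zero hv hO
          (fun σ => Top.two_ap (hΓ.two σ) S) (fun σ => Top.two_ap (hY.two σ) Sᶜ)
          (hΓ.kl v _ S hv hb hO) (hY.kl v _ Sᶜ hv hb hO)).congr fun σ τ a _ =>
            Top.cc_sum hA (fun i => (hψ i).bad v _ σ hv (Or.inl hb) hO a)
              (hχ.bad v _ σ hv (Or.inl hb) hO a) τ
      have m2 : v ≠ 2 := fun e => hb (Or.inl e)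
      have m11 : v ≠ 11 := fun e => hb (Or.inr (Or.inl e))
      by_cases h0 : nr v = 0
      · have t : T3 v := ⟨hv, m2, m11, h0⟩
        obtain ⟨w, b, c⟩ := (h3 ι ψ).2 v _ Y D.hom D.fψ t hO D.vY
        obtain ⟨k1, k2⟩ := Top.t3 hA D b c
        exact k1.2 (Top.sp_unr (ε := fun τ => η τ + pr (X τ) (act ψ τ w)) hv hO hχ.fn hχ.mul
          (fun σ e => (hS.2 p p' hp hp').1 v _ σ hv n1 n2 hO e) k2 (zI v w t b c))
      · exact Top.unr hA D hv m2 m11 hO fun σ e => ⟨fun i => (hψ i).unr v _ σ hv h0 hO e,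
          hχ.unr v _ σ hv h0 hO e, hN.un v σ hv hb n3 h0 e, hX.un v _ σ hv hb n3 h0 hO e,
          hY.un v _ σ hv hb n3 h0 hO e, hΓ.un v _ σ hv hb n3 h0 hO e⟩)
  have loc : ∀ i, iv (ld K (Q i)).O (Q i) (Top.cc ψ (ps (pst p * pst p')) η Y Γ) =
      sb K Q Γ i * y i := by
    intro i
    have m : Q i ∈ qs Q := (mq _).2 ⟨i, rfl⟩
    have a1 := fun σ (a : Wl (ld K (Q i)).O (Q i) σ) j =>
      (hψ j).bad _ _ σ (pl i).pr (Or.inr m) (pl i).ov a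
    have a2 := fun σ (a : Wl (ld K (Q i)).O (Q i) σ) => hχ.bad _ _ σ (pl i).pr (Or.inr m) (pl i).ov a
    rw [(hQ _ _ _ _ (pl i)).2.2 (Finset ι) (fun S σ => Γ σ S) (fun S σ => Y σ Sᶜ) _
      (fun S => ⟨⟨fun σ _ => tor_one.2 (Top.two_ap (hΓ.two σ) S), fun σ τ a _ => by
          rw [tw_two _ _ (Top.two_ap (hΓ.two τ) S)]
          exact Top.gm_ap hA D (a1 σ a) (a2 σ a) τ S, (hΓ.fn.map fun z => z S).on _⟩,
        ⟨fun σ _ => tor_one.2 (Top.two_ap (hY.two σ) Sᶜ), fun σ τ a _ => by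
          rw [tw_two _ _ (Top.two_ap (hY.two τ) Sᶜ)]
          exact Top.vc_ap hA D.vY (a1 σ a) τ Sᶜ, (hY.fn.map fun z => z Sᶜ).on _⟩⟩)
      fun σ τ a _ => Top.cc_sum hA (a1 σ a) (a2 σ a) τ]
    have g0 : ∀ S, nz (Γ ((ld K (Q i)).f * (ld K (Q i)).f) S) = 0 := fun S => by
      have := congrFun (hΓ.fin i) S
      rw [ff] at this
      rw [this]
      exact if_pos rfl
    have y0 : ∀ S, nz (Y ((ld K (Q i)).f * (ld K (Q i)).f) S) = if S = ∅ then y i else 0 :=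
      hY.fin i
    simp only [g0, y0, zero_mul, zero_add, Finset.compl_eq_empty_iff, mul_ite, mul_zero,
      Finset.sum_ite_eq', Finset.mem_univ, if_true]
    rfl
  rw [Finset.sum_insert (by simp [hne, nq p hp]), Finset.sum_insert (nq p' hp'), if_neg (nq p hp),
    if_neg (nq p' hp'), ram p f w hp ((hS.2 p p' hp hp').2.1 hne _ (hP p hp.pr)) hf hw eY,
    ram p' f' w' hp' (by
      rw [mul_comm]
      exact (hS.2 p' p hp' hp).2.1 hne.symm _ (hP p' hp'.pr)) hf' hw' eY',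
    Finset.sum_congr rfl fun v hv => by rw [if_pos hv], qs,
    Finset.sum_image fun i _ j _ e => inj e, Finset.sum_congr rfl fun i _ => loc i] at key
  linear_combination key - Top.z2 (η f + pr (X f) (act ψ f w)) -
    Top.z2 (η f' + pr (X f') (act ψ f' w'))

end Pool.Agent.Lib.MP_d6ddbd_nt.GA
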