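import Pool.Agent.Lib.MP_d6ddbd_nt.GA.Stmt
import Pool.Agent.Lib.MP_d6ddbd_nt.KI.Bas
import Pool.Agent.Lib.MP_d6ddbd_nt.KI.Gd

/-!
The Kummer condition at the primes of good reduction.
-/

set_option autoImplicit false

open Pool.Agent.Lib.MP_d6ddbd_nt.K11 Pool.Agent.Lib.MP_d6ddbd_nt.KI

namespace Pool.Agent.Lib.MP_d6ddbd_nt.GA

theorem un_thm : UnStmt := fun _ _ _ _ _ _ hv h2 h11 hc hO h =>
  ⟨cq_ine hv h2 hO hc h, fun _ hT => ine_tor hv h2 h11 hO h hT,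
    fun hx hk => hk.ine hv h2 h11 hO hx h (cq_ine hv h2 hO hc h)⟩

theorem rel_thm' (hT : T3Stmt) : GA.RelStmt := by
  intro c k n x hx hB hU
  refine ⟨hx, fun v O hv hn hO => ?_⟩
  by_cases hb : Bad c v
  · exact hB v O hv hb hO
  have h2 : v ≠ 2 := fun e => hb (Or.inl e)
  have h11 : v ≠ 11 := fun e => hb (Or.inr (Or.inl e))
  by_cases h0 : nr v = 0
  · obtain ⟨S, a, b⟩ := hT c k v O x ⟨hv, h2, h11, h0⟩ hO
      ⟨fun σ _ => hx.tor σ, fun σ τ _ _ => hx.mul σ τ, hx.fn.on _⟩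
    exact ⟨S, alg_tor a, b⟩
  · exact gd_thm c k v x O hv h2 h11 hO hx
      (fun σ h => cq_ine hv h2 hO (fun e => hb (Or.inr (Or.inr ⟨e, h0⟩))) h)
      fun σ h => hU v O σ hv hb hn h0 hO h

end Pool.Agent.Lib.MP_d6ddbd_nt.GA
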