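import Pool.Agent.Lib.MP_d6ddbd_nt.GA.Stmt
import Pool.Agent.Lib.MP_d6ddbd_nt.KI.Bas
import Pool.Agent.Lib.MP_d6ddbd_nt.KI.Dk
import Pool.Agent.Lib.MP_d6ddbd_nt.K11.Kum

/-!
The choice of the auxiliary primes.
-/

set_option autoImplicit false
set_option maxSynthPendingDepth 3

open Pool.Agent.Lib.MP_d6ddbd_nt.K11 Pool.Agent.Lib.MP_d6ddbd_nt.KI
open Pool.Agent.Lib.MP_d6ddbd_nt.GF (pst)

noncomputable section

namespace Pool.Agent.Lib.MP_d6ddbd_nt.GA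

namespace Dual

theorem nz_zero {T : Pt} : nz T = 0 ↔ T = 0 := by
  unfold nz; split_ifs with h <;> simp [h]

theorem nz_one {T : Pt} : nz T = 1 ↔ T ≠ 0 := by
  unfold nz; split_ifs with h <;> simp [h]

/-- Dual systems. -/
def Sy (K : ℕ) (d : ℤ) (S : Finset ℕ) (r : ℕ) (Q : Fin r → ℕ) (β : Fin r → G → Pt) : Prop :=
  (∀ i, Q i ∈ S) ∧ ∀ l, Sel d 1 ∅ (β l) ∧ ∀ i, nz (β l (ff K (Q i))) = if i = l then 1 else 0

variable {K : ℕ} {d : ℤ} {S : Finset ℕ} {r : ℕ} {Q : Fin r → ℕ} {β : Fin r → G → Pt}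

theorem sq_fix {q : ℕ} (h : (ld K q).Ok q) (hK : K ≠ 0) (T : Pt) (hT : 2 ^ 1 • T = 0) :
    (ld K q).f • (ld K q).f • T = T := h.sq T (tor_mono (Nat.pos_of_ne_zero hK) hT)

theorem ind (hK : K ≠ 0) (hS : ∀ q ∈ S, (ld K q).Ok q) (h : Sy K d S r Q β) (a : Fin r → ZMod 2)
    (ha : Cb d (rep β a)) : a = 0 := by
  funext i
  have t : ∀ σ, 2 ^ 1 • rep β a σ = 0 := fun σ => by
    rw [rep, Finset.sum_apply, Finset.smul_sum]
    exact Finset.sum_eq_zero fun l _ => ((h.2 l).1.nat _).cy.tor σ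
  have e : rep β a (ff K (Q i)) = 0 := ha.val_sq t (sq_fix (hS _ (h.1 i)) hK)
  rw [rep, Finset.sum_apply, Finset.sum_eq_single i (fun l _ hl => by
    rw [Pi.smul_apply, nz_zero.1 (((h.2 l).2 i).trans (if_neg hl.symm)), smul_zero]) (by simp),
    Pi.smul_apply] at e
  have n := nz_one.1 (((h.2 i).2 i).trans (if_pos rfl))
  by_contra c
  have : a i = 1 := (by decide : ∀ z : ZMod 2, ¬ z = 0 → z = 1) _ c
  rw [this] at e
  exact n (by simpa [ZMod.val_one] using e)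

theorem fix {q : ℕ} (h : (ld K q).Ok q) (hK : K ≠ 0) {x : G → Pt} (hx : Sel d 1 ∅ x) :
    (ld K q).f • x (ff K q) = x (ff K q) := by
  have := hx.cy.eig (sq_fix h hK)
  rwa [tw_two d _ (hx.two _)] at this

open Classical in
theorem step (hQ : LqStmt) (hK : K ≠ 0) (hS : ∀ q ∈ S, (ld K q).Ok q) (h : Sy K d S r Q β)
    {x : G → Pt} (hx : Sel d 1 ∅ x) (h0 : ∀ i, x (ff K (Q i)) = 0) {q : ℕ} (hq : q ∈ S)
    (h1 : x (ff K q) ≠ 0) :
    Sy K d S (r + 1) (Fin.cons q Q)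
      (Fin.cons x fun l => if β l (ff K q) = 0 then β l else β l - x) := by
  refine ⟨fun i => Fin.cases hq h.1 i, fun l => Fin.cases ⟨hx, fun i => ?_⟩
    (fun l => ⟨?_, fun i => ?_⟩) l⟩
  · refine Fin.cases ?_ (fun i => ?_) i
    · simpa using nz_one.2 h1
    · simpa [Fin.succ_ne_zero] using nz_zero.2 (h0 i)
  · rw [Fin.cons_succ]
    split_ifs
    exacts [(h.2 l).1, (h.2 l).1.sub hx]
  · rw [Fin.cons_succ]
    refine Fin.cases ?_ (fun i => ?_) i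
    · rw [Fin.cons_zero, if_neg (Fin.succ_ne_zero l).symm, nz_zero]
      split_ifs with c
      · exact c
      · have := (hQ q _ _ _ (hS q hq).pl).2.1 _ _ ((h.2 l).1.two _) (hx.two _)
          (fix (hS q hq) hK (h.2 l).1) (fix (hS q hq) hK hx)
        exact sub_eq_zero.2 ((this.resolve_left c).resolve_left h1)
    · rw [Fin.cons_succ]
      have e : (if β l (ff K q) = 0 then β l else β l - x) (ff K (Q i)) = β l (ff K (Q i)) := by
        split_ifs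
        · rfl
        · rw [Pi.sub_apply, h0, sub_zero]
      rw [e, (h.2 l).2 i]
      simp only [Fin.succ_inj]

end Dual

theorem dual_thm (hL : LdStmt) (hQ : LqStmt) : DualStmt := by
  intro K d S R hK hR hS hx
  classical
  have ok : ∀ q ∈ S, (ld K q).Ok q := fun q hq => hL K q hK (hS q hq)
  have bd : ∀ r Q β, Dual.Sy K d S r Q β → r ≤ R := fun r Q β h =>
    hR r β (fun l => (h.2 l).1) (Dual.ind hK ok h)
  have s0 : ∃ Q β, Dual.Sy K d S 0 Q β := ⟨Fin.elim0, Fin.elim0, fun i => i.elim0, fun i => i.elim0⟩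
  obtain ⟨Q, β, h⟩ := Nat.findGreatest_spec (P := fun r => ∃ Q β, Dual.Sy K d S r Q β)
    (Nat.zero_le R) s0
  refine ⟨_, Q, bd _ Q β h, h.1, fun x a b => by_contra fun c => ?_, fun l => ⟨β l, h.2 l⟩⟩
  obtain ⟨q, hq, e⟩ := hx x a c
  have h' := Dual.step hQ hK ok h a b hq e
  exact Nat.findGreatest_is_greatest (Nat.lt_succ_self _) (bd _ _ _ h') ⟨_, _, h'⟩

theorem val_thm (hL : LdStmt) (hG : GwStmt) (hD : DimStmt) (hU : DualStmt) : ValStmt := by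
  obtain ⟨C, hC⟩ := hD
  refine ⟨C, fun L _ _ θ hθ K d S hK hd h => ?_⟩
  classical
  obtain ⟨r, Q, a, b, c, e⟩ := hU K d (S.filter fun q => Kg K q ∧ ¬ (q : ℤ) ∣ d) _ hK
    (fun r β => hC d r β hd) (fun q hq => (Finset.mem_filter.1 hq).2.1) fun x hx hc => by
      have hk := kum_thm vA rA pr_thm L θ hθ
      obtain ⟨α, a0, a1, a2⟩ := hk.1 x hx.coc
      obtain ⟨w, z⟩ := dk_thm L θ hθ d ∅ α x hd (by simp) (by simp) (by simp) a0 a1 hx.coc a2 hx.kl
      obtain ⟨q, hq, g, n, f⟩ := h α w z fun s =>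
        hc ((cb_cob_iff hx.two).2 ((hk.2 α x a0 hx.coc a2).1 s))
      refine ⟨q, Finset.mem_filter.2 ⟨hq, g, n⟩, fun e => ?_⟩
      have o := (hL K q hK g).pl
      have := (((link1_thm vA rA pr_thm L θ hθ).2.2 α x a0 a1 hx.coc a2).2 q _ _ _ _ o.pr o.n2 o.n11
        o.ty o.ov o.ine o.fr (rt_sq _) (rt_neg o.mv)).2.2 e
      exact zero_ne_one (this.symm.trans f)
  exact ⟨r, Q, a, fun i => (Finset.mem_filter.1 (b i)).1, hd.sf, (hG d hd).1, (hG d hd).2,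
    fun i => (Finset.mem_filter.1 (b i)).2.1, fun i => (Finset.mem_filter.1 (b i)).2.2, c, e⟩

end Pool.Agent.Lib.MP_d6ddbd_nt.GA
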