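import Pool.Agent.Lib.MP_d6ddbd_nt.GA.Act
import Pool.Agent.Lib.MP_d6ddbd_nt.GA.Bas
import Pool.Agent.Lib.MP_d6ddbd_nt.GA.Bit
import Pool.Agent.Lib.MP_d6ddbd_nt.GA.Bsp
import Pool.Agent.Lib.MP_d6ddbd_nt.GA.Core
import Pool.Agent.Lib.MP_d6ddbd_nt.GA.Cube
import Pool.Agent.Lib.MP_d6ddbd_nt.GA.Det
import Pool.Agent.Lib.MP_d6ddbd_nt.GA.Dim
import Pool.Agent.Lib.MP_d6ddbd_nt.GA.Div
import Pool.Agent.Lib.MP_d6ddbd_nt.GA.Ds
import Pool.Agent.Lib.MP_d6ddbd_nt.GA.Eta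
import Pool.Agent.Lib.MP_d6ddbd_nt.GA.Gw
import Pool.Agent.Lib.MP_d6ddbd_nt.GA.Inj
import Pool.Agent.Lib.MP_d6ddbd_nt.GA.Inv
import Pool.Agent.Lib.MP_d6ddbd_nt.GA.Ker
import Pool.Agent.Lib.MP_d6ddbd_nt.GA.Ld
import Pool.Agent.Lib.MP_d6ddbd_nt.GA.Lift
import Pool.Agent.Lib.MP_d6ddbd_nt.GA.Loc
import Pool.Agent.Lib.MP_d6ddbd_nt.GA.Lq
import Pool.Agent.Lib.MP_d6ddbd_nt.GA.N3
import Pool.Agent.Lib.MP_d6ddbd_nt.GA.Norm
import Pool.Agent.Lib.MP_d6ddbd_nt.GA.Opt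
import Pool.Agent.Lib.MP_d6ddbd_nt.GA.Pt
import Pool.Agent.Lib.MP_d6ddbd_nt.GA.RecN
import Pool.Agent.Lib.MP_d6ddbd_nt.GA.Sq
import Pool.Agent.Lib.MP_d6ddbd_nt.GA.Sur
import Pool.Agent.Lib.MP_d6ddbd_nt.GA.T3
import Pool.Agent.Lib.MP_d6ddbd_nt.GA.Th
import Pool.Agent.Lib.MP_d6ddbd_nt.GA.Top
import Pool.Agent.Lib.MP_d6ddbd_nt.GA.Un
import Pool.Agent.Lib.MP_d6ddbd_nt.GA.Val

/-!
Selmer groups of the quadratic twists of `X₀(11)` on cubes of primes: the blocks assembled.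
-/

set_option autoImplicit false

namespace Pool.Agent.Lib.MP_d6ddbd_nt.GA

theorem t3All : T3Stmt := t3_thm norm_thm un_thm

theorem relAll : GA.RelStmt := rel_thm' t3All

theorem lqAll : LqStmt := lq_thm un_thm

theorem n3All : N3Stmt := n3_thm norm_thm t3All act_thm

theorem injAll : InjStmt := inj_thm norm_thm ld_thm recn_thm lqAll un_thm

theorem basAll : BasStmt :=
  bas_thm norm_thm ld_thm lqAll (ds_thm ld_thm recn_thm lqAll un_thm injAll (det_thm norm_thm))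
    (lift_thm ld_thm (loc_thm un_thm) pt_thm' un_thm)

theorem divAll : DivStmt := div_thm ld_thm sq_thm un_thm relAll injAll basAll mob_thm

theorem optAll : OptStmt := opt_thm ld_thm sq_thm un_thm basAll mob_thm divAll

theorem bspAll : BspStmt := bsp_thm ld_thm recn_thm lqAll un_thm injAll act_thm n3All

theorem coreAll : CoreStmt :=
  core_thm sq_thm divAll optAll (bit_thm ld_thm lqAll basAll act_thm divAll optAll) n3All bspAll
    (eta_thm recn_thm un_thm act_thm n3All bspAll ld_thm)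
    (top_thm ld_thm recn_thm lqAll sq_thm un_thm injAll act_thm n3All)
    (sur_thm ld_thm lqAll act_thm) (u_thm act_thm n3All) (th_thm un_thm act_thm n3All)

theorem i2All : I2Stmt :=
  ⟨kg_thm, sim_thm, val_thm ld_thm gw_thm dim_thm (dual_thm ld_thm lqAll),
    inv_thm sq_thm relAll un_thm, ker2_thm norm_thm ld_thm lqAll un_thm injAll basAll,
    dv_thm ld_thm basAll divAll, cube2_thm coreAll⟩

end Pool.Agent.Lib.MP_d6ddbd_nt.GA
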