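import Pool.Agent.Lib.MP_d6ddbd_nt.KI.Stmt
import Pool.Agent.Lib.MP_d6ddbd_nt.GG.St

/-!
Selmer groups of the quadratic twists of `X₀(11)` on cubes of primes: definitions.
-/

set_option autoImplicit false

open NumberField IsDedekindDomain
open Pool.Agent.Stark (Pr og hq LSq pw SqCl cl)
open Pool.Agent.Lib.MP_d6ddbd_nt.K11 Pool.Agent.Lib.MP_d6ddbd_nt.KI
open Pool.Agent.Lib.MP_d6ddbd_nt.GF (pst)

noncomputable section

namespace Pool.Agent.Lib.MP_d6ddbd_nt.GA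

/-! ### The interface -/

/-- Auxiliary primes of level `K`. -/
structure Kg (K q : ℕ) : Prop where
  pr : q.Prime
  n2 : q ≠ 2
  n11 : q ≠ 11
  dv : 2 ^ K ∣ q + 1
  ty : nr q = 1
  fr : ∃ (O : ValuationSubring ℂ) (φ : G), Ov O q ∧ Frob O q φ ∧
    ∀ T : Pt, 2 ^ K • T = 0 → φ • φ • T = T

/-- Primes that are inert in the cubic field. -/
structure T3 (p : ℕ) : Prop where
  pr : p.Prime
  n2 : p ≠ 2
  n11 : p ≠ 11
  ty : nr p = 0

/-- `p` and `p'` have the same class at `2` and at the primes of `M` that are not inert. -/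
def Sim (M : ℤ) (p p' : ℕ) : Prop :=
  p % 8 = p' % 8 ∧ ∀ l : ℕ, l.Prime → l ≠ 2 → (l : ℤ) ∣ M → nr l ≠ 0 →
    jacobiSym p l = jacobiSym p' l

/-- The modulus of the classes. -/
def md (d : ℤ) {r : ℕ} (Q : Fin r → ℕ) : ℤ := 11 * d * ∏ i, (Q i : ℤ)

/-- The binary digit of order `j`. -/
def bit {K : ℕ} (j : ℕ) (x : ZMod (2 ^ K)) : ZMod 2 := ((x.val / 2 ^ j : ℕ) : ZMod 2)

/-- Two independent vectors. -/
def Ind {r : ℕ} (u y : Fin r → ZMod 2) : Prop := u ≠ 0 ∧ y ≠ 0 ∧ u ≠ y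

section Cube

variable {ι : Type} [Fintype ι] [DecidableEq ι]

/-- The vertices of a cube. -/
def vx (d : ℤ) (π π' : ι → ℕ) (t : Finset ι) : ℤ := d * ∏ i, pst (if i ∈ t then π' i else π i)

/-- The alternating sum over the face `S` of a cube. -/
def df {M : Type} [AddCommGroup M] (x : ℤ → M) (d : ℤ) (π π' : ι → ℕ) (S : Finset ι) : M :=
  ∑ t ∈ S.powerset, (-1 : ℤ) ^ t.card • x (vx d π π' t)

/-- The modulus outside of which the field is unramified. -/
def mz (d : ℤ) {r : ℕ} (Q : Fin r → ℕ) (π π' : ι → ℕ) : ℕ :=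
  22 * d.natAbs * (∏ i, Q i) * ∏ i, π i * π' i

end Cube

/-- The twist attached to a tuple of primes. -/
def dd (d : ℤ) {ι : Type} [Fintype ι] (π : ι → ℕ) : ℤ := d * ∏ i, pst (π i)

/-- An open subgroup of index at most `n` that contains the inertia groups outside `M`. -/
structure Op (n M : ℕ) (U : Subgroup G) : Prop where
  opn : GG.Opn U
  le : U.index ≤ n
  ine : ∀ (v : ℕ) O (σ : G), v.Prime → ¬ v ∣ M → Ov O v → Frob O 1 σ → σ ∈ U

/-! ### Local data -/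

/-- An automorphism that permutes the points of order two cyclically. -/
def Cy3 (ω : G) : Prop := ∀ T : Pt, 2 • T = 0 → ω • ω • T + ω • T + T = 0

/-- The element at which cocycles are normalised. -/
def w3 : G := Classical.epsilon Cy3

/-- Cocycles with the Kummer condition outside `n`. -/
structure Rel (c : ℤ) (k : ℕ) (n : Finset ℕ) (x : G → Pt) : Prop where
  cy : Cy c k x
  kl : ∀ (v : ℕ) O, v.Prime → v ∉ n → Ov O v → Kl c O v x

/-- A lower bound for the relaxed Selmer groups of level one. -/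
def Gw (c : ℤ) : Prop := ∀ B : Finset ℕ,
  (∀ p ∈ B, p.Prime ∧ p ≠ 2 ∧ p ≠ 11 ∧ ¬ (p : ℤ) ∣ c ∧ nr p = 1) →
  ∃ β : Fin B.card → G → Pt, (∀ i, Rel c 1 B (β i)) ∧ ∀ a, Cb c (rep β a) → a = 0

/-- Independent classes of level one take prescribed values. -/
def Sj (c : ℤ) : Prop := ∀ (r : ℕ) (B : Fin r → G → Pt) (μ : Fin r → ZMod 2) (T : Pt),
  (∀ i, Cy c 1 (B i) ∧ Ke c (B i)) → (∀ a, Cb c (rep B a) → a = 0) → 2 • T = 0 →
  ∃ h, Hm 1 ∅ h ∧ ∀ i, B i h = (μ i).val • T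

open Classical in
/-- The local invariant. -/
def iv (O : ValuationSubring ℂ) (v : ℕ) (c : G → G → ZMod 2) : ZMod 2 := if Sp O v c then 0 else 1

/-- Local cocycles of level `k`. -/
structure Lc (c : ℤ) (k : ℕ) (O : ValuationSubring ℂ) (v : ℕ) (x : G → Pt) : Prop where
  tor : ∀ σ, Wl O v σ → 2 ^ k • x σ = 0
  mul : ∀ σ τ, Wl O v σ → Wl O v τ → x (σ * τ) = x σ + tw c σ (x τ)
  fn : FnOn (Wl O v) x

/-- A place over a prime of type one, a Frobenius element and a generator of tame inertia. -/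
structure Pl1 (q : ℕ) (O : ValuationSubring ℂ) (f io : G) : Prop where
  pr : q.Prime
  n2 : q ≠ 2
  n11 : q ≠ 11
  ty : nr q = 1
  ov : Ov O q
  fr : Frob O q f
  ine : Frob O 1 io
  mv : io (rt (pst q)) ≠ rt (pst q)

/-- The choices at an auxiliary prime. -/
structure LD (K : ℕ) where
  /-- the place -/
  O : ValuationSubring ℂ
  /-- the Frobenius element -/
  f : G
  /-- the generator of tame inertia -/
  io : G
  /-- the generators of the invariants -/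
  g : ℤ → Pt
  /-- the coordinate -/
  mu : Pt → ZMod (2 ^ K)

instance (K : ℕ) : Nonempty (LD K) := ⟨⟨⊤, 1, 1, 0, 0⟩⟩

/-- The properties of the choices. -/
structure LD.Ok {K : ℕ} (D : LD K) (q : ℕ) : Prop where
  pl : Pl1 q D.O D.f D.io
  sq : ∀ T : Pt, 2 ^ K • T = 0 → D.f • D.f • T = T
  tor : ∀ η : ℤ, 2 ^ K • D.g η = 0
  ne : ∀ η : ℤ, 2 ^ (K - 1) • D.g η ≠ 0
  fix : ∀ η : ℤ, (η = 1 ∨ η = -1) → η • D.f • D.g η = D.g η
  gen : ∀ (η : ℤ) (S : Pt), (η = 1 ∨ η = -1) → 2 ^ K • S = 0 → η • D.f • S = S →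
    ∃ a : ℤ, S = a • D.g η
  add : ∀ S T : Pt, 2 ^ K • S = 0 → 2 ^ K • T = 0 → D.mu (S + T) = D.mu S + D.mu T
  top : ∀ T : Pt, 2 • T = 0 → D.f • T = T → T ≠ 0 → D.mu T = 2 ^ (K - 1)

/-- The choices at `q`. -/
def ld (K q : ℕ) : LD K := Classical.epsilon fun D => D.Ok q

open Classical in
/-- The indicator of the nonzero points. -/
def nz (T : Pt) : ZMod 2 := if T = 0 then 0 else 1

/-- The square of the Frobenius element at `q`. -/
def ff (K q : ℕ) : G := (ld K q).f * (ld K q).f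

/-- The generator of tame inertia at `q`. -/
def io (K q : ℕ) : G := (ld K q).io

section Sel

variable (K : ℕ) {r : ℕ} (Q : Fin r → ℕ)

/-- The set of auxiliary primes. -/
def qs : Finset ℕ := Finset.univ.image Q

/-- The finite parts at `Q` identify the Selmer group of level one with `𝔽₂ ^ r`. -/
structure Val (d : ℤ) : Prop where
  sf : Squarefree d
  gw : Gw d
  sj : Sj d
  kg : ∀ i, Kg K (Q i)
  nd : ∀ i, ¬ (Q i : ℤ) ∣ d
  inj : ∀ x, Sel d 1 ∅ x → (∀ i, x (ff K (Q i)) = 0) → Cb d x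
  sur : ∀ l, ∃ x, Sel d 1 ∅ x ∧ ∀ i, nz (x (ff K (Q i))) = if i = l then 1 else 0

/-- Cells of tuples of inert primes. -/
structure Cell (d : ℤ) {n : ℕ} (P : Fin n → Finset ℕ) : Prop where
  t3 : ∀ i, ∀ p ∈ P i, T3 p
  sim : ∀ i, ∀ p ∈ P i, ∀ p' ∈ P i, Sim (md d Q) p p'
  val : ∀ π : Fin n → ℕ, (∀ i, π i ∈ P i) → Val K Q (dd d π)

/-- Admissible cubes. -/
structure Cu {ι : Type} [Fintype ι] [DecidableEq ι] (d : ℤ) (π π' : ι → ℕ) : Prop where
  val : ∀ t, Val K Q (vx d π π' t)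
  t3 : ∀ i, T3 (π i) ∧ T3 (π' i)
  sim : ∀ i, Sim (md d Q) (π i) (π' i)

/-- Normalised cocycles with prescribed finite parts. -/
structure Bs (d : ℤ) (u : Fin r → ℤ) (x : G → Pt) : Prop where
  rel : Rel d K (qs Q) x
  nm : x w3 = 0
  fin : ∀ i, x (ff K (Q i)) = u i • (ld K (Q i)).g (cq d (ld K (Q i)).f)

/-- The basis. -/
def xb (d : ℤ) (l : Fin r) : G → Pt := Classical.epsilon (Bs K Q d (Pi.single l 1))

/-- The matrix of the singular parts. -/
def mat (d : ℤ) : Matrix (Fin r) (Fin r) (ZMod (2 ^ K)) :=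
  Matrix.of fun i l => (ld K (Q i)).mu (xb K Q d l (io K (Q i)))

/-- The combination of the basis with coefficients `u`. -/
def xu (u : Fin r → ZMod 2) (d : ℤ) : G → Pt := ∑ l, (u l).val • xb K Q d l

/-- The primes at which the Kummer condition is used. -/
def Bad (d : ℤ) (v : ℕ) : Prop := v = 2 ∨ v = 11 ∨ (v : ℤ) ∣ d ∧ nr v ≠ 0

/-- Characters that vanish at the bad primes, at `Q` and at infinity, and are ramified only at
inert primes. -/
structure Ch (d : ℤ) (χ : G → ZMod 2) : Prop where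
  fn : Fn χ
  mul : ∀ σ τ, χ (σ * τ) = χ σ + χ τ
  bad : ∀ (v : ℕ) O σ, v.Prime → Bad d v ∨ v ∈ qs Q → Ov O v → Wl O v σ → χ σ = 0
  inf : χ cj = 0
  unr : ∀ (v : ℕ) O σ, v.Prime → nr v ≠ 0 → Ov O v → Frob O 1 σ → χ σ = 0

end Sel

section Cube

variable {ι : Type} [Fintype ι] [DecidableEq ι]

/-- The characters of a cube. -/
def psi (π π' : ι → ℕ) (i : ι) : G → ZMod 2 := ps (pst (π i) * pst (π' i))

/-- The action on vectors of points of order two. -/
def act (ψ : ι → G → ZMod 2) (σ : G) (w : Finset ι → Pt) : Finset ι → Pt :=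
  fun S => ∑ R ∈ S.powerset, (∏ i ∈ S \ R, ψ i σ).val • σ • w R

/-- The pairing. -/
def pr (w w' : Finset ι → Pt) : ZMod 2 := ∑ S, ep (w S) (w' Sᶜ)

/-- The cup product. -/
def bb (ψ : ι → G → ZMod 2) (X Y : G → Finset ι → Pt) (σ τ : G) : ZMod 2 :=
  pr (X σ) (act ψ σ (Y τ))

/-- The normalised alternating sums. -/
def ph (K : ℕ) (x : ℤ → G → Pt) (d : ℤ) (π π' : ι → ℕ) (σ : G) (S : Finset ι) : Pt :=
  2 ^ (K - 1 - S.card) • df x d π π' S σ

/-- The normalised differences of alternating sums. -/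
def gm (K : ℕ) (x : ℤ → G → Pt) (d d' : ℤ) (π π' : ι → ℕ) (σ : G) (S : Finset ι) : Pt :=
  2 ^ (K - 2 - S.card) • (df x d π π' S σ - df x d' π π' S σ)

/-- The components without `a`. -/
def rs (a : ι) (X : G → Finset ι → Pt) (σ : G) (S : Finset ι) : Pt := if a ∈ S then 0 else X σ S

/-- Additive characters. -/
def Hom (ψ : ι → G → ZMod 2) : Prop := ∀ i σ τ, ψ i (σ * τ) = ψ i σ + ψ i τ

variable (K : ℕ) {r : ℕ} (Q : Fin r → ℕ)

/-- The local conditions of a vector of cochains. -/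
structure Lo (d : ℤ) (X : G → Finset ι → Pt) : Prop where
  two : ∀ σ, 2 • X σ = 0
  fn : Fn X
  kl : ∀ (v : ℕ) O S, v.Prime → Bad d v → Ov O v → Kl d O v fun σ => X σ S
  un : ∀ (v : ℕ) O σ, v.Prime → ¬ Bad d v → v ∉ qs Q → nr v ≠ 0 → Ov O v → Frob O 1 σ → X σ = 0

/-- The cocycle of a cube, with finite parts `u`. -/
structure Hd (d : ℤ) (ψ : ι → G → ZMod 2) (u : Fin r → ZMod 2) (X : G → Finset ι → Pt) :
    Prop extends Lo Q d X where
  mul : ∀ σ τ, X (σ * τ) = X σ + act ψ σ (X τ)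
  fin : ∀ i S, nz (X (ff K (Q i)) S) = if S = ∅ then u i else 0

/-- The next component. -/
structure Gd (d : ℤ) (ψ : ι → G → ZMod 2) (χ : G → ZMod 2) (X Γ : G → Finset ι → Pt) :
    Prop extends Lo Q d Γ where
  mul : ∀ σ τ, Γ (σ * τ) = Γ σ + act ψ σ (Γ τ) + (χ σ).val • act ψ σ (X τ)
  fin : ∀ i, Γ (ff K (Q i)) = 0

/-- The singular parts of the top component. -/
def sb (X : G → Finset ι → Pt) (i : Fin r) : ZMod 2 := nz (X (io K (Q i)) Finset.univ)

/-- The normalisation of the splitting at the places `P v`. -/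
structure Nz (d : ℤ) (P : ℕ → ValuationSubring ℂ) (ψ : ι → G → ZMod 2)
    (X Y : G → Finset ι → Pt) (η : G → ZMod 2) : Prop where
  sg : Sg (bb ψ X Y) η
  un : ∀ (v : ℕ) σ, v.Prime → ¬ Bad d v → v ∉ qs Q → nr v ≠ 0 → Frob (P v) 1 σ → η σ = 0
  t3 : ∀ (v : ℕ) (w : Finset ι → Pt) σ, T3 v → 2 • w = 0 →
    (∀ τ, Wl (P v) v τ → Y τ = act ψ τ w - w) → Frob (P v) 1 σ → η σ = pr (X σ) (act ψ σ w)

end Cube

end Pool.Agent.Lib.MP_d6ddbd_nt.GA
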