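import Pool.Agent.Lib.MP_d6ddbd_nt.GA.Stmt
import Pool.Agent.Lib.MP_d6ddbd_nt.KI.AllX

/-!
Selmer groups of the quadratic twists of `X₀(11)` on cubes of primes: the normalised splitting.
-/

set_option autoImplicit false

open NumberField
open Pool.Agent.Lib.MP_d6ddbd_nt.K11 Pool.Agent.Lib.MP_d6ddbd_nt.KI
open Pool.Agent.Lib.MP_d6ddbd_nt.GF (pst)

noncomputable section

namespace Pool.Agent.Lib.MP_d6ddbd_nt.GA

namespace Eta

theorem z2 (a : ZMod 2) : a + a = 0 := by revert a; decide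

/-- An additive character of inertia is a multiple of the ramified quadratic character. -/
theorem tame {v : ℕ} {O : ValuationSubring ℂ} (hv : v.Prime) (h2 : v ≠ 2) (hO : Ov O v)
    (e : G → ZMod 2) (ha : ∀ σ τ, Frob O 1 σ → Frob O 1 τ → e (σ * τ) = e σ + e τ)
    (hf : FnOn (Frob O 1) e) :
    ∃ σ₀, Frob O 1 σ₀ ∧ ∀ σ, Frob O 1 σ → e σ = e σ₀ * ps (pst v) σ := by
  obtain ⟨σ₀, h0, h1⟩ := ex_ine_pst hv hO
  refine ⟨σ₀, h0, fun σ hσ => ?_⟩
  have hp : ps (pst v) σ₀ = 1 := ps_one.2 (cq_eq_neg.2 h1)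
  obtain ⟨n, hn⟩ := le_thm (ZMod 2) 1 v O (pst v) σ₀ (fun σ => e σ + e σ₀ * ps (pst v) σ) hv h2 hO
    h0 h1 (fun σ _ => by rw [pow_one, two_smul, z2])
    (fun σ τ hσ hτ => by rw [ha σ τ hσ hτ, ps_mul]; ring)
    (hf.map₂ ((fn_ps (pst v)).on _) fun a b => a + e σ₀ * b) σ hσ
  rw [hp, mul_one, z2, smul_zero] at hn
  have := z2 (e σ₀ * ps (pst v) σ)
  linear_combination hn - this

theorem ps_far {v l : ℕ} {O : ValuationSubring ℂ} {σ : G} (hv : v.Prime) (h2 : v ≠ 2) (hO : Ov O v)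
    (hl : l.Prime) (hne : l ≠ v) (hσ : Frob O 1 σ) : ps (pst l) σ = 0 := by
  refine ps_zero.2 (cq_ine hv h2 hO (fun h => hne ?_) hσ)
  have h1 : (v : ℤ) ∣ (l : ℤ) := by
    unfold GF.pst at h
    rcases neg_one_pow_eq_or ℤ (l / 2) with e | e
    · simpa [e] using h
    · simpa [e] using h
  exact ((Nat.prime_dvd_prime_iff_eq hv hl).1 (Int.natCast_dvd_natCast.1 h1)).symm

theorem fn_sum (S : Finset ℕ) (f : ℕ → G → ZMod 2) (h : ∀ l, Fn (f l)) :
    Fn fun σ => ∑ l ∈ S, f l σ := by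
  induction S using Finset.induction_on with
  | empty => simpa using fn_const (0 : ZMod 2)
  | insert a S ha ih =>
    simp only [Finset.sum_insert ha]
    exact (h a).map₂ ih (· + ·)

theorem pr_zero {ι : Type} [Fintype ι] [DecidableEq ι] (w : Finset ι → Pt) : pr 0 w = 0 := by
  simp [pr, ep]

theorem neg_two {ι : Type} {w : Finset ι → Pt} (h : 2 • w = 0) : -w = w := by
  rw [two_smul] at h
  exact neg_eq_of_add_eq_zero_left h

end Eta

open Eta in
theorem eta_thm (hR : RecNStmt) (_hU : UnStmt) (hA : ActStmt) (h3 : N3Stmt) (hB : BspStmt)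
    (hL : LdStmt) : EtaStmt := by
  intro K r Q d ι _ _ ψ u y X Y P hK hV hψ hX hY hP h0
  classical
  obtain ⟨b1, b2, b3, b4, -⟩ := hB K r Q d ι ψ u y X Y hK hV hψ hX hY
  obtain ⟨η₀, hf, hη⟩ := abhn_thm _ b1 (fun v O hv hO => by
    by_cases hq : v ∈ qs Q
    · obtain ⟨i, -, rfl⟩ := Finset.mem_image.1 hq
      refine hR.1 _ _ (ld K (Q i)).O O b1 hv (hL K _ hK (hV.kg i)).pl.ov hO ?_
      have := (b4 i).trans (h0 i)
      by_contra hn
      rw [iv, if_neg hn] at this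
      exact one_ne_zero this
    · exact b3 v O hv hq hO) b2
  obtain ⟨a1, a2, a3⟩ := hA ι
  obtain ⟨a4, a5, a6, a7, -, a8⟩ := a3 ψ
  have hH : Hom ψ := fun i => (hψ i).mul
  have hψ1 : ∀ i, ψ i 1 = 0 := fun i => by
    have := hH i 1 1
    rw [mul_one] at this
    exact left_eq_add.1 this
  have hX1 : X 1 = 0 := by
    have h1 := hX.mul 1 1
    have h2 : act ψ 1 (X 1) = X 1 := funext fun S => by
      rw [a6 1 _ S fun i _ => hψ1 i, one_smul]
    rw [mul_one, h2] at h1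
    exact left_eq_add.1 h1
  have hη1 : η₀ 1 = 0 := by
    have h1 := hη 1 1
    rw [bb, hX1, pr_zero, mul_one, z2, zero_add] at h1
    exact h1.symm
  obtain ⟨J, hJ, hJ'⟩ := hf.map₂ hX.fn Prod.mk
  obtain ⟨N, hN⟩ := ram_thm J hJ
  have hbig : ∀ (v : ℕ) σ, v.Prime → N < v → Frob (P v) 1 σ → η₀ σ = 0 ∧ X σ = 0 := by
    intro v σ hv hl hσ
    have := hJ' σ 1 (hN v _ σ hv hl (hP v hv) hσ)
    exact ⟨(congrArg Prod.fst this).trans hη1, (congrArg Prod.snd this).trans hX1⟩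
  have key : ∀ v : ℕ, ∃ a : ZMod 2, v.Prime → ¬ Bad d v → v ∉ qs Q → (N < v → a = 0) ∧
      (nr v ≠ 0 → ∀ σ, Frob (P v) 1 σ → η₀ σ = a * ps (pst v) σ) ∧
      (nr v = 0 → ∀ w : Finset ι → Pt, 2 • w = 0 →
        (∀ τ, Wl (P v) v τ → Y τ = act ψ τ w - w) → ∀ σ, Frob (P v) 1 σ →
        η₀ σ + pr (X σ) (act ψ σ w) = a * ps (pst v) σ) := by
    intro v
    by_cases hg : v.Prime ∧ ¬ Bad d v ∧ v ∉ qs Q
    swap
    · exact ⟨0, fun h1 h2 h3 => absurd ⟨h1, h2, h3⟩ hg⟩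
    obtain ⟨hv, hb, hq⟩ := hg
    have h2 : v ≠ 2 := fun e => hb (Or.inl e)
    have h11 : v ≠ 11 := fun e => hb (Or.inr (Or.inl e))
    have hO := hP v hv
    by_cases hn : nr v = 0
    · by_cases hw : ∃ w : Finset ι → Pt, 2 • w = 0 ∧ ∀ τ, Wl (P v) v τ → Y τ = act ψ τ w - w
      swap
      · exact ⟨0, fun _ _ _ => ⟨fun _ => rfl, fun h => absurd hn h,
          fun _ w w1 w2 => absurd ⟨w, w1, w2⟩ hw⟩⟩
      obtain ⟨w, w1, w2⟩ := hw
      have hact : ∀ τ, Frob (P v) 1 τ → act ψ τ w = Y τ + w := fun τ hτ => by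
        rw [w2 τ (wl_ine v hτ), sub_add_cancel]
      obtain ⟨σ₀, s1, s2⟩ := tame hv h2 hO (fun σ => η₀ σ + pr (X σ) (Y σ + w))
        (fun σ τ hσ hτ => by
          have e1 := hη σ τ
          have t1 : 2 • act ψ τ w = 0 := a5 τ w w1
          have t2 : 2 • act ψ σ (act ψ τ w) = 0 := a5 σ _ t1
          have t3 : 2 • act ψ σ w = 0 := a5 σ w w1
          rw [bb, w2 τ (wl_ine v hτ), sub_eq_add_neg, neg_two w1, a4, a1, a2 _ _ _ t2 t3 (hX.two σ),
            a1 _ (X σ), a1 _ (X σ)] at e1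
          rw [← hact _ (ine_mul hσ hτ), ← hact σ hσ, ← hact τ hτ, hX.mul, a8 hH σ τ w w1,
            a2 _ _ _ (hX.two σ) (a5 σ _ (hX.two τ)) t2, a7 σ _ _ (hX.two τ) t1]
          have z := z2 (η₀ (σ * τ))
          have z' := z2 (pr (X σ) (act ψ σ w))
          linear_combination e1 + z - z')
        (((hf.map₂ (hX.fn.map₂ hY.fn fun a b => pr a (b + w)) (· + ·))).on _)
      refine ⟨η₀ σ₀ + pr (X σ₀) (Y σ₀ + w), fun _ _ _ =>
        ⟨fun hl => ?_, fun h => absurd hn h, fun _ w' v1 v2 σ hσ => ?_⟩⟩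
      · obtain ⟨c1, c2⟩ := hbig v σ₀ hv hl s1
        rw [c1, c2, pr_zero, add_zero]
      · obtain ⟨φ, hφ⟩ := ex_frob hv hO
        have hc : Cy3 φ := ((rA.2 v _ hv h2 h11 hO).2.2.2.2.2.2.2 φ hφ).2.2.1 hn
        have hs : 2 • (w' + w) = 0 := by rw [nsmul_add, v1, w1, add_zero]
        have hz : w' + w = 0 := funext fun S =>
          ((h3 ι ψ).1 φ (w' + w) hc hs).1 Finset.univ (fun S _ => by
            have f1 := w2 φ (wl_frob hφ)
            have f2 := v2 φ (wl_frob hφ)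
            have f3 : act ψ φ (w' + w) = w' + w := by
              rw [a4, ← sub_add_cancel (act ψ φ w') w', ← sub_add_cancel (act ψ φ w) w, ← f1, ← f2,
                add_add_add_comm, ← two_smul ℕ, hY.two, zero_add]
            rw [f3]) S (Finset.subset_univ S)
        have hw' : w' = w := by rw [eq_neg_of_add_eq_zero_left hz, neg_two w1]
        rw [hw', hact σ hσ]
        exact s2 σ hσ
    · obtain ⟨σ₀, s1, s2⟩ := tame hv h2 hO η₀
        (fun σ τ hσ _ => by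
          have e1 := hη σ τ
          rw [bb, hX.un v _ σ hv hb hq hn hO hσ, pr_zero] at e1
          have z := z2 (η₀ (σ * τ))
          linear_combination e1 + z)
        (hf.on _)
      exact ⟨η₀ σ₀, fun _ _ _ => ⟨fun hl => (hbig v σ₀ hv hl s1).1, fun _ => s2,
        fun h => absurd h hn⟩⟩
  choose a ha using key
  let S : Finset ℕ := (Finset.range (N + 1)).filter fun v => v.Prime ∧ ¬ Bad d v ∧ v ∉ qs Q
  have hS : ∀ (v : ℕ) σ, v.Prime → ¬ Bad d v → v ∉ qs Q → Frob (P v) 1 σ →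
      ∑ l ∈ S, a l * ps (pst l) σ = a v * ps (pst v) σ := by
    intro v σ hv hb hq hσ
    refine Finset.sum_eq_single v (fun l hl hne => ?_) fun hn => ?_
    · rw [ps_far hv (fun e => hb (Or.inl e)) (hP v hv) (Finset.mem_filter.1 hl).2.1 hne hσ, mul_zero]
    · rw [(ha v hv hb hq).1, zero_mul]
      by_contra hle
      exact hn (Finset.mem_filter.2 ⟨Finset.mem_range.2 (by omega), hv, hb, hq⟩)
  refine ⟨fun σ => η₀ σ + ∑ l ∈ S, a l * ps (pst l) σ, ⟨?_, fun σ τ => ?_⟩, ?_, ?_⟩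
  · exact hf.map₂ (fn_sum S (fun l σ => a l * ps (pst l) σ)
      fun l => (fn_ps _).map (a l * ·)) (· + ·)
  · have e1 : ∑ l ∈ S, a l * ps (pst l) (σ * τ) =
        ∑ l ∈ S, a l * ps (pst l) σ + ∑ l ∈ S, a l * ps (pst l) τ := by
      rw [← Finset.sum_add_distrib]
      exact Finset.sum_congr rfl fun l _ => by rw [ps_mul, mul_add]
    have z := z2 (∑ l ∈ S, a l * ps (pst l) σ)
    have z' := z2 (∑ l ∈ S, a l * ps (pst l) τ)
    beta_reduce
    rw [hη, e1]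
    linear_combination -z - z'
  · intro v σ hv hb hq hn hσ
    rw [hS v σ hv hb hq hσ, (ha v hv hb hq).2.1 hn σ hσ, z2]
  · intro v w σ ht w1 w2 hσ
    have hb : ¬ Bad d v := by
      rintro (e | e | e)
      exacts [ht.n2 e, ht.n11 e, e.2 ht.ty]
    have hq : v ∉ qs Q := by
      intro hq
      obtain ⟨i, -, rfl⟩ := Finset.mem_image.1 hq
      have := (hV.kg i).ty
      rw [ht.ty] at this
      exact zero_ne_one this
    rw [hS v σ ht.pr hb hq hσ, ← (ha v ht.pr hb hq).2.2 ht.ty w w1 w2 σ hσ, ← add_assoc, z2, zero_add]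

end Pool.Agent.Lib.MP_d6ddbd_nt.GA
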