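import Pool.Agent.Lib.MP_d6ddbd_nt.GA.Defs

/-!
Selmer groups of the quadratic twists of `X₀(11)` on cubes of primes: the statements that the
counting argument uses.
-/

set_option autoImplicit false

open NumberField Matrix
open Pool.Agent.Lib.MP_d6ddbd_nt.K11 Pool.Agent.Lib.MP_d6ddbd_nt.KI
open Pool.Agent.Lib.MP_d6ddbd_nt.GF (pst)

noncomputable section

namespace Pool.Agent.Lib.MP_d6ddbd_nt.GA

/-- Primes whose Frobenius element is close to complex conjugation are auxiliary primes. -/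
def KgStmt : Prop := ∀ K : ℕ, ∃ J : Finset ℂ, Al J ∧ ∀ (q : ℕ) O (φ : G), q.Prime → q ≠ 2 →
  q ≠ 11 → Ov O q → Frob O q φ → Ag J φ cj → Kg K q

/-- A sufficient condition for two primes to have the same class. -/
def SimStmt : Prop := ∀ (M : ℤ) (p p' : ℕ), Odd p → Odd p' →
  jacobiSym (-1) p = jacobiSym (-1) p' → jacobiSym 2 p = jacobiSym 2 p' →
  (∀ l : ℕ, l.Prime → l ≠ 2 → (l : ℤ) ∣ M → jacobiSym l p = jacobiSym l p') → Sim M p p'

/-- The choice of the auxiliary primes in a set that separates the Selmer classes. -/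
def ValStmt : Prop := ∃ C : ℕ, ∀ (L : Type) [Field L] [NumberField L] (θ : L), Cub θ →
  ∀ (K : ℕ) (d : ℤ) (S : Finset ℕ), K ≠ 0 → Fam d →
    (∀ α : L, Wc d ∅ α → (∀ 𝔭 ∈ D1 L d, bv θ d 𝔭 α = 0) → ¬ IsSquare α →
      ∃ q ∈ S, Kg K q ∧ ¬ (q : ℤ) ∣ d ∧ fv q α = 1) →
    ∃ (r : ℕ) (Q : Fin r → ℕ), r ≤ 2 * d.natAbs.primeFactors.card + C ∧ (∀ i, Q i ∈ S) ∧ Val K Q d

/-- Validity does not change when inert primes move in their classes. -/
def InvStmt : Prop := ∀ (K r : ℕ) (Q : Fin r → ℕ) (d : ℤ) (ι : Type) [Fintype ι] (π π' : ι → ℕ),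
  Val K Q (dd d π) → Squarefree (dd d π') →
  (∀ i, T3 (π i) ∧ T3 (π' i) ∧ Sim (11 * d) (π i) (π' i)) → Val K Q (dd d π')

/-- If the bound fails, the matrix has two kernel vectors that are independent modulo two. -/
def KerStmt : Prop := ∀ (K r : ℕ) (Q : Fin r → ℕ) (d : ℤ), 2 ≤ K → Val K Q d →
  2 ^ (K - 1) • mat K Q d = 0 ∧ (¬ Bd d → ∃ u u' : Fin r → ZMod (2 ^ K),
    mat K Q d *ᵥ u = 0 ∧ mat K Q d *ᵥ u' = 0 ∧ Ind (bit 0 ∘ u) (bit 0 ∘ u'))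

/-- Divisibility of the alternating sums of the matrices. -/
def DvStmt : Prop := ∀ (K r : ℕ) (Q : Fin r → ℕ) (d : ℤ) (n : ℕ) (P : Fin n → Finset ℕ)
  (π π' : Fin n → ℕ) (J : Finset (Fin n)), 2 ≤ K → Cell K Q d P → (∀ i, π i ∈ P i) →
  (∀ i, π' i ∈ P i) → 2 ^ (K - J.card) • df (mat K Q) d π π' J = 0

/-- The leading term of the alternating sum. -/
def CubeStmt : Prop := ∀ (K r : ℕ) (Q : Fin r → ℕ) (d : ℤ) (n : ℕ) (P : Fin n → Finset ℕ)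
  (π π' : Fin n → ℕ) (J : Finset (Fin n)) (a b : Fin n) (u y : Fin r → ZMod (2 ^ K)),
  Cell K Q d P → (∀ i, π i ∈ P i) → (∀ i, π' i ∈ P i) → a ∈ J → b ∈ J → a ≠ b → J.card < K →
  (∀ i ∈ J, i ≠ a → i ≠ b → π i ≠ π' i) → Ind (bit 0 ∘ u) (bit 0 ∘ y) →
  ∃ (U : Subgroup G) (σ : ℕ → G), Op (16 ^ 2 ^ n) (mz d Q π π') U ∧
    (∀ p ∈ P b, ¬ p ∣ mz d Q π π' → σ p ∈ U ∧ ∃ O, Ov O p ∧ Frob O p (σ p)) ∧
    ∀ l ∈ P a, ¬ l ∣ mz d Q π π' →
      (∀ i, 2 ^ (K - J.card) •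
        (y i * (df (mat K Q) d π (Function.update π' a l) (J.erase b) *ᵥ u) i +
          (y ᵥ* df (mat K Q) d π (Function.update π' a l) (J.erase b)) i * u i) = 0) →
      ∃ η : G → ZMod 2, GG.Chr U (mz d Q π π') l η ∧
        ∀ p ∈ P b, ∀ p' ∈ P b, ¬ p ∣ mz d Q π π' → ¬ p' ∣ mz d Q π π' →
          2 ^ (K - J.card - 1) • (y ⬝ᵥ df (mat K Q) d (Function.update π b p)
              (Function.update (Function.update π' a l) b p') J *ᵥ u) =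
            2 ^ (K - 1) * ((η (σ p) + η (σ p')).val : ZMod (2 ^ K))

/-- The interface. -/
def IStmt : Prop := KgStmt ∧ SimStmt ∧ ValStmt ∧ InvStmt ∧ KerStmt ∧ DvStmt ∧ CubeStmt

end Pool.Agent.Lib.MP_d6ddbd_nt.GA
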