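import Pool.Agent.Lib.MP_d6ddbd_nt.GA.Stmt
import Pool.Agent.Lib.MP_d6ddbd_nt.KI.Bas

/-!
One more direction in a cube.
-/

set_option autoImplicit false

open Finset
open Pool.Agent.Lib.MP_d6ddbd_nt.K11 Pool.Agent.Lib.MP_d6ddbd_nt.KI
open Pool.Agent.Lib.MP_d6ddbd_nt.GF (pst)

noncomputable section

namespace Pool.Agent.Lib.MP_d6ddbd_nt.GA

namespace Opt

variable {ι : Type} [DecidableEq ι]

/-- A face that does not contain the new direction. -/
def lw (S : Finset ι) : Finset (Option ι) := S.map Function.Embedding.some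

/-- A face that contains the new direction. -/
def up (S : Finset ι) : Finset (Option ι) := insert none (lw S)

omit [DecidableEq ι] in
theorem nm (S : Finset ι) : none ∉ lw S := by simp [lw]

omit [DecidableEq ι] in
theorem card_lw (S : Finset ι) : (lw S).card = S.card := card_map _

theorem card_up (S : Finset ι) : (up S).card = S.card + 1 := by
  rw [up, card_insert_of_notMem (nm S), card_lw]

omit [DecidableEq ι] in
theorem sum_lw {M : Type} [AddCommMonoid M] (S : Finset ι) (F : Finset (Option ι) → M) :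
    ∑ t ∈ (lw S).powerset, F t = ∑ R ∈ S.powerset, F (lw R) := by
  refine (sum_bij (fun R _ => lw R) ?_ ?_ ?_ fun _ _ => rfl).symm
  · exact fun R hR => mem_powerset.2 (map_subset_map.2 (mem_powerset.1 hR))
  · exact fun R _ R' _ h => map_injective _ h
  · intro t ht
    obtain ⟨R, h1, rfl⟩ := subset_map_iff.1 (mem_powerset.1 ht)
    exact ⟨R, mem_powerset.2 h1, rfl⟩

theorem sum_up {M : Type} [AddCommMonoid M] (S : Finset ι) (F : Finset (Option ι) → M) :
    ∑ t ∈ (up S).powerset, F t = ∑ R ∈ S.powerset, F (lw R) + ∑ R ∈ S.powerset, F (up R) := by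
  rw [up, sum_powerset_insert (nm S), sum_lw, sum_lw]
  rfl

variable [Fintype ι]

theorem vx_opt (d : ℤ) (π π' : ι → ℕ) (p p' : ℕ) (t : Finset (Option ι)) :
    vx d (fun o => o.elim p π) (fun o => o.elim p' π') t =
      vx (d * pst (if none ∈ t then p' else p)) π π' (eraseNone t) := by
  simp only [vx, Fintype.prod_option, Option.elim, mem_eraseNone, mul_assoc]

theorem df_lw {M : Type} [AddCommGroup M] (x : ℤ → M) (d : ℤ) (π π' : ι → ℕ) (p p' : ℕ)
    (S : Finset ι) :
    df x d (fun o => o.elim p π) (fun o => o.elim p' π') (lw S) = df x (d * pst p) π π' S := by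
  rw [df, sum_lw]
  refine sum_congr rfl fun R _ => ?_
  rw [vx_opt, if_neg (nm R), card_lw, lw, eraseNone_map_some]

theorem df_up {M : Type} [AddCommGroup M] (x : ℤ → M) (d : ℤ) (π π' : ι → ℕ) (p p' : ℕ)
    (S : Finset ι) :
    df x d (fun o => o.elim p π) (fun o => o.elim p' π') (up S) =
      df x (d * pst p) π π' S - df x (d * pst p') π π' S := by
  rw [df, sum_up, ← df_lw x d π π' p p', df, sum_lw, sub_eq_add_neg, df, ← sum_neg_distrib]
  refine congrArg _ (sum_congr rfl fun R _ => ?_)
  have e : eraseNone (up R) = R := by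
    ext i
    simp [up, lw]
  rw [vx_opt, if_pos (show none ∈ up R from mem_insert_self _ _), card_up, e, pow_succ,
    mul_neg_one, neg_smul]

omit [Fintype ι] in
theorem act_up (ψ : Option ι → G → ZMod 2) (σ : G) (w : Finset (Option ι) → Pt) (S : Finset ι) :
    act ψ σ w (up S) = act (fun i => ψ (some i)) σ (fun R => w (up R)) S +
      (ψ none σ).val • act (fun i => ψ (some i)) σ (fun R => w (lw R)) S := by
  have v : ∀ a b : ZMod 2, (a * b).val = a.val * b.val := by decide
  rw [act, sum_up, add_comm, act, act, smul_sum]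
  congr 1 <;> refine sum_congr rfl fun R _ => ?_
  · have e : up S \ up R = lw (S \ R) := by
      ext (_ | i) <;> simp [up, lw]
    rw [e, lw, prod_map]
    rfl
  · have e : up S \ lw R = up (S \ R) := by
      ext (_ | i) <;> simp [up, lw]
    rw [e, up, prod_insert (nm _), lw, prod_map, v, mul_smul]
    rfl

end Opt

open Opt in
theorem opt_thm (_hL : LdStmt) (_hS : SqStmt) (_hU : UnStmt) (_hB : BasStmt) (_hM : MobStmt)
    (hD : DivStmt) : OptStmt := by
  intro K r Q d ι _ _ π π' p p' hK hp hp' hs hC hC'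
  have hc : Cu K Q d (fun o : Option ι => o.elim p π) fun o => o.elim p' π' := by
    refine ⟨fun t => ?_, ?_, ?_⟩
    · rw [vx_opt]
      split_ifs
      exacts [hC'.val _, hC.val _]
    · rintro (_ | i)
      exacts [⟨hp, hp'⟩, hC.t3 i]
    · rintro (_ | i)
      · exact hs
      · refine ⟨(hC.sim i).1, fun l h1 h2 h3 => (hC.sim i).2 l h1 h2 (h3.trans ⟨pst p, ?_⟩)⟩
        unfold md
        ring
  obtain ⟨-, h2, h3⟩ := hD K r Q d (Option ι) _ _ (by omega) hc
  refine ⟨fun l S => ?_, fun u => ?_⟩
  · have := h2 l (up S)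
    rwa [df_up, card_up, add_comm, ← Nat.sub_sub] at this
  have H := h3 u (by rwa [Fintype.card_option])
  have e0 : dd d (fun o : Option ι => o.elim p π) = dd (d * pst p) π := by
    simp only [dd, Fintype.prod_option, Option.elim, mul_assoc]
  rw [e0] at H
  generalize hX : ph K (xu K Q u) d (fun o : Option ι => o.elim p π) (fun o => o.elim p' π') = X
    at H
  have e1 : ∀ σ S, ph K (xu K Q u) (d * pst p) π π' σ S = X σ (lw S) := fun σ S => by
    rw [← hX, ph, ph, df_lw, card_lw]
  have e2 : ∀ σ S, gm K (xu K Q u) (d * pst p) (d * pst p') π π' σ S = X σ (up S) := fun σ S => by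
    rw [← hX, ph, gm, df_up, card_up, Pi.sub_apply]
    congr 2
    omega
  refine ⟨funext fun σ => funext fun S => ?_, ?_⟩
  · have h4 : 2 • X σ (up S) = 0 := congrFun (H.two σ) _
    have h5 := card_le_univ S
    rw [← e2, gm, ← mul_smul, ← pow_succ', show K - 2 - S.card + 1 = K - 1 - S.card by omega,
      nsmul_sub, sub_eq_zero] at h4
    exact h4
  rw [funext fun σ => funext (e1 σ), funext fun σ => funext (e2 σ)]
  refine ⟨⟨fun σ => funext fun S => congrFun (H.two σ) _, H.fn.map fun w S => w (up S),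
    fun v O S => H.kl v O (up S), fun v O σ a b c e f g => ?_⟩, fun σ τ => funext fun S => ?_,
    fun i => funext fun S => ?_⟩
  · rw [H.un v O σ a b c e f g]
    rfl
  · rw [H.mul, Pi.add_apply, act_up, ← add_assoc]
    rfl
  · have := H.fin i (up S)
    rw [if_neg (show up S ≠ ∅ from insert_ne_empty _ _), nz] at this
    exact not_not.1 fun h => one_ne_zero ((if_neg h).symm.trans this)

end Pool.Agent.Lib.MP_d6ddbd_nt.GA
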