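import Pool.Agent.Lib.MP_d6ddbd_nt.GA.Iface

/-!
Selmer groups of the quadratic twists of `X₀(11)` on cubes of primes: the statements of the blocks.
-/

set_option autoImplicit false

open NumberField Matrix
open Pool.Agent.Lib.MP_d6ddbd_nt.K11 Pool.Agent.Lib.MP_d6ddbd_nt.KI
open Pool.Agent.Lib.MP_d6ddbd_nt.GF (pst)

noncomputable section

namespace Pool.Agent.Lib.MP_d6ddbd_nt.GA

/-! ### Local statements -/

/-- Normalised cocycles. -/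
def NormStmt : Prop := Cy3 w3 ∧
  (∀ (φ : G) (η : ℤ) (k : ℕ) (T : Pt), Cy3 φ → (η = 1 ∨ η = -1) → 2 ^ k • T = 0 →
    (η • φ • T = T → T = 0) ∧ ∃ S : Pt, 2 ^ k • S = 0 ∧ η • φ • S - S = T) ∧
  (∀ c k x, Cy c k x → Cb c x → x w3 = 0 → x = 0) ∧
  ∀ c k n x, Rel c k n x → ∃ S : Pt, 2 ^ k • S = 0 ∧
    Rel c k n (x - fun σ => tw c σ S - S) ∧ (x - fun σ => tw c σ S - S) w3 = 0

/-- Local cocycles at an inert prime are coboundaries. -/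
def T3Stmt : Prop := ∀ (c : ℤ) (k v : ℕ) O x, T3 v → Ov O v → Lc c k O v x →
  ∃ S : Pt, 2 ^ k • S = 0 ∧ ∀ σ, Wl O v σ → x σ = tw c σ S - S

/-- The choices at an auxiliary prime exist. -/
def LdStmt : Prop := ∀ K q : ℕ, K ≠ 0 → Kg K q → (ld K q).Ok q

/-- Reciprocity. -/
def RecNStmt : Prop :=
  (∀ (c : G → G → ZMod 2) (v : ℕ) O O', C2 c → v.Prime → Ov O v → Ov O' v → Sp O v c →
    Sp O' v c) ∧
  ∀ (c : G → G → ZMod 2) (S : Finset ℕ) (P : ℕ → ValuationSubring ℂ), C2 c → c cj cj = c 1 1 →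
    (∀ v : ℕ, v.Prime → Ov (P v) v) → (∀ v ∈ S, v.Prime) →
    (∀ v : ℕ, v.Prime → v ∉ S → Sp (P v) v c) → ∑ v ∈ S, iv (P v) v c = 0

/-- The local pairing at a prime of type one. -/
def LqStmt : Prop := ∀ (q : ℕ) O (f i : G), Pl1 q O f i →
  (∀ x, Lc 1 1 O q x → f • x i = x i ∧ f • x (f * f) = x (f * f) ∧
    (x i = 0 → ∀ σ, Frob O 1 σ → x σ = 0)) ∧
  (∀ T T' : Pt, 2 • T = 0 → 2 • T' = 0 → f • T = T → f • T' = T' → T = 0 ∨ T' = 0 ∨ T = T') ∧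
  ∀ (κ : Type) [Fintype κ] (x y : κ → G → Pt) (c : G → G → ZMod 2),
    (∀ j, Lc 1 1 O q (x j) ∧ Lc 1 1 O q (y j)) →
    (∀ σ τ, Wl O q σ → Wl O q τ → c σ τ = ∑ j, cup (x j) (y j) σ τ) →
    iv O q c = ∑ j, (nz (x j (f * f)) * nz (y j i) + nz (x j i) * nz (y j (f * f)))

/-- The characters attached to two inert primes of the same class. -/
def SqStmt : Prop := nr 11 ≠ 0 ∧ ∀ p p' : ℕ, T3 p → T3 p' →
  (∀ (v : ℕ) O (σ : G), v.Prime → v ≠ p → v ≠ p' → Ov O v → Frob O 1 σ →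
    ps (pst p * pst p') σ = 0) ∧
  (p ≠ p' → ∀ O, Ov O p → ∃ σ, Frob O 1 σ ∧ ps (pst p * pst p') σ = 1) ∧
  (∀ M : ℤ, Sim M p p' → ps (pst p * pst p') cj = 0 ∧
    ∀ (v : ℕ) O (σ : G), v.Prime → v = 2 ∨ (v : ℤ) ∣ M ∧ nr v ≠ 0 → Ov O v → Wl O v σ →
      ps (pst p * pst p') σ = 0) ∧
  ∀ (K r : ℕ) (Q : Fin r → ℕ) (d d' : ℤ), (∀ i, Kg K (Q i)) → Sim (md d Q) p p' →
    (∀ v : ℕ, v.Prime → (v : ℤ) ∣ d' → nr v ≠ 0 → (v : ℤ) ∣ d) → Ch Q d' (ps (pst p * pst p'))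

/-- Local lifting at an auxiliary prime. -/
def LocStmt : Prop := ∀ (c : ℤ) (K k q : ℕ) O (f i : G) x, Pl1 q O f i → 2 ^ K ∣ q + 1 →
  (∀ T : Pt, 2 ^ K • T = 0 → f • f • T = T) → ¬ (q : ℤ) ∣ c → k < K → Cy c k x →
  ∃ x' : G → Pt, FnOn (Dc O) x' ∧ (∀ σ, Dc O σ → 2 • x' σ = x σ) ∧
    ∀ σ τ, Dc O σ → Dc O τ → x' (σ * τ) = x' σ + tw c σ (x' τ)

/-! ### The basis -/

/-- Injectivity of the finite parts. -/
def InjStmt : Prop := ∀ (K r : ℕ) (Q : Fin r → ℕ) (d : ℤ), K ≠ 0 → Val K Q d →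
  Function.Injective Q ∧
  (∀ x, Rel d 1 (qs Q) x → (∀ i, x (ff K (Q i)) = 0) → Cb d x) ∧
  ∀ k x, Rel d k (qs Q) x → x w3 = 0 → (∀ i, x (ff K (Q i)) = 0) → x = 0

/-- The dual Selmer group vanishes. -/
def Ds (c : ℤ) (n : Finset ℕ) : Prop := ∀ (y : G → Pt) (P : ℕ → ValuationSubring ℂ), Coc y →
  (∀ v : ℕ, v.Prime → Ov (P v) v) →
  (∀ (v : ℕ) x, v.Prime → Coc x → v ∈ n ∨ (v : ℤ) ∣ 22 * c ∧ Kl c (P v) v x →
    Sp (P v) v (cup y x)) →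
  (∀ (v : ℕ) (σ : G), v.Prime → ¬ (v : ℤ) ∣ 22 * c → v ∉ n → Frob (P v) 1 σ → y σ = 0) → Cob y

/-- A class of level one is detected by the primes of type one. -/
def DetStmt : Prop := ∀ (y : G → Pt) (N : ℕ), Coc y → ¬ Cob y → ∃ p : ℕ, N < p ∧ p.Prime ∧
  nr p = 1 ∧ ∀ O (φ : G), Ov O p → Frob O p φ → y (φ * φ) ≠ 0

def DsStmt : Prop := ∀ (K r : ℕ) (Q : Fin r → ℕ) (d : ℤ), K ≠ 0 → Val K Q d → Ds d (qs Q)

/-- Continuous two-cocycles with values in the points of order two. -/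
structure Z2 (ξ : G → G → Pt) : Prop where
  two : ∀ σ τ, 2 • ξ σ τ = 0
  fn : ∃ J : Finset ℂ, Al J ∧ ∀ σ σ' τ τ', Ag J σ σ' → Ag J τ τ' → ξ σ τ = ξ σ' τ'
  eq : ∀ σ τ υ, σ • ξ τ υ + ξ σ (τ * υ) = ξ (σ * τ) υ + ξ σ τ

/-- A trivialisation on `D`. -/
structure Tz (D : G → Prop) (ξ : G → G → Pt) (f : G → Pt) : Prop where
  two : ∀ σ, D σ → 2 • f σ = 0
  fn : FnOn D f
  eq : ∀ σ τ, D σ → D τ → ξ σ τ = f σ + σ • f τ - f (σ * τ)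

/-- The duality of Poitou and Tate for the points of order two. -/
def PtStmt : Prop := ∀ (c : ℤ) (n : Finset ℕ) (ξ : G → G → Pt) (P : ℕ → ValuationSubring ℂ)
  (f : ℕ → G → Pt) (f' : G → Pt) (N : ℕ), c ≠ 0 → Ds c n → Z2 ξ →
  (∀ v : ℕ, v.Prime → Ov (P v) v ∧ Tz (Dc (P v)) ξ (f v)) → Tz (fun σ => σ = 1 ∨ σ = cj) ξ f' →
  (∀ (v : ℕ) (σ i : G), v.Prime → N < v → Dc (P v) σ → Frob (P v) 1 i → f v (σ * i) = f v σ) →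
  ∃ φ : G → Pt, Tz (fun _ => True) ξ φ ∧ ∀ v : ℕ, v.Prime → v ∉ n →
    ((v : ℤ) ∣ 22 * c → Kl c (P v) v (φ - f v)) ∧
    (¬ (v : ℤ) ∣ 22 * c → ∀ i, Frob (P v) 1 i → φ i = f v i)

/-- Global lifting. -/
def LiftStmt : Prop := ∀ (K k : ℕ) (n : Finset ℕ) (c : ℤ) x, c ≠ 0 → k < K →
  (∀ q ∈ n, Kg K q ∧ ¬ (q : ℤ) ∣ c) → Ds c n → Rel c k n x →
  ∃ x', Rel c (k + 1) n x' ∧ 2 • x' = x

/-- The basis exists. -/
def BasStmt : Prop := ∀ (K r : ℕ) (Q : Fin r → ℕ) (d : ℤ), K ≠ 0 → Val K Q d →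
  ∀ u, ∃ x, Bs K Q d u x

/-- The Kummer condition has to be checked at the bad primes only. -/
def RelStmt : Prop := ∀ (c' : ℤ) (k : ℕ) (n : Finset ℕ) (x : G → Pt), Cy c' k x →
  (∀ (v : ℕ) O, v.Prime → Bad c' v → Ov O v → Kl c' O v x) →
  (∀ (v : ℕ) O (σ : G), v.Prime → ¬ Bad c' v → v ∉ n → nr v ≠ 0 → Ov O v → Frob O 1 σ → x σ = 0) →
  Rel c' k n x

/-- Cocycles with the Kummer condition at a good prime are unramified. -/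
def UnStmt : Prop := ∀ (c : ℤ) (k v : ℕ) O x (σ : G), v.Prime → v ≠ 2 → v ≠ 11 → ¬ (v : ℤ) ∣ c →
  Ov O v → Frob O 1 σ → cq c σ = 1 ∧ (∀ T : Pt, 2 ^ k • T = 0 → σ • T = T) ∧
    (2 ^ k • x σ = 0 → Kl c O v x → x σ = 0)

/-! ### The family -/

def RelOfStmt : Prop := ∀ (L : Type) [Field L] [NumberField L] (θ : L), Cub θ →
  ∀ (d : ℤ) (B : Finset ℕ) (α : L), Fam d → Wc d B α → (∀ 𝔭 ∈ D1 L d, bv θ d 𝔭 α = 0) →
    (∀ p ∈ B, p ≠ 2 ∧ p ≠ 11 ∧ ¬ (p : ℤ) ∣ d) → ∃ ξ, Rel d 1 B ξ ∧ Kum θ α ξ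

def GwStmt : Prop := ∀ d : ℤ, Fam d → Gw d ∧ Sj d

def DimStmt : Prop := ∃ C : ℕ, ∀ (d : ℤ) (r : ℕ) (β : Fin r → G → Pt), Fam d →
  (∀ i, Sel d 1 ∅ (β i)) → (∀ a, Cb d (rep β a) → a = 0) →
  r ≤ 2 * d.natAbs.primeFactors.card + C

/-- The choice of a dual basis. -/
def DualStmt : Prop := ∀ (K : ℕ) (d : ℤ) (S : Finset ℕ) (R : ℕ), K ≠ 0 →
  (∀ (r : ℕ) (β : Fin r → G → Pt), (∀ i, Sel d 1 ∅ (β i)) → (∀ a, Cb d (rep β a) → a = 0) → r ≤ R) →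
  (∀ q ∈ S, Kg K q) → (∀ x, Sel d 1 ∅ x → ¬ Cb d x → ∃ q ∈ S, x (ff K q) ≠ 0) →
  ∃ (r : ℕ) (Q : Fin r → ℕ), r ≤ R ∧ (∀ i, Q i ∈ S) ∧
    (∀ x, Sel d 1 ∅ x → (∀ i, x (ff K (Q i)) = 0) → Cb d x) ∧
    ∀ l, ∃ x, Sel d 1 ∅ x ∧ ∀ i, nz (x (ff K (Q i))) = if i = l then 1 else 0

/-! ### Cubes -/

/-- The action and the pairing. -/
def ActStmt : Prop := ∀ (ι : Type) [Fintype ι] [DecidableEq ι],
  (∀ w w' : Finset ι → Pt, pr w w' = pr w' w) ∧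
  (∀ w₁ w₂ w' : Finset ι → Pt, 2 • w₁ = 0 → 2 • w₂ = 0 → 2 • w' = 0 →
    pr (w₁ + w₂) w' = pr w₁ w' + pr w₂ w') ∧
  ∀ ψ : ι → G → ZMod 2,
    (∀ σ w w', act ψ σ (w + w') = act ψ σ w + act ψ σ w') ∧
    (∀ σ w, 2 • w = 0 → 2 • act ψ σ w = 0) ∧
    (∀ σ w (S : Finset ι), (∀ i ∈ S, ψ i σ = 0) → act ψ σ w S = σ • w S) ∧
    (∀ σ w w', 2 • w = 0 → 2 • w' = 0 → pr (act ψ σ w) (act ψ σ w') = pr w w') ∧
    (∀ σ w (a : ι) (S : Finset ι), (∀ i, i ≠ a → ψ i σ = 0) → ψ a σ = 1 →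
      act ψ σ w S = σ • w S + if a ∈ S then σ • w (S.erase a) else 0) ∧
    (Hom ψ → ∀ σ τ w, 2 • w = 0 → act ψ (σ * τ) w = act ψ σ (act ψ τ w))

/-- Inversion on a cube. -/
def MobStmt : Prop := ∀ (ι M : Type) [DecidableEq ι] [AddCommGroup M] (a : ι → ℤ)
  (y : Finset ι → M) (S : Finset ι),
  ∑ t ∈ S.powerset, (-1 : ℤ) ^ t.card • (∏ i ∈ t, (1 - 2 * a i)) • y t =
    ∑ R ∈ S.powerset, ((∏ i ∈ R, (1 - 2 * a i)) * ∏ i ∈ S \ R, 2 * a i) •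
      ∑ t ∈ R.powerset, (-1 : ℤ) ^ t.card • y t

/-- Divisibility of the alternating sums. -/
def DivStmt : Prop := ∀ (K r : ℕ) (Q : Fin r → ℕ) (d : ℤ) (ι : Type) [Fintype ι] [DecidableEq ι]
  (π π' : ι → ℕ), K ≠ 0 → Cu K Q d π π' →
  (∀ i, Ch Q (dd d π) (psi π π' i)) ∧
  (∀ l S, 2 ^ (K - S.card) • df (fun c => xb K Q c l) d π π' S = 0) ∧
  ∀ u, Fintype.card ι < K → Hd K Q (dd d π) (psi π π') u (ph K (xu K Q u) d π π')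

/-- One more direction. -/
def OptStmt : Prop := ∀ (K r : ℕ) (Q : Fin r → ℕ) (d : ℤ) (ι : Type) [Fintype ι] [DecidableEq ι]
  (π π' : ι → ℕ) (p p' : ℕ), Fintype.card ι + 1 < K → T3 p → T3 p' → Sim (md d Q) p p' →
  Cu K Q (d * pst p) π π' → Cu K Q (d * pst p') π π' →
  (∀ l S, 2 ^ (K - 1 - S.card) • (df (fun c => xb K Q c l) (d * pst p) π π' S -
    df (fun c => xb K Q c l) (d * pst p') π π' S) = 0) ∧
  ∀ u, ph K (xu K Q u) (d * pst p) π π' = ph K (xu K Q u) (d * pst p') π π' ∧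
    Gd K Q (dd (d * pst p) π) (psi π π') (ps (pst p * pst p')) (ph K (xu K Q u) (d * pst p) π π')
      (gm K (xu K Q u) (d * pst p) (d * pst p') π π')

/-- The matrices and the singular parts. -/
def BitStmt : Prop := ∀ (K r : ℕ) (Q : Fin r → ℕ) (d : ℤ) (ι : Type) [Fintype ι] [DecidableEq ι]
  (π π' : ι → ℕ) (u : Fin r → ZMod (2 ^ K)) (i : Fin r),
  (Fintype.card ι < K → Cu K Q d π π' →
    2 ^ (K - 1 - Fintype.card ι) • (df (mat K Q) d π π' Finset.univ *ᵥ u) i =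
      2 ^ (K - 1) * ((sb K Q (ph K (xu K Q (bit 0 ∘ u)) d π π') i).val : ZMod (2 ^ K))) ∧
  ∀ p p' : ℕ, Fintype.card ι + 1 < K → T3 p → T3 p' → Sim (md d Q) p p' →
    Cu K Q (d * pst p) π π' → Cu K Q (d * pst p') π π' →
    2 ^ (K - 2 - Fintype.card ι) • ((df (mat K Q) (d * pst p) π π' Finset.univ -
        df (mat K Q) (d * pst p') π π' Finset.univ) *ᵥ u) i =
      2 ^ (K - 1) *
        ((sb K Q (gm K (xu K Q (bit 0 ∘ u)) (d * pst p) (d * pst p') π π') i).val : ZMod (2 ^ K))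

/-- Cocycles for the action on vectors. -/
structure Vc {ι : Type} [Fintype ι] [DecidableEq ι] (ψ : ι → G → ZMod 2)
    (X : G → Finset ι → Pt) : Prop where
  two : ∀ σ, 2 • X σ = 0
  fn : Fn X
  mul : ∀ σ τ, X (σ * τ) = X σ + act ψ σ (X τ)

/-- Vectors of cocycles at inert primes. -/
def N3Stmt : Prop := ∀ (ι : Type) [Fintype ι] [DecidableEq ι] (ψ : ι → G → ZMod 2),
  (∀ (φ : G) w, Cy3 φ → 2 • w = 0 →
    (∀ A : Finset ι, (∀ S ⊆ A, act ψ φ w S = w S) → ∀ S ⊆ A, w S = 0) ∧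
    ∃ w', 2 • w' = 0 ∧ act ψ φ w' - w' = w) ∧
  ∀ (v : ℕ) O X, Hom ψ → (∀ i, Fn (ψ i)) → T3 v → Ov O v → Vc ψ X →
    ∃ w, 2 • w = 0 ∧ ∀ σ, Wl O v σ → X σ = act ψ σ w - w

/-- The cup product of two cubes. -/
def BspStmt : Prop := ∀ (K r : ℕ) (Q : Fin r → ℕ) (d : ℤ) (ι : Type) [Fintype ι] [DecidableEq ι]
  (ψ : ι → G → ZMod 2) u y X Y, K ≠ 0 → Val K Q d → (∀ i, Ch Q d (ψ i)) → Hd K Q d ψ u X →
  Hd K Q d ψ y Y → C2 (bb ψ X Y) ∧ bb ψ X Y cj cj = bb ψ X Y 1 1 ∧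
    (∀ (v : ℕ) O, v.Prime → v ∉ qs Q → Ov O v → Sp O v (bb ψ X Y)) ∧
    (∀ i, iv (ld K (Q i)).O (Q i) (bb ψ X Y) = u i * sb K Q Y i + sb K Q X i * y i) ∧
    ∑ i, (u i * sb K Q Y i + sb K Q X i * y i) = 0

/-- The normalised splitting. -/
def EtaStmt : Prop := ∀ (K r : ℕ) (Q : Fin r → ℕ) (d : ℤ) (ι : Type) [Fintype ι] [DecidableEq ι]
  (ψ : ι → G → ZMod 2) u y X Y (P : ℕ → ValuationSubring ℂ), K ≠ 0 → Val K Q d →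
  (∀ i, Ch Q d (ψ i)) → Hd K Q d ψ u X → Hd K Q d ψ y Y → (∀ v : ℕ, v.Prime → Ov (P v) v) →
  (∀ i, u i * sb K Q Y i + sb K Q X i * y i = 0) → ∃ η, Nz Q d P ψ X Y η

/-- The top term. -/
def TopStmt : Prop := ∀ (K r : ℕ) (Q : Fin r → ℕ) (d : ℤ) (ι : Type) [Fintype ι] [DecidableEq ι]
  (ψ : ι → G → ZMod 2) u y X Y Γ (P : ℕ → ValuationSubring ℂ) η (p p' : ℕ) (f f' : G) w w',
  K ≠ 0 → Val K Q d → (∀ i, Ch Q d (ψ i)) → T3 p → T3 p' → p ≠ p' →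
  Ch Q d (ps (pst p * pst p')) → Hd K Q d ψ u X → Hd K Q d ψ y Y →
  Gd K Q d ψ (ps (pst p * pst p')) X Γ → (∀ v : ℕ, v.Prime → Ov (P v) v) → Nz Q d P ψ X Y η →
  Frob (P p) p f → Frob (P p') p' f' → 2 • w = 0 → 2 • w' = 0 →
  (∀ τ, Wl (P p) p τ → Y τ = act ψ τ w - w) → (∀ τ, Wl (P p') p' τ → Y τ = act ψ τ w' - w') →
  ∑ i, sb K Q Γ i * y i = η f + pr (X f) (act ψ f w) + (η f' + pr (X f') (act ψ f' w'))

/-- The components in `A` take all values on the kernel of the action. -/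
def Su {ι : Type} (ψ : ι → G → ZMod 2) (A : Finset ι) (X Y : G → Finset ι → Pt) : Prop :=
  ∀ w w' : Finset ι → Pt, 2 • w = 0 → 2 • w' = 0 → ∃ g : G, (∀ i, ψ i g = 0) ∧
    (∀ T : Pt, 2 • T = 0 → g • T = T) ∧ ∀ S ⊆ A, X g S = w S ∧ Y g S = w' S

def SurStmt : Prop := ∀ (K r : ℕ) (Q : Fin r → ℕ) (d : ℤ) (ι : Type) [Fintype ι] [DecidableEq ι]
  (ψ : ι → G → ZMod 2) u y X Y (A : Finset ι) (τ : ι → G), K ≠ 0 → Val K Q d → Hom ψ →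
  Hd K Q d ψ u X → Hd K Q d ψ y Y → Ind u y →
  (∀ i ∈ A, (∀ T : Pt, 2 • T = 0 → τ i • T = T) ∧ ∀ j ∈ A, ψ j (τ i) = if j = i then 1 else 0) →
  Su ψ A X Y

/-- The subgroup. -/
def UStmt : Prop := ∀ (ι : Type) [Fintype ι] [DecidableEq ι] (ψ : ι → G → ZMod 2) (a : ι) X Y,
  Hom ψ → Vc ψ X → Vc ψ Y → Su ψ (Finset.univ.erase a) X Y →
  ∃ U : Subgroup G, (∀ σ, σ ∈ U ↔ rs a X σ = 0 ∧ rs a Y σ = 0) ∧ GG.Opn U ∧
    U.index ≤ 16 ^ 2 ^ Fintype.card ι ∧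
    ∀ v : ℕ, T3 v → ∃ (O : ValuationSubring ℂ) (φ : G), Ov O v ∧ Frob O v φ ∧ φ ∈ U

/-- The character. -/
def ThStmt : Prop := ∀ (K r : ℕ) (Q : Fin r → ℕ) (d : ℤ) (ι : Type) [Fintype ι] [DecidableEq ι]
  (ψ : ι → G → ZMod 2) (a : ι) u y X Y (U : Subgroup G) (M l : ℕ), (∀ i, Ch Q d (ψ i)) →
  Hd K Q d ψ u X → Hd K Q d ψ y Y → (∀ σ, σ ∈ U ↔ rs a X σ = 0 ∧ rs a Y σ = 0) →
  (∀ v : ℕ, v.Prime → ¬ v ∣ M → ¬ Bad d v ∧ v ∉ qs Q ∧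
    ∀ O (σ : G) i, Ov O v → Frob O 1 σ → i ≠ a ∨ v ≠ l → ψ i σ = 0) →
  (∀ (v : ℕ) O (σ : G), v.Prime → ¬ v ∣ M → Ov O v → Frob O 1 σ → σ ∈ U) ∧
  ∀ (P : ℕ → ValuationSubring ℂ) η, (∀ v : ℕ, v.Prime → Ov (P v) v) → Nz Q d P ψ X Y η →
    (∀ (p : ℕ) (f : G) w, T3 p → f ∈ U → Frob (P p) p f → 2 • w = 0 →
      Y f = act ψ f w - w → pr (X f) (act ψ f w) = 0) ∧
    (Su ψ (Finset.univ.erase a) X Y → T3 l → ¬ l ∣ M → (∃ σ, Frob (P l) 1 σ ∧ ψ a σ = 1) →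
      (∃ f ∈ U, Frob (P l) l f) → GG.Chr U M l η)

/-- The modulus covers the primes of the cube. -/
def Cov {ι : Type} (M : ℕ) (d : ℤ) {r : ℕ} (Q : Fin r → ℕ) (π π' : ι → ℕ) (a : ι) (A : Set ι) :
    Prop :=
  ∀ v : ℕ, v.Prime → ¬ v ∣ M → v ≠ 2 ∧ v ≠ 11 ∧ ((v : ℤ) ∣ d → nr v = 0) ∧ (∀ i, v ≠ Q i) ∧
    ∀ i ∈ A, v ≠ π i ∧ (i ≠ a → v ≠ π' i)

/-- The leading term on a cube. -/
def CoreStmt : Prop := ∀ (K r : ℕ) (Q : Fin r → ℕ) (d : ℤ) (ι : Type) [Fintype ι] [DecidableEq ι]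
  (π π' : ι → ℕ) (a : ι) (p₀ M : ℕ) (u y : Fin r → ZMod (2 ^ K)),
  Fintype.card ι + 1 < K → T3 p₀ → Cu K Q (d * pst p₀) π π' → (∀ i, i ≠ a → π i ≠ π' i) →
  Ind (bit 0 ∘ u) (bit 0 ∘ y) → Cov M d Q π π' a Set.univ →
  ∃ (U : Subgroup G) (σ : ℕ → G), Op (16 ^ 2 ^ Fintype.card ι) M U ∧
    (∀ p, T3 p → σ p ∈ U ∧ ∃ O, Ov O p ∧ Frob O p (σ p)) ∧
    ∀ l, ¬ l ∣ M → Cu K Q (d * pst p₀) π (Function.update π' a l) →
      (∀ i, 2 ^ (K - 1 - Fintype.card ι) •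
        (y i * (df (mat K Q) (d * pst p₀) π (Function.update π' a l) Finset.univ *ᵥ u) i +
          (y ᵥ* df (mat K Q) (d * pst p₀) π (Function.update π' a l) Finset.univ) i * u i) = 0) →
      ∃ η : G → ZMod 2, GG.Chr U M l η ∧
        ∀ p p', T3 p → T3 p' → Sim (md d Q) p₀ p → Sim (md d Q) p p' →
          Cu K Q (d * pst p) π (Function.update π' a l) →
          Cu K Q (d * pst p') π (Function.update π' a l) →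
          2 ^ (K - 2 - Fintype.card ι) •
              (y ⬝ᵥ (df (mat K Q) (d * pst p) π (Function.update π' a l) Finset.univ -
                df (mat K Q) (d * pst p') π (Function.update π' a l) Finset.univ) *ᵥ u) =
            2 ^ (K - 1) * ((η (σ p) + η (σ p')).val : ZMod (2 ^ K))

/-! ### The final form of the interface -/

/-- The kernel vectors. -/
def Ker2Stmt : Prop := ∀ (K r : ℕ) (Q : Fin r → ℕ) (d : ℤ), 2 ≤ K → Val K Q d →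
  Function.Injective Q ∧ 2 ^ (K - 1) • mat K Q d = 0 ∧
  (¬ Two d (K - 1) → ∃ u u' : Fin r → ZMod (2 ^ K),
    mat K Q d *ᵥ u = 0 ∧ mat K Q d *ᵥ u' = 0 ∧ Ind (bit 0 ∘ u) (bit 0 ∘ u'))

/-- The leading term of the alternating sum, for every modulus that covers the cube. -/
def Cube2Stmt : Prop := ∀ (K r : ℕ) (Q : Fin r → ℕ) (d : ℤ) (n : ℕ) (P : Fin n → Finset ℕ)
  (π π' : Fin n → ℕ) (J : Finset (Fin n)) (a b : Fin n) (u y : Fin r → ZMod (2 ^ K)) (M : ℕ),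
  Cell K Q d P → (∀ i, π i ∈ P i) → (∀ i, π' i ∈ P i) → a ∈ J → b ∈ J → a ≠ b → J.card < K →
  (∀ i ∈ J, i ≠ a → i ≠ b → π i ≠ π' i) → Ind (bit 0 ∘ u) (bit 0 ∘ y) →
  Cov M d Q π π' a (J.erase b) →
  ∃ (U : Subgroup G) (σ : ℕ → G), Op (16 ^ 2 ^ n) M U ∧
    (∀ p ∈ P b, σ p ∈ U ∧ ∃ O, Ov O p ∧ Frob O p (σ p)) ∧
    ∀ l ∈ P a, ¬ l ∣ M →
      (∀ i, 2 ^ (K - J.card) •
        (y i * (df (mat K Q) d π (Function.update π' a l) (J.erase b) *ᵥ u) i +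
          (y ᵥ* df (mat K Q) d π (Function.update π' a l) (J.erase b)) i * u i) = 0) →
      ∃ η : G → ZMod 2, GG.Chr U M l η ∧ ∀ p ∈ P b, ∀ p' ∈ P b,
        2 ^ (K - 1 - J.card) • (y ⬝ᵥ df (mat K Q) d (Function.update π b p)
            (Function.update (Function.update π' a l) b p') J *ᵥ u) =
          2 ^ (K - 1) * ((η (σ p) + η (σ p')).val : ZMod (2 ^ K))

/-- The interface. -/
def I2Stmt : Prop := KgStmt ∧ SimStmt ∧ ValStmt ∧ InvStmt ∧ Ker2Stmt ∧ DvStmt ∧ Cube2Stmt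

end Pool.Agent.Lib.MP_d6ddbd_nt.GA
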